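import Pool.Agent.P.MP_b91a16_ag.Qo.Spec

/-! Quasi-ordinary polynomials: orders and leading coefficients along an arc. -/

set_option linter.unusedSectionVars false

namespace Pool.Agent.P.MP_b91a16_ag.Qo

noncomputable section

namespace ArgP

section Ld

open PowerSeries

variable {K : Type} [Field K] {F G : PowerSeries K} {c d : K} {p q : ℕ}

/-- `F = c X ^ q + …`. -/
def Ld (F : PowerSeries K) (c : K) (q : ℕ) : Prop := X ^ (q + 1) ∣ F - C c * X ^ q

theorem Ld.dvd (h : Ld F c q) : X ^ q ∣ F := by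
  have h1 : X ^ q ∣ F - C c * X ^ q := (pow_dvd_pow _ (Nat.le_succ q)).trans h
  simpa using dvd_add h1 (dvd_mul_left (X ^ q) (C c))

theorem Ld.not_dvd (h : Ld F c q) (hc : c ≠ 0) : ¬ X ^ (q + 1) ∣ F := fun h1 => by
  have h2 : X ^ (q + 1) ∣ (C c * X ^ q : PowerSeries K) := by
    simpa using dvd_sub h1 h
  have h3 := X_pow_dvd_iff.1 h2 q (Nat.lt_succ_self q)
  simp [coeff_C_mul, coeff_X_pow, hc] at h3

theorem Ld.mul (h : Ld F c q) (h' : Ld G d p) : Ld (F * G) (c * d) (q + p) := by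
  obtain ⟨A, hA⟩ := h
  obtain ⟨B, hB⟩ := h'
  refine ⟨A * C d + C c * B + X * A * B, ?_⟩
  rw [eq_add_of_sub_eq hA, eq_add_of_sub_eq hB, map_mul]
  ring

theorem Ld.one : Ld (1 : PowerSeries K) 1 0 := by simp [Ld]

theorem Ld.pow (h : Ld F c q) (n : ℕ) : Ld (F ^ n) (c ^ n) (n * q) := by
  induction n with
  | zero => simpa using Ld.one
  | succ n ih => rw [pow_succ, pow_succ, Nat.succ_mul]; exact ih.mul h

theorem Ld.prod {ι : Type} (s : Finset ι) {F : ι → PowerSeries K} {c : ι → K} {q : ι → ℕ}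
    (h : ∀ i ∈ s, Ld (F i) (c i) (q i)) : Ld (∏ i ∈ s, F i) (∏ i ∈ s, c i) (∑ i ∈ s, q i) := by
  classical
  induction s using Finset.induction_on with
  | empty => simpa using Ld.one
  | insert a s ha ih =>
    rw [Finset.prod_insert ha, Finset.prod_insert ha, Finset.sum_insert ha]
    exact (h a (Finset.mem_insert_self _ _)).mul
      (ih fun i hi => h i (Finset.mem_insert_of_mem hi))

theorem Ld.const (F : PowerSeries K) : Ld F (constantCoeff F) 0 := by
  simp [Ld, X_dvd_iff]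

theorem Ld.sub (h : Ld F c q) (h' : Ld G d q) : Ld (F - G) (c - d) q := by
  have := dvd_sub h h'
  unfold Ld
  convert this using 1
  rw [map_sub]
  ring

theorem Ld.add_left (h : Ld G d q) (h' : X ^ (q + 1) ∣ F) : Ld (F + G) d q := by
  have := dvd_add h' h
  unfold Ld
  convert this using 1
  ring

theorem Ld.zero (h' : X ^ (q + 1) ∣ F) : Ld F 0 q := by simpa [Ld] using h'

end Ld

variable {σ k : Type} [Fintype σ] [DecidableEq σ] [Field k]

theorem mono_eq (μ : σ →₀ ℕ) : (mono μ : R0 σ k) = ∏ j, MvPowerSeries.X j ^ μ j := by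
  simp only [MvPowerSeries.X_pow_eq, MvPowerSeries.prod_monomial, Finset.prod_const_one, mono]
  rw [Finsupp.univ_sum_single]

theorem coeff_mono_mul (μ : σ →₀ ℕ) (Q : R0 σ k) :
    MvPowerSeries.coeff μ (mono μ * Q) = MvPowerSeries.constantCoeff Q := by
  have := MvPowerSeries.coeff_add_monomial_mul μ 0 Q 1
  rw [add_zero, one_mul] at this
  exact this

theorem dot_mono (κ : σ → ℕ) {μ ν : σ →₀ ℕ} (h : μ ≤ ν) : dot κ μ ≤ dot κ ν :=
  Finset.sum_le_sum fun j _ => Nat.mul_le_mul_left _ (h j)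

theorem dot_MM (D : Dat σ k) (s : Finset (R0 σ k)) (κ : σ → ℕ) :
    dot κ (D.MM s) = dot κ D.N + ∑ c ∈ D.Z \ s, D.m c * dot κ (lam (pick s) c) := by
  simp only [dot, Dat.MM, Finsupp.add_apply, Finsupp.finsetSum_apply, Finsupp.smul_apply,
    smul_eq_mul, mul_add, Finset.sum_add_distrib, Finset.mul_sum]
  rw [Finset.sum_comm]
  congr 1
  exact Finset.sum_congr rfl fun c _ => Finset.sum_congr rfl fun j _ => by ring

variable {K : Type} [Field K] [Algebra k K]

theorem bp_MM (D : Dat σ k) (s : Finset (R0 σ k)) (b : σ → K) :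
    Dat.bp b (D.MM s) = Dat.bp b D.N * ∏ c ∈ D.Z \ s, Dat.bp b (lam (pick s) c) ^ D.m c := by
  simp only [Dat.bp, Dat.MM, Finsupp.add_apply, Finsupp.finsetSum_apply, Finsupp.smul_apply,
    smul_eq_mul, pow_add, Finset.prod_mul_distrib, ← Finset.prod_pow_eq_pow_sum,
    ← Finset.prod_pow]
  rw [Finset.prod_comm]
  congr 1
  exact Finset.prod_congr rfl fun c _ => Finset.prod_congr rfl fun j _ => by
    rw [← pow_mul, mul_comm]

theorem bp_ne {b : σ → K} (hb : ∀ j, b j ≠ 0) (μ : σ → ℕ) : Dat.bp b μ ≠ 0 :=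
  Finset.prod_ne_zero_iff.2 fun j _ => pow_ne_zero _ (hb j)

variable (D : Dat σ k) {M : ℕ} {κ : σ → ℕ} {b : σ → K} {θ : σ → PowerSeries K}

theorem yy_dvd (j : σ) : PowerSeries.X ^ κ j ∣ D.yy M κ b θ j := by
  unfold Dat.yy
  split_ifs
  · exact Dvd.dvd.mul_right (dvd_mul_left _ _) _
  · exact dvd_zero _

theorem yy_ld (hθ : ∀ j, PowerSeries.constantCoeff (θ j) = 1) {j : σ} (hj : κ j ≤ M) :
    Ld (D.yy M κ b θ j) (b j) (κ j) := by
  unfold Dat.yy
  rw [if_pos hj]
  have h1 : Ld (PowerSeries.C (b j) * PowerSeries.X ^ κ j) (b j) (κ j) := by simp [Ld]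
  have h2 := Ld.const (PowerSeries.expand D.n D.hn (θ j))
  rw [PowerSeries.constantCoeff_expand, hθ] at h2
  simpa using h1.mul h2

variable {φ : R0 σ k →ₐ[k] PowerSeries K}

theorem mono_dvd (hφ : ∀ j, φ (MvPowerSeries.X j) = D.yy M κ b θ j) (μ : σ →₀ ℕ) :
    PowerSeries.X ^ dot κ μ ∣ φ (mono μ) := by
  rw [mono_eq, map_prod, dot, ← Finset.prod_pow_eq_pow_sum]
  refine Finset.prod_dvd_prod_of_dvd _ _ fun j _ => ?_
  rw [map_pow, hφ, pow_mul]
  exact pow_dvd_pow_of_dvd (yy_dvd D j) _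

theorem mono_ld (hθ : ∀ j, PowerSeries.constantCoeff (θ j) = 1)
    (hφ : ∀ j, φ (MvPowerSeries.X j) = D.yy M κ b θ j) {μ : σ →₀ ℕ} (hμ : dot κ μ ≤ M) :
    Ld (φ (mono μ)) (Dat.bp b μ) (dot κ μ) := by
  rw [mono_eq, map_prod]
  refine Ld.prod _ fun j _ => ?_
  rw [map_pow, hφ]
  rcases Nat.eq_zero_or_pos (μ j) with h | h
  · rw [h]
    simpa using Ld.one
  · have h1 : κ j * μ j ≤ dot κ μ :=
      Finset.single_le_sum (f := fun j => κ j * μ j) (fun _ _ => Nat.zero_le _) (Finset.mem_univ j)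
    have h2 : κ j ≤ κ j * μ j := Nat.le_mul_of_pos_right _ h
    rw [mul_comm]
    exact (yy_ld D hθ (by omega)).pow _

theorem aeval_eq (hφ : ∀ j, φ (MvPowerSeries.X j) = D.yy M κ b θ j) (w : PowerSeries K) :
    MvPolynomial.aeval (fun o : Option σ => o.elim w fun j => D.yy M κ b θ j ^ D.n) D.f =
      φ (mono D.N) * Polynomial.eval₂ (φ : R0 σ k →+* PowerSeries K) w D.e *
        ∏ a ∈ D.Z, (w - φ a) ^ D.m a := by
  let ψ : Polynomial (R0 σ k) →ₐ[k] PowerSeries K :=
    Polynomial.eval₂AlgHom φ w fun a => Commute.all _ _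
  have hψ : ∀ P, ψ P = Polynomial.eval₂ (φ : R0 σ k →+* PowerSeries K) w P := fun _ => rfl
  have h1 : MvPolynomial.aeval (fun o : Option σ => o.elim w fun j => D.yy M κ b θ j ^ D.n) =
      ψ.comp (io D.n 0) := by
    refine MvPolynomial.algHom_ext fun o => ?_
    cases o with
    | none => simp [io, hψ]
    | some j => simp [io, hψ, hφ, Polynomial.eval₂_pow]
  rw [h1, AlgHom.comp_apply, D.hf, map_mul, map_mul, map_prod, hψ, hψ, Polynomial.eval₂_C]
  congr 1
  refine Finset.prod_congr rfl fun a _ => ?_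
  rw [map_pow, map_sub, hψ, hψ, Polynomial.eval₂_X, Polynomial.eval₂_C]
  rfl

end ArgP

open ArgP in
theorem p_Arg (_h : S_CA) (hB : S_CB) (hE : S_EV) : S_Arg := by
  intro σ k _ _ _ _ _ D K _ _ M s κ r b θ w u hs ⟨p1, p2, p3, p4⟩ hb hθ hw hpsi
  have cb : CB D := hB _ _ D
  have ev : EV D K := hE _ _ D K
  have cen : St.Cen (D.yy M κ b θ) := fun j =>
    (dvd_pow_self _ (by have := (p1 j).1; omega)).trans (yy_dvd D j)
  obtain ⟨φ, hφ, hX⟩ := ev.hom _ cen
  have hc : ∀ a, PowerSeries.constantCoeff (φ a) =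
      algebraMap k K (MvPowerSeries.constantCoeff a) := fun a => by rw [hφ, ev.const _ cen]
  have hdeg := cb.deg_pos s hs
  have hrM : r ≤ M := by
    have := Nat.le_mul_of_pos_left r hdeg
    omega
  simp only [← hφ] at hw ⊢
  have l0 : Ld (w - φ (ctr s)) u r := hw
  let val : R0 σ k → K := fun a => if 2 ≤ s.card ∧ r = dot κ (hi s) then
    u - algebraMap k K (dir s a) * Dat.bp b (hi s) else u
  have e1 : D.psi s κ r b u = ∏ a ∈ s, val a ^ D.m a := by
    unfold Dat.psi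
    by_cases hh : 2 ≤ s.card ∧ r = dot κ (hi s)
    · simp only [val, if_pos hh]
    · simp only [val, if_neg hh]
      rw [Finset.prod_pow_eq_pow_sum]
      rfl
  have l1 : ∀ a ∈ s, Ld (w - φ a) (val a) r := fun a ha => by
    have e2 : w - φ a = (w - φ (ctr s)) - φ (a - ctr s) := by rw [map_sub]; ring
    by_cases h2 : 2 ≤ s.card
    · obtain ⟨Q, hQ⟩ := cb.dvd_ctr s hs a ha
      by_cases hr : r = dot κ (hi s)
      · have l2 := (mono_ld D hθ hX (μ := hi s) (hr ▸ hrM)).mul (Ld.const (φ Q))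
        rw [← map_mul, ← hQ, add_zero, ← hr, hc, ← coeff_mono_mul (hi s) Q, ← hQ, mul_comm] at l2
        simp only [val, if_pos (And.intro h2 hr)]
        rw [e2]
        exact l0.sub l2
      · have l2 : Ld (φ (a - ctr s)) 0 r := Ld.zero (by
          rw [hQ, map_mul]
          exact Dvd.dvd.mul_right ((pow_dvd_pow _ (by have := p3 h2; omega)).trans
            (mono_dvd D hX (hi s))) _)
        simp only [val, if_neg fun hh : 2 ≤ s.card ∧ r = dot κ (hi s) => hr hh.2]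
        rw [e2]
        simpa using l0.sub l2
    · have e3 : s = {a} := Finset.eq_singleton_iff_unique_mem.2
        ⟨ha, fun x hx => Finset.card_le_one.1 (by omega) x hx a ha⟩
      simp only [val, if_neg fun hh : 2 ≤ s.card ∧ r = dot κ (hi s) => h2 hh.1]
      rwa [e3, cb.ctr_one] at l0
  have l2 : ∀ c ∈ D.Z, c ∉ s → dot κ (lam (pick s) c) < r ∧
      MvPowerSeries.coeff (lam (pick s) c) (pick s - c) ≠ 0 ∧
      Ld (w - φ c) (Dat.bp b (lam (pick s) c) *
        algebraMap k K (MvPowerSeries.coeff (lam (pick s) c) (pick s - c)))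
        (dot κ (lam (pick s) c)) := fun c hcZ hcs => by
    have h1 := dot_mono κ (cb.le_lo s c hcZ hcs)
    obtain ⟨U, hU, hU1, hU2⟩ := cb.ctr_out s hs c hcZ hcs
    refine ⟨by omega, hU1 ▸ (MvPowerSeries.isUnit_constantCoeff U hU2).ne_zero, ?_⟩
    have l3 := (mono_ld D hθ hX (μ := lam (pick s) c) (by omega)).mul (Ld.const (φ U))
    rw [← map_mul, ← hU, add_zero, hc, hU1] at l3
    have e2 : w - φ c = (w - φ (ctr s)) + φ (ctr s - c) := by rw [map_sub]; ring
    rw [e2]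
    exact l3.add_left ((pow_dvd_pow _ (by omega)).trans l0.dvd)
  refine ⟨fun a ha => ⟨(l1 a ha).dvd, (l1 a ha).not_dvd fun hv => hpsi ?_⟩,
    fun c hcZ hcs hd => ?_, ?_⟩
  · rw [e1]
    exact Finset.prod_eq_zero ha (by rw [hv, zero_pow (D.hm a (hs.2.1 ha)).ne'])
  · obtain ⟨a1, a2, a3⟩ := l2 c hcZ hcs
    exact a3.not_dvd (mul_ne_zero (bp_ne hb _) ((map_ne_zero _).2 a2))
      ((pow_dvd_pow _ a1).trans hd)
  · have w0 : PowerSeries.constantCoeff w = 0 := by
      have h1 := PowerSeries.X_dvd_iff.1 ((dvd_pow_self _ (by omega)).trans l0.dvd)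
      rwa [map_sub, hc, cb.ctr_zero s hs, map_zero, sub_zero] at h1
    have l3 := Ld.const (Polynomial.eval₂ (φ : R0 σ k →+* PowerSeries K) w D.e)
    rw [Polynomial.hom_eval₂, w0, Polynomial.eval₂_at_zero, RingHom.comp_apply,
      RingHom.coe_coe, hc] at l3
    have eM := dot_MM D s κ
    have l4 := mono_ld D hθ hX (μ := D.N) (by omega)
    have l5 := Ld.prod (D.Z \ s) fun c hc' =>
      (l2 c (Finset.mem_sdiff.1 hc').1 (Finset.mem_sdiff.1 hc').2).2.2.pow (D.m c)
    have l6 := Ld.prod s fun a ha => (l1 a ha).pow (D.m a)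
    have l7 := (l4.mul l3).mul (l5.mul l6)
    rw [Finset.prod_sdiff hs.2.1, ← aeval_eq D hX w, ← e1, ← Finset.sum_mul, add_zero, ← add_assoc,
      ← eM] at l7
    refine (show Ld _ _ _ from ?_)
    convert l7 using 1
    · simp only [bp_MM, Dat.cc, map_mul, map_prod, map_pow, mul_pow, Finset.prod_mul_distrib]
      ring
    · rfl

end

end Pool.Agent.P.MP_b91a16_ag.Qo
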