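import Pool.Agent.P.MP_b91a16_ag.Qo.Spec

/-! Quasi-ordinary polynomials: allowed rays and the corrected edge series. -/

set_option linter.unusedSectionVars false

open Polynomial

namespace Pool.Agent.P.MP_b91a16_ag.Qo

noncomputable section

variable {σ k : Type} [Fintype σ] [DecidableEq σ] [Field k]

section

variable {F F' : PowerSeries (Mot k)} {Φ Φ' : PowerSeries (PowerSeries ℤ)}

theorem Lift.add (h : Lift F Φ) (h' : Lift F' Φ') : Lift (F + F') (Φ + Φ') := by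
  obtain ⟨G, h⟩ := h
  obtain ⟨G', h'⟩ := h'
  exact ⟨G + G', fun m => by simp [h m, h' m]⟩

theorem Lift.smul (h : Lift F Φ) (q : ℤ[X]) :
    Lift (aeval (Linv k) q • F) (PowerSeries.C (q : PowerSeries ℤ) * Φ) := by
  obtain ⟨G, h⟩ := h
  exact ⟨fun m => q * G m, fun m => by simp [h m]⟩

theorem Lift.congr (h : Lift F Φ) (e : F = F') (e' : Φ = Φ') : Lift F' Φ' := e ▸ e' ▸ h

theorem LL_mul : LL k * Linv k = 1 := L_mul_Linv

theorem good_cancel {Al : ℕ → ℕ → Prop} {a : ℕ} (h : Linv k ^ a • F ∈ good k Al) :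
    F ∈ good k Al := by
  have := (good k Al).smul_mem h (LL k ^ a)
  rwa [smul_smul, ← mul_pow, LL_mul, one_pow, one_smul] at this

theorem exists_finset {Al : ℕ → ℕ → Prop} (h : F ∈ good k Al) :
    ∃ S : Finset (ℕ × ℕ), F ∈ poleRing k S ∧ ∀ p ∈ S, Al p.1 p.2 := by
  induction h using Algebra.adjoin_induction with
  | mem F h =>
    rcases h with rfl | ⟨a, b, h, e⟩
    · exact ⟨∅, X_mem_poleRing _, by simp⟩
    · exact ⟨{(a, b)}, Algebra.subset_adjoin (Or.inr ⟨(a, b), by simp, e⟩), by simpa using h⟩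
  | algebraMap c => exact ⟨∅, Subalgebra.algebraMap_mem _ _, by simp⟩
  | add F G _ _ h h' =>
    obtain ⟨S, h1, h2⟩ := h
    obtain ⟨S', h1', h2'⟩ := h'
    exact ⟨S ∪ S', add_mem (poleRing_mono Finset.subset_union_left h1)
      (poleRing_mono Finset.subset_union_right h1'), fun p hp =>
        (Finset.mem_union.1 hp).elim (h2 p) (h2' p)⟩
  | mul F G _ _ h h' =>
    obtain ⟨S, h1, h2⟩ := h
    obtain ⟨S', h1', h2'⟩ := h'
    exact ⟨S ∪ S', mul_mem (poleRing_mono Finset.subset_union_left h1)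
      (poleRing_mono Finset.subset_union_right h1'), fun p hp =>
        (Finset.mem_union.1 hp).elim (h2 p) (h2' p)⟩

end

theorem dot_update (κ μ : σ → ℕ) (i : σ) :
    dot κ μ = dot κ (Function.update μ i 0) + κ i * μ i := by
  rw [dot, dot, ← Finset.sum_erase_add _ _ (Finset.mem_univ i),
    ← Finset.sum_erase_add _ _ (Finset.mem_univ i), Function.update_self, mul_zero, add_zero]
  congr 1
  exact Finset.sum_congr rfl fun j hj => by rw [Function.update_of_ne (Finset.ne_of_mem_erase hj)]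

theorem cast_dot (κ μ : σ → ℕ) : ((dot κ μ : ℕ) : ℤ) = ∑ j, (κ j : ℤ) * zc μ j := by
  simp [dot, zc]

theorem mem_res {Λ : AddSubgroup (σ → ℤ)} {J : Finset σ} {μ : σ → ℤ} :
    μ ∈ res Λ J ↔ μ ∈ Λ ∧ ∀ j, j ∉ J → μ j = 0 := by
  simp [res, AddSubgroup.mem_pi]

namespace Dat

variable (D : Dat σ k)

def Al (a b : ℕ) : Prop := 0 < a ∧ 0 < b ∧ D.Rt ((a : k) / b)

def SB (s : Finset (R0 σ k)) : Prop := ∃! i, D.Bad s i

open Classical in
def hh (s : Finset (R0 σ k)) : σ → ℕ :=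
  if h : D.SB s then Function.update (hi s) h.exists.choose 0 else hi s

def RH (s : Finset (R0 σ k)) : Set (Pt σ) :=
  regE D.n (D.Adm s) (D.lo s) (2 ≤ s.card) (D.hh s) (D.SB s) (D.MM s) (D.deg s)

def cf (s : Finset (R0 σ k)) : Mot k := (LL k - 1) ^ ((D.IE s).card - (D.IV s).card - 1)

open Classical in
def HE (s : Finset (R0 σ k)) : PowerSeries (Mot k) := FF k D.n (D.RE s) (D.IE s) -
  if D.SB s then D.cf s • FF k D.n (D.RV s) (D.IV s) else 0

def AE (s : Finset (R0 σ k)) : PowerSeries (Mot k) := D.wE s • D.HE s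

open Classical in
def AV (s : Finset (R0 σ k)) : PowerSeries (Mot k) :=
  (if 2 ≤ s.card then
    D.wV s • FF k D.n (D.RV s) (D.IV s) + D.wW s • FF k D.n (D.RW s) (D.IV s) else 0) +
  if D.SB s then (D.wE s * D.cf s) • FF k D.n (D.RV s) (D.IV s) else 0

variable {D} {s : Finset (R0 σ k)} {i j : σ}

theorem per (s : Finset (R0 σ k)) : Per D.n (D.Adm s) := fun κ j =>
  forall₂_congr fun μ _ => by
    have : ∑ l, ((κ + (Pi.single j D.n : σ → ℕ)) l : ℤ) * μ l =
        ∑ l, (κ l : ℤ) * μ l + D.n * μ j := by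
      simp [add_mul, Finset.sum_add_distrib, Pi.single_apply]
    rw [this, dvd_add_left (Dvd.intro _ rfl)]

theorem single_mem (s : Finset (R0 σ k)) (j : σ) : Pi.single j (D.n : ℤ) ∈ D.Lam s := fun g _ => by
  simp [Pi.single_apply]

theorem dvd_of_MM (hC : CC D) (hs : D.IsCl s) (hj : D.MM s j = 0) {μ : σ → ℤ} (hμ : μ ∈ D.Lam s) :
    (D.n : ℤ) ∣ μ j := by
  simpa [Pi.single_apply] using hμ _ (hC.stab s hs j hj)

theorem indep (hC : CC D) (hs : D.IsCl s) {I : Finset σ} (hI : ∀ j ∈ I, D.MM s j = 0) :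
    Indep (D.Adm s) I := fun κ κ' e h μ hμ => by
  have h1 : (D.n : ℤ) ∣ ∑ j, ((κ' j : ℤ) - κ j) * μ j := Finset.dvd_sum fun j _ => by
    by_cases hj : j ∈ I
    · exact (dvd_of_MM hC hs (hI j hj) hμ).mul_left _
    · simp [e j hj]
  simpa [sub_mul] using dvd_add h1 (h μ hμ)

theorem BadD.hi_pos {p m₀ e : ℕ} {c₁ c : k} (h : D.BadD s i p m₀ e c₁ c) : 0 < hi s i :=
  Nat.pos_of_ne_zero fun e => D.hn (by rw [← h.2.1, e, mul_zero])

theorem BadD.p_pos {p m₀ e : ℕ} {c₁ c : k} (h : D.BadD s i p m₀ e c₁ c) : 0 < p :=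
  Nat.pos_of_ne_zero fun e => D.hn (by rw [← h.2.1, e, zero_mul])

theorem two_le_of_hi (hs : D.IsCl s) (hB : CB D) (h : 0 < hi s i) : 2 ≤ s.card := by
  by_contra h1
  have h2 : ¬(s.erase (pick s)).Nonempty := by
    rw [← Finset.card_pos, Finset.card_erase_of_mem (hB.pick_mem s hs)]
    omega
  simp [hi, h2] at h

theorem BadD.dvd {p m₀ e : ℕ} {c₁ c : k} (h : D.BadD s i p m₀ e c₁ c) {κ : σ → ℕ}
    (hκ : D.Adm s κ) : D.n ∣ p * dot κ (Function.update (hi s) i 0) := by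
  have h1 : (D.n : ℤ) ∣ (p * dot κ (hi s) : ℕ) := by
    have := hκ _ h.2.2.1
    rw [Nat.cast_mul, cast_dot, Finset.mul_sum]
    simpa [mul_left_comm] using this
  rw [Int.natCast_dvd_natCast, dot_update κ _ i, mul_add, mul_left_comm, h.2.1] at h1
  exact (Nat.dvd_add_left (Dvd.intro_left _ rfl)).1 h1

theorem hh_of_bad (h : D.SB s) (hi' : D.Bad s i) : D.hh s = Function.update (hi s) i 0 := by
  rw [hh, dif_pos h, h.unique h.exists.choose_spec hi']

theorem hh_of_not (h : ¬D.SB s) : D.hh s = hi s := dif_neg h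

theorem sb_act (hI : CI D) (hs : D.IsCl s) (g : σ → ℕ) (i : σ) :
    D.Bad (D.acts g s) i ↔ D.Bad s i := by
  obtain ⟨g', h⟩ := hI.acts_inv g
  exact ⟨fun hb => h s ▸ hI.bad g' _ i (hI.cl g s hs) hb, hI.bad g s i hs⟩

theorem SB_act (hI : CI D) (hs : D.IsCl s) (g : σ → ℕ) : D.SB (D.acts g s) ↔ D.SB s :=
  existsUnique_congr (sb_act hI hs g)

theorem AE_act (hI : CI D) (hs : D.IsCl s) (g : σ → ℕ) : D.AE (D.acts g s) = D.AE s := by
  have h1 : D.Adm (D.acts g s) = D.Adm s := by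
    funext κ
    simp only [Adm, hI.Lam]
  simp only [AE, HE, wE, RE, RV, IE, IV, cf, h1, hI.Lam, hI.deg g s hs, hI.MM g s hs, hI.hi g s hs,
    hI.lo g s hs, hI.card]
  by_cases h : D.SB s
  · rw [if_pos h, if_pos ((SB_act hI hs g).2 h)]
  · rw [if_neg h, if_neg (mt (SB_act hI hs g).1 h)]

section Rays

variable (hB : CB D) (hC : CC D) (hZ : BadZ D) (hA : RootA D) (h2 : RootB D) (h3 : RootC D)
include hB hC hZ hA h2 h3

theorem ok_of_rt {a b : ℕ} (ha : 0 < a) (h : 0 < b → D.Rt ((a : k) / b)) : Ok D.Al a b :=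
  (Nat.eq_zero_or_pos b).imp_right fun hb => ⟨ha, hb, h hb⟩

/-- The lower rays of an edge are the rays of the parent. -/
theorem par_ray (hs : D.IsCl s) (ht : s ≠ D.Z) : D.lo s = hi (D.par s) ∧
    ∀ j, D.MM s j + D.deg s * D.lo s j = D.MM (D.par s) j + D.deg (D.par s) * hi (D.par s) j := by
  obtain ⟨h4, h5, h6, h7⟩ := hC.par_cl s hs ht
  obtain ⟨a, ha⟩ := hs.1
  obtain ⟨-, -, -, h8, h9, h10, -⟩ := hC.ch_cl _ h4 h5 a (h6.1 ha)
  rw [h7 a ha] at h8 h9 h10
  refine ⟨h8, fun j => ?_⟩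
  obtain ⟨q, hq⟩ := Nat.exists_eq_add_of_le h9
  rw [h10, h8, hq]
  simp only [Finsupp.coe_add, Pi.add_apply, Finsupp.coe_smul, Pi.smul_apply, smul_eq_mul,
    add_tsub_cancel_left]
  ring

theorem okV (hs : D.IsCl s) (hc : 2 ≤ s.card) (hj : ¬(D.SB s ∧ D.Bad s j)) :
    Ok D.Al (D.n + hi s j) (D.MM s j + D.deg s * hi s j) := by
  have hn := Nat.pos_of_ne_zero D.hn
  induction hN : D.Z.card - s.card using Nat.strong_induction_on generalizing s with
  | _ N ih =>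
  by_cases hb : D.Bad s j
  · obtain ⟨i, h4, h5⟩ : ∃ i, D.Bad s i ∧ i ≠ j := by
      by_contra h
      push Not at h
      exact hj ⟨⟨j, hb, h⟩, hb⟩
    exact ok_of_rt hB hC hZ hA h2 h3 (by omega) fun _ => h3 s j i hs hc h5.symm hb h4
  rcases ((hB.lo_lt s hs hc).le j).lt_or_eq with h4 | h4
  · exact ok_of_rt hB hC hZ hA h2 h3 (by omega) fun _ => h2 s j hs hc h4 hb
  by_cases ht : s = D.Z
  · subst ht
    rw [← h4, hB.top.2.1, hB.top.2.2]
    exact ok_of_rt hB hC hZ hA h2 h3 (by simpa using hn) fun h => by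
      simpa using hA.2 j (by simpa using h.ne')
  obtain ⟨h5, h6, h7, h8⟩ := hC.par_cl s hs ht
  obtain ⟨h9, h10⟩ := par_ray hB hC hZ hA h2 h3 hs ht
  rw [← h4, h10 j, h9]
  refine ih _ ?_ h5 h6 ?_ rfl
  · have := Finset.card_lt_card h7
    have := Finset.card_le_card h5.2.1
    omega
  · rintro ⟨-, p, m₀, e, c₁, c, h⟩
    obtain ⟨a, ha⟩ := hs.1
    have := (hZ _ _ _ _ _ _ _ h5 h6 h).2.1 a (h7.1 ha)
    rw [h8 a ha, ← h9, h4] at this
    exact lt_irrefl _ (this hc)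

theorem lo_le_hh (hs : D.IsCl s) (hc : 2 ≤ s.card) : ⇑(D.lo s) ≤ D.hh s := fun j => by
  by_cases h : D.SB s
  · obtain ⟨i, hi', -⟩ := id h
    rw [hh_of_bad h hi']
    by_cases hj : j = i
    · obtain ⟨p, m₀, e, c₁, c, h'⟩ := hi'
      rw [hj, hB.lo_supp s hs i h'.1]
      exact Nat.zero_le _
    · rw [Function.update_of_ne hj]
      exact (hB.lo_lt s hs hc).le j
  · rw [hh_of_not h]
    exact (hB.lo_lt s hs hc).le j

theorem okU (hs : D.IsCl s) (hc : 2 ≤ s.card) (j : σ) :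
    Ok D.Al (D.n + D.hh s j) (D.MM s j + D.deg s * D.hh s j) := by
  by_cases h : D.SB s
  · obtain ⟨i, hi', -⟩ := id h
    rw [hh_of_bad h hi']
    by_cases hj : j = i
    · obtain ⟨p, m₀, e, c₁, c, h'⟩ := hi'
      exact Or.inl (by simp [hj, h'.1])
    · rw [Function.update_of_ne hj]
      exact okV hB hC hZ hA h2 h3 hs hc fun h' => hj (h.unique h'.2 hi')
  · rw [hh_of_not h]
    exact okV hB hC hZ hA h2 h3 hs hc fun h' => h h'.1

theorem okS (hs : D.IsCl s) (hc : ¬2 ≤ s.card) : Ok D.Al 1 (D.deg s) := by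
  obtain ⟨a, rfl⟩ := Finset.card_eq_one.1
    (show s.card = 1 by have := Finset.card_pos.2 hs.1; omega)
  refine ok_of_rt hB hC hZ hA h2 h3 one_pos fun _ => ?_
  simpa [deg] using hA.1 a (hs.2.1 (Finset.mem_singleton_self a))

theorem okL (hs : D.IsCl s) (h : ¬(s ≠ D.Z ∧ D.SB (D.par s))) (j : σ) :
    Ok D.Al (D.n + D.lo s j) (D.MM s j + D.deg s * D.lo s j) := by
  by_cases ht : s = D.Z
  · subst ht
    rw [hB.top.2.1, hB.top.2.2]
    exact ok_of_rt hB hC hZ hA h2 h3 (by simpa using Nat.pos_of_ne_zero D.hn) fun h => by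
      simpa using hA.2 j (by simpa using h.ne')
  obtain ⟨h5, h6, -⟩ := hC.par_cl s hs ht
  obtain ⟨h9, h10⟩ := par_ray hB hC hZ hA h2 h3 hs ht
  rw [h10 j, h9]
  exact okV hB hC hZ hA h2 h3 h5 h6 fun h' => h ⟨ht, h'.1⟩

end Rays

section Lifts

variable (hB : CB D) (hC : CC D) (h1 : S_Trunc) (h2 : S_TrOk)
include hB hC h1 h2

theorem liftV (hs : D.IsCl s) :
    Lift (Linv k ^ (D.IV s).card • FF k D.n (D.RV s) (D.IV s))
      (PowerSeries.C ((1 - PowerSeries.X) ^ (D.IV s).card) * GF (D.RV s)) ∧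
    Lift (Linv k ^ (D.IV s).card • FF k D.n (D.RW s) (D.IV s))
      (PowerSeries.C ((1 - PowerSeries.X) ^ (D.IV s).card) * GF (D.RW s)) := by
  have h3 := (h2 σ D.n (D.Adm s) 0 True (hi s) (D.MM s) (D.deg s) (D.IV s) D.hn (hB.deg_pos s hs)
    (indep hC hs fun j hj => (Finset.mem_filter.1 hj).2.1)).2 (by simp [IV])
  exact ⟨h1 σ k _ _ _ h3.1, h1 σ k _ _ _ h3.2⟩

theorem card_IE {p m₀ e : ℕ} {c₁ c : k} (h : D.BadD s i p m₀ e c₁ c) :
    (((D.IV s)ᶜ.erase i) \ (D.IE s)ᶜ).card + (D.IV s).card + 1 = (D.IE s).card := by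
  have h3 : i ∉ D.IV s := by simp [IV, h.hi_pos.ne']
  have h4 : D.IE s = (((D.IV s)ᶜ.erase i) \ (D.IE s)ᶜ) ∪ insert i (D.IV s) := by
    ext j
    by_cases hj : j = i
    · simp [hj, IE, h.1]
    · simp only [IE, IV, hj, Finset.mem_filter, Finset.mem_univ, true_and, Finset.mem_union,
        Finset.mem_sdiff, Finset.mem_erase, ne_eq, not_false_eq_true, Finset.mem_compl, not_not,
        Finset.mem_insert, false_or]
      tauto
  conv_rhs => rw [h4]
  rw [Finset.card_union_of_disjoint, Finset.card_insert_of_notMem h3, add_assoc]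
  rw [Finset.disjoint_left]
  intro j hj hj'
  simp only [Finset.mem_sdiff, Finset.mem_erase, Finset.mem_compl, Finset.mem_insert] at hj hj'
  tauto

theorem liftE (h3 : S_Hat) (hs : D.IsCl s) : Lift (Linv k ^ (D.IE s).card • D.HE s)
    (PowerSeries.C ((1 - PowerSeries.X) ^ (D.IE s).card) * GF (D.RH s)) := by
  have h4 := h1 σ k _ _ _ ((h2 σ D.n (D.Adm s) (D.lo s) (2 ≤ s.card) (hi s) (D.MM s) (D.deg s)
    (D.IE s) D.hn (hB.deg_pos s hs) (indep hC hs fun j hj => (Finset.mem_filter.1 hj).2)).1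
    (by simp [IE]) (hB.lo_supp s hs))
  by_cases h : D.SB s
  · obtain ⟨i, hi', -⟩ := id h
    obtain ⟨p, m₀, e, c₁, c, h'⟩ := id hi'
    have hc := two_le_of_hi hs hB h'.hi_pos
    have h5 := h3 σ D.n (D.Adm s) (D.lo s) (2 ≤ s.card) (hi s) (D.MM s) (D.deg s) p i D.hn hc h'.2.1
      (hB.lo_lt s hs hc).le (hB.lo_supp s hs i h'.1) h'.1
      (indep hC hs (by simpa using h'.1)) fun κ => h'.dvd
    have h6 := card_IE hB hC h1 h2 h'
    set a := (((D.IV s)ᶜ.erase i) \ (D.IE s)ᶜ).card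
    have h7 : D.cf s = (LL k - 1) ^ a := by rw [cf, ← h6]; congr 1; omega
    refine (h4.add ((liftV hB hC h1 h2 hs).1.smul (-(X * (1 - X) ^ a)))).congr ?_ ?_
    · rw [HE, if_pos h, smul_sub, smul_smul, smul_smul, sub_eq_add_neg (_ • _), ← neg_smul, h7,
        ← h6]
      congr 2
      have h8 : (1 - Linv k) ^ a = Linv k ^ a * (LL k - 1) ^ a := by
        rw [← mul_pow, mul_sub, mul_comm, LL_mul, mul_one]
      simp only [map_neg, map_mul, aeval_X, map_pow, map_sub, map_one, h8]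
      ring
    · rw [RH, hh_of_bad h hi', eq_true h, ← h6, RV]
      push_cast
      simp only [map_neg, map_mul, map_pow] at h5 ⊢
      linear_combination PowerSeries.C (1 - PowerSeries.X) ^ (a + (D.IV s).card) * h5
  · refine h4.congr ?_ ?_
    · rw [HE, if_neg h, sub_zero, RE]
    · rw [RH, hh_of_not h, eq_false h]

end Lifts

end Dat

end

end Pool.Agent.P.MP_b91a16_ag.Qo
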