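import Pool.Agent.P.MP_b91a16_ag.Qo.AsmA

/-! Quasi-ordinary polynomials: the zeta function has only allowed poles. -/

set_option linter.unusedSectionVars false

open Polynomial

namespace Pool.Agent.P.MP_b91a16_ag.Qo

noncomputable section

variable {σ k : Type} [Fintype σ] [DecidableEq σ] [Field k] [IsAlgClosed k]

theorem C_mem_hat (Al : ℕ → ℕ → Prop) (a : PowerSeries ℤ) : PowerSeries.C a ∈ hat Al :=
  Subring.subset_closure (Or.inl (Or.inl ⟨a, rfl⟩))

theorem FF_empty (n : ℕ) (I : Finset σ) : FF k n (∅ : Set (Pt σ)) I = 0 := by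
  ext m
  simp [FF, trP]

/-- The statements that do not involve the data. -/
structure Gen : Prop where
  prod : S_Prod
  wbad : S_WBad
  tr : S_Tr
  trunc : S_Trunc
  regE : S_RegE
  regV : S_RegV
  hat : S_Hat
  dead : S_Dead
  trok : S_TrOk
  mrg : S_Mrg
  regC : S_RegC

namespace Dat

variable {D : Dat σ k} {s : Finset (R0 σ k)} {i : σ} (H : Gen) (hB : CB D) (hI : CI D) (hC : CC D)
  (hZ : BadZ D) (hA : RootA D) (h2 : RootB D) (h3 : RootC D)

include H in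
theorem good_of {F : PowerSeries (Mot k)} {Φ : PowerSeries (PowerSeries ℤ)} {a : ℕ}
    {q : PowerSeries ℤ} (h : Lift (Linv k ^ a • F) (PowerSeries.C q * Φ)) (h' : Φ ∈ hat D.Al) :
    F ∈ good k D.Al :=
  good_cancel (H.tr k _ _ _ (fun _ _ h => h.2.1) h (mul_mem (C_mem_hat _ _) h'))

include H hB hC hZ hA h2 h3

theorem AE_mem (hs : D.IsCl s) (h : ¬(s ≠ D.Z ∧ D.SB (D.par s))) : D.AE s ∈ good k D.Al :=
  Subalgebra.smul_mem _ (good_of H (liftE hB hC H.trunc H.trok H.hat hs)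
    (H.regE σ _ _ _ _ _ _ _ _ _ D.hn (per s) (lo_le_hh hB hC hZ hA h2 h3 hs)
      (okL hB hC hZ hA h2 h3 hs h) (okU hB hC hZ hA h2 h3 hs) (okS hB hC hZ hA h2 h3 hs))) _

theorem AV_mem (hs : D.IsCl s) (h : ¬D.SB s) : D.AV s ∈ good k D.Al := by
  rw [AV, if_neg h, add_zero]
  split_ifs with hc
  · have h4 := H.regV σ D.Al _ _ _ _ _ D.hn (per s) fun j =>
      okV hB hC hZ hA h2 h3 hs hc fun h' : D.SB s ∧ D.Bad s j => h h'.1
    have h5 := liftV hB hC H.trunc H.trok hs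
    exact add_mem (Subalgebra.smul_mem _ (good_of H h5.1 h4.1) _)
      (Subalgebra.smul_mem _ (good_of H h5.2 h4.2) _)
  · exact zero_mem _

/-- Data of a child of a bad cluster. -/
theorem child_data {p m₀ e : ℕ} {c₁ c : k} (hs : D.IsCl s) (h : D.BadD s i p m₀ e c₁ c)
    {a : R0 σ k} (ha : a ∈ s) (hd : D.deg (child s a) < D.deg s) :
    D.IE (child s a) = D.IV s ∧
    D.RH (child s a) = regE D.n (D.Adm (child s a)) (hi s) (2 ≤ (child s a).card)
      (D.hh (child s a)) (D.SB (child s a))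
      (D.MM s + (D.deg s - D.deg (child s a)) • ⇑(hi s)) (D.deg (child s a)) ∧
    zc (D.MM (child s a)) = zc (D.MM s) + (D.deg s - D.deg (child s a)) • zc (hi s) ∧
    (2 ≤ (child s a).card → ⇑(hi s) ≤ D.hh (child s a) ∧ hi s i < D.hh (child s a) i) ∧
    (2 ≤ (child s a).card → ∀ j, Ok D.Al (D.n + D.hh (child s a) j)
      (D.MM s j + (D.deg s - D.deg (child s a)) * hi s j +
        D.deg (child s a) * D.hh (child s a) j)) := by
  have hc := two_le_of_hi hs hB h.hi_pos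
  obtain ⟨h4, -, -, h5, -, h6, -⟩ := hC.ch_cl s hs hc a ha
  have h7 : ∀ j, D.MM (child s a) j = D.MM s j + (D.deg s - D.deg (child s a)) * hi s j :=
    fun j => by simp [h6]
  refine ⟨?_, by rw [RH, h5, h6]; rfl, by funext j; simp [zc, h7], fun hc' => ⟨h5 ▸
    lo_le_hh hB hC hZ hA h2 h3 h4 hc', ?_⟩, fun hc' j => h7 j ▸ okU hB hC hZ hA h2 h3 h4 hc' j⟩
  · ext j
    simp [IE, IV, h7, Nat.sub_ne_zero_of_lt hd]
  · have h8 := (hZ _ _ _ _ _ _ _ hs hc h).2.1 a ha hc'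
    by_cases hb : D.SB (child s a)
    · obtain ⟨j, hj, -⟩ := id hb
      rw [hh_of_bad hb hj, Function.update_of_ne]
      · exact h8
      · rintro rfl
        obtain ⟨_, _, _, _, _, h9, -⟩ := hj
        rw [h7] at h9
        exact absurd h9 (Nat.add_pos_right _ (mul_pos (Nat.sub_pos_of_lt hd) h.hi_pos)).ne'
    · rwa [hh_of_not hb]

include hI in
theorem AC_mem (hs : D.IsCl s) (h : D.SB s) :
    D.AV s + ∑ t ∈ s.image fun a => D.rep (child s a), D.AE t ∈ good k D.Al := by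
  obtain ⟨i, hb, -⟩ := id h
  obtain ⟨p, m₀, e, c₁, c, h'⟩ := id hb
  have hc := two_le_of_hi hs hB h'.hi_pos
  have hp := h'.p_pos
  obtain ⟨hD, -, a₁, ha₁, hd₁, hL₁, hz, hpos⟩ := hZ _ _ _ _ _ _ _ hs hc h'
  obtain ⟨hM, hn, hL, hc0, he, hp1, hp2, hP, -⟩ := id h'
  have hrep : ∀ a ∈ s, D.AE (D.rep (child s a)) = D.AE (child s a) := fun a ha => by
    obtain ⟨g, hg⟩ := hI.rep_eq (child s a)
    rw [hg, AE_act hI (hC.ch_cl s hs hc a ha).1]
  have hlt : e < D.deg s := by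
    rcases Nat.lt_or_ge p 2 with h4 | h4
    · have := hp1 (by omega)
      nlinarith
    · nlinarith
  have hsup : ∀ j, j ∉ (D.IV s)ᶜ → D.MM s j = 0 ∧ hi s j = 0 := fun j hj => by
    simpa [IV] using hj
  obtain ⟨W, hW₁, hW₀⟩ := H.wbad σ k (res (D.Lam s) (D.IV s)ᶜ) (res (D.Lam s) ((D.IV s)ᶜ.erase i))
    (res (D.Lam (child s a₁)) (D.IV s)ᶜ) (zc (D.MM s)) (zc (hi s)) i D.n p m₀ e (D.deg s) (D.cc s)
    c₁ c (D.PP s) D.hn (fun μ hμ => dvd_of_MM hC hs hM (mem_res.1 hμ).1)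
    (fun μ => by
      simp only [mem_res, Finset.mem_erase, not_and_or, ne_eq, not_not, or_imp, forall_and,
        forall_eq]
      tauto)
    (fun μ => by
      simp only [mem_res, hL₁]
      refine ⟨fun ⟨⟨l, h4⟩, h5⟩ => ⟨l, h4, fun j hj => by simp [h5 j hj, zc, (hsup j hj).2]⟩,
        fun ⟨l, h4, h5⟩ => ⟨⟨l, h4⟩, fun j hj => ?_⟩⟩
      simpa [zc, (hsup j hj).2] using h5 j hj)
    (mem_res.2 ⟨hC.MM_mem s hs, fun j hj => by
      by_cases h4 : j = i
      · simp [zc, h4, hM]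
      · simp [zc, (hsup j fun h5 => hj (Finset.mem_erase.2 ⟨h4, h5⟩)).1]⟩)
    (mem_res.2 ⟨hL, fun j hj => by simp [zc, (hsup j hj).2]⟩) (by rw [zc]; exact_mod_cast hn)
    (hB.cc_ne s hs) hc0 he hp1 hp2 hD hP
  have hcf : wc (res (D.Lam s) ((D.IV s)ᶜ.erase i)) (X ^ D.deg s : k[X]) (zc (D.MM s)) 0
      (D.deg s) = D.wE s * D.cf s := by
    rw [H.prod σ k _ _ _ _ _ D.n (D.IE s)ᶜ _ D.hn, mul_comm, cf,
      ← card_IE hB hC H.trunc H.trok h', wE]
    · congr 2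
      omega
    · intro j hj
      have h4 : D.MM s j ≠ 0 := by simpa [IE] using hj
      exact Finset.mem_erase.2 ⟨fun h5 => h4 (h5 ▸ hM), by simp [IV, h4]⟩
    · exact fun j _ hj => ⟨single_mem s j, fun μ => dvd_of_MM hC hs (by simpa [IE] using hj)⟩
    · exact fun j hj => ⟨by simpa [IE, zc] using hj, rfl⟩
  obtain ⟨e₁, e₂, e₃, e₄, e₅⟩ := child_data H hB hC hZ hA h2 h3 hs h' ha₁ (hd₁ ▸ hlt)
  have hcl₁ := (hC.ch_cl s hs hc a₁ ha₁).1
  have l₁ := liftE hB hC H.trunc H.trok H.hat hcl₁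
  have lV := liftV hB hC H.trunc H.trok hs
  have hs₁ := okS hB hC hZ hA h2 h3 hcl₁
  have hA₁ : ∀ κ, D.Adm (child s a₁) κ ↔ D.Adm s κ ∧ D.n ∣ dot κ (hi s) := fun κ => by
    rw [← Int.natCast_dvd_natCast, cast_dot]
    refine ⟨fun h4 => ⟨fun μ hμ => h4 μ ((hL₁ μ).2 ⟨0, by simpa using hμ⟩),
      h4 _ ((hL₁ _).2 ⟨1, by simp⟩)⟩, fun h4 μ hμ => ?_⟩
    obtain ⟨l, hl⟩ := (hL₁ μ).1 hμ
    have := dvd_add (h4.1 _ hl) (h4.2.mul_left l)
    simpa [mul_sub, Finset.mul_sum, mul_left_comm] using this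
  have hind : Indep (D.Adm s) {i} := indep hC hs (by simpa using hM)
  have hV : ∀ j, j ≠ i → Ok D.Al (D.n + hi s j) (D.MM s j + (m₀ + p * e) * hi s j) :=
    fun j hj => hD ▸ okV hB hC hZ hA h2 h3 hs hc fun h4 => hj (h.unique h4.2 hb)
  have hw₁ : D.wE (child s a₁) = wc (res (D.Lam (child s a₁)) (D.IV s)ᶜ) (X ^ e : k[X])
      (zc (D.MM s) + (D.deg s - e) • zc (hi s)) 0 e := by rw [wE, e₁, e₃, hd₁]
  rw [e₁, e₂, hd₁, hD] at l₁
  rw [hd₁, hD] at e₅
  rw [hd₁] at hs₁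
  rw [AV, if_pos hc, if_pos h]
  rcases Nat.eq_zero_or_pos m₀ with hm | hm
  · obtain ⟨w₁, w₂, w₃⟩ := hW₀ hm
    have h4 : (s.image fun a => D.rep (child s a)) = {D.rep (child s a₁)} :=
      Finset.eq_singleton_iff_unique_mem.2 ⟨Finset.mem_image_of_mem _ ha₁, fun t ht => by
        obtain ⟨a, ha, rfl⟩ := Finset.mem_image.1 ht
        exact hz hm a ha⟩
    have h5 := H.mrg σ D.n (D.Adm s) _ i p (hi s) False 0 False _ _ (D.SB (child s a₁)) (D.MM s) m₀
      e D.hn hn hM hind (fun κ => h'.dvd) hA₁ False.elim e₄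
    have h6 := H.regC σ D.Al D.n (D.Adm s) i p (hi s) False 0 False _ _ (D.SB (child s a₁)) (D.MM s)
      m₀ e D.hn hn hM (per s) hind False.elim e₄ hV False.elim (fun _ => Or.inl hm) e₅ hs₁
    have h7 := H.dead σ D.n (D.Adm s) (hi s) (D.MM s) (D.deg s) D.hn
    have h8 : FF k D.n (D.RV s) (D.IV s) + FF k D.n (D.RW s) (D.IV s) +
        (1 - Linv k) • D.HE (child s a₁) ∈ good k D.Al := by
      refine good_of H (a := (D.IV s).card) (q := (1 - PowerSeries.X) ^ ((D.IV s).card + 1))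
        (((lV.1.add lV.2).add (l₁.smul (1 - X))).congr ?_ ?_) h6
      · simp only [smul_add, map_sub, map_one, aeval_X, smul_comm (1 - Linv k)]
      · subst hm
        rw [← h5, RV, RW]
        simp only [hD, zero_add, map_pow, coe_sub, coe_one, coe_X] at h7 ⊢
        linear_combination PowerSeries.C (1 - PowerSeries.X) ^ (D.IV s).card * h7
    rw [h4, Finset.sum_singleton, hrep a₁ ha₁, AE, hw₁, w₃, wV, wW, w₁, w₂, hcf]
    convert Subalgebra.smul_mem _ h8 (LL k * W) using 1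
    have h9 : LL k * W * (1 - Linv k) = (LL k - 1) * W := by
      linear_combination (-W) * LL_mul (k := k)
    rw [smul_add, smul_add, smul_smul, h9, sub_smul (LL k * W)]
    abel
  · obtain ⟨w₁, w₂, w₃, w₄⟩ := hW₁ hm
    obtain ⟨a₀, ha₀, hd₀, hL₀, hne, hall⟩ := hpos hm
    have hlt₀ : D.deg (child s a₀) < D.deg s := by
      rw [hd₀, hD]
      exact Nat.lt_add_of_pos_right (mul_pos hp he)
    obtain ⟨f₁, f₂, f₃, f₄, f₅⟩ := child_data H hB hC hZ hA h2 h3 hs h' ha₀ hlt₀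
    have hcl₀ := (hC.ch_cl s hs hc a₀ ha₀).1
    have l₀ := liftE hB hC H.trunc H.trok H.hat hcl₀
    have hs₀ := okS hB hC hZ hA h2 h3 hcl₀
    have hA₀ : D.Adm (child s a₀) = D.Adm s := by
      funext κ
      simp only [Adm, hL₀]
    have hw₀ : D.wE (child s a₀) = W := by
      rw [wE, f₁, f₃, hd₀, hL₀, ← w₂, hD, add_tsub_cancel_left]
    rw [f₁, f₂, hd₀, hD, hA₀, add_tsub_cancel_left] at l₀
    rw [hd₀, hD, add_tsub_cancel_left] at f₅
    rw [hd₀] at hs₀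
    have h4 : (s.image fun a => D.rep (child s a)) = {D.rep (child s a₀), D.rep (child s a₁)} := by
      ext t
      simp only [Finset.mem_image, Finset.mem_insert, Finset.mem_singleton]
      exact ⟨fun ⟨a, ha, h⟩ => h ▸ hall a ha,
        fun h => h.elim (fun h => ⟨a₀, ha₀, h.symm⟩) fun h => ⟨a₁, ha₁, h.symm⟩⟩
    have h5 := H.mrg σ D.n (D.Adm s) _ i p (hi s) _ _ (D.SB (child s a₀)) _ _ (D.SB (child s a₁))
      (D.MM s) m₀ e D.hn hn hM hind (fun κ => h'.dvd) hA₁ f₄ e₄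
    have h6 := H.regC σ D.Al D.n (D.Adm s) i p (hi s) _ _ (D.SB (child s a₀)) _ _
      (D.SB (child s a₁)) (D.MM s) m₀ e D.hn hn hM (per s) hind f₄ e₄ hV f₅ hs₀ e₅ hs₁
    have h8 : FF k D.n (D.RV s) (D.IV s) + D.HE (child s a₀) + D.HE (child s a₁) ∈
        good k D.Al := by
      refine good_of H (a := (D.IV s).card) (q := (1 - PowerSeries.X) ^ (D.IV s).card)
        (((lV.1.add l₀).add l₁).congr ?_ ?_) h6
      · simp only [smul_add]
      · rw [← h5, RV, hD, mul_add, mul_add]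
    have h9 : D.wW s • FF k D.n (D.RW s) (D.IV s) = 0 := by
      rcases Nat.lt_or_ge p 2 with h4 | h4
      · obtain rfl : p = 1 := by omega
        have : D.RW s = ∅ := Set.eq_empty_of_forall_notMem fun q hq => by
          have h7 := hq.2.1 _ hL
          rw [one_smul, ← cast_dot, Int.natCast_dvd_natCast] at h7
          obtain ⟨t, ht⟩ := h7
          have h10 := hq.2.2.1
          have h11 := hq.2.2.2.1
          rw [ht] at h10 h11
          rw [← Nat.mul_succ] at h11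
          have := lt_of_mul_lt_mul_left h10 (Nat.zero_le _)
          have := lt_of_mul_lt_mul_left h11 (Nat.zero_le _)
          omega
        rw [this, FF_empty, smul_zero]
      · rw [wW, w₄ h4, zero_smul]
    rw [h4, Finset.sum_pair hne, hrep a₁ ha₁, hrep a₀ ha₀, AE, AE, hw₁, w₃, hw₀, h9, wV, w₁, hcf]
    convert Subalgebra.smul_mem _ h8 W using 1
    simp only [smul_add, sub_smul]
    abel

include hI in
theorem zser_mem (hV : Vol D) : zser D.f ∈ good k D.Al := by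
  classical
  have h4 : zser D.f = ∑ s ∈ D.Reps, D.AE s + ∑ s ∈ D.Reps, D.AV s := by
    rw [hV, ← Finset.sum_add_distrib]
    refine Finset.sum_congr rfl fun s _ => ?_
    simp only [AE, AV, HE, smul_sub, smul_ite, smul_zero, smul_smul]
    abel
  have hR : ∀ s, s ∈ D.Reps ↔ D.IsCl s ∧ D.rep s = s := fun s => by
    simp only [Reps, Finset.mem_filter, Finset.mem_powerset]
    exact ⟨fun h => h.2, fun h => ⟨h.1.2.1, h⟩⟩
  have hrr : ∀ s, D.IsCl s → D.rep s ∈ D.Reps := fun s hs => by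
    obtain ⟨g, hg⟩ := hI.rep_eq s
    exact (hR _).2 ⟨hg ▸ hI.cl g s hs, by rw [hg, hI.rep_act, hg]⟩
  have h5 : ∑ t ∈ D.Reps.filter (fun t => t ≠ D.Z ∧ D.SB (D.par t)), D.AE t =
      ∑ s ∈ D.Reps.filter D.SB, ∑ t ∈ s.image fun a => D.rep (child s a), D.AE t := by
    rw [← Finset.sum_fiberwise_of_maps_to (t := D.Reps.filter D.SB) (g := fun t => D.rep (D.par t))]
    · refine Finset.sum_congr rfl fun s hs => Finset.sum_congr ?_ fun _ _ => rfl
      obtain ⟨hs, hb⟩ := Finset.mem_filter.1 hs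
      obtain ⟨hs, hs'⟩ := (hR s).1 hs
      obtain ⟨i, ⟨p, m₀, e, c₁, c, h'⟩, -⟩ := id hb
      have hc := two_le_of_hi hs hB h'.hi_pos
      ext t
      simp only [Finset.mem_filter, Finset.mem_image]
      constructor
      · rintro ⟨⟨h6, h7, -⟩, h8⟩
        obtain ⟨h6, h6'⟩ := (hR t).1 h6
        obtain ⟨g, hg⟩ := hI.rep_eq (D.par t)
        obtain ⟨h9, -, h10, h11⟩ := hC.par_cl t h6 h7
        obtain ⟨a, ha⟩ := h6.1
        refine ⟨D.act g a, ?_, ?_⟩
        · rw [← h8, hg]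
          exact Finset.mem_image_of_mem _ (h10.1 ha)
        · rw [← h8, hg, hI.child g _ a h9, h11 a ha, hI.rep_act, h6']
      · rintro ⟨a, ha, rfl⟩
        obtain ⟨h6, h7, h8, -⟩ := hC.ch_cl s hs hc a ha
        obtain ⟨g, hg⟩ := hI.rep_eq (child s a)
        have h9 : D.par (D.rep (child s a)) = D.acts g s := by rw [hg, hI.par g _ h6, h8]
        refine ⟨⟨hrr _ h6, fun h => h7 ?_, h9 ▸ (SB_act hI hs g).2 hb⟩, by rw [h9, hI.rep_act, hs']⟩
        obtain ⟨g', hg'⟩ := hI.acts_inv g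
        rw [← hg' (child s a), ← hg, h, hI.top]
    · intro t ht
      obtain ⟨h6, h7, h8⟩ := Finset.mem_filter.1 ht
      have h9 := (hC.par_cl t ((hR t).1 h6).1 h7).1
      obtain ⟨g, hg⟩ := hI.rep_eq (D.par t)
      exact Finset.mem_filter.2 ⟨hrr _ h9, hg ▸ (SB_act hI h9 g).2 h8⟩
  rw [h4, ← Finset.sum_filter_add_sum_filter_not D.Reps (fun t => t ≠ D.Z ∧ D.SB (D.par t)),
    ← Finset.sum_filter_add_sum_filter_not D.Reps D.SB D.AV, h5, add_add_add_comm,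
    ← Finset.sum_add_distrib]
  refine add_mem (sum_mem fun s hs => ?_) (add_mem (sum_mem fun s hs => ?_) (sum_mem fun s hs => ?_))
  all_goals obtain ⟨hs, hb⟩ := Finset.mem_filter.1 hs
  · exact add_comm (D.AV s) _ ▸ AC_mem H hB hI hC hZ hA h2 h3 ((hR s).1 hs).1 hb
  · exact AE_mem H hB hC hZ hA h2 h3 ((hR s).1 hs).1 hb
  · exact AV_mem H hB hC hZ hA h2 h3 ((hR s).1 hs).1 hb

end Dat

theorem exists_dat [CharZero k] {d : ℕ} {f : MvPolynomial (Fin (d + 1)) k} (h : QuasiOrd f) :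
    ∃ D : Dat (Fin d) k, D.f = MvPolynomial.rename (finSuccEquiv d) f := by
  obtain ⟨n, N, e, Z, hn, hZ, he, h0, hq, hf⟩ := h
  have : NeZero n := ⟨hn.ne'⟩
  obtain ⟨ε, hε⟩ := HasEnoughRootsOfUnity.exists_primitiveRoot k n
  refine ⟨⟨_, n, N, e, Z.toFinset, Z.count, ε, hn.ne', hε, Multiset.toFinset_nonempty.2 hZ,
    fun a ha => Multiset.count_pos.2 (Multiset.mem_toFinset.1 ha), he,
    fun a ha => h0 a (Multiset.mem_toFinset.1 ha),
    fun a ha b hb => hq a (Multiset.mem_toFinset.1 ha) b (Multiset.mem_toFinset.1 hb), ?_⟩, rfl⟩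
  rw [io, MvPolynomial.aeval_rename, ← Finset.prod_multiset_map_count, mono, ← hf]
  congr 2
  funext j
  induction j using Fin.cases <;> simp

theorem main_of [CharZero k] (H : Gen) (hB : S_CB) (hI : S_CI) (hC : S_CC) (hZ : S_BadZ)
    (hA : S_RootA) (h2 : S_RootB) (h3 : S_RootC) (hV : S_Vol) {d : ℕ}
    {f : MvPolynomial (Fin (d + 1)) k} (h : QuasiOrd f) :
    ∃ S : Finset (ℕ × ℕ), zeta f ∈ poleRing k S ∧ ∀ p ∈ S, 0 < p.1 ∧ 0 < p.2 ∧
      ∀ b, LocalBernsteinEq f b → b.eval (-(p.1 : k) / p.2) = 0 := by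
  obtain ⟨D, hD⟩ := exists_dat h
  obtain ⟨S, h4, h5⟩ := exists_finset (Dat.zser_mem H (hB _ _ D) (hI _ _ D) (hC _ _ D) (hZ _ _ D)
    (hA _ _ D) (h2 _ _ D) (h3 _ _ D) (hV _ _ D))
  have h6 := Dt.Same.of_rename (finSuccEquiv d).injective hD.symm
  refine ⟨S, ?_, fun p hp => ⟨(h5 p hp).1, (h5 p hp).2.1, fun b hb => ?_⟩⟩
  · convert h4 using 1
    ext m
    rcases m with _ | m
    · simp [zeta, series, zser]
    · rw [St.coeff_zeta_vol, h6.1]
      simp [zser]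
  · rw [neg_div]
    exact (h5 p hp).2.2 b (h6.2 b (St.LB_iff.2 hb))

end

end Pool.Agent.P.MP_b91a16_ag.Qo
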