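import Pool.Agent.P.MP_b91a16_ag.Qo.AsmB

/-! Quasi-ordinary polynomials: formal changes of coordinates and units. -/

open MvPolynomial

namespace Pool.Agent.P.MP_b91a16_ag.Qo

variable {k : Type} [Field k] {d : ℕ}

theorem QuasiOrd.smul {G : MvPolynomial (Fin (d + 1)) k} (h : QuasiOrd G) {c : k} (hc : c ≠ 0) :
    QuasiOrd (C c * G) := by
  obtain ⟨n, N, e, Z, h1, h2, h3, h4, h5, h6⟩ := h
  refine ⟨n, N, Polynomial.C (MvPowerSeries.C c) * e, Z, h1, h2, by simp [hc, h3], h4, h5, ?_⟩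
  rw [map_mul, h6, aeval_C, Polynomial.algebraMap_apply, MvPowerSeries.algebraMap_apply]
  simp only [Algebra.algebraMap_self, RingHom.id_apply]
  ring

theorem pull [CharZero k] {f G : MvPolynomial (Fin (d + 1)) k}
    {φ : Fin (d + 1) → MvPowerSeries (Fin (d + 1)) k} {e : MvPowerSeries (Fin (d + 1)) k}
    (h0 : ∀ a, MvPowerSeries.constantCoeff (φ a) = 0)
    (h1 : (Matrix.of fun a j => MvPowerSeries.coeff (Finsupp.single j 1) (φ a)).det ≠ 0)
    (h2 : MvPowerSeries.constantCoeff e ≠ 0) (hG : QuasiOrd G) (h : aeval φ f = e * G)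
    (H : ∀ G : MvPolynomial (Fin (d + 1)) k, QuasiOrd G →
      ∃ S : Finset (ℕ × ℕ), zeta G ∈ poleRing k S ∧ ∀ p ∈ S, 0 < p.1 ∧ 0 < p.2 ∧
        ∀ b, LocalBernsteinEq G b → b.eval (-(p.1 : k) / p.2) = 0) :
    ∃ S : Finset (ℕ × ℕ), zeta f ∈ poleRing k S ∧ ∀ p ∈ S, 0 < p.1 ∧ 0 < p.2 ∧
      ∀ b, LocalBernsteinEq f b → b.eval (-(p.1 : k) / p.2) = 0 := by
  set c := MvPowerSeries.constantCoeff e with hc
  have h3 : aeval φ f = (MvPowerSeries.C c⁻¹ * e) *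
      ((C c * G : MvPolynomial (Fin (d + 1)) k) : MvPowerSeries (Fin (d + 1)) k) := by
    rw [h, MvPolynomial.coe_mul, MvPolynomial.coe_C, mul_mul_mul_comm, ← map_mul,
      inv_mul_cancel₀ h2, map_one, one_mul]
  have h4 : MvPowerSeries.constantCoeff (MvPowerSeries.C c⁻¹ * e) = 1 := by
    simp [← hc, h2]
  obtain ⟨S, h5, h6⟩ := H _ (hG.smul h2)
  obtain ⟨B, h8, h9⟩ := St.exists_inv (IsUnit.mk0 _ h1) (Equiv.refl _)
  have h10 := St.eqv_of h0 h8 h9 h3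
  obtain ⟨B', h11, -⟩ := St.exists_inv
    (A := Matrix.of fun a j => MvPowerSeries.pderiv k j (φ a))
    (MvPowerSeries.isUnit_iff_constantCoeff.2 (IsUnit.mk0 _ (by
      rw [RingHom.map_det]
      convert h1 using 2
      ext a j
      simp [← MvPowerSeries.coeff_zero_eq_constantCoeff_apply, MvPowerSeries.coeff_pderiv])))
    (Equiv.refl _)
  refine ⟨S, ?_, fun p hp => ⟨(h6 p hp).1, (h6 p hp).2.1, fun b hb => (h6 p hp).2.2 b
    (St.LB_iff.1 (St.LB.pull h0 h11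
      (MvPowerSeries.isUnit_iff_constantCoeff.2 (h4 ▸ isUnit_one)) h3 (St.LB_iff.2 hb)))⟩⟩
  convert h5 using 1
  ext m
  rcases m with _ | m
  · simp [zeta, series]
  · rw [St.coeff_zeta_vol, St.coeff_zeta_vol, h10.vol (h4 ▸ one_ne_zero), h4, div_one]

end Pool.Agent.P.MP_b91a16_ag.Qo
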