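import Pool.Agent.P.MP_b91a16_ag.Qo.Spec

/-! Quasi-ordinary polynomials: the children of a cluster with a bad ray. -/

set_option linter.unusedSectionVars false

open Polynomial

namespace Pool.Agent.P.MP_b91a16_ag.Qo

noncomputable section

namespace BadZP

section Poly

variable {k : Type} [Field k]

theorem rm_pow {Q : k[X]} (hQ : Q ≠ 0) (x : k) (e : ℕ) :
    (Q ^ e).rootMultiplicity x = e * Q.rootMultiplicity x := by
  induction e with
  | zero => simp
  | succ e ih =>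
    rw [pow_succ, rootMultiplicity_mul (mul_ne_zero (pow_ne_zero _ hQ) hQ), ih]
    ring

theorem Q_ne {p : ℕ} (hp : p ≠ 0) (c₁ : k) {c : k} (hc : c ≠ 0) :
    ((X - C c₁) ^ p - C c : k[X]) ≠ 0 := by
  intro h
  have := congrArg (eval c₁) h
  simp [hp, hc] at this

theorem rm_c1 {p : ℕ} (hp : p ≠ 0) (c₁ : k) {c : k} (hc : c ≠ 0) (m₀ e : ℕ) :
    ((X - C c₁) ^ m₀ * ((X - C c₁) ^ p - C c) ^ e : k[X]).rootMultiplicity c₁ = m₀ := by
  have h0 := Q_ne hp c₁ hc
  rw [rootMultiplicity_mul (mul_ne_zero (pow_ne_zero _ (X_sub_C_ne_zero c₁)) (pow_ne_zero _ h0)),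
    rootMultiplicity_X_sub_C_pow, rm_pow h0, rootMultiplicity_eq_zero (by simp [hp, hc])]
  simp

theorem rm_x [CharZero k] {p : ℕ} (hp : p ≠ 0) (c₁ : k) {c : k} (hc : c ≠ 0) (m₀ e : ℕ) {x : k}
    (hx : (x - c₁) ^ p = c) :
    ((X - C c₁) ^ m₀ * ((X - C c₁) ^ p - C c) ^ e : k[X]).rootMultiplicity x = e := by
  have h0 := Q_ne hp c₁ hc
  have hne : x - c₁ ≠ 0 := by
    intro h
    rw [h, zero_pow hp] at hx
    exact hc hx.symm
  have hr : ((X - C c₁) ^ p - C c : k[X]).IsRoot x := by simp [hx]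
  have h1 : ((X - C c₁) ^ p - C c : k[X]).rootMultiplicity x = 1 := by
    have a1 := (rootMultiplicity_pos h0).2 hr
    have a2 : ¬1 < ((X - C c₁) ^ p - C c : k[X]).rootMultiplicity x := by
      rw [one_lt_rootMultiplicity_iff_isRoot h0]
      rintro ⟨-, h⟩
      simp [derivative_pow, hp, hne] at h
    omega
  rw [rootMultiplicity_mul (mul_ne_zero (pow_ne_zero _ (X_sub_C_ne_zero c₁)) (pow_ne_zero _ h0)),
    rm_pow h0, h1, rootMultiplicity_eq_zero (by simp [hne])]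
  simp

theorem nd {p : ℕ} (hp : p ≠ 0) (c₁ : k) {c : k} (hc : c ≠ 0) (m₀ e : ℕ) :
    ((X - C c₁) ^ m₀ * ((X - C c₁) ^ p - C c) ^ e : k[X]).natDegree = m₀ + p * e := by
  have h0 := Q_ne hp c₁ hc
  rw [natDegree_mul (pow_ne_zero _ (X_sub_C_ne_zero c₁)) (pow_ne_zero _ h0), natDegree_pow,
    natDegree_pow, natDegree_X_sub_C, natDegree_sub_C, natDegree_pow, natDegree_X_sub_C]
  ring

end Poly

variable {σ k : Type} [Fintype σ] [DecidableEq σ] [Field k] {D : Dat σ k}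

theorem nd_PP (s : Finset (R0 σ k)) : (D.PP s).natDegree = D.deg s := by
  rw [Dat.PP, natDegree_prod_of_monic _ _ fun a _ => (monic_X_sub_C _).pow _, Dat.deg]
  simp [natDegree_pow]

theorem root_PP {s : Finset (R0 σ k)} (hs : D.IsCl s) (x : k) :
    (D.PP s).eval x = 0 ↔ ∃ a ∈ s, dir s a = x := by
  rw [Dat.PP, eval_prod, Finset.prod_eq_zero_iff]
  refine exists_congr fun a => and_congr_right fun ha => ?_
  have := (D.hm a (hs.2.1 ha)).ne'
  rw [eval_pow, pow_eq_zero_iff this, eval_sub, eval_X, eval_C, sub_eq_zero, eq_comm]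

theorem child_congr {s : Finset (R0 σ k)} {a b : R0 σ k} (h : dir s a = dir s b) :
    child s a = child s b := by
  unfold child
  rw [h]

theorem mem_child {s : Finset (R0 σ k)} {a b : R0 σ k} :
    b ∈ child s a ↔ b ∈ s ∧ dir s b = dir s a := by
  simp only [child, Finset.mem_filter]

theorem dot_single (i : σ) (t : ℕ) (μ : σ → ℕ) : dot (Pi.single i t) μ = t * μ i := by
  rw [dot, Finset.sum_eq_single i]
  · simp
  · intro j _ hj
    simp [Pi.single_eq_of_ne hj]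
  · simp

theorem dot_add (g g' μ : σ → ℕ) : dot (g + g') μ = dot g μ + dot g' μ := by
  simp only [dot, Pi.add_apply, add_mul, Finset.sum_add_distrib]

theorem dot_cast (g μ : σ → ℕ) : ((dot g μ : ℕ) : ℤ) = ∑ j, (g j : ℤ) * zc μ j := by
  simp [dot, zc]

theorem sum_single (i : σ) (t : ℕ) (μ : σ → ℤ) :
    ∑ j, (((Pi.single i t : σ → ℕ) j : ℕ) : ℤ) * μ j = t * μ i := by
  rw [Finset.sum_eq_single i]
  · simp
  · intro j _ hj
    simp [Pi.single_eq_of_ne hj]
  · simp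

theorem stab_add (hI : CI D) {s : Finset (R0 σ k)} {g g' : σ → ℕ} (h : D.Stab s g)
    (h' : D.Stab s g') : D.Stab s (g + g') := by
  unfold Dat.Stab at *
  rw [hI.acts_add, h', h]

theorem stab_single (hA : CA D) (hI : CI D) {s : Finset (R0 σ k)} {i : σ}
    (h : D.Stab s (Pi.single i 1)) (t : ℕ) : D.Stab s (Pi.single i t) := by
  induction t with
  | zero =>
    unfold Dat.Stab Dat.acts
    rw [Pi.single_zero, Finset.image_congr (g := id) fun a _ => hA.act_zero a, Finset.image_id]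
  | succ t ih =>
    rw [Pi.single_add]
    exact stab_add hI ih h

end BadZP

open BadZP

theorem p_BadZ (h : S_CA) (hB : S_CB) (hI : S_CI) (hC : S_CC) : S_BadZ := by
  intro σ k _ _ _ _ _ D s i p m₀ e c₁ c hs h2 hb
  have A : CA D := h _ _ D
  have B : CB D := hB _ _ D
  have I : CI D := hI _ _ D
  have Cc : CC D := hC _ _ D
  obtain ⟨hM, hpn, hpL, hc, he, hp1, hp2, hP, hdeep⟩ := hb
  have hp : p ≠ 0 := by
    rintro rfl
    exact D.hn (by simpa using hpn.symm)
  have hst : ∀ t, D.Stab s (Pi.single i t) := stab_single A I (Cc.stab s hs i hM)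
  have hl : ∀ g, D.Stab s g → hi s i ∣ dot g (hi s) := by
    intro g hg
    have a1 := hpL g hg
    have a2 : ∑ j, (g j : ℤ) * (p • zc (hi s)) j = (p : ℤ) * (dot g (hi s) : ℕ) := by
      rw [dot_cast, Finset.mul_sum]
      refine Finset.sum_congr rfl fun j _ => ?_
      simp only [Pi.smul_apply, nsmul_eq_mul]
      ring
    rw [a2, ← hpn] at a1
    have a3 : p * hi s i ∣ p * dot g (hi s) := by exact_mod_cast a1
    exact Nat.dvd_of_mul_dvd_mul_left (Nat.pos_of_ne_zero hp) a3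
  have hone : p = 1 → ∀ g, D.Stab s g → D.n ∣ dot g (hi s) := by
    rintro rfl g hg
    rw [← hpn, one_mul]
    exact hl g hg
  have hfix : ∀ g, D.Stab s g → D.ε ^ dot g (hi s) * c₁ = c₁ := by
    intro g hg
    by_cases h1 : p = 1
    · rw [(D.hε.pow_eq_one_iff_dvd _).2 (hone h1 g hg), one_mul]
    · rw [hp2 (by omega), mul_zero]
  have hroot : ∀ x, (∃ a ∈ s, dir s a = x) ↔ (0 < m₀ ∧ x = c₁) ∨ (x - c₁) ^ p = c := by
    intro x
    rw [← root_PP hs, hP]
    simp [he.ne', sub_eq_zero, Nat.pos_iff_ne_zero, and_comm]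
  obtain ⟨y, hy⟩ := IsAlgClosed.exists_pow_nat_eq c (Nat.pos_of_ne_zero hp)
  obtain ⟨a₁, ha₁, hd₁⟩ := (hroot (c₁ + y)).2 (Or.inr (by simpa using hy))
  have hq₁ : (dir s a₁ - c₁) ^ p = c := by rw [hd₁]; simpa using hy
  have hne₁ : dir s a₁ ≠ c₁ := by
    intro h'
    rw [h', sub_self, zero_pow hp] at hq₁
    exact hc hq₁.symm
  have hs₁ : ∀ g, D.Stab (child s a₁) g ↔ D.Stab s g ∧ D.n ∣ dot g (hi s) := by
    intro g
    rw [Cc.stab_ch s hs h2 a₁ ha₁]
    refine and_congr_right fun hg => ⟨fun h' => ?_, fun h' => ?_⟩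
    · by_cases h1 : p = 1
      · exact hone h1 g hg
      · have h0 : dir s a₁ ≠ 0 := by rwa [hp2 (by omega)] at hne₁
        exact (D.hε.pow_eq_one_iff_dvd _).1 ((mul_eq_right₀ h0).1 h')
    · rw [(D.hε.pow_eq_one_iff_dvd _).2 h', one_mul]
  have hconj : ∀ a ∈ s, (dir s a - c₁) ^ p = c → D.rep (child s a) = D.rep (child s a₁) := by
    intro a _ hq
    by_cases h1 : p = 1
    · rw [h1, pow_one] at hq hq₁
      rw [child_congr (a := a) (b := a₁) (by linear_combination hq - hq₁)]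
    · have h0 := hp2 (by omega)
      rw [h0, sub_zero] at hq hq₁
      rw [h0] at hne₁
      have : NeZero p := ⟨hp⟩
      have hζ : IsPrimitiveRoot (D.ε ^ hi s i) p :=
        D.hε.pow (Nat.pos_of_ne_zero D.hn) (by rw [← hpn, mul_comm])
      obtain ⟨t, -, ht⟩ := hζ.eq_pow_of_pow_eq_one (ξ := dir s a / dir s a₁)
        (by rw [div_pow, hq, hq₁, div_self hc])
      have e1 : D.acts (Pi.single i t) s = s := hst t
      have e2 := I.dir (Pi.single i t) s a₁ hs
      have e3 := I.child (Pi.single i t) s a₁ hs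
      rw [e1] at e2 e3
      rw [dot_single, mul_comm t, pow_mul, ht, div_mul_cancel₀ _ hne₁] at e2
      rw [← child_congr e2, e3, I.rep_act]
  refine ⟨?_, ?_, a₁, ha₁, ?_, ?_, ?_, ?_⟩
  · rw [← nd_PP, hP, nd hp c₁ hc]
  · intro a ha h2'
    obtain ⟨b, hb, hab, hl'⟩ := B.hi_att _ (Cc.ch_cl s hs h2 a ha).1 h2' a
      (mem_child.2 ⟨ha, rfl⟩)
    rw [← hl']
    exact hdeep a ha b (mem_child.1 hb).1 hab (mem_child.1 hb).2.symm
  · rw [(Cc.ch_cl s hs h2 a₁ ha₁).2.2.2.2.2.2, hP, rm_x hp c₁ hc m₀ e hq₁]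
  · intro μ
    constructor
    · intro hμ
      have b1 := hμ (Pi.single i p) ((hs₁ _).2 ⟨hst p, by rw [dot_single, hpn]⟩)
      rw [sum_single, ← hpn] at b1
      have b2 : ((hi s i : ℕ) : ℤ) ∣ μ i := by
        push_cast at b1
        exact Int.dvd_of_mul_dvd_mul_left (by exact_mod_cast hp) b1
      obtain ⟨q, hq⟩ := b2
      refine ⟨q, fun g hg => ?_⟩
      obtain ⟨t, ht⟩ := hl g hg
      obtain ⟨p', rfl⟩ := Nat.exists_eq_succ_of_ne_zero hp
      have b3 := hμ (g + Pi.single i (p' * t)) ((hs₁ _).2 ⟨stab_add I hg (hst _), by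
        rw [dot_add, dot_single, ht, ← hpn]
        exact ⟨t, by simp only [Nat.succ_eq_add_one]; ring⟩⟩)
      have b4 : ∑ j, (((g + Pi.single i (p' * t) : σ → ℕ) j : ℕ) : ℤ) * μ j =
          ∑ j, (g j : ℤ) * μ j + ((p' * t : ℕ) : ℤ) * μ i := by
        rw [← sum_single, ← Finset.sum_add_distrib]
        refine Finset.sum_congr rfl fun j _ => ?_
        simp only [Pi.add_apply, Nat.cast_add]
        ring
      have b5 : ∑ j, (g j : ℤ) * (μ - q • zc (hi s)) j =
          ∑ j, (g j : ℤ) * μ j - q * (dot g (hi s) : ℕ) := by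
        rw [dot_cast, Finset.mul_sum, ← Finset.sum_sub_distrib]
        refine Finset.sum_congr rfl fun j _ => ?_
        simp only [Pi.sub_apply, Pi.smul_apply, smul_eq_mul]
        ring
      rw [b4, hq] at b3
      rw [b5, ht]
      have b6 : (D.n : ℤ) ∣ (D.n : ℤ) * (t * q) := dvd_mul_right _ _
      have b7 := dvd_sub b3 b6
      have b8 : ∑ j, (g j : ℤ) * μ j + ((p' * t : ℕ) : ℤ) * (((hi s i : ℕ) : ℤ) * q) -
          (D.n : ℤ) * (t * q) = ∑ j, (g j : ℤ) * μ j - q * ((hi s i * t : ℕ) : ℤ) := by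
        rw [← hpn]
        push_cast
        ring
      rwa [b8] at b7
    · rintro ⟨q, hq⟩ g hg
      obtain ⟨g1, g2⟩ := (hs₁ g).1 hg
      have b1 := hq g g1
      have b5 : ∑ j, (g j : ℤ) * μ j =
          ∑ j, (g j : ℤ) * (μ - q • zc (hi s)) j + q * (dot g (hi s) : ℕ) := by
        rw [dot_cast, Finset.mul_sum, ← Finset.sum_add_distrib]
        refine Finset.sum_congr rfl fun j _ => ?_
        simp only [Pi.sub_apply, Pi.smul_apply, smul_eq_mul]
        ring
      rw [b5]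
      exact dvd_add b1 (Dvd.dvd.mul_left (by exact_mod_cast g2) q)
  · intro h0 a ha
    rcases (hroot _).1 ⟨a, ha, rfl⟩ with h' | h'
    · omega
    · exact hconj a ha h'
  · intro h0
    obtain ⟨a₀, ha₀, hd₀⟩ := (hroot c₁).2 (Or.inl ⟨h0, rfl⟩)
    refine ⟨a₀, ha₀, ?_, ?_, ?_, ?_⟩
    · rw [(Cc.ch_cl s hs h2 a₀ ha₀).2.2.2.2.2.2, hP, hd₀, rm_c1 hp c₁ hc]
    · have b1 : ∀ g, D.Stab (child s a₀) g ↔ D.Stab s g := fun g => by
        rw [Cc.stab_ch s hs h2 a₀ ha₀, hd₀]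
        exact and_iff_left_of_imp (hfix g)
      ext μ
      exact ⟨fun hμ g hg => hμ g ((b1 g).2 hg), fun hμ g hg => hμ g ((b1 g).1 hg)⟩
    · intro hr
      obtain ⟨g₀, e₀⟩ := I.rep_eq (child s a₀)
      obtain ⟨g₁, e₁⟩ := I.rep_eq (child s a₁)
      obtain ⟨g', e'⟩ := I.acts_inv g₁
      have e2 : child s a₁ = D.acts (g' + g₀) (child s a₀) := by
        rw [I.acts_add, ← e₀, hr, e₁, e']
      have e3 : D.acts (g' + g₀) s = s := by
        have b1 := I.par (g' + g₀) _ (Cc.ch_cl s hs h2 a₀ ha₀).1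
        rw [← e2, (Cc.ch_cl s hs h2 a₁ ha₁).2.2.1, (Cc.ch_cl s hs h2 a₀ ha₀).2.2.1] at b1
        exact b1.symm
      have b2 : a₁ ∈ D.acts (g' + g₀) (child s a₀) := e2 ▸ mem_child.2 ⟨ha₁, rfl⟩
      obtain ⟨b, hb, hba⟩ := Finset.mem_image.1 b2
      have b3 := I.dir (g' + g₀) s b hs
      rw [e3, hba, (mem_child.1 hb).2, hd₀, hfix _ e3] at b3
      exact hne₁ b3
    · intro a ha
      rcases (hroot _).1 ⟨a, ha, rfl⟩ with h' | h'
      · exact Or.inl (by rw [child_congr (h'.2.trans hd₀.symm)])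
      · exact Or.inr (hconj a ha h')

end

end Pool.Agent.P.MP_b91a16_ag.Qo
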