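import Pool.Agent.P.MP_b91a16_ag.Qo.Defs
import Pool.Agent.P.MP_b91a16_ag.Dt.Final

/-! Quasi-ordinary polynomials: the objects of the proof. -/

set_option linter.unusedSectionVars false

open Polynomial

namespace Pool.Agent.P.MP_b91a16_ag.Qo

noncomputable section

/-! ### Lattice points and generating series -/

section Comb

variable {σ : Type} [Fintype σ] [DecidableEq σ]

def dot (κ μ : σ → ℕ) : ℕ := ∑ j, κ j * μ j

/-- A point `(κ, ρ, m)`: orders of the `x_j`, level of `z`, order of `f`. -/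
abbrev Pt (σ : Type) : Type := (σ → ℕ) × ℕ × ℕ

def wt (p : Pt σ) : ℕ := ∑ j, p.1 j + p.2.1

/-- `∑_{p ∈ S} x^(wt p) T^m` in `ℤ[[x]][[T]]`. -/
def GF (S : Set (Pt σ)) : PowerSeries (PowerSeries ℤ) :=
  PowerSeries.mk fun m => PowerSeries.mk fun a => ((S ∩ {p | wt p = a ∧ p.2.2 = m}).ncard : ℤ)

def hat (Al : ℕ → ℕ → Prop) : Subring (PowerSeries (PowerSeries ℤ)) :=
  Subring.closure (Set.range PowerSeries.C ∪ {PowerSeries.X} ∪ {g | ∃ a b, Al a b ∧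
    g * (1 - PowerSeries.C (PowerSeries.X ^ a) * PowerSeries.X ^ b) = 1})

def good (k : Type) [Field k] (Al : ℕ → ℕ → Prop) : Subalgebra (Mot k) (PowerSeries (Mot k)) :=
  Algebra.adjoin _ ({PowerSeries.X} ∪ {g | ∃ a b, Al a b ∧
    g * (1 - PowerSeries.C (Linv k ^ a) * PowerSeries.X ^ b) = 1})

/-- `F` and `Φ` come from one series with coefficients in `ℤ[x]`. -/
def Lift {k : Type} [Field k] (F : PowerSeries (Mot k)) (Φ : PowerSeries (PowerSeries ℤ)) : Prop :=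
  ∃ G : ℕ → ℤ[X], ∀ m, PowerSeries.coeff m F = aeval (Linv k) (G m) ∧
    PowerSeries.coeff m Φ = (G m : PowerSeries ℤ)

/-- Volume of the arcs of order `a` (order `> M` if `a = M + 1`). -/
def wx (M a : ℕ) : ℤ[X] := if a ≤ M then (1 - X) * X ^ (a - 1) else X ^ M

open Classical in
def trP (n : ℕ) (S : Set (Pt σ)) (I : Finset σ) (m : ℕ) : ℤ[X] :=
  ∑ p ∈ ((Fintype.piFinset fun _ : σ => Finset.Icc 1 (n * m + 1)) ×ˢ
      Finset.range (m + 1)).filter (fun p => (p.1, p.2, m) ∈ S),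
    X ^ (∑ j ∈ Iᶜ, p.1 j + p.2) * ∏ i ∈ I, wx (n * m) (p.1 i)

def FF (k : Type) [Field k] (n : ℕ) (S : Set (Pt σ)) (I : Finset σ) : PowerSeries (Mot k) :=
  PowerSeries.mk fun m => aeval (Linv k) (trP n S I m)

def TrOk (n : ℕ) (S : Set (Pt σ)) (I : Finset σ) : Prop := ∀ κ ρ m,
  ((κ, ρ, m) ∈ S → (∀ j, 1 ≤ κ j) ∧ ρ ≤ m ∧ ∀ j, j ∉ I → κ j ≤ n * m) ∧
    ((κ, ρ, m) ∈ S ↔ (fun j => min (κ j) (n * m + 1), ρ, m) ∈ S)

def Per (n : ℕ) (A : (σ → ℕ) → Prop) : Prop := ∀ κ j, A (κ + Pi.single j n) ↔ A κ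

def Indep (A : (σ → ℕ) → Prop) (I : Finset σ) : Prop :=
  ∀ κ κ', (∀ j, j ∉ I → κ j = κ' j) → A κ → A κ'

def Ok (Al : ℕ → ℕ → Prop) (a b : ℕ) : Prop := b = 0 ∨ Al a b

/-- Edge region; `c` says that there is an upper bound, `st` that it may be attained. -/
def regE (n : ℕ) (A : (σ → ℕ) → Prop) (lo : σ → ℕ) (c : Prop) (hi : σ → ℕ) (st : Prop)
    (M : σ → ℕ) (D : ℕ) : Set (Pt σ) :=
  {p | (∀ j, 1 ≤ p.1 j) ∧ A p.1 ∧ dot p.1 lo < n * p.2.1 ∧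
    (c → n * p.2.1 < dot p.1 hi ∨ st ∧ n * p.2.1 = dot p.1 hi) ∧
    n * p.2.2 = dot p.1 M + D * (n * p.2.1)}

/-- Vertex region, integral depth. -/
def regV (n : ℕ) (A : (σ → ℕ) → Prop) (hi M : σ → ℕ) (D : ℕ) : Set (Pt σ) :=
  {p | (∀ j, 1 ≤ p.1 j) ∧ A p.1 ∧ n * p.2.1 = dot p.1 hi ∧
    n * p.2.2 = dot p.1 M + D * (n * p.2.1)}

/-- Vertex region, non-integral depth. -/
def regW (n : ℕ) (A : (σ → ℕ) → Prop) (hi M : σ → ℕ) (D : ℕ) : Set (Pt σ) :=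
  {p | (∀ j, 1 ≤ p.1 j) ∧ A p.1 ∧ dot p.1 hi < n * p.2.1 ∧ n * p.2.1 < dot p.1 hi + n ∧
    n * p.2.2 = dot p.1 M + D * dot p.1 hi}

/-- The union of a vertex and of the two edges below it, in new coordinates. -/
def regC (n : ℕ) (A : (σ → ℕ) → Prop) (i : σ) (p : ℕ) (hi : σ → ℕ) (c₀ : Prop) (h₀ : σ → ℕ)
    (s₀ c₁ : Prop) (h₁ : σ → ℕ) (s₁ : Prop) (M : σ → ℕ) (m₀ e : ℕ) : Set (Pt σ) :=
  {q | (∀ j, 1 ≤ q.1 j) ∧ A q.1 ∧ ∃ t, 1 ≤ t ∧ n * q.2.1 = dot (Function.update q.1 i t) hi ∧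
    (c₀ → n * q.2.1 < dot q.1 h₀ ∨ s₀ ∧ n * q.2.1 = dot q.1 h₀) ∧
    (c₁ → n * (q.2.1 + q.1 i) < n * t + dot (Function.update q.1 i t) h₁ ∨
      s₁ ∧ n * (q.2.1 + q.1 i) = n * t + dot (Function.update q.1 i t) h₁) ∧
    n * q.2.2 = dot q.1 M + m₀ * (n * q.2.1) +
      e * (n * q.1 i + p * dot q.1 (Function.update hi i 0))}

end Comb

/-! ### Classes of hypersurfaces in tori -/

section Cls

variable {σ : Type} [Fintype σ] [DecidableEq σ]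

def zc (μ : σ → ℕ) : σ → ℤ := fun j => μ j

def res (Λ : AddSubgroup (σ → ℤ)) (J : Finset σ) : AddSubgroup (σ → ℤ) :=
  Λ ⊓ AddSubgroup.pi ((J : Set σ)ᶜ) fun _ => ⊥

/-- `β` is a character of `Λ`, extended by zero. -/
def IsCh {K : Type} [Field K] (Λ : AddSubgroup (σ → ℤ)) (β : (σ → ℤ) → K) : Prop :=
  β 0 = 1 ∧ (∀ μ ∈ Λ, ∀ ν ∈ Λ, β (μ + ν) = β μ * β ν) ∧ ∀ μ, μ ∉ Λ → β μ = 0

variable {k : Type} [Field k]

/-- The pairs `(β, u)` with `∑ P_l β(M + (D - l) h) u^l = 1`. -/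
def WP (Λ : AddSubgroup (σ → ℤ)) (P : k[X]) (M h : σ → ℤ) (D : ℕ) : Pred k (Option (σ → ℤ)) :=
  fun K _ _ x => IsCh Λ (fun μ => x (some μ)) ∧ ∑ l ∈ Finset.range (D + 1),
    algebraMap k K (P.coeff l) * x (some (M + (D - l) • h)) * x none ^ l = 1

def wcl (Λ : AddSubgroup (σ → ℤ)) (P : k[X]) (M h : σ → ℤ) (D : ℕ) : K0 k :=
  Classical.epsilon (HasClass (WP Λ P M h D))

def wc (Λ : AddSubgroup (σ → ℤ)) (P : k[X]) (M h : σ → ℤ) (D : ℕ) : Mot k :=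
  algebraMap (K0 k) (Mot k) (wcl Λ P M h D)

variable (k) in
def LL : Mot k := algebraMap (K0 k) (Mot k) (cls k k[X])

end Cls

/-! ### The roots and their clusters -/

abbrev R0 (σ k : Type) [Field k] : Type := MvPowerSeries σ k

scoped instance decR0 {σ k : Type} [Field k] : DecidableEq (MvPowerSeries σ k) := Classical.decEq _

variable {σ k : Type} [Fintype σ] [DecidableEq σ] [Field k]

def mono (μ : σ →₀ ℕ) : R0 σ k := MvPowerSeries.monomial μ 1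

/-- `z ↦ z + c`, `x_j ↦ y_j ^ n`. -/
def io (n : ℕ) (c : R0 σ k) : MvPolynomial (Option σ) k →ₐ[k] (R0 σ k)[X] :=
  MvPolynomial.aeval fun o => o.elim (X + C c) fun j => C (MvPowerSeries.X j ^ n)

variable (σ k) in
structure Dat where
  f : MvPolynomial (Option σ) k
  n : ℕ
  N : σ →₀ ℕ
  e : (R0 σ k)[X]
  Z : Finset (R0 σ k)
  m : R0 σ k → ℕ
  ε : k
  hn : n ≠ 0
  hε : IsPrimitiveRoot ε n
  hZ : Z.Nonempty
  hm : ∀ a ∈ Z, 0 < m a
  he : MvPowerSeries.constantCoeff (e.coeff 0) ≠ 0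
  h0 : ∀ a ∈ Z, MvPowerSeries.constantCoeff a = 0
  hq : ∀ a ∈ Z, ∀ b ∈ Z, a ≠ b → ∃ μ u, IsUnit u ∧ a - b = mono μ * u
  hf : io n 0 f = C (mono N) * e * ∏ a ∈ Z, (X - C a) ^ m a

open Classical in
def lam (a b : R0 σ k) : σ →₀ ℕ :=
  if h : ∃ μ u, IsUnit u ∧ a - b = mono μ * u then h.choose else 0

def pick (s : Finset (R0 σ k)) : R0 σ k := if h : s.Nonempty then h.choose else 0

def hi (s : Finset (R0 σ k)) : σ →₀ ℕ :=
  if h : (s.erase (pick s)).Nonempty then (s.erase (pick s)).inf' h (lam (pick s)) else 0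

def ctr (s : Finset (R0 σ k)) : R0 σ k := (s.card : k)⁻¹ • ∑ a ∈ s, a

def dir (s : Finset (R0 σ k)) (a : R0 σ k) : k := MvPowerSeries.coeff (hi s) (a - ctr s)

open Classical in
def child (s : Finset (R0 σ k)) (a : R0 σ k) : Finset (R0 σ k) :=
  s.filter fun b => dir s b = dir s a

/-- Setting the variables of `V` to zero. -/
def kill (V : Finset σ) : R0 σ k →+* R0 σ k :=
  MvPowerSeries.rescale fun l => if l ∈ V then 0 else 1

namespace Dat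

variable (D : Dat σ k)

def act (g : σ → ℕ) : R0 σ k →+* R0 σ k := MvPowerSeries.rescale fun j => D.ε ^ g j

def acts (g : σ → ℕ) (s : Finset (R0 σ k)) : Finset (R0 σ k) := s.image (D.act g)

def IsCl (s : Finset (R0 σ k)) : Prop :=
  s.Nonempty ∧ s ⊆ D.Z ∧ ∀ a ∈ s, ∀ b ∈ s, a ≠ b → ∀ c ∈ D.Z, c ∉ s → lam a c < lam a b

def deg (s : Finset (R0 σ k)) : ℕ := ∑ a ∈ s, D.m a

def lo (s : Finset (R0 σ k)) : σ →₀ ℕ := (D.Z \ s).sup (lam (pick s))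

def MM (s : Finset (R0 σ k)) : σ →₀ ℕ := D.N + ∑ c ∈ D.Z \ s, D.m c • lam (pick s) c

def PP (s : Finset (R0 σ k)) : k[X] := ∏ a ∈ s, (X - C (dir s a)) ^ D.m a

def cc (s : Finset (R0 σ k)) : k := MvPowerSeries.constantCoeff (D.e.coeff 0) *
  ∏ c ∈ D.Z \ s, MvPowerSeries.coeff (lam (pick s) c) (pick s - c) ^ D.m c

def Stab (s : Finset (R0 σ k)) (g : σ → ℕ) : Prop := D.acts g s = s

def Lam (s : Finset (R0 σ k)) : AddSubgroup (σ → ℤ) where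
  carrier := {μ | ∀ g, D.Stab s g → (D.n : ℤ) ∣ ∑ j, (g j : ℤ) * μ j}
  zero_mem' := fun _ _ => by simp
  add_mem' := fun ha hb g hg => by
    simpa only [Pi.add_apply, mul_add, Finset.sum_add_distrib] using dvd_add (ha g hg) (hb g hg)
  neg_mem' := fun ha g hg => by
    simpa only [Pi.neg_apply, mul_neg, Finset.sum_neg_distrib, dvd_neg] using ha g hg

def Adm (s : Finset (R0 σ k)) (κ : σ → ℕ) : Prop :=
  ∀ μ ∈ D.Lam s, (D.n : ℤ) ∣ ∑ j, (κ j : ℤ) * μ j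

def par (s : Finset (R0 σ k)) : Finset (R0 σ k) :=
  D.Z.filter fun c => c ∈ s ∨ lam (pick s) c = D.lo s

def rep (s : Finset (R0 σ k)) : Finset (R0 σ k) := Classical.epsilon fun t => ∃ g, t = D.acts g s

open Classical in
def Reps : Finset (Finset (R0 σ k)) := D.Z.powerset.filter fun s => D.IsCl s ∧ D.rep s = s

/-- The ray of the cluster `s` in direction `i` carries an exact residue form. -/
def BadD (s : Finset (R0 σ k)) (i : σ) (p m₀ e : ℕ) (c₁ c : k) : Prop :=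
  D.MM s i = 0 ∧ p * hi s i = D.n ∧ p • zc (hi s) ∈ D.Lam s ∧ c ≠ 0 ∧ 0 < e ∧ (p = 1 → 0 < m₀) ∧
    (2 ≤ p → c₁ = 0) ∧ D.PP s = (X - C c₁) ^ m₀ * ((X - C c₁) ^ p - C c) ^ e ∧
    ∀ a ∈ s, ∀ b ∈ s, a ≠ b → dir s a = dir s b → hi s i < lam a b i

def Bad (s : Finset (R0 σ k)) (i : σ) : Prop := ∃ p m₀ e c₁ c, D.BadD s i p m₀ e c₁ c

/-! ### Arcs and pieces of the contact loci -/

section Arc

variable {K : Type} [Field K] [Algebra k K]

def ev (y : σ → PowerSeries K) (a : R0 σ k) : PowerSeries K := MvPowerSeries.subst y a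

def bp (b : σ → K) (μ : σ → ℕ) : K := ∏ j, b j ^ μ j

def xx (M : ℕ) (κ : σ → ℕ) (b : σ → K) (θ : σ → PowerSeries K) (j : σ) : PowerSeries K :=
  if κ j ≤ M then PowerSeries.C (b j ^ D.n) * PowerSeries.X ^ κ j * θ j ^ D.n else 0

def yy (M : ℕ) (κ : σ → ℕ) (b : σ → K) (θ : σ → PowerSeries K) (j : σ) : PowerSeries K :=
  if κ j ≤ M then PowerSeries.C (b j) * PowerSeries.X ^ κ j * PowerSeries.expand D.n D.hn (θ j)
  else 0

def psi (s : Finset (R0 σ k)) (κ : σ → ℕ) (r : ℕ) (b : σ → K) (u : K) : K :=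
  if 2 ≤ s.card ∧ r = dot κ (hi s) then
    ∏ a ∈ s, (u - algebraMap k K (dir s a) * bp b (hi s)) ^ D.m a
  else u ^ D.deg s

/-- The position `(κ, r)` lies on the edge above the cluster `s` or at its vertex. -/
def Pos (M : ℕ) (s : Finset (R0 σ k)) (κ : σ → ℕ) (r : ℕ) : Prop :=
  (∀ j, 1 ≤ κ j ∧ κ j ≤ M + 1) ∧ dot κ (D.lo s) < r ∧ (2 ≤ s.card → r ≤ dot κ (hi s)) ∧
    dot κ (D.MM s) + D.deg s * r ≤ M

def Idx (m : ℕ) (s : Finset (R0 σ k)) (κ : σ → ℕ) (r : ℕ) : Prop :=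
  D.Pos (D.n * m) s κ r ∧ D.Adm s κ ∧ D.n * m = dot κ (D.MM s) + D.deg s * r

def Pc (m : ℕ) (s : Finset (R0 σ k)) (κ : σ → ℕ) (r : ℕ) (γ : Option σ → PowerSeries K) : Prop :=
  ∃ (b : σ → K) (θ : σ → PowerSeries K) (u : K), (∀ j, b j ≠ 0) ∧
    (∀ j, PowerSeries.constantCoeff (θ j) = 1) ∧
    (∀ j, PowerSeries.X ^ (D.n * m + 1) ∣ γ (some j) - D.xx (D.n * m) κ b θ j) ∧
    PowerSeries.X ^ (r + 1) ∣ PowerSeries.expand D.n D.hn (γ none) -
      ev (D.yy (D.n * m) κ b θ) (ctr s) - PowerSeries.C u * PowerSeries.X ^ r ∧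
    algebraMap k K (D.cc s) * bp b (D.MM s) * D.psi s κ r b u = 1

end Arc

/-- The polynomial of the piece `(s, κ, r)`. -/
def Pol (s : Finset (R0 σ k)) (κ : σ → ℕ) (r : ℕ) : k[X] :=
  C (D.cc s) * if 2 ≤ s.card ∧ r = dot κ (hi s) then
    (if D.n ∣ r then D.PP s else C ((D.PP s).coeff 0)) else if D.n ∣ r then X ^ D.deg s else 0

/-- Free coordinates of the edge above `s` and of the vertex `s`. -/
def IE (s : Finset (R0 σ k)) : Finset σ := Finset.univ.filter fun j => D.MM s j = 0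

def IV (s : Finset (R0 σ k)) : Finset σ := Finset.univ.filter fun j => D.MM s j = 0 ∧ hi s j = 0

def wE (s : Finset (R0 σ k)) : Mot k :=
  wc (res (D.Lam s) (D.IE s)ᶜ) (X ^ D.deg s : k[X]) (zc (D.MM s)) 0 (D.deg s)

def wV (s : Finset (R0 σ k)) : Mot k :=
  wc (res (D.Lam s) (D.IV s)ᶜ) (C (D.cc s) * D.PP s) (zc (D.MM s)) (zc (hi s)) (D.deg s)

def wW (s : Finset (R0 σ k)) : Mot k :=
  wc (res (D.Lam s) (D.IV s)ᶜ) (C (D.cc s) * C ((D.PP s).coeff 0)) (zc (D.MM s)) (zc (hi s))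
    (D.deg s)

def RE (s : Finset (R0 σ k)) : Set (Pt σ) :=
  regE D.n (D.Adm s) (D.lo s) (2 ≤ s.card) (hi s) False (D.MM s) (D.deg s)

def RV (s : Finset (R0 σ k)) : Set (Pt σ) := regV D.n (D.Adm s) (hi s) (D.MM s) (D.deg s)

def RW (s : Finset (R0 σ k)) : Set (Pt σ) := regW D.n (D.Adm s) (hi s) (D.MM s) (D.deg s)

/-- `-α` is a root of every local Bernstein-Sato equation. -/
def Rt (α : k) : Prop := ∀ b, St.LB D.f b → b.eval (-α) = 0

end Dat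

def zser (f : MvPolynomial (Option σ) k) : PowerSeries (Mot k) :=
  PowerSeries.mk fun m => if m = 0 then 0 else St.vol f m 1

/-! ### Deformation to the normal cone of a coordinate stratum -/

abbrev P0 (σ k : Type) [Field k] : Type := MvPolynomial (Option σ) (R0 σ k)

/-- `Ψ` substitutes `τ Y_v` for `y_v`, `v ∈ V`. -/
structure IsPsi (V : Finset σ) (Ψ : R0 σ k →ₐ[k] PowerSeries (P0 σ k)) : Prop where
  inV : ∀ v ∈ V, Ψ (MvPowerSeries.X v) = PowerSeries.X * PowerSeries.C (MvPolynomial.X (some v))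
  out : ∀ l, l ∉ V → Ψ (MvPowerSeries.X l) = PowerSeries.C (MvPolynomial.C (MvPowerSeries.X l))
  const : ∀ a, PowerSeries.constantCoeff (Ψ a) = MvPolynomial.C (kill V a)
  dV : ∀ v ∈ V, ∀ a p, MvPolynomial.pderiv (some v) (PowerSeries.coeff (p + 1) (Ψ a)) =
    PowerSeries.coeff p (Ψ (MvPowerSeries.pderiv k v a))
  dO : ∀ l, l ∉ V → ∀ a p ν,
    MvPolynomial.coeff ν (PowerSeries.coeff p (Ψ (MvPowerSeries.pderiv k l a))) =
      MvPowerSeries.pderiv k l (MvPolynomial.coeff ν (PowerSeries.coeff p (Ψ a)))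
  dz : ∀ a p, MvPolynomial.pderiv none (PowerSeries.coeff p (Ψ a)) = 0

/-- The extension of `Ψ` with `z ↦ τ^w Z`. -/
def psiX (Ψ : R0 σ k →ₐ[k] PowerSeries (P0 σ k)) (w : ℕ) : (R0 σ k)[X] →+* PowerSeries (P0 σ k) :=
  eval₂RingHom (Ψ : R0 σ k →+* PowerSeries (P0 σ k))
    (PowerSeries.X ^ w * PowerSeries.C (MvPolynomial.X none))

/-- The form `J F^(-α) dY dZ` is exact on the complement of `F = 0`. -/
def Exact {B : Type} [CommRing B] (V : Finset σ) (J F : MvPolynomial (Option σ) B) (α : B) :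
    Prop :=
  ∃ (K : ℕ) (h : Option σ → MvPolynomial (Option σ) B) (c : B), c ≠ 0 ∧
    MvPolynomial.C c * J * F ^ (K + 1) = ∑ v ∈ V.insertNone,
      (F * MvPolynomial.pderiv v (h v) -
        MvPolynomial.C (α + K) * h v * MvPolynomial.pderiv v F)

end

end Pool.Agent.P.MP_b91a16_ag.Qo
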