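import Pool.Agent.P.MP_b91a16_ag.Qo.Spec

/-! Quasi-ordinary polynomials: exponents of differences of roots and the group action. -/

set_option linter.unusedSectionVars false

open Polynomial

namespace Pool.Agent.P.MP_b91a16_ag.Qo

noncomputable section

namespace CAP

variable {σ k : Type} [Fintype σ] [DecidableEq σ] [Field k]

theorem coeff_self (μ : σ →₀ ℕ) (u : R0 σ k) :
    MvPowerSeries.coeff μ (mono μ * u) = MvPowerSeries.constantCoeff u := by
  simp [mono, MvPowerSeries.coeff_monomial_mul]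

theorem le_of_coeff {μ ν : σ →₀ ℕ} {u : R0 σ k}
    (h : MvPowerSeries.coeff ν (mono μ * u) ≠ 0) : μ ≤ ν := by
  by_contra hc
  apply h
  simp [mono, MvPowerSeries.coeff_monomial_mul, hc]

theorem unit_iff (u : R0 σ k) : IsUnit u ↔ MvPowerSeries.constantCoeff u ≠ 0 := by
  rw [MvPowerSeries.isUnit_iff_constantCoeff, isUnit_iff_ne_zero]

theorem coeff_ne (μ : σ →₀ ℕ) {u : R0 σ k} (hu : IsUnit u) :
    MvPowerSeries.coeff μ (mono μ * u) ≠ 0 := by
  rw [coeff_self]; exact (unit_iff u).1 hu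

theorem exp_eq {μ ν : σ →₀ ℕ} {u v : R0 σ k} (hu : IsUnit u) (hv : IsUnit v)
    (h : mono μ * u = mono ν * v) : μ = ν := by
  apply le_antisymm
  · exact le_of_coeff (u := u) (by rw [h]; exact coeff_ne ν hv)
  · exact le_of_coeff (u := v) (by rw [← h]; exact coeff_ne μ hu)

theorem lam_spec {a b : R0 σ k} (h : ∃ μ u, IsUnit u ∧ a - b = mono μ * u) :
    ∃ u, IsUnit u ∧ a - b = mono (lam a b) * u := by
  have e : lam a b = h.choose := by unfold lam; rw [dif_pos h]
  rw [e]; exact h.choose_spec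

theorem lam_uniq (a b u : R0 σ k) (μ : σ →₀ ℕ) (hu : IsUnit u) (h : a - b = mono μ * u) :
    lam a b = μ := by
  obtain ⟨v, hv, e⟩ := lam_spec ⟨μ, u, hu, h⟩
  exact exp_eq hv hu (e.symm.trans h)

theorem lam_zero {a b : R0 σ k} (h : ¬ ∃ μ u, IsUnit u ∧ a - b = mono μ * u) : lam a b = 0 := by
  unfold lam; rw [dif_neg h]

theorem lam_symm (a b : R0 σ k) : lam a b = lam b a := by
  have key : ∀ a b : R0 σ k, (∃ μ u, IsUnit u ∧ a - b = mono μ * u) →
      ∃ u, IsUnit u ∧ b - a = mono (lam a b) * u := by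
    intro a b h
    obtain ⟨u, hu, e⟩ := lam_spec h
    exact ⟨-u, hu.neg, by rw [mul_neg, ← e, neg_sub]⟩
  by_cases h : ∃ μ u, IsUnit u ∧ a - b = mono μ * u
  · obtain ⟨u, hu, e⟩ := key a b h
    exact (lam_uniq b a u _ hu e).symm
  · have h' : ¬ ∃ μ u, IsUnit u ∧ b - a = mono μ * u := fun h' => by
      obtain ⟨u, hu, e⟩ := key b a h'
      exact h ⟨_, u, hu, e⟩
    rw [lam_zero h, lam_zero h']

theorem le_or {l m ν : σ →₀ ℕ} {u v w : R0 σ k} (hw : IsUnit w)
    (h : mono ν * w = mono m * v - mono l * u) : m ≤ ν ∨ l ≤ ν := by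
  have h1 := coeff_ne ν hw
  rw [h, map_sub] at h1
  by_cases h2 : MvPowerSeries.coeff ν (mono m * v) = 0
  · right
    refine le_of_coeff (u := u) fun h3 => h1 ?_
    rw [h2, h3, sub_zero]
  · exact Or.inl (le_of_coeff h2)

theorem mono_add (μ ν : σ →₀ ℕ) : (mono (μ + ν) : R0 σ k) = mono μ * mono ν := by
  simp [mono, MvPowerSeries.monomial_mul_monomial]

theorem dom : IsDomain (R0 σ k) := NoZeroDivisors.to_isDomain _

theorem rm_prod (s : Finset (R0 σ k)) (m : R0 σ k → ℕ) (a : R0 σ k) :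
    rootMultiplicity a (∏ b ∈ s, (X - C b) ^ m b) = if a ∈ s then m a else 0 := by
  have : IsDomain (R0 σ k) := dom
  induction s using Finset.induction_on with
  | empty => simp
  | insert b s hb ih =>
    have hne : (X - C b) ^ m b * ∏ c ∈ s, (X - C c) ^ m c ≠ 0 :=
      mul_ne_zero (pow_ne_zero _ (X_sub_C_ne_zero b))
        (Finset.prod_ne_zero_iff.2 fun c _ => pow_ne_zero _ (X_sub_C_ne_zero c))
    rw [Finset.prod_insert hb, rootMultiplicity_mul hne, ih]
    by_cases hab : a = b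
    · subst hab
      simp [hb, rootMultiplicity_X_sub_C_pow]
    · have h0 : rootMultiplicity a ((X - C b) ^ m b) = 0 := by
        apply rootMultiplicity_eq_zero
        simp [sub_eq_zero, hab]
      simp [h0, hab]

variable (D : Dat σ k)

theorem coeff_act (g : σ → ℕ) (a : R0 σ k) (μ : σ →₀ ℕ) :
    MvPowerSeries.coeff μ (D.act g a) = D.ε ^ dot g μ * MvPowerSeries.coeff μ a := by
  unfold Dat.act dot
  rw [MvPowerSeries.coeff_rescale, Finsupp.prod_fintype _ _ (by simp), ← Finset.prod_pow_eq_pow_sum]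
  simp only [pow_mul]

theorem act_add (g g' : σ → ℕ) (a : R0 σ k) : D.act (g + g') a = D.act g (D.act g' a) := by
  ext μ
  rw [coeff_act, coeff_act, coeff_act, ← mul_assoc, ← pow_add]
  simp [dot, add_mul, Finset.sum_add_distrib]

theorem act_zero (a : R0 σ k) : D.act 0 a = a := by
  ext μ
  simp [coeff_act, dot]

theorem act_n (g : σ → ℕ) (a : R0 σ k) : D.act (D.n • g) a = a := by
  ext μ
  have e : dot (D.n • g) μ = D.n * dot g μ := by
    simp [dot, Finset.mul_sum, mul_assoc]
  rw [coeff_act, e, pow_mul, D.hε.pow_eq_one, one_pow, one_mul]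

theorem eps_ne : D.ε ≠ 0 := D.hε.ne_zero D.hn

theorem act_inj (g : σ → ℕ) : Function.Injective (D.act g) := by
  intro a b h
  ext μ
  have h1 := congrArg (MvPowerSeries.coeff μ) h
  rw [coeff_act, coeff_act] at h1
  exact mul_left_cancel₀ (pow_ne_zero _ (eps_ne D)) h1

theorem act_mono (g : σ → ℕ) (μ : σ →₀ ℕ) :
    D.act g (mono μ) = mono μ * MvPowerSeries.C (D.ε ^ dot g μ) := by
  ext ν
  rw [coeff_act, MvPowerSeries.coeff_mul_C]
  by_cases h : ν = μ
  · subst h; ring
  · simp [mono, MvPowerSeries.coeff_monomial, h]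

theorem act_ex (g : σ → ℕ) {a b u : R0 σ k} {μ : σ →₀ ℕ} (hu : IsUnit u)
    (h : a - b = mono μ * u) : ∃ v, IsUnit v ∧ D.act g a - D.act g b = mono μ * v := by
  refine ⟨MvPowerSeries.C (D.ε ^ dot g μ) * D.act g u, ?_, ?_⟩
  · exact ((isUnit_iff_ne_zero.2 (pow_ne_zero _ (eps_ne D))).map _).mul (hu.map _)
  · rw [← map_sub, h, map_mul, act_mono, mul_assoc]

theorem act_inv (g : σ → ℕ) (a : R0 σ k) : D.act ((D.n - 1) • g) (D.act g a) = a := by
  rw [← act_add, ← succ_nsmul, Nat.sub_add_cancel (Nat.pos_of_ne_zero D.hn), act_n]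

theorem lam_act (g : σ → ℕ) (a b : R0 σ k) : lam (D.act g a) (D.act g b) = lam a b := by
  by_cases h : ∃ μ u, IsUnit u ∧ a - b = mono μ * u
  · obtain ⟨u, hu, e⟩ := lam_spec h
    obtain ⟨v, hv, e'⟩ := act_ex D g hu e
    exact lam_uniq _ _ v _ hv e'
  · have h' : ¬ ∃ μ u, IsUnit u ∧ D.act g a - D.act g b = mono μ * u := by
      rintro ⟨μ, u, hu, e⟩
      obtain ⟨v, hv, e'⟩ := act_ex D ((D.n - 1) • g) hu e
      rw [act_inv, act_inv] at e'
      exact h ⟨μ, v, hv, e'⟩
    rw [lam_zero h, lam_zero h']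

theorem act_C (g : σ → ℕ) (c : k) : D.act g (MvPowerSeries.C c) = MvPowerSeries.C c := by
  ext μ
  rw [coeff_act]
  by_cases h : μ = 0
  · subst h; simp [dot]
  · simp [MvPowerSeries.coeff_C, h]

theorem act_X_pow (g : σ → ℕ) (j : σ) :
    D.act g (MvPowerSeries.X j ^ D.n) = MvPowerSeries.X j ^ D.n := by
  have e : (MvPowerSeries.X j ^ D.n : R0 σ k) = mono (Finsupp.single j D.n) :=
    MvPowerSeries.X_pow_eq j D.n
  have e2 : dot g (Finsupp.single j D.n) = D.n * g j := by
    unfold dot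
    rw [Finset.sum_eq_single j]
    · simp [mul_comm]
    · intro i _ hi
      simp [hi.symm]
    · simp
  rw [e, act_mono, e2, pow_mul, D.hε.pow_eq_one, one_pow, map_one, mul_one]

theorem act_io' (g : σ → ℕ) (f : MvPolynomial (Option σ) k) :
    (io D.n 0 f).map (D.act g) = io D.n 0 f := by
  induction f using MvPolynomial.induction_on with
  | C c =>
    have e : io D.n (0 : R0 σ k) (MvPolynomial.C c) = C (MvPowerSeries.C c) := by
      unfold io
      rw [MvPolynomial.aeval_C]
      rfl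
    rw [e, map_C, act_C]
  | add p q hp hq => rw [map_add, Polynomial.map_add, hp, hq]
  | mul_X p o hp =>
    rw [map_mul, Polynomial.map_mul, hp]
    congr 1
    unfold io
    rw [MvPolynomial.aeval_X]
    cases o with
    | none => simp
    | some j =>
      show (C (MvPowerSeries.X j ^ D.n)).map (D.act g) = C (MvPowerSeries.X j ^ D.n)
      rw [map_C, act_X_pow]

theorem rm_io (a : R0 σ k) (ha : MvPowerSeries.constantCoeff a = 0) :
    rootMultiplicity a (io D.n 0 D.f) = if a ∈ D.Z then D.m a else 0 := by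
  have : IsDomain (R0 σ k) := dom
  have he : ¬ IsRoot D.e a := by
    intro h
    apply D.he
    have h1 : MvPowerSeries.constantCoeff (D.e.eval a) =
        (D.e.map MvPowerSeries.constantCoeff).eval (MvPowerSeries.constantCoeff a) := by
      rw [eval_map, eval₂_hom]
    rw [ha, ← coeff_zero_eq_eval_zero, coeff_map, h.eq_zero, map_zero] at h1
    exact h1.symm
  have he0 : D.e ≠ 0 := fun h => he (by rw [h]; simp)
  have hN : (mono D.N : R0 σ k) ≠ 0 := fun h => by
    have h1 := coeff_ne D.N (isUnit_one (M := R0 σ k))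
    rw [h] at h1
    simp at h1
  have h1 : C (mono D.N) * D.e ≠ 0 := mul_ne_zero (C_ne_zero.2 hN) he0
  have h2 : ∏ c ∈ D.Z, (X - C c) ^ D.m c ≠ 0 :=
    Finset.prod_ne_zero_iff.2 fun c _ => pow_ne_zero _ (X_sub_C_ne_zero c)
  rw [D.hf, rootMultiplicity_mul (mul_ne_zero h1 h2), rootMultiplicity_mul h1, rootMultiplicity_C,
    rootMultiplicity_eq_zero he, rm_prod]
  simp

theorem act_mem (g : σ → ℕ) (a : R0 σ k) (ha : a ∈ D.Z) :
    D.act g a ∈ D.Z ∧ D.m (D.act g a) = D.m a := by
  have h0 : MvPowerSeries.constantCoeff (D.act g a) = 0 := by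
    rw [← MvPowerSeries.coeff_zero_eq_constantCoeff_apply, coeff_act,
      MvPowerSeries.coeff_zero_eq_constantCoeff_apply, D.h0 a ha, mul_zero]
  have h1 := eq_rootMultiplicity_map (p := io D.n 0 D.f) (act_inj D g) a
  rw [act_io', rm_io D a (D.h0 a ha), rm_io D _ h0, if_pos ha] at h1
  by_cases h : D.act g a ∈ D.Z
  · rw [if_pos h] at h1
    exact ⟨h, h1.symm⟩
  · rw [if_neg h] at h1
    exact absurd h1 (D.hm a ha).ne'

theorem spec1 (a : R0 σ k) (ha : a ∈ D.Z) (b : R0 σ k) (hb : b ∈ D.Z) (h : a ≠ b) :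
    ∃ u, IsUnit u ∧ a - b = mono (lam a b) * u := lam_spec (D.hq a ha b hb h)

end CAP

open CAP in
theorem p_CA : S_CA := by
  intro σ k _ _ _ _ _ D
  refine
    { spec := spec1 D, uniq := lam_uniq, symm := lam_symm, ne := ?_, total := ?_, ultra := ?_,
      ultra' := ?_, act_add := act_add D, act_zero := act_zero D, act_n := act_n D,
      act_inj := act_inj D, coeff_act := coeff_act D, lam_act := lam_act D,
      act_mem := act_mem D, act_io := fun g => act_io' D g D.f }
  · intro a ha b hb h h0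
    obtain ⟨u, hu, e⟩ := spec1 D a ha b hb h
    have h1 := coeff_ne (lam a b) hu
    rw [← e, h0, MvPowerSeries.coeff_zero_eq_constantCoeff_apply, map_sub, D.h0 a ha, D.h0 b hb,
      sub_zero] at h1
    exact h1 rfl
  · intro a ha b hb c hc hab hac
    by_cases hbc : b = c
    · subst hbc; exact Or.inl le_rfl
    obtain ⟨u, hu, e1⟩ := spec1 D a ha b hb hab
    obtain ⟨v, hv, e2⟩ := spec1 D a ha c hc hac
    obtain ⟨w, hw, e3⟩ := spec1 D b hb c hc hbc
    have h1 := le_or (m := lam a c) (l := lam a b) (v := v) (u := u) hw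
      (by rw [← e1, ← e2, ← e3]; ring)
    have h2 := le_or (m := lam a c) (l := lam b c) (v := v) (u := w) hu
      (by rw [← e1, ← e2, ← e3]; ring)
    have h3 := le_or (m := lam a b) (l := lam b c) (v := u) (u := -w) hv
      (by rw [mul_neg, ← e1, ← e2, ← e3]; ring)
    rcases h2 with h2 | h2
    · exact Or.inr h2
    rcases h3 with h3 | h3
    · exact Or.inl h3
    rcases h1 with h1 | h1
    · exact Or.inr (h1.trans h2)
    · exact Or.inl (h1.trans h3)
  · intro a ha b hb c hc hab hac hlt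
    obtain ⟨u, hu, e1⟩ := spec1 D a ha b hb hab
    obtain ⟨v, hv, e2⟩ := spec1 D a ha c hc hac
    obtain ⟨δ, hδ⟩ := exists_add_of_le hlt.le
    have hδ0 : δ ≠ 0 := fun h => hlt.ne (by rw [hδ, h, add_zero])
    refine lam_uniq b c (mono δ * v - u) _ ?_ ?_
    · rw [unit_iff, map_sub]
      have h0 : MvPowerSeries.constantCoeff (mono δ * v) = 0 := by
        by_contra h1
        rw [← MvPowerSeries.coeff_zero_eq_constantCoeff_apply] at h1
        exact hδ0 (le_antisymm (le_of_coeff h1) zero_le)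
      rw [h0, zero_sub, neg_ne_zero]
      exact (unit_iff u).1 hu
    · rw [mul_sub, ← mul_assoc, ← mono_add, ← hδ, ← e1, ← e2]; ring
  · intro a ha b hb c hc hab hac hbc hle
    obtain ⟨u, _, e1⟩ := spec1 D a ha b hb hab
    obtain ⟨v, _, e2⟩ := spec1 D a ha c hc hac
    obtain ⟨w, hw, e3⟩ := spec1 D b hb c hc hbc
    rcases le_or (m := lam a c) (l := lam a b) (v := v) (u := u) hw
      (by rw [← e1, ← e2, ← e3]; ring) with h | h
    · exact hle.trans h
    · exact h

end

end Pool.Agent.P.MP_b91a16_ag.Qo
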