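import Pool.Agent.P.MP_b91a16_ag.Qo.Spec

/-! Clusters: the basic properties. -/

set_option linter.unusedSectionVars false

namespace Pool.Agent.P.MP_b91a16_ag.Qo

noncomputable section

namespace CBP

variable {σ k : Type} [Fintype σ] [DecidableEq σ] [Field k]

theorem mono_split {μ ν : σ →₀ ℕ} (h : μ ≤ ν) :
    (mono ν : R0 σ k) = mono μ * mono (ν - μ) := by
  unfold mono
  rw [MvPowerSeries.monomial_mul_monomial, one_mul, add_tsub_cancel_of_le h]

theorem coeff_mono_mul (μ ν : σ →₀ ℕ) (u : R0 σ k) :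
    MvPowerSeries.coeff ν (mono μ * u) =
      if μ ≤ ν then MvPowerSeries.coeff (ν - μ) u else 0 := by
  unfold mono
  rw [MvPowerSeries.coeff_monomial_mul]
  split_ifs <;> simp

theorem coeff_self (μ : σ →₀ ℕ) (u : R0 σ k) :
    MvPowerSeries.coeff μ (mono μ * u) = MvPowerSeries.constantCoeff u := by
  rw [coeff_mono_mul, if_pos le_rfl, tsub_self, MvPowerSeries.coeff_zero_eq_constantCoeff_apply]

theorem const_mono {μ : σ →₀ ℕ} (h : μ ≠ 0) :
    MvPowerSeries.constantCoeff (mono μ : R0 σ k) = 0 := by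
  unfold mono
  rw [← MvPowerSeries.coeff_zero_eq_constantCoeff_apply, MvPowerSeries.coeff_monomial_ne h.symm]

theorem unit_iff (u : R0 σ k) : IsUnit u ↔ MvPowerSeries.constantCoeff u ≠ 0 := by
  rw [MvPowerSeries.isUnit_iff_constantCoeff, isUnit_iff_ne_zero]

variable {D : Dat σ k}

theorem pick_mem {s : Finset (R0 σ k)} (hs : D.IsCl s) : pick s ∈ s := by
  unfold pick
  rw [dif_pos hs.1]
  exact hs.1.choose_spec

theorem out (h : CA D) {s : Finset (R0 σ k)} (hs : D.IsCl s) {a : R0 σ k} (ha : a ∈ s)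
    {c : R0 σ k} (hc : c ∈ D.Z) (hcs : c ∉ s) : lam a c = lam (pick s) c := by
  by_cases hap : a = pick s
  · rw [hap]
  have hp := pick_mem hs
  have hac : a ≠ c := fun e => hcs (e ▸ ha)
  have h1 := hs.2.2 a ha _ hp hap c hc hcs
  rw [← h.ultra a (hs.2.1 ha) c hc _ (hs.2.1 hp) hac hap h1, h.symm]

theorem le_lo (s : Finset (R0 σ k)) {c : R0 σ k} (hc : c ∈ D.Z) (hcs : c ∉ s) :
    lam (pick s) c ≤ D.lo s :=
  Finset.le_sup (f := lam (pick s)) (Finset.mem_sdiff.2 ⟨hc, hcs⟩)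

theorem lo_att (h : CA D) {s : Finset (R0 σ k)} (hs : D.IsCl s) (hne : s ≠ D.Z) :
    ∃ c ∈ D.Z, c ∉ s ∧ lam (pick s) c = D.lo s := by
  have hp := pick_mem hs
  have hN : (D.Z \ s).Nonempty := by
    rw [Finset.sdiff_nonempty]
    exact fun e => hne (Finset.Subset.antisymm hs.2.1 e)
  have key : (D.Z \ s).sup' hN (lam (pick s)) ∈
      {μ | ∃ c ∈ D.Z, c ∉ s ∧ lam (pick s) c = μ} := by
    refine Finset.sup'_mem _ ?_ _ hN _ ?_
    · rintro _ ⟨c, hc, hcs, rfl⟩ _ ⟨c', hc', hcs', rfl⟩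
      rcases h.total _ (hs.2.1 hp) c hc c' hc' (fun e => hcs (e ▸ hp)) (fun e => hcs' (e ▸ hp))
        with h1 | h1
      · exact ⟨c', hc', hcs', (sup_eq_right.2 h1).symm⟩
      · exact ⟨c, hc, hcs, (sup_eq_left.2 h1).symm⟩
    · intro c hc
      exact ⟨c, (Finset.mem_sdiff.1 hc).1, (Finset.mem_sdiff.1 hc).2, rfl⟩
  rw [Finset.sup'_eq_sup] at key
  exact key

theorem hi_le_pick {s : Finset (R0 σ k)} {b : R0 σ k} (hb : b ∈ s) (hbp : b ≠ pick s) :
    hi s ≤ lam (pick s) b := by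
  have hm : b ∈ s.erase (pick s) := Finset.mem_erase.2 ⟨hbp, hb⟩
  unfold hi
  rw [dif_pos ⟨b, hm⟩]
  exact Finset.inf'_le _ hm

theorem hi_att_pick (h : CA D) {s : Finset (R0 σ k)} (hs : D.IsCl s) (h2 : 2 ≤ s.card) :
    ∃ b ∈ s, b ≠ pick s ∧ lam (pick s) b = hi s := by
  have hp := pick_mem hs
  have hN : (s.erase (pick s)).Nonempty := by
    rw [← Finset.card_pos, Finset.card_erase_of_mem hp]
    omega
  have key : (s.erase (pick s)).inf' hN (lam (pick s)) ∈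
      {μ | ∃ b ∈ s, b ≠ pick s ∧ lam (pick s) b = μ} := by
    refine Finset.inf'_mem _ ?_ _ hN _ ?_
    · rintro _ ⟨c, hc, hcs, rfl⟩ _ ⟨c', hc', hcs', rfl⟩
      rcases h.total _ (hs.2.1 hp) c (hs.2.1 hc) c' (hs.2.1 hc') hcs.symm hcs'.symm with h1 | h1
      · exact ⟨c, hc, hcs, (inf_eq_left.2 h1).symm⟩
      · exact ⟨c', hc', hcs', (inf_eq_right.2 h1).symm⟩
    · intro c hc
      exact ⟨c, (Finset.mem_erase.1 hc).2, (Finset.mem_erase.1 hc).1, rfl⟩
  unfold hi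
  rw [dif_pos hN]
  exact key

theorem lo_top : D.lo D.Z = 0 := by
  unfold Dat.lo
  rw [Finset.sdiff_self, Finset.sup_empty]
  rfl

theorem lo_lt (h : CA D) {s : Finset (R0 σ k)} (hs : D.IsCl s) (h2 : 2 ≤ s.card) :
    D.lo s < hi s := by
  have hp := pick_mem hs
  obtain ⟨b, hb, hbp, hbe⟩ := hi_att_pick h hs h2
  rw [← hbe]
  by_cases hne : s = D.Z
  · have h0 : D.lo s = 0 := by rw [hne]; exact lo_top
    rw [h0]
    exact pos_iff_ne_zero.2 (h.ne _ (hs.2.1 hp) b (hs.2.1 hb) hbp.symm)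
  · obtain ⟨c, hc, hcs, hce⟩ := lo_att h hs hne
    rw [← hce]
    exact hs.2.2 _ hp b hb hbp.symm c hc hcs

theorem hi_le (h : CA D) {s : Finset (R0 σ k)} (hs : D.IsCl s) {a : R0 σ k} (ha : a ∈ s)
    {b : R0 σ k} (hb : b ∈ s) (hab : a ≠ b) : hi s ≤ lam a b := by
  have hp := pick_mem hs
  by_cases hap : a = pick s
  · rw [hap]
    exact hi_le_pick hb (hap ▸ hab.symm)
  by_cases hbp : b = pick s
  · rw [hbp, h.symm]
    exact hi_le_pick ha hap
  rcases h.total _ (hs.2.1 hp) a (hs.2.1 ha) b (hs.2.1 hb) (Ne.symm hap) (Ne.symm hbp)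
    with h1 | h1
  · exact (hi_le_pick ha hap).trans
      (h.ultra' _ (hs.2.1 hp) a (hs.2.1 ha) b (hs.2.1 hb) (Ne.symm hap) (Ne.symm hbp) hab h1)
  · rw [h.symm]
    exact (hi_le_pick hb hbp).trans
      (h.ultra' _ (hs.2.1 hp) b (hs.2.1 hb) a (hs.2.1 ha) (Ne.symm hbp) (Ne.symm hap) hab.symm h1)

theorem hi_att (h : CA D) {s : Finset (R0 σ k)} (hs : D.IsCl s) (h2 : 2 ≤ s.card)
    {a : R0 σ k} (ha : a ∈ s) : ∃ b ∈ s, a ≠ b ∧ lam a b = hi s := by
  have hp := pick_mem hs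
  obtain ⟨b, hb, hbp, hbe⟩ := hi_att_pick h hs h2
  by_cases hap : a = pick s
  · exact ⟨b, hb, hap ▸ hbp.symm, hap ▸ hbe⟩
  by_cases he : lam (pick s) a = hi s
  · exact ⟨_, hp, hap, by rw [h.symm, he]⟩
  have hlt : lam (pick s) b < lam (pick s) a := by
    rw [hbe]
    exact lt_of_le_of_ne (hi_le_pick ha hap) (Ne.symm he)
  refine ⟨b, hb, fun e => he (by rw [e, hbe]), ?_⟩
  rw [h.symm, h.ultra _ (hs.2.1 hp) b (hs.2.1 hb) a (hs.2.1 ha) hbp.symm (Ne.symm hap) hlt, hbe]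

theorem dvd_sub (h : CA D) {s : Finset (R0 σ k)} (hs : D.IsCl s) {a : R0 σ k} (ha : a ∈ s)
    {b : R0 σ k} (hb : b ∈ s) : mono (hi s) ∣ a - b := by
  by_cases hab : a = b
  · rw [hab, sub_self]
    exact dvd_zero _
  obtain ⟨u, -, hu⟩ := h.spec a (hs.2.1 ha) b (hs.2.1 hb) hab
  rw [hu, mono_split (hi_le h hs ha hb hab), mul_assoc]
  exact dvd_mul_right _ _

theorem sub_ctr [CharZero k] {s : Finset (R0 σ k)} (hs : s.Nonempty) (a : R0 σ k) :
    a - ctr s = (s.card : k)⁻¹ • ∑ b ∈ s, (a - b) := by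
  have hc : (s.card : k) ≠ 0 := Nat.cast_ne_zero.2 hs.card_pos.ne'
  unfold ctr
  rw [Finset.sum_sub_distrib, Finset.sum_const, smul_sub, ← Nat.cast_smul_eq_nsmul k, smul_smul,
    inv_mul_cancel₀ hc, one_smul]

theorem dvd_ctr [CharZero k] (h : CA D) {s : Finset (R0 σ k)} (hs : D.IsCl s) {a : R0 σ k}
    (ha : a ∈ s) : mono (hi s) ∣ a - ctr s := by
  rw [sub_ctr hs.1, Algebra.smul_def]
  exact Dvd.dvd.mul_left (Finset.dvd_sum fun b hb => dvd_sub h hs ha hb) _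

theorem ctr_one (a : R0 σ k) : ctr {a} = a := by
  unfold ctr
  simp

theorem ctr_out [CharZero k] (h : CA D) {s : Finset (R0 σ k)} (hs : D.IsCl s) {c : R0 σ k}
    (hc : c ∈ D.Z) (hcs : c ∉ s) : ∃ u, ctr s - c = mono (lam (pick s) c) * u ∧
      MvPowerSeries.constantCoeff u = MvPowerSeries.coeff (lam (pick s) c) (pick s - c) ∧
      IsUnit u := by
  have hp := pick_mem hs
  obtain ⟨u, hu, he⟩ := h.spec _ (hs.2.1 hp) c hc (fun e => hcs (e ▸ hp))
  have h0 : MvPowerSeries.constantCoeff u =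
      MvPowerSeries.coeff (lam (pick s) c) (pick s - c) := by
    rw [← coeff_self (lam (pick s) c) u, ← he]
  by_cases h2 : 2 ≤ s.card
  · obtain ⟨v, hv⟩ := dvd_ctr h hs hp
    have hlt : lam (pick s) c < hi s := (le_lo s hc hcs).trans_lt (lo_lt h hs h2)
    have hz : MvPowerSeries.constantCoeff (u - mono (hi s - lam (pick s) c) * v) =
        MvPowerSeries.constantCoeff u := by
      rw [map_sub, map_mul, const_mono (tsub_pos_of_lt hlt).ne', zero_mul, sub_zero]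
    refine ⟨u - mono (hi s - lam (pick s) c) * v, ?_, hz.trans h0, ?_⟩
    · rw [mul_sub, ← he, ← mul_assoc, ← mono_split hlt.le, ← hv]
      ring
    · rw [unit_iff, hz]
      exact (unit_iff u).1 hu
  · have h1 : s = {pick s} := by
      refine Finset.eq_singleton_iff_unique_mem.2 ⟨hp, fun x hx => ?_⟩
      exact Finset.card_le_one.1 (by omega) x hx _ hp
    have h3 : ctr s = pick s := by
      conv_lhs => rw [h1]
      exact ctr_one _
    exact ⟨u, by rw [h3, he], h0, hu⟩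

theorem dir_eq (h : CA D) {s : Finset (R0 σ k)} (hs : D.IsCl s) {a : R0 σ k} (ha : a ∈ s)
    {b : R0 σ k} (hb : b ∈ s) : dir s a = dir s b ↔ a = b ∨ hi s < lam a b := by
  by_cases hab : a = b
  · simp [hab]
  obtain ⟨u, hu, he⟩ := h.spec a (hs.2.1 ha) b (hs.2.1 hb) hab
  have hd : dir s a - dir s b = MvPowerSeries.coeff (hi s) (mono (lam a b) * u) := by
    unfold dir
    rw [← map_sub, ← he]
    congr 1
    ring
  have hle := hi_le h hs ha hb hab
  rw [← sub_eq_zero, hd]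
  rcases hle.eq_or_lt with h1 | h1
  · rw [h1, coeff_self]
    exact ⟨fun e => absurd e ((unit_iff u).1 hu), fun e => (e.elim hab (lt_irrefl _)).elim⟩
  · rw [coeff_mono_mul, if_neg h1.not_ge]
    exact ⟨fun _ => Or.inr h1, fun _ => rfl⟩

theorem cc_ne (h : CA D) {s : Finset (R0 σ k)} (hs : D.IsCl s) : D.cc s ≠ 0 := by
  have hp := pick_mem hs
  refine mul_ne_zero D.he (Finset.prod_ne_zero_iff.2 fun c hc => pow_ne_zero _ ?_)
  obtain ⟨hc, hcs⟩ := Finset.mem_sdiff.1 hc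
  obtain ⟨u, hu, he⟩ := h.spec _ (hs.2.1 hp) c hc (fun e => hcs (e ▸ hp))
  have h0 := coeff_self (lam (pick s) c) u
  rw [← he] at h0
  rw [h0]
  exact (unit_iff u).1 hu

theorem ctr_zero {s : Finset (R0 σ k)} (hs : D.IsCl s) :
    MvPowerSeries.constantCoeff (ctr s) = 0 := by
  unfold ctr
  rw [Algebra.smul_def, map_mul, map_sum,
    Finset.sum_eq_zero fun a ha => D.h0 a (hs.2.1 ha), mul_zero]

theorem lo_supp (h : CA D) {s : Finset (R0 σ k)} (hs : D.IsCl s) {j : σ} (hj : D.MM s j = 0) :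
    D.lo s j = 0 := by
  by_cases hne : s = D.Z
  · rw [hne, lo_top]
    rfl
  obtain ⟨c, hc, hcs, hce⟩ := lo_att h hs hne
  unfold Dat.MM at hj
  rw [Finsupp.add_apply, Finsupp.finsetSum_apply, Nat.add_eq_zero_iff,
    Finset.sum_eq_zero_iff] at hj
  have h1 := hj.2 c (Finset.mem_sdiff.2 ⟨hc, hcs⟩)
  rw [Finsupp.smul_apply, smul_eq_mul, hce] at h1
  exact (Nat.mul_eq_zero.1 h1).resolve_left (D.hm c hc).ne'

theorem ball (h : CA D) {a : R0 σ k} (ha : a ∈ D.Z) {U : Set (σ →₀ ℕ)} {s : Finset (R0 σ k)}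
    (hU : IsUpperSet U) (hs : ∀ b, b ∈ s ↔ b ∈ D.Z ∧ (b = a ∨ lam a b ∈ U)) : D.IsCl s := by
  have hZ : ∀ b ∈ s, b ∈ D.Z := fun b hb => ((hs b).1 hb).1
  refine ⟨⟨a, (hs a).2 ⟨ha, Or.inl rfl⟩⟩, hZ, fun x hx y hy hxy c hc hcs => ?_⟩
  have hca : a ≠ c := fun e => hcs ((hs c).2 ⟨hc, Or.inl e.symm⟩)
  have hcU : lam a c ∉ U := fun e => hcs ((hs c).2 ⟨hc, Or.inr e⟩)
  have key : ∀ b ∈ s, a ≠ b → lam a c < lam a b := fun b hb hab => by
    have hbU : lam a b ∈ U := ((hs b).1 hb).2.resolve_left hab.symm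
    rcases h.total a ha b (hZ b hb) c hc hab hca with h1 | h1
    · exact absurd (hU h1 hbU) hcU
    · exact lt_of_le_of_ne h1 fun e => hcU (e ▸ hbU)
  by_cases hxa : a = x
  · rw [← hxa] at hxy ⊢
    exact key y hy hxy
  have h1 : lam x c = lam a c := by
    rw [h.symm, h.ultra a ha c hc x (hZ x hx) hca hxa (key x hx hxa)]
  rw [h1]
  by_cases hya : a = y
  · rw [← hya, h.symm x a]
    exact key x hx hxa
  rcases h.total a ha x (hZ x hx) y (hZ y hy) hxa hya with h2 | h2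
  · exact (key x hx hxa).trans_le (h.ultra' a ha x (hZ x hx) y (hZ y hy) hxa hya hxy h2)
  · rw [h.symm x y]
    exact (key y hy hya).trans_le (h.ultra' a ha y (hZ y hy) x (hZ x hx) hya hxa hxy.symm h2)

end CBP

theorem p_CB (h : S_CA) : S_CB := by
  intro σ k _ _ _ _ _ D
  have hA : CA D := h _ _ D
  exact
    { pick_mem := fun _ hs => CBP.pick_mem hs
      out := fun _ hs _ ha _ hc hcs => CBP.out hA hs ha hc hcs
      le_lo := fun s _ hc hcs => CBP.le_lo s hc hcs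
      lo_att := fun _ hs hne => CBP.lo_att hA hs hne
      lo_lt := fun _ hs h2 => CBP.lo_lt hA hs h2
      hi_le := fun _ hs _ ha _ hb hab => CBP.hi_le hA hs ha hb hab
      hi_att := fun _ hs h2 _ ha => CBP.hi_att hA hs h2 ha
      dvd_ctr := fun _ hs _ ha => CBP.dvd_ctr hA hs ha
      ctr_one := CBP.ctr_one
      ctr_out := fun _ hs _ hc hcs => CBP.ctr_out hA hs hc hcs
      dir_eq := fun _ hs _ ha _ hb => CBP.dir_eq hA hs ha hb
      cc_ne := fun _ hs => CBP.cc_ne hA hs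
      deg_pos := fun _ hs => Finset.sum_pos (fun a ha => D.hm a (hs.2.1 ha)) hs.1
      ctr_zero := fun _ hs => CBP.ctr_zero hs
      lo_supp := fun _ hs _ hj => CBP.lo_supp hA hs hj
      top := ⟨⟨D.hZ, Finset.Subset.refl _, fun _ _ _ _ _ _ hc hcs => absurd hc hcs⟩, CBP.lo_top,
        by simp [Dat.MM]⟩
      ball := fun _ ha _ _ hU hs => CBP.ball hA ha hU hs }

end

end Pool.Agent.P.MP_b91a16_ag.Qo
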