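import Pool.Agent.P.MP_b91a16_ag.Qo.Spec

/-! Quasi-ordinary polynomials: stabilisers, children and parents of clusters. -/

set_option linter.unusedSectionVars false

open Polynomial

namespace Pool.Agent.P.MP_b91a16_ag.Qo

noncomputable section

namespace CCP

variable {σ k : Type} [Fintype σ] [DecidableEq σ] [Field k] {D : Dat σ k}
  {s : Finset (R0 σ k)} {a : R0 σ k} {g : σ → ℕ}

theorem coeff_mono (μ : σ →₀ ℕ) (u : R0 σ k) :
    MvPowerSeries.coeff μ (mono μ * u) = MvPowerSeries.constantCoeff u := by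
  have h := MvPowerSeries.coeff_add_monomial_mul μ 0 u (1 : k)
  rw [add_zero, one_mul] at h
  exact h

theorem mono_add (μ ν : σ →₀ ℕ) : (mono (μ + ν) : R0 σ k) = mono μ * mono ν := by
  rw [mono, mono, mono, MvPowerSeries.monomial_mul_monomial, one_mul]

theorem mono_smul (m : ℕ) (μ : σ →₀ ℕ) : (mono (m • μ) : R0 σ k) = mono μ ^ m := by
  induction m with
  | zero => rw [zero_smul, pow_zero]; rfl
  | succ m ih => rw [succ_nsmul, mono_add, ih, pow_succ]

theorem mono_sum {ι : Type} (t : Finset ι) (f : ι → σ →₀ ℕ) :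
    (mono (∑ c ∈ t, f c) : R0 σ k) = ∏ c ∈ t, mono (f c) := by
  simp only [mono, MvPowerSeries.prod_monomial, Finset.prod_const_one]

theorem dvd_of_pow {t : ℕ} (h : D.ε ^ t = 1) : (D.n : ℤ) ∣ (t : ℤ) :=
  Int.natCast_dvd_natCast.2 ((D.hε.pow_eq_one_iff_dvd t).1 h)

theorem dot_cast (g : σ → ℕ) (μ : σ →₀ ℕ) : ((dot g μ : ℕ) : ℤ) = ∑ j, (g j : ℤ) * zc μ j := by
  simp [dot, zc]

/-- Exponents of an invariant series lie in the lattice. -/
theorem mem_of_fix (A : CA D) {v : R0 σ k} {μ : σ →₀ ℕ} (h0 : MvPowerSeries.coeff μ v ≠ 0)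
    (h : ∀ g, D.Stab s g → D.act g v = v) : zc μ ∈ D.Lam s := by
  intro g hg
  have h1 := A.coeff_act g v μ
  rw [h g hg] at h1
  rw [← dot_cast]
  exact dvd_of_pow (mul_right_cancel₀ h0 (h1.symm.trans (one_mul _).symm))

theorem act_mem (hg : D.Stab s g) (ha : a ∈ s) : D.act g a ∈ s := by
  rw [← show D.acts g s = s from hg]
  exact Finset.mem_image_of_mem _ ha

theorem prod_act {M : Type} [CommMonoid M] (A : CA D) (hg : D.Stab s g) (F : R0 σ k → M) :
    ∏ b ∈ s, F (D.act g b) = ∏ b ∈ s, F b := by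
  conv_rhs => rw [← show D.acts g s = s from hg]
  exact (Finset.prod_image fun _ _ _ _ h => A.act_inj g h).symm

theorem stab (A : CA D) (B : CB D) (I : CI D) (hs : D.IsCl s) (j : σ) (hj : D.MM s j = 0) :
    D.Stab s (Pi.single j 1) := by
  refine Finset.eq_of_subset_of_card_le (fun b hb => ?_) (I.card _ _).ge
  obtain ⟨a, ha, rfl⟩ := Finset.mem_image.1 hb
  by_contra hn
  have hZ := (A.act_mem (Pi.single j 1) a (hs.2.1 ha)).1
  have hne : a ≠ D.act (Pi.single j 1) a := fun h => hn (h ▸ ha)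
  obtain ⟨u, hu, e⟩ := A.spec a (hs.2.1 ha) _ hZ hne
  have h1 : lam a (D.act (Pi.single j 1) a) j = 0 := by
    rw [B.out s hs a ha _ hZ hn]
    rw [Dat.MM, Finsupp.add_apply, Finsupp.finsetSum_apply, Nat.add_eq_zero_iff,
      Finset.sum_eq_zero_iff] at hj
    have h2 := hj.2 _ (Finset.mem_sdiff.2 ⟨hZ, hn⟩)
    rw [Finsupp.smul_apply, smul_eq_mul] at h2
    exact (mul_eq_zero.1 h2).resolve_left (D.hm _ hZ).ne'
  have h3 := congrArg (MvPowerSeries.coeff (lam a (D.act (Pi.single j 1) a))) e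
  have h4 : dot (Pi.single j 1) (lam a (D.act (Pi.single j 1) a)) = 0 := by
    rw [dot, Finset.sum_eq_single j (fun i _ hi => by rw [Pi.single_eq_of_ne hi, zero_mul])
      (fun h => absurd (Finset.mem_univ j) h), h1, mul_zero]
  rw [coeff_mono, map_sub, A.coeff_act, h4, pow_zero, one_mul, sub_self] at h3
  exact (MvPowerSeries.isUnit_iff_constantCoeff.1 hu).ne_zero h3.symm

theorem ctr_fix (I : CI D) (hg : D.Stab s g) : D.act g (ctr s) = ctr s := by
  rw [← I.ctr, show D.acts g s = s from hg]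

theorem MM_mem (A : CA D) (B : CB D) (I : CI D) (hs : D.IsCl s) : zc (D.MM s) ∈ D.Lam s := by
  set U : (R0 σ k)[X] := C (mono D.N) * D.e * ∏ c ∈ D.Z \ s, (X - C c) ^ D.m c with hU
  have hP : (∏ b ∈ s, (X - C b) ^ D.m b : (R0 σ k)[X]).Monic :=
    monic_prod_of_monic _ _ fun b _ => (monic_X_sub_C b).pow _
  have e1 : io D.n 0 D.f = U * ∏ b ∈ s, (X - C b) ^ D.m b := by
    rw [D.hf, hU, ← Finset.prod_sdiff hs.2.1]
    ring
  choose! u hu hc hu' using B.ctr_out s hs
  have e2 : U.eval (ctr s) =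
      mono (D.MM s) * (D.e.eval (ctr s) * ∏ c ∈ D.Z \ s, u c ^ D.m c) := by
    have h1 : ∏ c ∈ D.Z \ s, eval (ctr s) ((X - C c) ^ D.m c) =
        ∏ c ∈ D.Z \ s, (mono (D.m c • lam (pick s) c) * u c ^ D.m c) :=
      Finset.prod_congr rfl fun c h => by
        obtain ⟨h1, h2⟩ := Finset.mem_sdiff.1 h
        rw [eval_pow, eval_sub, eval_X, eval_C, hu c h1 h2, mul_pow, mono_smul]
    rw [hU, eval_mul, eval_mul, eval_C, eval_prod, h1, Finset.prod_mul_distrib, Dat.MM, mono_add,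
      mono_sum]
    ring
  refine mem_of_fix A (v := U.eval (ctr s)) ?_ fun g hg => ?_
  · rw [e2, coeff_mono, map_mul, map_prod]
    refine mul_ne_zero ?_ (Finset.prod_ne_zero_iff.2 fun c h => ?_)
    · rw [← eval₂_id, hom_eval₂, B.ctr_zero s hs, eval₂_at_zero]
      exact D.he
    · obtain ⟨h1, h2⟩ := Finset.mem_sdiff.1 h
      rw [map_pow]
      exact pow_ne_zero _ (MvPowerSeries.isUnit_iff_constantCoeff.1 (hu' c h1 h2)).ne_zero
  · have h1 := A.act_io g
    have h2 : (∏ b ∈ s, (X - C b) ^ D.m b : (R0 σ k)[X]).map (D.act g) =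
        ∏ b ∈ s, (X - C b) ^ D.m b := by
      rw [Polynomial.map_prod, ← prod_act A hg fun b => (X - C b) ^ D.m b]
      refine Finset.prod_congr rfl fun b hb => ?_
      rw [Polynomial.map_pow, Polynomial.map_sub, map_X, map_C, (A.act_mem g b (hs.2.1 hb)).2]
    rw [e1, Polynomial.map_mul, h2] at h1
    have h3 : U.map (D.act g) = U := hP.isRegular.right h1
    conv_rhs => rw [← h3, ← ctr_fix I hg, eval_map, eval₂_hom]

theorem PP_monic (D : Dat σ k) (s : Finset (R0 σ k)) :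
    (D.PP s).Monic ∧ (D.PP s).natDegree = D.deg s := by
  refine ⟨monic_prod_of_monic _ _ fun b _ => (monic_X_sub_C _).pow _, ?_⟩
  rw [Dat.PP, natDegree_prod_of_monic _ _ fun b _ => (monic_X_sub_C _).pow _]
  exact Finset.sum_congr rfl fun b _ => by rw [natDegree_pow, natDegree_X_sub_C, mul_one]

theorem scale_prod {ι : Type} (t : Finset ι) (d : ι → k) (m : ι → ℕ) (ξ : k) :
    (∏ b ∈ t, (X - C (d b)) ^ m b).scaleRoots ξ = ∏ b ∈ t, (X - C (ξ * d b)) ^ m b := by
  classical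
  induction t using Finset.induction_on with
  | empty => simp
  | insert b t hb ih =>
    rw [Finset.prod_insert hb, Finset.prod_insert hb, mul_scaleRoots_of_noZeroDivisors, ih,
      pow_scaleRoots_of_isReduced, X_sub_C_scaleRoots, mul_comm ξ]

theorem dir_act (I : CI D) (hs : D.IsCl s) (hg : D.Stab s g) (a : R0 σ k) :
    dir s (D.act g a) = D.ε ^ dot g (hi s) * dir s a := by
  rw [← I.dir g s a hs, show D.acts g s = s from hg]

theorem PP_mem (A : CA D) (I : CI D) (hs : D.IsCl s) (l : ℕ) (hl : (D.PP s).coeff l ≠ 0) :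
    (D.deg s - l) • zc (hi s) ∈ D.Lam s := by
  intro g hg
  have h1 : (D.PP s).scaleRoots (D.ε ^ dot g (hi s)) = D.PP s := by
    rw [Dat.PP, scale_prod, ← prod_act A hg fun b => (X - C (dir s b)) ^ D.m b]
    refine Finset.prod_congr rfl fun b hb => ?_
    rw [dir_act I hs hg, (A.act_mem g b (hs.2.1 hb)).2]
  have h2 := congrArg (fun p => coeff p l) h1
  simp only [coeff_scaleRoots, (PP_monic D s).2] at h2
  have h3 := dvd_of_pow (D := D) (t := dot g (hi s) * (D.deg s - l))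
    (by rw [pow_mul]; exact mul_left_cancel₀ hl (h2.trans (mul_one _).symm))
  rw [Nat.cast_mul, dot_cast, Finset.sum_mul] at h3
  have e : ∑ j, (g j : ℤ) * ((D.deg s - l) • zc (hi s)) j =
      ∑ j, (g j : ℤ) * zc (hi s) j * ((D.deg s - l : ℕ) : ℤ) :=
    Finset.sum_congr rfl fun j _ => by rw [Pi.smul_apply, nsmul_eq_mul]; ring
  rw [e]
  exact h3

theorem out_le (B : CB D) (hs : D.IsCl s) (ha : a ∈ s) {c : R0 σ k} (hc : c ∈ D.Z)
    (hn : c ∉ s) : lam a c ≤ D.lo s :=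
  (B.out s hs a ha c hc hn).trans_le (B.le_lo s c hc hn)

theorem child_sub (s : Finset (R0 σ k)) (a : R0 σ k) : child s a ⊆ s := by
  classical
  exact fun b hb => (Finset.mem_filter.1 hb).1

theorem mem_child' {b : R0 σ k} : b ∈ child s a ↔ b ∈ s ∧ dir s b = dir s a := by
  classical
  exact Finset.mem_filter

theorem mem_child (B : CB D) (hs : D.IsCl s) (h2 : 2 ≤ s.card) (ha : a ∈ s) (b : R0 σ k) :
    b ∈ child s a ↔ b ∈ D.Z ∧ (b = a ∨ hi s < lam a b) := by
  rw [mem_child']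
  constructor
  · rintro ⟨h1, h3⟩
    exact ⟨hs.2.1 h1, ((B.dir_eq s hs a ha b h1).1 h3.symm).imp_left Eq.symm⟩
  · rintro ⟨h1, rfl | h3⟩
    · exact ⟨ha, rfl⟩
    · have hb : b ∈ s := by
        by_contra hn
        exact (h3.trans ((out_le B hs ha h1 hn).trans_lt (B.lo_lt s hs h2))).false
      exact ⟨hb, ((B.dir_eq s hs a ha b hb).2 (Or.inr h3)).symm⟩

theorem lam_sib (B : CB D) (hs : D.IsCl s) (h2 : 2 ≤ s.card) (ha : a ∈ s) {c : R0 σ k}
    (hc : c ∈ s) (hn : c ∉ child s a) : lam a c = hi s := by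
  rw [mem_child B hs h2 ha, not_and, not_or] at hn
  obtain ⟨h1, h3⟩ := hn (hs.2.1 hc)
  exact ((B.hi_le s hs a ha c hc (Ne.symm h1)).eq_or_lt.resolve_right h3).symm

theorem ch_cl (B : CB D) (hs : D.IsCl s) (h2 : 2 ≤ s.card) (ha : a ∈ s) :
    D.IsCl (child s a) ∧ child s a ≠ D.Z ∧
    D.par (child s a) = s ∧ D.lo (child s a) = hi s ∧ D.deg (child s a) ≤ D.deg s ∧
    D.MM (child s a) = D.MM s + (D.deg s - D.deg (child s a)) • hi s ∧
    D.deg (child s a) = (D.PP s).rootMultiplicity (dir s a) := by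
  have ht : D.IsCl (child s a) :=
    B.ball a (hs.2.1 ha) (Set.Ioi (hi s)) _ (isUpperSet_Ioi _) (mem_child B hs h2 ha)
  have hat : a ∈ child s a := mem_child'.2 ⟨ha, rfl⟩
  have hsub := child_sub s a
  have hlt := B.lo_lt s hs h2
  obtain ⟨b, hb, hab, hl⟩ := B.hi_att s hs h2 a ha
  have hbt : b ∉ child s a := by
    rw [mem_child B hs h2 ha, hl]
    rintro ⟨-, h | h⟩
    exacts [hab h.symm, h.false]
  have hp : ∀ c ∈ D.Z, c ∉ child s a → lam (pick (child s a)) c = lam a c :=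
    fun c h1 h3 => (B.out _ ht a hat c h1 h3).symm
  have hlo : D.lo (child s a) = hi s := by
    refine le_antisymm (Finset.sup_le fun c hc => ?_) ?_
    · obtain ⟨h1, h3⟩ := Finset.mem_sdiff.1 hc
      rw [hp c h1 h3]
      by_cases h4 : c ∈ s
      · exact (lam_sib B hs h2 ha h4 h3).le
      · exact (out_le B hs ha h1 h4).trans hlt.le
    · rw [← hl, ← hp b (hs.2.1 hb) hbt]
      exact B.le_lo _ b (hs.2.1 hb) hbt
  have hdeg : ∑ c ∈ s \ child s a, D.m c + D.deg (child s a) = D.deg s := Finset.sum_sdiff hsub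
  refine ⟨ht, fun h => hbt (h ▸ hs.2.1 hb), ?_, hlo, by omega, ?_, ?_⟩
  · ext c
    rw [Dat.par, Finset.mem_filter, hlo]
    by_cases h3 : c ∈ child s a
    · exact ⟨fun _ => hsub h3, fun h => ⟨hs.2.1 h, Or.inl h3⟩⟩
    · constructor
      · rintro ⟨h1, h4 | h4⟩
        · exact absurd h4 h3
        · by_contra hn
          rw [hp c h1 h3] at h4
          exact (h4.symm.trans_le (out_le B hs ha h1 hn)).not_gt hlt
      · exact fun h => ⟨hs.2.1 h, Or.inr ((hp c (hs.2.1 h) h3).trans (lam_sib B hs h2 ha h h3))⟩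
  · have e : D.Z \ child s a = (D.Z \ s) ∪ (s \ child s a) :=
      (Finset.sdiff_union_sdiff_cancel hs.2.1 hsub).symm
    have hd : Disjoint (D.Z \ s) (s \ child s a) :=
      Finset.sdiff_disjoint.mono_right Finset.sdiff_subset
    rw [Dat.MM, Dat.MM, e, Finset.sum_union hd, add_assoc, ← hdeg, Nat.add_sub_cancel,
      Finset.sum_smul]
    congr 2
    · refine Finset.sum_congr rfl fun c hc => ?_
      obtain ⟨h1, h3⟩ := Finset.mem_sdiff.1 hc
      rw [hp c h1 fun h => h3 (hsub h), B.out s hs a ha c h1 h3]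
    · refine Finset.sum_congr rfl fun c hc => ?_
      obtain ⟨h1, h3⟩ := Finset.mem_sdiff.1 hc
      rw [hp c (hs.2.1 h1) h3, lam_sib B hs h2 ha h1 h3]
  · have e : ∏ c ∈ child s a, (X - C (dir s c)) ^ D.m c =
        (X - C (dir s a)) ^ D.deg (child s a) := by
      rw [Dat.deg, ← Finset.prod_pow_eq_pow_sum]
      exact Finset.prod_congr rfl fun c hc => by rw [(mem_child'.1 hc).2]
    have h0 : ¬IsRoot (∏ c ∈ s \ child s a, (X - C (dir s c)) ^ D.m c) (dir s a) := by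
      rw [IsRoot.def, eval_prod]
      refine Finset.prod_ne_zero_iff.2 fun c hc => ?_
      obtain ⟨h1, h3⟩ := Finset.mem_sdiff.1 hc
      rw [eval_pow, eval_sub, eval_X, eval_C]
      exact pow_ne_zero _ (sub_ne_zero.2 fun h => h3 (mem_child'.2 ⟨h1, h.symm⟩))
    rw [Dat.PP, ← Finset.prod_sdiff hsub, e, rootMultiplicity_mul_X_sub_C_pow
      fun h => h0 (by rw [h]; exact IsRoot.def.2 eval_zero), rootMultiplicity_eq_zero h0, zero_add]

theorem par_cl (B : CB D) (hs : D.IsCl s) (hZ : s ≠ D.Z) :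
    D.IsCl (D.par s) ∧ 2 ≤ (D.par s).card ∧ s ⊂ D.par s ∧ ∀ a ∈ s, child (D.par s) a = s := by
  obtain ⟨c, hc, hcs, hl⟩ := B.lo_att s hs hZ
  have hp := B.pick_mem s hs
  have hin : ∀ a ∈ s, ∀ b ∈ s, a ≠ b → D.lo s < lam a b := fun a ha b hb hab => by
    rw [← hl, ← B.out s hs a ha c hc hcs]
    exact hs.2.2 a ha b hb hab c hc hcs
  have hm : ∀ b, b ∈ D.par s ↔ b ∈ D.Z ∧ (b = pick s ∨ D.lo s ≤ lam (pick s) b) := by
    intro b
    rw [Dat.par, Finset.mem_filter]
    refine and_congr_right fun hb => ⟨?_, ?_⟩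
    · rintro (h | h)
      · by_cases e : b = pick s
        · exact Or.inl e
        · exact Or.inr (hin _ hp b h (Ne.symm e)).le
      · exact Or.inr h.ge
    · rintro (rfl | h)
      · exact Or.inl hp
      · by_cases e : b ∈ s
        · exact Or.inl e
        · exact Or.inr (le_antisymm (B.le_lo s b hb e) h)
  have hP : D.IsCl (D.par s) :=
    B.ball _ (hs.2.1 hp) (Set.Ici (D.lo s)) _ (isUpperSet_Ici _) hm
  have hsub : s ⊆ D.par s := fun b hb => Finset.mem_filter.2 ⟨hs.2.1 hb, Or.inl hb⟩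
  have hcP : c ∈ D.par s := Finset.mem_filter.2 ⟨hc, Or.inr hl⟩
  have hss : s ⊂ D.par s := (Finset.ssubset_iff_of_subset hsub).2 ⟨c, hcP, hcs⟩
  have h2 : 2 ≤ (D.par s).card :=
    Finset.one_lt_card.2 ⟨_, hsub hp, c, hcP, fun h => hcs (h ▸ hp)⟩
  have hh : hi (D.par s) = D.lo s := by
    refine le_antisymm (hl ▸ B.hi_le _ hP _ (hsub hp) c hcP fun h => hcs (h ▸ hp)) ?_
    obtain ⟨b, hb, hne, e⟩ := B.hi_att _ hP h2 _ (hsub hp)
    rw [← e]
    exact ((hm b).1 hb).2.resolve_left hne.symm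
  refine ⟨hP, h2, hss, fun a ha => ?_⟩
  ext b
  rw [mem_child B hP h2 (hsub ha), hh]
  constructor
  · rintro ⟨h1, rfl | h3⟩
    · exact ha
    · by_contra hn
      exact (out_le B hs ha h1 hn).not_gt h3
  · intro hb
    refine ⟨hs.2.1 hb, ?_⟩
    by_cases e : b = a
    · exact Or.inl e
    · exact Or.inr (hin a ha b hb (Ne.symm e))

theorem stab_ch (B : CB D) (I : CI D) (hs : D.IsCl s) (h2 : 2 ≤ s.card) (ha : a ∈ s)
    (g : σ → ℕ) : D.Stab (child s a) g ↔
      D.Stab s g ∧ D.ε ^ dot g (hi s) * dir s a = dir s a := by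
  obtain ⟨ht, -, hp, -⟩ := ch_cl B hs h2 ha
  constructor
  · intro h
    have h1 := I.par g _ ht
    rw [show D.acts g (child s a) = child s a from h, hp] at h1
    refine ⟨h1.symm, ?_⟩
    rw [← dir_act I hs h1.symm]
    exact (mem_child'.1 (act_mem h (mem_child'.2 ⟨ha, rfl⟩))).2
  · rintro ⟨h1, h3⟩
    have h4 := I.child g s a hs
    rw [show D.acts g s = s from h1] at h4
    refine h4.symm.trans ?_
    ext b
    rw [mem_child', mem_child', dir_act I hs h1, h3]

end CCP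

theorem p_CC (h : S_CA) (hB : S_CB) (hI : S_CI) : S_CC := by
  intro σ k _ _ _ _ _ D
  have A : CA D := h _ _ D
  have B : CB D := hB _ _ D
  have I : CI D := hI _ _ D
  exact ⟨fun s hs => CCP.stab A B I hs, fun s hs => CCP.MM_mem A B I hs,
    fun s μ hμ => CCP.mem_of_fix A hμ fun g hg => CCP.ctr_fix I hg,
    fun s hs => CCP.PP_mem A I hs, fun s hs h2 a ha => CCP.ch_cl B hs h2 ha,
    fun s hs => CCP.par_cl B hs, fun s hs h2 a ha => CCP.stab_ch B I hs h2 ha⟩

end

end Pool.Agent.P.MP_b91a16_ag.Qo
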