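import Pool.Agent.P.MP_b91a16_ag.Qo.Spec

/-! Invariance of the cluster data under the group action. -/

set_option linter.unusedSectionVars false

open Polynomial

namespace Pool.Agent.P.MP_b91a16_ag.Qo

namespace CIP

variable {σ k : Type} [Fintype σ] [DecidableEq σ] [Field k] {D : Dat σ k}

theorem scale {ι : Type} (s : Finset ι) (d : ι → k) (m : ι → ℕ) {ξ c₁ c : k} (hξ : ξ ≠ 0)
    {p m₀ e : ℕ} (hp : p ≠ 0)
    (h : ∏ a ∈ s, (X - C (d a)) ^ m a = (X - C c₁) ^ m₀ * ((X - C c₁) ^ p - C c) ^ e) :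
    ∏ a ∈ s, (X - C (ξ * d a)) ^ m a =
      (X - C (ξ * c₁)) ^ m₀ * ((X - C (ξ * c₁)) ^ p - C (ξ ^ p * c)) ^ e := by
  have hT : ∀ t : k, compRingHom (C ξ⁻¹ * X) (X - C t) = C ξ⁻¹ * (X - C (ξ * t)) := fun t => by
    rw [coe_compRingHom_apply, sub_comp, X_comp, C_comp, mul_sub, ← C_mul,
      inv_mul_cancel_left₀ hξ]
  have hC : compRingHom (C ξ⁻¹ * X) (C c) = C ξ⁻¹ ^ p * C (ξ ^ p * c) := by
    rw [coe_compRingHom_apply, C_comp, ← C_pow, ← C_mul, ← mul_assoc, ← mul_pow,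
      inv_mul_cancel₀ hξ, one_pow, one_mul]
  have h1 := congrArg (compRingHom (C ξ⁻¹ * X)) h
  rw [map_prod, map_mul, map_pow, map_pow, map_sub _ _ (C c), map_pow, hT, hC] at h1
  simp only [map_pow, hT, mul_pow] at h1
  rw [Finset.prod_mul_distrib, Finset.prod_pow_eq_pow_sum, ← mul_sub, mul_pow, ← pow_mul,
    mul_mul_mul_comm, ← pow_add, ← C_pow, ← C_pow] at h1
  have m1 : Monic (∏ a ∈ s, (X - C (ξ * d a)) ^ m a) :=
    monic_prod_of_monic _ _ fun a _ => (monic_X_sub_C _).pow _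
  have m2 : Monic ((X - C (ξ * c₁)) ^ m₀ * ((X - C (ξ * c₁)) ^ p - C (ξ ^ p * c)) ^ e) := by
    refine ((monic_X_sub_C _).pow _).mul (Monic.pow (((monic_X_sub_C _).pow _).sub_of_left ?_) _)
    refine degree_C_le.trans_lt ?_
    rw [degree_pow, degree_X_sub_C, nsmul_one]
    exact_mod_cast Nat.pos_of_ne_zero hp
  have h2 := congrArg leadingCoeff h1
  rw [leadingCoeff_mul, leadingCoeff_mul, m1.leadingCoeff, m2.leadingCoeff, mul_one, mul_one,
    leadingCoeff_C, leadingCoeff_C] at h2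
  rw [h2] at h1
  exact mul_left_cancel₀ (C_ne_zero.2 (pow_ne_zero _ (inv_ne_zero hξ))) h1

theorem acts_add (h : CA D) (g g' : σ → ℕ) (s : Finset (R0 σ k)) :
    D.acts (g + g') s = D.acts g (D.acts g' s) := by
  unfold Dat.acts
  rw [Finset.image_image]
  exact Finset.image_congr fun a _ => h.act_add g g' a

theorem acts_zero (h : CA D) (s : Finset (R0 σ k)) : D.acts 0 s = s := by
  unfold Dat.acts
  rw [Finset.image_congr (g := id) fun a _ => h.act_zero a, Finset.image_id]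

theorem acts_inv (h : CA D) (g : σ → ℕ) : ∃ g', ∀ s, D.acts g' (D.acts g s) = s := by
  refine ⟨(D.n - 1) • g, fun s => ?_⟩
  rw [← acts_add h, ← succ_nsmul, Nat.sub_add_cancel (Nat.pos_of_ne_zero D.hn)]
  unfold Dat.acts
  rw [Finset.image_congr (g := id) fun a _ => h.act_n g a, Finset.image_id]

theorem card (h : CA D) (g : σ → ℕ) (s : Finset (R0 σ k)) : (D.acts g s).card = s.card :=
  Finset.card_image_of_injective _ (h.act_inj g)

theorem mem {g : σ → ℕ} {s : Finset (R0 σ k)} {b : R0 σ k} :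
    b ∈ D.acts g s ↔ ∃ a ∈ s, D.act g a = b := Finset.mem_image

theorem mem' (h : CA D) {g : σ → ℕ} {s : Finset (R0 σ k)} {a : R0 σ k} :
    D.act g a ∈ D.acts g s ↔ a ∈ s := (h.act_inj g).mem_finset_image

theorem top (h : CA D) (g : σ → ℕ) : D.acts g D.Z = D.Z := by
  refine Finset.eq_of_subset_of_card_le (fun b hb => ?_) (card h g _).ge
  obtain ⟨a, ha, rfl⟩ := mem.1 hb
  exact (h.act_mem g a ha).1

theorem sdiff (h : CA D) (g : σ → ℕ) (s : Finset (R0 σ k)) :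
    D.Z \ D.acts g s = (D.Z \ s).image (D.act g) := by
  rw [Finset.image_sdiff _ _ (h.act_inj g)]
  exact congrArg (· \ D.acts g s) (top h g).symm

theorem cl (h : CA D) (g : σ → ℕ) {s : Finset (R0 σ k)} (hs : D.IsCl s) :
    D.IsCl (D.acts g s) := by
  refine ⟨hs.1.image _, ?_, ?_⟩
  · rw [← top h g]
    exact Finset.image_subset_image hs.2.1
  · intro a ha b hb hab c hc hcs
    rw [← top h g] at hc
    obtain ⟨a', ha', rfl⟩ := mem.1 ha
    obtain ⟨b', hb', rfl⟩ := mem.1 hb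
    obtain ⟨c', hc', rfl⟩ := mem.1 hc
    rw [h.lam_act, h.lam_act]
    exact hs.2.2 a' ha' b' hb' (fun e => hab (congrArg _ e)) c' hc' fun e => hcs ((mem' h).2 e)

theorem pk (h : CA D) (hB : CB D) (g : σ → ℕ) {s : Finset (R0 σ k)} (hs : D.IsCl s)
    {c : R0 σ k} (hc : c ∈ D.Z) (hcs : c ∉ s) :
    lam (pick (D.acts g s)) (D.act g c) = lam (pick s) c := by
  obtain ⟨a, ha, e⟩ := mem.1 (hB.pick_mem _ (cl h g hs))
  rw [← e, h.lam_act, hB.out s hs a ha c hc hcs]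

theorem lo (h : CA D) (hB : CB D) (g : σ → ℕ) {s : Finset (R0 σ k)} (hs : D.IsCl s) :
    D.lo (D.acts g s) = D.lo s := by
  unfold Dat.lo
  rw [sdiff h, Finset.sup_image]
  exact Finset.sup_congr rfl fun c hc =>
    pk h hB g hs (Finset.mem_sdiff.1 hc).1 (Finset.mem_sdiff.1 hc).2

theorem hi_small (hB : CB D) {s : Finset (R0 σ k)} (hs : D.IsCl s) (h2 : ¬2 ≤ s.card) :
    hi s = 0 := by
  refine dif_neg fun hne => h2 ?_
  have h1 := Finset.card_erase_of_mem (hB.pick_mem s hs)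
  have h3 := hne.card_pos
  omega

theorem hi_eq (h : CA D) (hB : CB D) (g : σ → ℕ) {s : Finset (R0 σ k)} (hs : D.IsCl s) :
    hi (D.acts g s) = hi s := by
  have hs' := cl h g hs
  by_cases h2 : 2 ≤ s.card
  · refine le_antisymm ?_ ?_
    · obtain ⟨b, hb, hab, e⟩ := hB.hi_att s hs h2 _ (hB.pick_mem s hs)
      rw [← e, ← h.lam_act g]
      exact hB.hi_le _ hs' _ ((mem' h).2 (hB.pick_mem s hs)) _ ((mem' h).2 hb)
        fun e' => hab (h.act_inj g e')
    · obtain ⟨b, hb, hab, e⟩ := hB.hi_att _ hs' (by rwa [card h]) _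
        ((mem' h).2 (hB.pick_mem s hs))
      obtain ⟨b', hb', rfl⟩ := mem.1 hb
      rw [← e, h.lam_act]
      exact hB.hi_le s hs _ (hB.pick_mem s hs) b' hb' fun e' => hab (congrArg _ e')
  · rw [hi_small hB hs h2, hi_small hB hs' (by rwa [card h])]

theorem MM (h : CA D) (hB : CB D) (g : σ → ℕ) {s : Finset (R0 σ k)} (hs : D.IsCl s) :
    D.MM (D.acts g s) = D.MM s := by
  unfold Dat.MM
  rw [sdiff h, Finset.sum_image fun a _ b _ e => h.act_inj g e]
  refine congrArg _ (Finset.sum_congr rfl fun c hc => ?_)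
  rw [pk h hB g hs (Finset.mem_sdiff.1 hc).1 (Finset.mem_sdiff.1 hc).2,
    (h.act_mem g c (Finset.mem_sdiff.1 hc).1).2]

theorem stab (h : CA D) (g g' : σ → ℕ) (s : Finset (R0 σ k)) :
    D.Stab (D.acts g s) g' ↔ D.Stab s g' := by
  unfold Dat.Stab
  rw [← acts_add h, add_comm, acts_add h]
  exact (Finset.image_injective (h.act_inj g)).eq_iff

theorem Lam (h : CA D) (g : σ → ℕ) (s : Finset (R0 σ k)) : D.Lam (D.acts g s) = D.Lam s := by
  ext μ
  exact forall_congr' fun g' => imp_congr_left (stab h g g' s)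

theorem ctr_eq (h : CA D) (g : σ → ℕ) (s : Finset (R0 σ k)) :
    ctr (D.acts g s) = D.act g (ctr s) := by
  unfold ctr
  rw [card h]
  unfold Dat.acts
  rw [Finset.sum_image fun a _ b _ e => h.act_inj g e, ← map_sum]
  ext μ
  rw [h.coeff_act, MvPowerSeries.coeff_smul, MvPowerSeries.coeff_smul, h.coeff_act]
  ring

theorem dir_eq (h : CA D) (hB : CB D) (g : σ → ℕ) {s : Finset (R0 σ k)} (a : R0 σ k)
    (hs : D.IsCl s) : dir (D.acts g s) (D.act g a) = D.ε ^ dot g (hi s) * dir s a := by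
  unfold dir
  rw [hi_eq h hB g hs, ctr_eq h, ← map_sub, h.coeff_act]

theorem eps (μ : ℕ) : D.ε ^ μ ≠ 0 := pow_ne_zero _ (D.hε.ne_zero D.hn)

theorem bad (h : CA D) (hB : CB D) (g : σ → ℕ) {s : Finset (R0 σ k)} (i : σ) (hs : D.IsCl s)
    (hb : D.Bad s i) : D.Bad (D.acts g s) i := by
  obtain ⟨p, m₀, e, c₁, c, h1, h2, h3, h4, h5, h6, h7, h8, h9⟩ := hb
  have hp : p ≠ 0 := fun h0 => D.hn (by rw [← h2, h0, zero_mul])
  refine ⟨p, m₀, e, D.ε ^ dot g (hi s) * c₁, (D.ε ^ dot g (hi s)) ^ p * c, ?_, ?_, ?_, ?_, h5, h6,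
    fun h0 => by rw [h7 h0, mul_zero], ?_, ?_⟩
  · rw [MM h hB g hs, h1]
  · rw [hi_eq h hB g hs, h2]
  · rwa [hi_eq h hB g hs, Lam h]
  · exact mul_ne_zero (pow_ne_zero _ (eps _)) h4
  · rw [← scale s (dir s) D.m (eps _) hp h8]
    unfold Dat.PP
    rw [show ∏ a ∈ D.acts g s, (X - C (dir (D.acts g s) a)) ^ D.m a = _ from
      Finset.prod_image fun a _ b _ e => h.act_inj g e]
    refine Finset.prod_congr rfl fun a ha => ?_
    rw [dir_eq h hB g a hs, (h.act_mem g a (hs.2.1 ha)).2]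
  · intro a ha b hb hab hd
    obtain ⟨a', ha', rfl⟩ := mem.1 ha
    obtain ⟨b', hb', rfl⟩ := mem.1 hb
    rw [dir_eq h hB g a' hs, dir_eq h hB g b' hs] at hd
    rw [hi_eq h hB g hs, h.lam_act]
    exact h9 a' ha' b' hb' (fun e => hab (congrArg _ e)) (mul_left_cancel₀ (eps _) hd)

theorem par (h : CA D) (hB : CB D) (g : σ → ℕ) {s : Finset (R0 σ k)} (hs : D.IsCl s) :
    D.par (D.acts g s) = D.acts g (D.par s) := by
  have key : ∀ c ∈ D.Z, (D.act g c ∈ D.acts g s ∨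
      lam (pick (D.acts g s)) (D.act g c) = D.lo (D.acts g s)) ↔
      (c ∈ s ∨ lam (pick s) c = D.lo s) := fun c hc => by
    rw [mem' h, lo h hB g hs]
    by_cases hcs : c ∈ s
    · simp [hcs]
    · rw [pk h hB g hs hc hcs]
  ext b
  rw [mem]
  unfold Dat.par
  simp only [Finset.mem_filter]
  constructor
  · rintro ⟨hb, hb'⟩
    rw [← top h g] at hb
    obtain ⟨c, hc, rfl⟩ := mem.1 hb
    exact ⟨c, ⟨hc, (key c hc).1 hb'⟩, rfl⟩
  · rintro ⟨c, ⟨hc, hc'⟩, rfl⟩
    exact ⟨(h.act_mem g c hc).1, (key c hc).2 hc'⟩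

theorem child_eq (h : CA D) (hB : CB D) (g : σ → ℕ) {s : Finset (R0 σ k)} (a : R0 σ k)
    (hs : D.IsCl s) : child (D.acts g s) (D.act g a) = D.acts g (child s a) := by
  ext b
  rw [mem]
  unfold child
  simp only [Finset.mem_filter]
  constructor
  · rintro ⟨hb, hb'⟩
    obtain ⟨c, hc, rfl⟩ := mem.1 hb
    rw [dir_eq h hB g c hs, dir_eq h hB g a hs] at hb'
    exact ⟨c, ⟨hc, mul_left_cancel₀ (eps _) hb'⟩, rfl⟩
  · rintro ⟨c, ⟨hc, hc'⟩, rfl⟩
    exact ⟨(mem' h).2 hc, by rw [dir_eq h hB g c hs, dir_eq h hB g a hs, hc']⟩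

theorem rep_act (h : CA D) (g : σ → ℕ) (s : Finset (R0 σ k)) :
    D.rep (D.acts g s) = D.rep s := by
  unfold Dat.rep
  refine congrArg _ (funext fun t => propext ⟨?_, ?_⟩)
  · rintro ⟨g', rfl⟩
    exact ⟨g' + g, (acts_add h g' g s).symm⟩
  · rintro ⟨g', rfl⟩
    obtain ⟨g₀, e⟩ := acts_inv h g
    exact ⟨g' + g₀, by rw [acts_add h, e]⟩

end CIP

theorem p_CI (h : S_CA) (hB : S_CB) : S_CI := by
  intro σ k _ _ _ _ _ D
  have h : CA D := h _ _ D
  have hB : CB D := hB _ _ D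
  exact
    { cl := fun g _ hs => CIP.cl h g hs
      card := CIP.card h
      deg := fun g s hs => by
        unfold Dat.deg Dat.acts
        rw [Finset.sum_image fun a _ b _ e => h.act_inj g e]
        exact Finset.sum_congr rfl fun a ha => (h.act_mem g a (hs.2.1 ha)).2
      lo := fun g _ hs => CIP.lo h hB g hs
      hi := fun g _ hs => CIP.hi_eq h hB g hs
      MM := fun g _ hs => CIP.MM h hB g hs
      Lam := CIP.Lam h
      ctr := CIP.ctr_eq h
      dir := fun g _ a hs => CIP.dir_eq h hB g a hs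
      bad := fun g _ i hs hb => CIP.bad h hB g i hs hb
      par := fun g _ hs => CIP.par h hB g hs
      child := fun g _ a hs => CIP.child_eq h hB g a hs
      acts_add := CIP.acts_add h
      acts_inv := CIP.acts_inv h
      top := CIP.top h
      rep_eq := fun s => Classical.epsilon_spec (p := fun t => ∃ g, t = D.acts g s)
        ⟨s, 0, (CIP.acts_zero h s).symm⟩
      rep_act := CIP.rep_act h }

end Pool.Agent.P.MP_b91a16_ag.Qo
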