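import Pool.Agent.P.MP_b91a16_ag.Qo.Spec

/-! Quasi-ordinary polynomials: the residue form on the normal cone of a stratum. -/

set_option linter.unusedSectionVars false

open Polynomial

namespace Pool.Agent.P.MP_b91a16_ag.Qo

noncomputable section

namespace ChartP

section Abs

variable {A R S : Type} [CommRing A] [CommRing R] [CommRing S]

/-- Additive maps with the Leibniz rule. -/
def IsD (d : A →+ A) : Prop := ∀ a b, d (a * b) = a * d b + b * d a

variable {d D : A →+ A}

theorem IsD.one (h : IsD d) : d 1 = 0 := by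
  have := h 1 1
  rw [one_mul, one_mul] at this
  exact left_eq_add.1 this

theorem IsD.nat (h : IsD d) (n : ℕ) : d n = 0 := by
  rw [← nsmul_one, map_nsmul, h.one, nsmul_zero]

theorem IsD.pow (h : IsD d) (x : A) (n : ℕ) : x * d (x ^ n) = n * x ^ n * d x := by
  induction n with
  | zero => simp [h.one]
  | succ n ih => rw [pow_succ, h]; push_cast; linear_combination x * ih

theorem IsD.pow0 (h : IsD d) {x : A} (hx : d x = 0) (n : ℕ) : d (x ^ n) = 0 := by
  induction n with
  | zero => simp [h.one]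
  | succ n ih => rw [pow_succ, h, hx, ih]; simp

theorem IsD.inv (h : IsD d) {x y : A} (e : x * y = 1) : d y = -(y * y * d x) := by
  have h1 := h x y
  rw [e, h.one] at h1
  linear_combination (-y) * h1 - d y * e

theorem IsD.invpow (h : IsD d) {x y : A} (e : x * y = 1) (n : ℕ) :
    d (y ^ n) = -(n * y ^ (n + 1) * d x) := by
  have h1 := h.pow y n
  rw [h.inv e] at h1
  linear_combination x * h1 - (d (y ^ n) + n * y ^ (n + 1) * d x) * e

theorem IsD.prod0 {ι : Type} (h : IsD d) (s : Finset ι) (g : ι → A) (hg : ∀ i ∈ s, d (g i) = 0) :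
    d (∏ i ∈ s, g i) = 0 :=
  Finset.prod_induction g (fun x => d x = 0) (fun a b ha hb => by rw [h, ha, hb]; simp) h.one hg

def pd (d : A →+ A) : PowerSeries A →+ PowerSeries A :=
  AddMonoidHom.mk' (fun φ => PowerSeries.mk fun n => d (PowerSeries.coeff n φ)) fun φ ψ => by
    ext n; simp

theorem coeff_pd (φ : PowerSeries A) (n : ℕ) :
    PowerSeries.coeff n (pd d φ) = d (PowerSeries.coeff n φ) := by simp [pd]

theorem IsD.pd (h : IsD d) : IsD (pd d) := fun φ ψ => by
  ext n
  rw [mul_comm ψ, coeff_pd, map_add, PowerSeries.coeff_mul, PowerSeries.coeff_mul,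
    PowerSeries.coeff_mul, map_sum, ← Finset.sum_add_distrib]
  refine Finset.sum_congr rfl fun p _ => ?_
  rw [h, coeff_pd, coeff_pd, mul_comm (d _)]

theorem pd_C (a : A) : pd d (PowerSeries.C a) = PowerSeries.C (d a) := by
  ext n
  rw [coeff_pd, PowerSeries.coeff_C, PowerSeries.coeff_C, apply_ite d, map_zero]

theorem IsD.pd_X (h : IsD d) : ChartP.pd d PowerSeries.X = 0 := by
  ext n
  rw [coeff_pd, PowerSeries.coeff_X, apply_ite d, map_zero, h.one, ite_self, map_zero]

theorem IsD.pd_mul (h : IsD d) (n : ℕ) (φ : PowerSeries A) :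
    ChartP.pd d (PowerSeries.X ^ n * φ) = PowerSeries.X ^ n * ChartP.pd d φ := by
  rw [h.pd, h.pd.pow0 h.pd_X, mul_zero, add_zero]

theorem pd_map {j : R →+* A} {d' : R →+ R} (h : ∀ a, d (j a) = j (d' a)) (φ : PowerSeries R) :
    pd d (PowerSeries.map j φ) = PowerSeries.map j (pd d' φ) := by
  ext n
  rw [coeff_pd, PowerSeries.coeff_map, PowerSeries.coeff_map, coeff_pd, h]

theorem exP {d : R →+ R} (h : IsD d) :
    ∃ D : R[X] →+ R[X], IsD D ∧ (∀ a, D (C a) = C (d a)) ∧ D X = 0 := by
  have e : ∀ (p : R[X]) i, (p.sum fun n a => monomial n (d a)).coeff i = d (p.coeff i) := by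
    intro p i
    rw [coeff_sum, sum_def, Finset.sum_eq_single i]
    · simp
    · intro b _ hb; simp [coeff_monomial, hb]
    · intro hi; rw [notMem_support_iff.1 hi]; simp
  let D : R[X] →+ R[X] := AddMonoidHom.mk' (fun p => p.sum fun n a => monomial n (d a))
    fun p q => by ext i; simp only [e, coeff_add, map_add]
  have eD : ∀ p i, (D p).coeff i = d (p.coeff i) := e
  refine ⟨D, fun p q => ?_, fun a => ?_, ?_⟩
  · ext n
    rw [mul_comm q, eD, coeff_add, coeff_mul, coeff_mul, coeff_mul, map_sum,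
      ← Finset.sum_add_distrib]
    refine Finset.sum_congr rfl fun p _ => ?_
    rw [h, eD, eD, mul_comm (d _)]
  · ext n; rw [eD, coeff_C, coeff_C, apply_ite d, map_zero]
  · ext n; rw [eD, coeff_X, apply_ite d, map_zero, h.one, ite_self, coeff_zero]

theorem exM {τ : Type} [DecidableEq τ] {d : R →+ R} (h : IsD d) :
    ∃ D : MvPolynomial τ R →+ MvPolynomial τ R, IsD D ∧
      ∀ p ν, MvPolynomial.coeff ν (D p) = d (MvPolynomial.coeff ν p) := by
  have e : ∀ (p : MvPolynomial τ R) ν, MvPolynomial.coeff ν (∑ μ ∈ p.support,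
      MvPolynomial.monomial μ (d (MvPolynomial.coeff μ p))) = d (MvPolynomial.coeff ν p) := by
    intro p i
    rw [MvPolynomial.coeff_sum, Finset.sum_eq_single i]
    · simp
    · intro b _ hb; simp [MvPolynomial.coeff_monomial, hb]
    · intro hi; rw [MvPolynomial.notMem_support_iff.1 hi]; simp
  let D : MvPolynomial τ R →+ MvPolynomial τ R := AddMonoidHom.mk' (fun p => ∑ μ ∈ p.support,
      MvPolynomial.monomial μ (d (MvPolynomial.coeff μ p)))
    fun p q => by ext i; rw [MvPolynomial.coeff_add, e, e, e, MvPolynomial.coeff_add, map_add]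
  have eD : ∀ p ν, MvPolynomial.coeff ν (D p) = d (MvPolynomial.coeff ν p) := fun p ν => e p ν
  refine ⟨D, fun p q => ?_, eD⟩
  ext n
  rw [mul_comm q, eD, MvPolynomial.coeff_add, MvPolynomial.coeff_mul, MvPolynomial.coeff_mul,
    MvPolynomial.coeff_mul, map_sum, ← Finset.sum_add_distrib]
  refine Finset.sum_congr rfl fun p _ => ?_
  rw [h, eD, eD, mul_comm (d _)]

/-- The chain rule along a ring map out of a polynomial ring. -/
theorem chainP (χ : R[X] →+* S) {δ : S →+ S} (hδ : IsD δ) {d : R[X] →+ R[X]} (hd : IsD d) (t : S)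
    (hC : ∀ a, δ (χ (C a)) = t * χ (d (C a))) (hX : δ (χ X) = t * χ (d X)) (P : R[X]) :
    δ (χ P) = t * χ (d P) := by
  induction P using Polynomial.induction_on with
  | C a => exact hC a
  | add p q hp hq => simp only [map_add, hp, hq, mul_add]
  | monomial n a ih =>
    rw [pow_succ, ← mul_assoc, hd, map_mul, hδ, ih, hX, map_add, map_mul χ _ (d X),
      map_mul χ X]
    ring

/-- `U = 1 / F` and `G = (f / F) ^ α`. -/
structure Core (F U G : PowerSeries A) (f u α : A) : Prop where
  FU : F * U = 1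
  fu : f * u = 1
  G0 : PowerSeries.constantCoeff G = 1
  dG : ∀ d, IsD d →
    pd d G = -(PowerSeries.C α * G * (U * pd d F - PowerSeries.C (u * d f)))

theorem exCore (F : PowerSeries A) (f u α : A) (a b : ℕ) (hb : IsUnit (b : A))
    (hF : PowerSeries.constantCoeff F = f) (fu : f * u = 1) (hα : b * α = a)
    (h : ∀ v : PowerSeries A, PowerSeries.constantCoeff v = 1 →
      ∃ θ : PowerSeries A, PowerSeries.constantCoeff θ = 1 ∧ θ ^ b = v) :
    ∃ U G, Core F U G f u α := by
  have FU := PowerSeries.mul_invOfUnit F (Units.mkOfMulEqOne f u fu) hF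
  set U := F.invOfUnit (Units.mkOfMulEqOne f u fu)
  have W0 : PowerSeries.constantCoeff (PowerSeries.C f * U) = 1 := by
    have := congrArg PowerSeries.constantCoeff FU
    rw [map_mul, hF, map_one] at this
    rw [map_mul, PowerSeries.constantCoeff_C, this]
  obtain ⟨G, G0, hG⟩ := h ((PowerSeries.C f * U) ^ a) (by rw [map_pow, W0, one_pow])
  refine ⟨U, G, FU, fu, G0, fun d hd => ?_⟩
  have e1 := hd.pd.pow G b
  have e2 := hd.pd.pow (PowerSeries.C f * U) a
  have e3 := hd.pd (PowerSeries.C f) U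
  rw [hd.pd.inv FU, pd_C] at e3
  rw [hG] at e1
  have c1 : PowerSeries.C f * PowerSeries.C u = (1 : PowerSeries A) := by
    rw [← map_mul, fu, map_one]
  have c2 : (b : PowerSeries A) * PowerSeries.C α = a := by
    rw [← map_natCast PowerSeries.C, ← map_mul, hα, map_natCast]
  have c3 : PowerSeries.C f * U * (PowerSeries.C u * F) = 1 := by
    linear_combination (U * F) * c1 + FU
  have c4 : IsUnit ((PowerSeries.C f * U) ^ a) := (IsUnit.of_mul_eq_one _ c3).pow a
  have c5 : IsUnit (b : PowerSeries A) := by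
    rw [← map_natCast PowerSeries.C]; exact hb.map _
  have e4 : (b : PowerSeries A) * (PowerSeries.C f * U) * pd d G =
      a * G * pd d (PowerSeries.C f * U) :=
    c4.mul_left_cancel (by linear_combination G * e2 - (PowerSeries.C f * U) * e1)
  refine c5.mul_left_cancel ?_
  rw [e3, ← c2] at e4
  rw [map_mul]
  linear_combination (PowerSeries.C u * F) * e4 - (b * pd d G) * c3 -
    (b * PowerSeries.C α * G * U * pd d F) * c3 +
    (b * PowerSeries.C α * G * PowerSeries.C u * PowerSeries.C (d f)) * FU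

variable {F U G : PowerSeries A} {f u α : A}

def nab (f u α : A) (d : A →+ A) (x : A) : A := d x - α * u * d f * x

def Lam (χ : S →+* PowerSeries A) (U G : PowerSeries A) (N q K : ℕ) (P : S) : A :=
  PowerSeries.coeff (q + K * N) (χ P * U ^ K * G)

variable {χ : S →+* PowerSeries A} {N q K : ℕ}

theorem Lam_add (P Q : S) : Lam χ U G N q K (P + Q) = Lam χ U G N q K P + Lam χ U G N q K Q := by
  simp only [Lam, map_add, add_mul]

theorem Lam_sub (P Q : S) : Lam χ U G N q K (P - Q) = Lam χ U G N q K P - Lam χ U G N q K Q := by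
  simp only [Lam, map_sub, sub_mul]

theorem Lam_C {r : S} {x : A} (h : χ r = PowerSeries.C x) (P : S) :
    Lam χ U G N q K (r * P) = x * Lam χ U G N q K P := by
  rw [Lam, Lam, map_mul χ, h, mul_assoc, mul_assoc, mul_assoc, PowerSeries.coeff_C_mul]

theorem Core.Lam_F (h : Core F U G f u α) {F' : S} (hF : χ F' = PowerSeries.X ^ N * F) (P : S) :
    Lam χ U G N q (K + 1) (F' * P) = Lam χ U G N q K P := by
  have e : χ (F' * P) * U ^ (K + 1) * G = PowerSeries.X ^ N * (χ P * U ^ K * G) := by
    rw [map_mul, hF]; linear_combination (PowerSeries.X ^ N * χ P * U ^ K * G) * h.FU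
  rw [Lam, e, show q + (K + 1) * N = q + K * N + N by ring, PowerSeries.coeff_X_pow_mul, Lam]

theorem Core.key (h : Core F U G f u α) {F' α' : S} (hF : χ F' = PowerSeries.X ^ N * F)
    (hα : χ α' = PowerSeries.C α) (hd : IsD d) {d' : S →+ S} {w : ℕ}
    (hc : ∀ P, pd d (χ P) = PowerSeries.X ^ w * χ (d' P)) (P : S) :
    Lam χ U G N q (K + 1) (F' * d' P - (α' + K) * P * d' F') =
      nab f u α d (Lam χ U G N (q + w) K P) := by
  have e1 := hc F'
  rw [hF, hd.pd_mul] at e1
  have e2 : PowerSeries.X ^ w * (χ (F' * d' P - (α' + K) * P * d' F') * U ^ (K + 1) * G) =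
      PowerSeries.X ^ N * (pd d (χ P * U ^ K * G) -
        PowerSeries.C (α * u * d f) * (χ P * U ^ K * G)) := by
    rw [hd.pd, hd.pd, h.dG d hd, hd.pd.invpow h.FU, hc P]
    simp only [map_sub, map_mul, map_add, map_natCast, hF, hα]
    linear_combination ((PowerSeries.C α + K) * χ P * U ^ (K + 1) * G) * e1 +
      (PowerSeries.X ^ w * PowerSeries.X ^ N * χ (d' P) * U ^ K * G) * h.FU
  have e3 := congrArg (PowerSeries.coeff (q + (K + 1) * N + w)) e2
  rw [PowerSeries.coeff_X_pow_mul, show q + (K + 1) * N + w = q + w + K * N + N by ring,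
    PowerSeries.coeff_X_pow_mul, map_sub (PowerSeries.coeff _), coeff_pd, PowerSeries.coeff_C_mul] at e3
  exact e3

theorem nab_mul (hd : IsD d) (r x : A) : nab f u α d (r * x) = r * nab f u α d x + d r * x := by
  rw [nab, nab, hd]; ring

theorem nab_add (x y : A) : nab f u α d (x + y) = nab f u α d x + nab f u α d y := by
  rw [nab, nab, nab, map_add]; ring

theorem nab_comm (fu : f * u = 1) (hd : IsD d) (hD : IsD D) (h1 : d α = 0) (h2 : D α = 0)
    (hc : ∀ x, D (d x) = d (D x)) (x : A) :
    nab f u α D (nab f u α d x) = nab f u α d (nab f u α D x) := by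
  simp only [nab, map_sub, hd _ _, hD _ _, h1, h2, hc, hd.inv fu, hD.inv fu]
  ring

variable {J : Type} {ι : R →+* A} {V : Finset J} {δ : J → A →+ A} {x y : A}

/-- Exact elements, up to a nonzero constant. -/
def Nul (ι : R →+* A) (V : Finset J) (δ : J → A →+ A) (f u α x : A) : Prop :=
  ∃ c : R, c ≠ 0 ∧ ∃ h : J → A, ι c * x = ∑ v ∈ V, nab f u α (δ v) (h v)

def Lin (ι : R →+* A) (V : Finset J) (δ : J → A →+ A) : Prop :=
  ∀ v ∈ V, IsD (δ v) ∧ ∀ r, δ v (ι r) = 0

theorem Lin.sum (H : Lin ι V δ) (r : R) (h : J → A) :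
    ι r * ∑ v ∈ V, nab f u α (δ v) (h v) = ∑ v ∈ V, nab f u α (δ v) (ι r * h v) := by
  rw [Finset.mul_sum]
  refine Finset.sum_congr rfl fun v hv => ?_
  rw [nab_mul (H v hv).1, (H v hv).2, zero_mul, add_zero]

theorem Nul.mul (H : Lin ι V δ) (r : R) (hx : Nul ι V δ f u α x) : Nul ι V δ f u α (ι r * x) := by
  obtain ⟨c, hc, h, e⟩ := hx
  exact ⟨c, hc, _, by rw [mul_left_comm, e, H.sum]⟩

variable [IsDomain R]

theorem Nul.cancel {r : R} (hr : r ≠ 0) (hx : Nul ι V δ f u α (ι r * x)) :
    Nul ι V δ f u α x := by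
  obtain ⟨c, hc, h, e⟩ := hx
  exact ⟨c * r, mul_ne_zero hc hr, h, by rw [map_mul, mul_assoc, e]⟩

theorem Nul.add (H : Lin ι V δ) (hx : Nul ι V δ f u α x) (hy : Nul ι V δ f u α y) :
    Nul ι V δ f u α (x + y) := by
  obtain ⟨c, hc, h, e⟩ := hx
  obtain ⟨c', hc', h', e'⟩ := hy
  refine ⟨c * c', mul_ne_zero hc hc', fun v => ι c' * h v + ι c * h' v, ?_⟩
  simp only [nab_add, Finset.sum_add_distrib, ← H.sum, ← e, ← e', map_mul]
  ring

theorem Nul.sub (H : Lin ι V δ) (hx : Nul ι V δ f u α x) (hy : Nul ι V δ f u α y) :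
    Nul ι V δ f u α (x - y) := by
  have := hx.add H (hy.mul H (-1))
  rwa [map_neg, map_one, neg_one_mul, ← sub_eq_add_neg] at this

theorem nul_zero : Nul ι V δ f u α 0 := ⟨1, one_ne_zero, 0, by simp [nab]⟩

theorem nul_nab [DecidableEq J] {v : J} (hv : v ∈ V) (x : A) :
    Nul ι V δ f u α (nab f u α (δ v) x) := by
  refine ⟨1, one_ne_zero, Pi.single v x, ?_⟩
  rw [Finset.sum_eq_single_of_mem v hv, map_one, one_mul, Pi.single_eq_same]
  intro b _ hb
  simp [nab, Pi.single_eq_of_ne hb]

theorem Nul.nab (H : Lin ι V δ) (fu : f * u = 1) {α' : R} (hD : IsD D) {D' : R → R}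
    (h1 : ∀ r, D (ι r) = ι (D' r)) (h2 : D (ι α') = 0) (hc : ∀ v ∈ V, ∀ x, D (δ v x) = δ v (D x))
    (hx : Nul ι V δ f u (ι α') x) : Nul ι V δ f u (ι α') (nab f u (ι α') D x) := by
  obtain ⟨c, hc0, h, e⟩ := id hx
  have e1 : Nul ι V δ f u (ι α') (ChartP.nab f u (ι α') D (ι c * x)) := by
    refine ⟨1, one_ne_zero, fun v => ChartP.nab f u (ι α') D (h v), ?_⟩
    rw [map_one, one_mul, e, ChartP.nab, map_sum, Finset.mul_sum, ← Finset.sum_sub_distrib]
    exact Finset.sum_congr rfl fun v hv =>
      nab_comm fu (H v hv).1 hD ((H v hv).2 _) h2 (hc v hv) (h v)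
  have e2 := e1.sub H (hx.mul H (D' c))
  rw [nab_mul hD, h1, add_sub_cancel_right] at e2
  exact e2.cancel hc0

end Abs

section Loc

variable {T B S : Type} [CommRing T] [CommRing B] [CommRing S] [Algebra T B]

def ofD (d : Derivation T B B) : B →+ B := AddMonoidHom.mk' d (map_add d)

theorem ofD_apply (d : Derivation T B B) (a : B) : ofD d a = d a := rfl

theorem isD_ofD (d : Derivation T B B) : IsD (ofD d) := fun a b => by
  simpa only [smul_eq_mul, ofD_apply] using d.leibniz a b

theorem exLoc (h2 : S_Der) {k : Type} [Field k] [Algebra k B] (x : B) {d : B →+ B} (hd : IsD d)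
    (hk : ∀ a : k, d (algebraMap k B a) = 0) :
    ∃ δ : Localization.Away x →+ Localization.Away x, IsD δ ∧
      ∀ a, δ (algebraMap B _ a) = algebraMap B _ (d a) := by
  let L : B →ₗ[k] B := ⟨⟨d, map_add d⟩, fun a b => by
    simp only [Algebra.smul_def, hd _ _, hk, mul_zero, add_zero, RingHom.id_apply]⟩
  obtain ⟨d', h⟩ := h2 k B x (Derivation.mk' L fun a b => hd a b)
  exact ⟨ofD d', isD_ofD d', h⟩

theorem comm_loc (x : B) {d D : Localization.Away x →+ Localization.Away x} (hd : IsD d)
    (hD : IsD D) (h : ∀ a, D (d (algebraMap B _ a)) = d (D (algebraMap B _ a)))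
    (z : Localization.Away x) : D (d z) = d (D z) := by
  obtain ⟨n, a, e⟩ := IsLocalization.Away.surj x z
  have e1 := h a
  have e2 := h (x ^ n)
  rw [← e, ← map_pow] at e1
  simp only [hd _ _, hD _ _, map_add] at e1
  refine ((IsLocalization.Away.algebraMap_isUnit x).pow n).mul_left_cancel ?_
  rw [← map_pow]
  linear_combination e1 - z * e2

theorem clear [IsDomain B] {J : Type} [Fintype J] {x : B} (hx : x ≠ 0) (V : Finset J)
    (δ : J → Localization.Away x →+ Localization.Away x) (d : J → B → B) (hδ : ∀ v, IsD (δ v))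
    (hd : ∀ v a, δ v (algebraMap B _ a) = algebraMap B _ (d v a)) (α y : B)
    (h : J → Localization.Away x) (e : algebraMap B _ y = ∑ v ∈ V,
      nab (algebraMap B _ x) (IsLocalization.Away.invSelf x) (algebraMap B _ α) (δ v) (h v)) :
    ∃ (K : ℕ) (g : J → B), y * x ^ (K + 1) = ∑ v ∈ V, (x * d v (g v) - (α + K) * g v * d v x) := by
  choose n a ha using fun v => IsLocalization.Away.surj x (h v)
  have hg : ∀ v, h v * algebraMap B _ x ^ (∑ v, n v) =
      algebraMap B _ (a v * x ^ (∑ v, n v - n v)) := fun v => by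
    have := Finset.single_le_sum (f := n) (fun _ _ => Nat.zero_le _) (Finset.mem_univ v)
    rw [map_mul, ← ha, map_pow, mul_assoc, ← pow_add, Nat.add_sub_cancel' this]
  refine ⟨∑ v, n v, fun v => a v * x ^ (∑ v, n v - n v), IsLocalization.injective
    (Localization.Away x) (powers_le_nonZeroDivisors_of_noZeroDivisors hx) ?_⟩
  rw [map_mul, e, Finset.sum_mul, map_sum]
  refine Finset.sum_congr rfl fun v _ => ?_
  have e1 := (hδ v).pow (algebraMap B _ x) (∑ v, n v)
  have e2 := IsLocalization.Away.mul_invSelf (S := Localization.Away x) x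
  rw [map_sub, map_mul, map_mul, map_mul, ← hd, ← hd, ← hg, hδ v, map_add, map_natCast, map_pow,
    nab]
  generalize (∑ v, n v) = K at *
  linear_combination (-h v) * e1 - (algebraMap B _ α * δ v (algebraMap B _ x) * h v *
    algebraMap B _ x ^ K) * e2

theorem chainM {τ : Type} [DecidableEq τ] [Algebra T S] (φ : MvPolynomial τ T →ₐ[T] S)
    {δ : S →+ S} (hδ : IsD δ) (v : τ) (t : S) (hC : ∀ a, δ (algebraMap T S a) = 0)
    (hX : ∀ o, δ (φ (MvPolynomial.X o)) = if o = v then t else 0) (g : MvPolynomial τ T) :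
    δ (φ g) = t * φ (MvPolynomial.pderiv v g) := by
  induction g using MvPolynomial.induction_on with
  | C a => rw [MvPolynomial.algHom_C, hC, MvPolynomial.pderiv_C, map_zero, mul_zero]
  | add p q hp hq => simp only [map_add, hp, hq, mul_add]
  | mul_X p o hp =>
    rw [map_mul, hδ, hp, hX, MvPolynomial.pderiv_mul, MvPolynomial.pderiv_X, Pi.single_apply,
      map_add, map_mul, map_mul]
    split_ifs <;> simp <;> ring

end Loc

section Con

variable {σ k : Type} [Fintype σ] [DecidableEq σ] [Field k] {V : Finset σ}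
  {Ψ : R0 σ k →ₐ[k] PowerSeries (P0 σ k)} {w n : ℕ} {c : R0 σ k}

abbrev dz (σ k : Type) [Field k] : (R0 σ k)[X] →+ (R0 σ k)[X] := ofD derivative'

abbrev dP (v : Option σ) : P0 σ k →+ P0 σ k := ofD (MvPolynomial.pderiv v)

theorem psi_C (a : R0 σ k) : psiX Ψ w (C a) = Ψ a := by simp [psiX]

theorem psi_X : psiX Ψ w X = PowerSeries.X ^ w * PowerSeries.C (MvPolynomial.X none) := by
  simp [psiX]

theorem psi_none (H : IsPsi V Ψ) (P : (R0 σ k)[X]) :
    pd (dP none) (psiX Ψ w P) = PowerSeries.X ^ w * psiX Ψ w (dz σ k P) := by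
  refine chainP _ (isD_ofD _).pd (isD_ofD _) _ (fun a => ?_) ?_ P
  · ext p : 1
    simp [coeff_pd, psi_C, ofD_apply, H.dz]
  · rw [psi_X, (isD_ofD _).pd_mul, pd_C]
    simp [ofD_apply]

theorem psi_in (H : IsPsi V Ψ) {v : σ} (hv : v ∈ V) {D : (R0 σ k)[X] →+ (R0 σ k)[X]} (hD : IsD D)
    (h1 : ∀ a, D (C a) = C (MvPowerSeries.pderiv k v a)) (h2 : D X = 0) (P : (R0 σ k)[X]) :
    pd (dP (some v)) (psiX Ψ w P) = PowerSeries.X ^ 1 * psiX Ψ w (D P) := by
  refine chainP _ (isD_ofD _).pd hD _ (fun a => ?_) ?_ P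
  · ext p : 1
    rw [coeff_pd, h1, psi_C, psi_C, ofD_apply]
    cases p with
    | zero => simp [H.const]
    | succ p => rw [H.dV v hv, PowerSeries.coeff_X_pow_mul]
  · rw [psi_X, (isD_ofD _).pd_mul, pd_C, h2]
    simp [ofD_apply]

theorem psi_out (H : IsPsi V Ψ) {l : σ} (hl : l ∉ V) {D : (R0 σ k)[X] →+ (R0 σ k)[X]}
    (hD : IsD D) (h1 : ∀ a, D (C a) = C (MvPowerSeries.pderiv k l a)) (h2 : D X = 0)
    {E : P0 σ k →+ P0 σ k} (hE : IsD E) (h3 : ∀ p ν, MvPolynomial.coeff ν (E p) =
      MvPowerSeries.pderiv k l (MvPolynomial.coeff ν p)) (P : (R0 σ k)[X]) :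
    pd E (psiX Ψ w P) = PowerSeries.X ^ 0 * psiX Ψ w (D P) := by
  refine chainP _ hE.pd hD _ (fun a => ?_) ?_ P
  · ext p : 1
    ext ν : 1
    rw [coeff_pd, h1, psi_C, psi_C, h3, pow_zero, one_mul, H.dO l hl]
  · have : E (MvPolynomial.X none) = 0 := by
      ext ν : 1
      rw [h3, MvPolynomial.coeff_X, apply_ite (MvPowerSeries.pderiv k l), map_zero,
        Derivation.map_one_eq_zero, ite_self, MvPolynomial.coeff_zero]
    rw [psi_X, hE.pd_mul, pd_C, h2, this]
    simp

theorem io_none (g : MvPolynomial (Option σ) k) :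
    io n c (MvPolynomial.pderiv none g) = dz σ k (io n c g) := by
  rw [chainM (io n c) (isD_ofD derivative') none 1 (fun a => ?_) (fun o => ?_) g, one_mul]
  · simp [ofD_apply]
  · cases o <;> simp [io, ofD_apply]

theorem io_some (j : σ) {D : (R0 σ k)[X] →+ (R0 σ k)[X]} (hD : IsD D)
    (h1 : ∀ a, D (C a) = C (MvPowerSeries.pderiv k j a)) (h2 : D X = 0)
    (g : MvPolynomial (Option σ) k) :
    (n : (R0 σ k)[X]) * C (MvPowerSeries.X j ^ (n - 1)) * io n c (MvPolynomial.pderiv (some j) g) =
      D (io n c g) - C (MvPowerSeries.pderiv k j c) * dz σ k (io n c g) := by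
  let δ : (R0 σ k)[X] →+ (R0 σ k)[X] := AddMonoidHom.mk'
    (fun P => D P - C (MvPowerSeries.pderiv k j c) * dz σ k P) fun P Q => by
      simp only [map_add]; ring
  have hδ : IsD δ := fun P Q => by
    simp only [δ, AddMonoidHom.mk'_apply, hD _ _, isD_ofD derivative' _ _]; ring
  refine (chainM (io n c) hδ (some j) _ (fun a => ?_) (fun o => ?_) g).symm
  · simp [δ, ofD_apply, h1, Polynomial.algebraMap_apply]
  · cases o with
    | none => simp [δ, io, ofD_apply, h1, h2]
    | some i =>
      simp only [δ, io, ofD_apply, AddMonoidHom.mk'_apply, MvPolynomial.aeval_X, Option.elim, h1,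
        MvPowerSeries.pderiv_pow, MvPowerSeries.pderiv_X, Pi.single_apply]
      by_cases e : i = j <;> simp [e]

theorem psi_const (H : IsPsi V Ψ) (hw : 0 < w) (P : (R0 σ k)[X]) :
    PowerSeries.constantCoeff (psiX Ψ w P) = MvPolynomial.C (kill V (P.coeff 0)) := by
  have : PowerSeries.constantCoeff.comp (psiX Ψ w) =
      (MvPolynomial.C.comp (kill V)).comp constantCoeff := by
    refine ringHom_ext (fun a => ?_) ?_
    · simp [psi_C, H.const]
    · simp [psi_X, hw.ne']
  exact RingHom.congr_fun this P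

theorem io_const (hn : n ≠ 0) (hc : MvPowerSeries.constantCoeff c = 0)
    (g : MvPolynomial (Option σ) k) :
    MvPowerSeries.constantCoeff (kill V ((io n c g).coeff 0)) = MvPolynomial.constantCoeff g := by
  have e : ∀ r : R0 σ k, MvPowerSeries.constantCoeff (kill V r) = MvPowerSeries.constantCoeff r :=
    fun r => by
      rw [← MvPowerSeries.coeff_zero_eq_constantCoeff_apply, kill, MvPowerSeries.coeff_rescale]
      simp
  have : (MvPowerSeries.constantCoeff.comp constantCoeff).comp (io n c).toRingHom =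
      MvPolynomial.constantCoeff := by
    refine MvPolynomial.ringHom_ext (fun a => ?_) fun o => ?_
    · simp [Polynomial.algebraMap_apply, MvPowerSeries.algebraMap_apply]
    · cases o <;> simp [io, hc, hn, -map_pow, MvPowerSeries.constantCoeff_X,
        map_pow MvPowerSeries.constantCoeff]
  rw [e]
  exact RingHom.congr_fun this g

theorem psi_J (H : IsPsi V Ψ) (m : ℕ) : Ψ (∏ j, MvPowerSeries.X j ^ m) =
    PowerSeries.X ^ (m * V.card) * PowerSeries.C ((∏ v ∈ V, MvPolynomial.X (some v) ^ m) *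
      MvPolynomial.C (∏ l ∈ Vᶜ, MvPowerSeries.X l ^ m)) := by
  rw [← Finset.prod_mul_prod_compl V, map_mul, map_prod, map_prod, map_mul, map_prod, map_prod,
    map_prod, pow_mul, ← Finset.prod_const, ← mul_assoc, ← Finset.prod_mul_distrib]
  congr 1
  · exact Finset.prod_congr rfl fun v hv => by rw [map_pow, H.inV v hv, mul_pow, map_pow]
  · exact Finset.prod_congr rfl fun l hl => by
      rw [map_pow, H.out l (Finset.mem_compl.1 hl), map_pow, map_pow]

end Con

end ChartP

open ChartP in
theorem p_Chart (h1 : S_Clo) (h2 : S_Der) (h3 : S_Nth) : S_Chart := by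
  intro σ k _ _ _ _ f n w N a b V Ψ c F B hn hw hN hb H hc hF hF0 hB hBe
  have : IsDomain (R0 σ k) := NoZeroDivisors.to_isDomain _
  have hX : ∀ (l : σ) (m : ℕ), (MvPowerSeries.X l ^ m : R0 σ k) ≠ 0 := fun l m e => by
    have := congrArg (MvPowerSeries.coeff (Finsupp.single l m)) e
    simp [MvPowerSeries.coeff_X_pow] at this
  set f0 := PowerSeries.constantCoeff F with hf0
  let A := Localization.Away f0
  let j : P0 σ k →+* A := algebraMap _ _
  let ι : R0 σ k →+* A := j.comp MvPolynomial.C
  let α : R0 σ k := algebraMap k _ ((a : k) / b)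
  let u : A := IsLocalization.Away.invSelf f0
  have fu : j f0 * u = 1 := IsLocalization.Away.mul_invSelf f0
  have ak : ∀ x : k, algebraMap k (P0 σ k) x = MvPolynomial.C (algebraMap k _ x) := fun x => rfl
  have hbk : (b : k) ≠ 0 := Nat.cast_ne_zero.2 hb
  choose δ hδ eδ using fun v : Option σ => exLoc h2 f0 (isD_ofD (MvPolynomial.pderiv v)) fun x => by
    rw [ak, ofD_apply, MvPolynomial.pderiv_C]
  have HL : Lin ι V.insertNone δ := fun v _ => ⟨hδ v, fun r => by
    refine (eδ v (MvPolynomial.C r)).trans ?_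
    rw [ofD_apply, MvPolynomial.pderiv_C, map_zero]⟩
  have hbu : IsUnit (b : A) := by
    rw [← map_natCast (ι.comp (algebraMap k (R0 σ k)))]; exact (Ne.isUnit hbk).map _
  have hα : (b : A) * ι α = a := by
    rw [← map_natCast ι, ← map_natCast ι, ← map_mul, ← map_natCast (algebraMap k (R0 σ k)),
      ← map_natCast (algebraMap k (R0 σ k)), ← map_mul, mul_div_cancel₀ _ hbk]
  let _ : Algebra ℚ A := ((ι.comp (algebraMap k (R0 σ k))).comp (algebraMap ℚ k)).toAlgebra
  obtain ⟨U, G, hC⟩ := exCore (PowerSeries.map j F) (j f0) u (ι α) a b hbu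
    (by rw [← PowerSeries.coeff_zero_eq_constantCoeff_apply, PowerSeries.coeff_map,
      PowerSeries.coeff_zero_eq_constantCoeff_apply]) fu hα (h3 A b hb).1
  let χ : (R0 σ k)[X] →+* PowerSeries A := (PowerSeries.map j).comp (psiX Ψ w)
  have eχ : ∀ P, χ P = PowerSeries.map j (psiX Ψ w P) := fun _ => rfl
  have χF : χ (io n c f) = PowerSeries.X ^ N * PowerSeries.map j F := by
    rw [eχ, hF, map_mul, map_pow, PowerSeries.map_X]
  have χα : χ (C α) = PowerSeries.C (ι α) := by
    rw [eχ, psi_C, AlgHom.commutes, PowerSeries.algebraMap_apply, PowerSeries.map_C]; rfl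
  have ch : ∀ {d : P0 σ k →+ P0 σ k} {ε : A →+ A} {D : (R0 σ k)[X] →+ (R0 σ k)[X]} {m : ℕ},
      (∀ x, ε (j x) = j (d x)) → (∀ P, pd d (psiX Ψ w P) = PowerSeries.X ^ m * psiX Ψ w (D P)) →
      ∀ P, pd ε (χ P) = PowerSeries.X ^ m * χ (D P) := fun e1 e2 P => by
    rw [eχ, eχ, pd_map e1, e2, map_mul, map_pow, PowerSeries.map_X]
  let J : R0 σ k := ∏ l, MvPowerSeries.X l ^ (n - 1)
  let q := (n - 1) * V.card
  let Z : A → Prop := Nul ι V.insertNone δ (j f0) u (ι α)
  let L : ℕ → (R0 σ k)[X] → A := Lam χ U G N q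
  have zn : ∀ K P, Z (L (K + 1)
      (io n c f * dz σ k P - (C α + K) * P * dz σ k (io n c f))) := fun K P => by
    simp only [L, Z]
    rw [hC.key χF χα (hδ none) (ch (eδ none) (psi_none H))]
    exact nul_nab Finset.none_mem_insertNone _
  have dzC : ∀ r P, dz σ k (C r * P) = C r * dz σ k P := fun r P => by simp [ofD_apply]
  have step : ∀ K o g, Z (L K (C J * io n c g)) → Z (L (K + 1) (C J * (io n c f *
      io n c (MvPolynomial.pderiv o g) - (C α + K) * io n c g *
        io n c (MvPolynomial.pderiv o f)))) := by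
    intro K o g hg
    cases o with
    | none =>
      have := zn K (C J * io n c g)
      rw [dzC] at this
      rw [io_none, io_none]
      convert this using 2
      ring
    | some l =>
      obtain ⟨D, hD, D1, D2⟩ := exP (isD_ofD (MvPowerSeries.pderiv k l))
      set J' : R0 σ k := ∏ i ∈ Finset.univ.erase l, MvPowerSeries.X i ^ (n - 1) with hJ'
      have eJ : J = MvPowerSeries.X l ^ (n - 1) * J' :=
        (Finset.mul_prod_erase _ (fun i => MvPowerSeries.X i ^ (n - 1)) (Finset.mem_univ l)).symm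
      have DJ : D (C J') = 0 := by
        rw [D1, (isD_ofD _).prod0 _ _ fun i hi => (isD_ofD _).pow0 ?_ _, map_zero]
        exact MvPowerSeries.pderiv_X_of_ne (Finset.ne_of_mem_erase hi)
      have z1 : Z (L (K + 1) (io n c f * D (C J' * io n c g) -
          (C α + K) * (C J' * io n c g) * D (io n c f))) := by
        simp only [L, Z]
        by_cases hl : l ∈ V
        · rw [hC.key χF χα (hδ (some l)) (ch (eδ (some l)) (psi_in H hl hD D1 D2))]
          exact nul_nab (Finset.some_mem_insertNone.2 hl) _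
        · obtain ⟨E, hE, E1⟩ := exM (τ := Option σ) (isD_ofD (MvPowerSeries.pderiv k l))
          have EC : ∀ r, E (MvPolynomial.C r) = MvPolynomial.C (MvPowerSeries.pderiv k l r) :=
            fun r => by
              ext ν : 1
              rw [E1, ofD_apply, MvPolynomial.coeff_C, MvPolynomial.coeff_C,
                apply_ite (MvPowerSeries.pderiv k l), map_zero]
          obtain ⟨ε, hε, eε⟩ := exLoc h2 f0 hE fun x => by
            rw [ak, EC, Derivation.map_algebraMap, map_zero]
          have ει : ∀ r, ε (ι r) = ι (MvPowerSeries.pderiv k l r) := fun r =>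
            (eε (MvPolynomial.C r)).trans (by rw [EC]; rfl)
          rw [hC.key χF χα hε (ch eε (psi_out H hl hD D1 D2 hE E1))]
          refine Nul.nab HL fu hε ει (by rw [ει, Derivation.map_algebraMap, map_zero])
            (fun v _ => comm_loc f0 (hδ v) hε fun x => ?_) ?_
          · rw [eδ, eε, eε, eδ]
            congr 1
            ext ν : 1
            simp only [E1, ofD_apply, MvPolynomial.coeff_pderiv, Derivation.leibniz, map_add,
              Derivation.map_natCast, Derivation.map_one_eq_zero, add_zero, smul_eq_mul]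
            ring
          · refine Nul.cancel (hX l (n - 1)) ?_
            rw [add_zero, ← Lam_C (r := C (MvPowerSeries.X l ^ (n - 1))), ← mul_assoc, ← map_mul,
              ← eJ]
            · exact hg
            · rw [eχ, psi_C, map_pow, H.out l hl, map_pow, PowerSeries.map_C, map_pow, map_pow]
              rfl
      have z2 := z1.sub HL (zn K (C (J' * MvPowerSeries.pderiv k l c) * io n c g))
      refine Nul.cancel (r := (n : R0 σ k)) ?_ ?_
      · rw [← map_natCast (algebraMap k (R0 σ k))]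
        exact (_root_.map_ne_zero _).2 (Nat.cast_ne_zero.2 hn)
      · simp only [L] at z2 ⊢
        rw [← Lam_C (r := (n : (R0 σ k)[X])) (by simp only [map_natCast])]
        rw [← Lam_sub, dzC, hD, DJ] at z2
        convert z2 using 2
        rw [eJ, map_mul, map_mul]
        linear_combination (C J' * io n c f) * io_some (n := n) (c := c) l hD D1 D2 g -
          (C J' * (C α + K) * io n c g) * io_some (n := n) (c := c) l hD D1 D2 f
  have χJ : χ (C J) = PowerSeries.X ^ q * PowerSeries.C (j ((∏ v ∈ V,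
      MvPolynomial.X (some v) ^ (n - 1)) * MvPolynomial.C (∏ l ∈ Vᶜ, MvPowerSeries.X l ^ (n - 1)))) := by
    rw [eχ, psi_C, psi_J H, map_mul, map_pow, PowerSeries.map_X, PowerSeries.map_C]
  have fF : ∀ K g, L (K + 1) (C J * io n c (f * g)) = L K (C J * io n c g) := fun K g => by
    rw [map_mul, mul_left_comm]; exact hC.Lam_F χF _
  have hf : f ≠ 0 := by
    rintro rfl
    have := congrArg (PowerSeries.coeff (0 + N)) hF
    rw [PowerSeries.coeff_X_pow_mul, map_zero, map_zero, map_zero,
      PowerSeries.coeff_zero_eq_constantCoeff_apply] at this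
    exact hF0 this.symm
  refine (h1 (Option σ) k f B (-((a : k) / b))
    (fun K g => ∀ p, Z (L K (C J * io n c (p * g)))) hf hB (fun p => ?_)
    (fun K g g' e e' p => ?_) (fun K x g e p => ?_) (fun K o g e p => ?_) (fun K g e p => ?_)
    (fun K o g e p => ?_)).elim fun K hK => ?_
  rotate_right
  · obtain ⟨h, hh, hQ⟩ := hK
    have e1 : L K (C J * io n c (1 * (B.eval (-((a : k) / b)) • (h * f ^ K)))) =
        L 0 (C J * io n c (B.eval (-((a : k) / b)) • h)) := by
      rw [one_mul, ← smul_mul_assoc, mul_comm _ (f ^ K)]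
      clear hQ
      induction K with
      | zero => rw [pow_zero, one_mul]
      | succ K ih => rw [pow_succ', mul_assoc, fF, ih]
    have e2 := hQ 1
    set g := B.eval (-((a : k) / b)) • h with hg
    have e3 : L 0 (C J * io n c g) = ι ((∏ l ∈ Vᶜ, MvPowerSeries.X l ^ (n - 1)) *
        kill V ((io n c g).coeff 0)) * j (∏ v ∈ V, MvPolynomial.X (some v) ^ (n - 1)) := by
      simp only [L, Lam]
      rw [map_mul χ, χJ, zero_mul, add_zero, pow_zero, mul_one, mul_assoc, mul_assoc,
        PowerSeries.coeff_X_pow_mul', if_pos le_rfl, Nat.sub_self,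
        PowerSeries.coeff_zero_eq_constantCoeff_apply, map_mul PowerSeries.constantCoeff,
        map_mul PowerSeries.constantCoeff, hC.G0, PowerSeries.constantCoeff_C, eχ,
        ← PowerSeries.coeff_zero_eq_constantCoeff_apply,
        PowerSeries.coeff_map, PowerSeries.coeff_zero_eq_constantCoeff_apply, psi_const H hw]
      simp only [ι, map_mul, RingHom.comp_apply]
      ring
    rw [e1, e3] at e2
    have e4 : kill V ((io n c g).coeff 0) ≠ 0 := fun e => by
      have := io_const (V := V) hn hc g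
      rw [e, map_zero, hg, MvPolynomial.constantCoeff_smul] at this
      exact mul_ne_zero hBe hh this.symm
    obtain ⟨r, hr, y, e5⟩ := e2.cancel (mul_ne_zero (Finset.prod_ne_zero_iff.2 fun l _ =>
      hX l _) e4)
    obtain ⟨K', y', e6⟩ := clear hF0 V.insertNone δ (fun v x => MvPolynomial.pderiv v x) hδ eδ
      (MvPolynomial.C α) (MvPolynomial.C r * ∏ v ∈ V, MvPolynomial.X (some v) ^ (n - 1)) y
      (by rw [map_mul]; exact e5)
    exact ⟨K', y', r, hr, by rw [e6, map_add, map_natCast]⟩
  · have : L 0 (C J * io n c (p * f)) = 0 := by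
      simp only [L, Lam]
      rw [map_mul χ, map_mul (io n c), map_mul χ, χJ, χF, zero_mul, add_zero, mul_assoc,
        mul_assoc, mul_assoc, PowerSeries.coeff_X_pow_mul', if_pos le_rfl, Nat.sub_self,
        PowerSeries.coeff_zero_eq_constantCoeff_apply]
      simp [hN.ne']
    rw [this]; exact nul_zero
  · simp only [L, mul_add, map_add, Lam_add]
    exact (e p).add HL (e' p)
  · rw [mul_smul_comm, ← smul_mul_assoc]; exact e _
  · rw [← mul_assoc]; exact e _
  · rw [mul_left_comm, fF]; exact e p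
  · have z := (step K o _ (e p)).sub HL (show Z (L (K + 1)
      (C J * io n c (f * (MvPolynomial.pderiv o p * g)))) by rw [fF]; exact e _)
    simp only [L] at z ⊢
    rw [← Lam_sub] at z
    convert z using 2
    simp only [MvPolynomial.pderiv_mul, map_mul, map_add, Algebra.smul_def, AlgHom.commutes,
      Polynomial.algebraMap_apply, map_sub, map_neg, map_natCast, α]
    ring

end

end Pool.Agent.P.MP_b91a16_ag.Qo
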