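import Pool.Agent.P.MP_b91a16_ag.Qo.Spec

/-! Transfer of Bernstein-Sato equations, and the roots given by the components. -/

set_option linter.unusedSectionVars false

open Polynomial

namespace Pool.Agent.P.MP_b91a16_ag.Qo

noncomputable section

namespace CloP

section

variable {τ k : Type} [Field k]

/-- Specialisation of the parameter. -/
def sp (c : k) : MvPolynomial τ k[X] →+* MvPolynomial τ k := MvPolynomial.map (evalRingHom c)

/-- Constants in the parameter. -/
def li : MvPolynomial τ k →+* MvPolynomial τ k[X] := MvPolynomial.map C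

theorem sp_li (c : k) (f : MvPolynomial τ k) : sp c (li f) = f := by
  rw [sp, li, MvPolynomial.map_map]
  have : (evalRingHom c).comp C = RingHom.id k := by
    ext x
    simp
  rw [this, MvPolynomial.map_id]

theorem sp_C (c : k) (p : k[X]) :
    sp c (MvPolynomial.C p : MvPolynomial τ k[X]) = MvPolynomial.C (p.eval c) := by
  simp [sp]

theorem sp_X (c : k) (j : τ) : sp c (MvPolynomial.X j : MvPolynomial τ k[X]) = MvPolynomial.X j := by
  simp [sp]

theorem sp_pderiv (c : k) (j : τ) (g : MvPolynomial τ k[X]) :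
    sp c (MvPolynomial.pderiv j g) = MvPolynomial.pderiv j (sp c g) := by
  simp [sp, MvPolynomial.pderiv_map]

theorem eq_of_sp [CharZero k] {g g' : MvPolynomial τ k[X]}
    (h : ∀ m : ℕ, sp (m : k) g = sp (m : k) g') : g = g' := by
  ext1 e
  refine eq_of_infinite_eval_eq _ _ ?_
  refine Set.Infinite.mono ?_ (Set.infinite_range_of_injective (Nat.cast_injective (R := k)))
  rintro _ ⟨m, rfl⟩
  have := congrArg (MvPolynomial.coeff e) (h m)
  simpa [sp, MvPolynomial.coeff_map] using this

end

theorem mul_der_pow {R S : Type} [CommRing R] [CommRing S] [Algebra R S] (d : Derivation R S S)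
    (f : S) (K : ℕ) : f * d (f ^ K) = K * f ^ K * d f := by
  rcases K with _ | K
  · simp
  · rw [Derivation.leibniz_pow]
    simp only [smul_eq_mul, nsmul_eq_mul, Nat.add_sub_cancel]
    ring

end CloP

open CloP in
theorem p_Clo : S_Clo := by
  intro τ k _ _ _ _ f b c Q hf hb h0 hadd hs hX hf1 hD
  have hpow : ∀ L K g, Q K g → Q (K + L) (f ^ L * g) := by
    intro L K g hg
    induction L with
    | zero => simpa using hg
    | succ L ih =>
      have := hf1 _ _ ih
      rwa [← mul_assoc, ← pow_succ'] at this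
  have WC : ∀ (p : k[X]) K (g : MvPolynomial τ k[X]), Q K (sp c g) →
      Q K (sp c (MvPolynomial.C p * g)) := fun p K g q => by
    rw [map_mul, sp_C, ← MvPolynomial.smul_eq_C_mul]
    exact hs _ _ _ q
  let T : Submodule k (ℕ → MvPolynomial τ k) :=
    { carrier := {F | ∃ K g, (∀ m : ℕ, F m * f ^ K = sp (m : k) g * f ^ m) ∧ Q K (sp c g)}
      zero_mem' := ⟨0, 0, fun m => by simp, by simpa using hs 0 0 f h0⟩
      add_mem' := by
        rintro F F' ⟨K, g, e, q⟩ ⟨K', g', e', q'⟩
        refine ⟨K + K', li f ^ K' * g + li f ^ K * g', fun m => ?_, ?_⟩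
        · simp only [map_add, map_mul, map_pow, sp_li, Pi.add_apply]
          linear_combination f ^ K' * e m + f ^ K * e' m
        · simp only [map_add, map_mul, map_pow, sp_li]
          exact hadd _ _ _ (hpow _ _ _ q) (by rw [add_comm]; exact hpow _ _ _ q')
      smul_mem' := by
        rintro a F ⟨K, g, e, q⟩
        refine ⟨K, MvPolynomial.C (C a) * g, fun m => ?_, WC _ _ _ q⟩
        rw [map_mul, sp_C, eval_C, Pi.smul_apply, MvPolynomial.smul_eq_C_mul, mul_assoc, e m,
          mul_assoc] }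
  have hT : St.Fm f ≤ T := by
    refine St.Fm_le ⟨0, li f, fun m => by rw [sp_li]; ring, by rwa [sp_li]⟩ ?_ ?_ ?_
    · rintro F ⟨K, g, e, q⟩ j
      refine ⟨K, MvPolynomial.X j * g, fun m => ?_, by rw [map_mul, sp_X]; exact hX _ _ _ q⟩
      beta_reduce
      rw [map_mul, sp_X, mul_assoc, e m, mul_assoc]
    · rintro F ⟨K, g, e, q⟩ j
      refine ⟨K + 1, li f * MvPolynomial.pderiv j g +
        MvPolynomial.C (X - (K : k[X])) * (g * li (MvPolynomial.pderiv j f)), fun m => ?_, ?_⟩
      · have e1 := congrArg (fun z => f * MvPolynomial.pderiv j z) (e m)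
        simp only [Derivation.leibniz, smul_eq_mul, mul_add] at e1
        rw [mul_left_comm f (F m), mul_left_comm f (sp _ g), mul_der_pow, mul_der_pow] at e1
        simp only [map_add, map_mul, sp_li, sp_C, sp_pderiv, eval_X, map_sub, map_natCast]
        linear_combination e1 - (K * MvPolynomial.pderiv j f) * e m
      · have := hD _ j _ q
        rw [MvPolynomial.smul_eq_C_mul] at this
        simpa only [map_add, map_mul, sp_li, sp_C, sp_pderiv, eval_X, map_sub, map_natCast]
          using this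
    · rintro F ⟨K, g, e, q⟩
      refine ⟨K, MvPolynomial.C X * g, fun m => ?_, WC _ _ _ q⟩
      beta_reduce
      rw [map_mul, sp_C, eval_X, MvPolynomial.smul_eq_C_mul, mul_assoc, e m, mul_assoc]
  obtain ⟨h, hh, e⟩ := hb
  obtain ⟨K, g, e', q⟩ := hT e
  refine ⟨K, h, hh, ?_⟩
  have : g = MvPolynomial.C b * (li h * li f ^ K) := by
    refine eq_of_sp fun m => mul_right_cancel₀ (pow_ne_zero m hf) ?_
    rw [← e' m]
    beta_reduce
    rw [map_mul, map_mul, map_pow, sp_li, sp_li, sp_C, MvPolynomial.smul_eq_C_mul]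
    ring
  rwa [this, map_mul, map_mul, map_pow, sp_li, sp_li, sp_C, ← MvPolynomial.smul_eq_C_mul] at q

namespace CloP

theorem root (hC : S_Clo) {τ k S : Type} [Fintype τ] [DecidableEq τ] [Field k] [CharZero k]
    [CommRing S] [IsDomain S] [Algebra k S] {f : MvPolynomial τ k} (i : MvPolynomial τ k →ₐ[k] S)
    {w g : S} (hw : Prime w) {a : ℕ} (ha : a ≠ 0) (hf : i f = w ^ a * g) (hg : ¬w ∣ g)
    (hh : ∀ h, MvPolynomial.constantCoeff h ≠ 0 → ¬w ∣ i h)
    (hd : ∀ j, ∃ (d : Derivation k S S) (c : S), ¬w ∣ c ∧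
      ∀ p, c * i (MvPolynomial.pderiv j p) = d (i p))
    {b : k[X]} (hb : St.LB f b) : b.eval (-(1 / (a : k))) = 0 := by
  have f0 : f ≠ 0 := by
    rintro rfl
    rw [map_zero, eq_comm, mul_eq_zero] at hf
    rcases hf with h | h
    · exact pow_ne_zero _ hw.ne_zero h
    · exact hg (h ▸ dvd_zero _)
  obtain ⟨K, h, h0, q⟩ := hC τ k f b (-(1 / (a : k))) (fun K p => w ^ (a * K + 1) ∣ i p) f0 hb
    (by rw [hf, mul_zero, zero_add, pow_one]; exact (dvd_pow_self w ha).mul_right _)
    (fun K p p' h h' => by rw [map_add]; exact dvd_add h h')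
    (fun K c p h => by rw [map_smul, Algebra.smul_def]; exact h.mul_left _)
    (fun K j p h => by rw [map_mul]; exact h.mul_left _)
    (fun K p h => by
      rw [map_mul, hf, show a * (K + 1) + 1 = a + (a * K + 1) by ring, pow_add]
      exact mul_dvd_mul (dvd_mul_right _ _) h)
    (by
      rintro K j p ⟨q, hq⟩
      obtain ⟨d, c, hc, e⟩ := hd j
      refine hw.pow_dvd_of_dvd_mul_left _ hc ?_
      obtain ⟨a, rfl⟩ := Nat.exists_eq_succ_of_ne_zero ha
      have e0 : algebraMap k S (-(1 / ((a + 1 : ℕ) : k)) - K) * ((a + 1 : ℕ) : S) =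
          -(((a + 1) * K + 1 : ℕ) : S) := by
        rw [← map_natCast (algebraMap k S), ← map_natCast (algebraMap k S), ← map_mul, ← map_neg]
        congr 1
        have : ((a + 1 : ℕ) : k) ≠ 0 := Nat.cast_ne_zero.2 ha
        rw [Nat.cast_add ((a + 1) * K), Nat.cast_mul]
        field_simp
        ring
      refine ⟨g * d q + algebraMap k S (-(1 / ((a + 1 : ℕ) : k)) - K) * (q * d g), ?_⟩
      have e1 := e p
      have e2 := e f
      rw [hq, Derivation.leibniz, Derivation.leibniz_pow] at e1
      rw [hf, Derivation.leibniz, Derivation.leibniz_pow] at e2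
      simp only [smul_eq_mul, nsmul_eq_mul, Nat.add_sub_cancel, Nat.succ_eq_add_one] at e1 e2 ⊢
      rw [map_add, map_smul, map_mul, map_mul, Algebra.smul_def, hf, hq]
      generalize algebraMap k S _ = γ at *
      simp only [Nat.succ_eq_add_one]
      linear_combination (w ^ (a + 1) * g) * e1 + γ * (w ^ ((a + 1) * K + 1) * q) * e2 +
        (w ^ ((a + 1) * K + 1) * w ^ a * q * g * d w) * e0)
  by_contra hb0
  rw [map_smul, map_mul, map_pow, hf, mul_pow, ← pow_mul, Algebra.smul_def, pow_succ,
    mul_left_comm (i h), mul_left_comm, mul_dvd_mul_iff_left (pow_ne_zero _ hw.ne_zero),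
    ((IsUnit.mk0 _ hb0).map (algebraMap k S)).dvd_mul_left] at q
  rcases hw.dvd_or_dvd q with h1 | h1
  · exact hh h h0 h1
  · exact hg (hw.dvd_of_dvd_pow h1)

theorem ord_eq {S : Type} [CommRing S] [IsDomain S] (κ : S →+* S) {y A B : S} {p q : ℕ}
    (hy : y ≠ 0) (h0 : κ y = 0) (hA : κ A ≠ 0) (hB : κ B ≠ 0) (h : y ^ p * A = y ^ q * B) :
    p = q := by
  have key : ∀ {A B : S} {p q : ℕ}, κ A ≠ 0 → y ^ p * A = y ^ q * B → ¬p < q := by
    intro A B p q hA h hl
    obtain ⟨r, rfl⟩ := Nat.exists_eq_add_of_lt hl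
    rw [add_assoc, pow_add, mul_assoc] at h
    rw [mul_left_cancel₀ (pow_ne_zero _ hy) h, map_mul, map_pow, h0] at hA
    simp at hA
  exact le_antisymm (not_lt.1 (key hB h.symm)) (not_lt.1 (key hA h))

variable {σ k : Type} [Fintype σ] [DecidableEq σ] [Field k]

theorem dom : IsDomain (R0 σ k) := NoZeroDivisors.to_isDomain _

theorem rescale_mono (a : σ → k) (μ : σ →₀ ℕ) (c : k) :
    MvPowerSeries.rescale a (MvPowerSeries.monomial μ c) =
      MvPowerSeries.monomial μ ((μ.prod fun s m => a s ^ m) * c) := by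
  ext ν
  rw [MvPowerSeries.coeff_rescale, MvPowerSeries.coeff_monomial, MvPowerSeries.coeff_monomial]
  split_ifs with h
  · rw [h]
  · rw [mul_zero]

theorem kill_X (j l : σ) : kill {j} (MvPowerSeries.X l : R0 σ k) =
    if l = j then 0 else MvPowerSeries.X l := by
  rw [kill, MvPowerSeries.X_def, rescale_mono, Finsupp.prod_single_index (by simp)]
  split_ifs with h h' h' <;> simp_all

theorem kill_C (V : Finset σ) (c : k) : kill V (MvPowerSeries.C c : R0 σ k) = MvPowerSeries.C c := by
  rw [kill, ← MvPowerSeries.monomial_zero_eq_C_apply, rescale_mono]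
  simp

theorem cc_kill (V : Finset σ) (a : R0 σ k) :
    MvPowerSeries.constantCoeff (kill V a) = MvPowerSeries.constantCoeff a := by
  rw [kill, ← MvPowerSeries.coeff_zero_eq_constantCoeff_apply, MvPowerSeries.coeff_rescale]
  simp

theorem X_ne (j : σ) : (MvPowerSeries.X j : R0 σ k) ≠ 0 := fun h => by
  simpa using congrArg (MvPowerSeries.coeff (Finsupp.single j 1)) h

theorem io_none (n : ℕ) : io n (0 : R0 σ k) (MvPolynomial.X none) = X := by simp [io]

theorem io_some (n : ℕ) (j : σ) :
    io n (0 : R0 σ k) (MvPolynomial.X (some j)) = C (MvPowerSeries.X j ^ n) := by simp [io]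

theorem io_inj {n : ℕ} (hn : n ≠ 0) : Function.Injective (io n (0 : R0 σ k)) := by
  have e : (io n (0 : R0 σ k) : MvPolynomial (Option σ) k →+* (R0 σ k)[X]) =
      (mapRingHom (MvPolynomial.coeToMvPowerSeries.ringHom.comp
        (MvPolynomial.expand n : MvPolynomial σ k →ₐ[k] MvPolynomial σ k).toRingHom)).comp
        (MvPolynomial.optionEquivLeft k σ : MvPolynomial (Option σ) k →+* (MvPolynomial σ k)[X]) := by
    refine MvPolynomial.ringHom_ext (fun c => ?_) fun o => ?_
    · simp [MvPowerSeries.algebraMap_apply]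
    · cases o <;> simp [io_none, io_some]
  intro p q h
  have h1 : (io n (0 : R0 σ k) : MvPolynomial (Option σ) k →+* (R0 σ k)[X]) p =
      (io n (0 : R0 σ k) : MvPolynomial (Option σ) k →+* (R0 σ k)[X]) q := h
  rw [e] at h1
  exact (MvPolynomial.optionEquivLeft k σ).injective (map_injective _
    ((MvPolynomial.coe_injective σ k).comp (MvPolynomial.expand_injective (Nat.pos_of_ne_zero hn)))
    h1)

/-- The coefficientwise partial derivative. -/
def dc (j : σ) : Derivation k (R0 σ k)[X] (R0 σ k)[X] :=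
  (PolynomialModule.equivPolynomialSelf.toLinearMap.restrictScalars (R0 σ k)[X]).compDer
    (MvPowerSeries.pderiv k j).mapCoeffs

theorem dc_coeff (j : σ) (p : (R0 σ k)[X]) (i : ℕ) :
    (dc j p).coeff i = MvPowerSeries.pderiv k j (p.coeff i) := rfl

theorem dc_X (j : σ) : dc j (X : (R0 σ k)[X]) = 0 := by
  ext1 i
  rw [dc_coeff, coeff_X]
  split_ifs <;> simp

theorem dc_C (j : σ) (a : R0 σ k) : dc j (C a) = C (MvPowerSeries.pderiv k j a) := by
  ext1 i
  rw [dc_coeff, coeff_C, coeff_C]
  split_ifs <;> simp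

theorem chain {τ S : Type} [DecidableEq τ] [CommRing S] [Algebra k S]
    (i : MvPolynomial τ k →ₐ[k] S) (d : Derivation k S S) (c : S) (j : τ)
    (h : ∀ l, d (i (MvPolynomial.X l)) = if l = j then c else 0) (p : MvPolynomial τ k) :
    c * i (MvPolynomial.pderiv j p) = d (i p) := by
  induction p using MvPolynomial.induction_on with
  | C a => simp [MvPolynomial.algHom_C]
  | add p q hp hq => simp only [map_add, mul_add, hp, hq]
  | mul_X p l hp =>
    rw [map_mul i p, Derivation.leibniz, Derivation.leibniz, h, ← hp, MvPolynomial.pderiv_X,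
      Pi.single_apply]
    split_ifs <;> simp [mul_add] <;> ring

theorem rootZ [CharZero k] (hC : S_Clo) (D : Dat σ k) {a : R0 σ k} (ha : a ∈ D.Z) :
    D.Rt (1 / D.m a) := by
  intro b hb
  have := dom (σ := σ) (k := k)
  have ev : ∀ p : (R0 σ k)[X], MvPowerSeries.constantCoeff (p.eval a) =
      MvPowerSeries.constantCoeff (p.coeff 0) := fun p => by
    rw [← eval₂_at_apply, D.h0 a ha, eval₂_at_zero]
  refine root hC (io D.n 0) (prime_X_sub_C a) (D.hm a ha).ne'
    (g := C (mono D.N) * D.e * ∏ c ∈ D.Z.erase a, (X - C c) ^ D.m c)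
    (by rw [D.hf, ← Finset.mul_prod_erase _ _ ha]; ring) ?_ (fun h h0 => ?_) (fun o => ?_) hb
  · rw [dvd_iff_isRoot, IsRoot, eval_mul, eval_mul, eval_C, eval_prod]
    refine mul_ne_zero (mul_ne_zero ?_ fun h => D.he (by rw [← ev, h, map_zero]))
      (Finset.prod_ne_zero_iff.2 fun c hc => ?_)
    · exact fun h => by simpa [mono] using congrArg (MvPowerSeries.coeff D.N) h
    · simpa using fun h => absurd (sub_eq_zero.1 h).symm (Finset.ne_of_mem_erase hc)
  · rw [dvd_iff_isRoot, IsRoot]
    intro e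
    have e1 : ((MvPowerSeries.constantCoeff : R0 σ k →+* k).comp (evalRingHom a)).comp
        (io D.n (0 : R0 σ k) : MvPolynomial (Option σ) k →+* (R0 σ k)[X]) =
        MvPolynomial.constantCoeff := by
      refine MvPolynomial.ringHom_ext (fun c => ?_) fun o => ?_
      · simp [MvPowerSeries.algebraMap_apply]
      · cases o <;> simp [io_none, io_some, D.h0 a ha, D.hn]
    refine h0 ?_
    rw [← e1]
    simp [e]
  · cases o with
    | none =>
      refine ⟨(derivative' (R := R0 σ k)).restrictScalars k, 1,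
        (prime_X_sub_C a).not_dvd_one, chain _ _ _ _ fun l => ?_⟩
      cases l <;> simp [io_none, io_some]
    | some j =>
      refine ⟨dc j, C ((D.n : R0 σ k) * MvPowerSeries.X j ^ (D.n - 1)), ?_,
        chain _ _ _ _ fun l => ?_⟩
      · rw [dvd_iff_isRoot, IsRoot, eval_C]
        refine mul_ne_zero ?_ (pow_ne_zero _ (X_ne j))
        rw [← map_natCast (MvPowerSeries.C : k →+* R0 σ k)]
        exact fun h => D.hn (by simpa using congrArg MvPowerSeries.constantCoeff h)
      · cases l with
        | none => simp [io_none, dc_X]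
        | some l =>
          rw [io_some, dc_C, Derivation.leibniz_pow, MvPowerSeries.pderiv_X, Pi.single_apply]
          by_cases h : l = j <;> simp [h]

theorem rootN [CharZero k] (hC : S_Clo) (D : Dat σ k) {j : σ} (hj : D.N j ≠ 0) :
    D.Rt (D.n / D.N j) := by
  intro b hb
  have := dom (σ := σ) (k := k)
  have hw : Prime (MvPolynomial.X (some j) : MvPolynomial (Option σ) k) := MvPolynomial.X_prime
  let κ : (R0 σ k)[X] →+* (R0 σ k)[X] := mapRingHom (kill {j})
  have hB : κ (C (∏ l ∈ Finset.univ.erase j, MvPowerSeries.X l ^ D.N l) * D.e *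
      ∏ a ∈ D.Z, (X - C a) ^ D.m a) ≠ 0 := by
    rw [map_mul, map_mul]
    refine mul_ne_zero (mul_ne_zero ?_ fun h => D.he ?_) ?_
    · simp only [κ, coe_mapRingHom, map_C, ne_eq, map_prod, map_pow]
      refine Finset.prod_ne_zero_iff.2 fun l hl => pow_ne_zero _ ?_
      simpa [kill_X, Finset.ne_of_mem_erase hl] using X_ne l
    · rw [← cc_kill {j}, ← coeff_map]
      exact (congrArg (fun p => MvPowerSeries.constantCoeff (coeff p 0)) h).trans (by simp)
    · exact ((monic_prod_of_monic _ _ fun a _ => (monic_X_sub_C a).pow _).map _).ne_zero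
  have hf : io D.n 0 D.f = C (MvPowerSeries.X j) ^ D.N j *
      (C (∏ l ∈ Finset.univ.erase j, MvPowerSeries.X l ^ D.N l) * D.e *
        ∏ a ∈ D.Z, (X - C a) ^ D.m a) := by
    rw [D.hf, mono, MvPowerSeries.monomial_one_eq, Finsupp.prod_fintype _ _ (by simp),
      ← Finset.mul_prod_erase _ _ (Finset.mem_univ j), map_mul, map_pow]
    ring
  have hy : (C (MvPowerSeries.X j) : (R0 σ k)[X]) ≠ 0 := C_ne_zero.2 (X_ne j)
  have f0 : D.f ≠ 0 := fun h => by
    rw [h, map_zero, eq_comm, mul_eq_zero] at hf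
    rcases hf with h | h
    · exact pow_ne_zero _ hy h
    · exact hB (by rw [h, map_zero])
  obtain ⟨q, g, hg, e⟩ := WfDvdMonoid.max_power_factor f0 hw.irreducible
  let ψ : MvPolynomial (Option σ) k →ₐ[k] MvPolynomial (Option σ) k :=
    MvPolynomial.aeval fun o => if o = some j then 0 else MvPolynomial.X o
  have h1 : ∀ p, MvPolynomial.X (some j) ∣ p - ψ p := fun p => by
    induction p using MvPolynomial.induction_on with
    | C a => simp [ψ]
    | add p q hp hq => simpa only [map_add, add_sub_add_comm] using dvd_add hp hq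
    | mul_X p l hp =>
      by_cases h : l = some j
      · simp [ψ, h]
      · simpa [ψ, h, sub_mul] using hp.mul_right (MvPolynomial.X l)
  have h2 : κ.comp (io D.n (0 : R0 σ k) : MvPolynomial (Option σ) k →+* (R0 σ k)[X]) =
      (io D.n (0 : R0 σ k) : MvPolynomial (Option σ) k →+* (R0 σ k)[X]).comp
        (ψ : MvPolynomial (Option σ) k →+* MvPolynomial (Option σ) k) := by
    refine MvPolynomial.ringHom_ext (fun c => ?_) fun o => ?_
    · simp [κ, ψ, MvPowerSeries.algebraMap_apply, kill_C]
    · cases o with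
      | none => simp [κ, ψ, io_none]
      | some l => by_cases h : l = j <;> simp [κ, ψ, io_some, kill_X, h, D.hn]
  have hA : κ (io D.n 0 g) ≠ 0 := fun h => by
    have h3 : io D.n (0 : R0 σ k) (ψ g) = io D.n 0 0 :=
      (congrArg (· g) h2).symm.trans (h.trans (map_zero _).symm)
    exact hg (by simpa [io_inj D.hn h3] using h1 g)
  have hq : D.n * q = D.N j := ord_eq κ hy (by simp [κ, kill_X]) hA hB (by
    rw [← hf, e, map_mul, map_pow, io_some, map_pow, pow_mul])
  have q0 : q ≠ 0 := fun h => hj (by rw [← hq, h, mul_zero])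
  have := root hC (AlgHom.id k _) hw q0 e hg
    (fun h h0 ⟨r, hr⟩ => h0 (by simpa using congrArg MvPolynomial.constantCoeff hr))
    (fun o => ⟨MvPolynomial.pderiv o, 1, hw.not_dvd_one, fun p => by simp⟩) hb
  have hn : (D.n : k) ≠ 0 := Nat.cast_ne_zero.2 D.hn
  rwa [← hq, Nat.cast_mul, ← div_div, div_self hn]

end CloP

theorem p_RootA (_h : S_CA) (hC : S_Clo) : S_RootA := by
  intro σ k _ _ _ _ _ D
  exact ⟨fun a ha => CloP.rootZ hC D ha, fun j hj => CloP.rootN hC D hj⟩

end

end Pool.Agent.P.MP_b91a16_ag.Qo
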