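import Pool.Agent.P.MP_b91a16_ag.Qo.Spec

/-! Descent of classes from algebraically closed fields, and free coordinates. -/

open MvPolynomial

namespace Pool.Agent.P.MP_b91a16_ag.Qo

noncomputable section

namespace ClsdP

/-- An algebra map into the algebraic closure fixed by the Galois group descends. -/
theorem descend {k A K : Type} [Field k] [CharZero k] [CommRing A] [Algebra k A] [Field K]
    [Algebra k K] (ψ : A →ₐ[k] AlgebraicClosure K)
    (h : ∀ (τ : AlgebraicClosure K ≃ₐ[K] AlgebraicClosure K) z, τ (ψ z) = ψ z) :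
    ∃ χ : A →ₐ[k] K, ∀ z, algebraMap K (AlgebraicClosure K) (χ z) = ψ z := by
  have : CharZero K := Algebra.charZero_of_charZero k K
  let j : K →ₐ[k] AlgebraicClosure K := IsScalarTower.toAlgHom k K _
  have hj : Function.Injective j := (algebraMap K (AlgebraicClosure K)).injective
  have hm : ∀ z, ψ z ∈ j.range := fun z =>
    (InfiniteGalois.mem_range_algebraMap_iff_fixed (k := K) (ψ z)).2 fun τ => h τ z
  refine ⟨(AlgEquiv.ofInjective j hj).symm.toAlgHom.comp (ψ.codRestrict j.range hm), fun z => ?_⟩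
  exact congrArg Subtype.val ((AlgEquiv.ofInjective j hj).apply_symm_apply ⟨ψ z, hm z⟩)

end ClsdP

theorem p_Clsd : S_Clsd := by
  intro k _ _ ι ι' P Q c g h hg
  obtain ⟨A, _, _, _, a, ha, rfl⟩ := h
  have val : ∀ (L : Type) [Field L] [Algebra k L] (ψ : A →ₐ[k] L), (P L fun i => ψ (a i)) ∧
      ∀ j, ψ (aeval a (g j)) = aeval (fun i => ψ (a i)) (g j) := fun L _ _ ψ =>
    ⟨((ha L).2 _).2 ⟨ψ, fun _ => rfl⟩, fun j => algHom_aeval ψ a _ (fun _ => rfl) _⟩
  have uniq : ∀ (L : Type) [Field L] [Algebra k L] [IsAlgClosed L] (ψ ψ' : A →ₐ[k] L),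
      (∀ j, ψ (aeval a (g j)) = ψ' (aeval a (g j))) → ψ = ψ' := fun L _ _ _ ψ ψ' e =>
    (ha L).1 _ _ (congrFun ((hg L).injOn (val L ψ).1 (val L ψ').1 (funext fun j =>
      ((val L ψ).2 j).symm.trans ((e j).trans ((val L ψ').2 j)))))
  refine ⟨A, _, _, _, fun j => aeval a (g j), fun K _ _ => ⟨fun ψ ψ' e => ?_, fun y => ⟨?_, ?_⟩⟩,
    rfl⟩
  · have := uniq _ ((IsScalarTower.toAlgHom k K (AlgebraicClosure K)).comp ψ)
      ((IsScalarTower.toAlgHom k K (AlgebraicClosure K)).comp ψ') fun j =>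
        congrArg (algebraMap K (AlgebraicClosure K)) (e j)
    exact AlgHom.ext fun z => (algebraMap K (AlgebraicClosure K)).injective
      (DFunLike.congr_fun this z)
  · intro hy
    obtain ⟨x, hx, e⟩ := (hg _).surjOn hy
    obtain ⟨ψ, hψ⟩ := ((ha _).2 x).1 hx
    have e1 : ∀ j, ψ (aeval a (g j)) = algebraMap K _ (y j) := fun j =>
      (algHom_aeval ψ a x hψ _).trans (congrFun e j)
    obtain ⟨χ, hχ⟩ := ClsdP.descend ψ fun τ z => DFunLike.congr_fun
      (uniq _ ((τ.toAlgHom.restrictScalars k).comp ψ) ψ fun j => by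
        change τ (ψ (aeval a (g j))) = _
        rw [e1, τ.commutes]) z
    exact ⟨χ, fun j => (algebraMap K (AlgebraicClosure K)).injective ((hχ _).trans (e1 j))⟩
  · rintro ⟨ψ, hψ⟩
    have h1 := val _ ((IsScalarTower.toAlgHom k K (AlgebraicClosure K)).comp ψ)
    have h2 : Q _ _ := (hg _).mapsTo h1.1
    refine (congrArg (Q _) (funext fun j => ?_)).mp h2
    rw [← h1.2, ← hψ j]
    rfl

theorem p_Free : S_Free := by
  intro k _ ι ι' P c F h
  classical
  induction F using Finset.induction_on with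
  | empty =>
    rw [Finset.card_empty, pow_zero, mul_one]
    refine h.map (Sum.elim X fun _ => 0) fun K _ _ => ⟨fun x hx => ⟨?_, fun q _ => ?_⟩,
      fun x _ x' _ e => funext fun i => ?_, fun y hy => ⟨fun i => y (.inl i), hy.1, ?_⟩⟩
    · simpa using hx
    · simp
    · simpa using congrFun e (.inl i)
    · funext q
      rcases q with i | q
      · simp
      · simpa using (hy.2 q (by simp)).symm
  | insert q F hq ih =>
    rw [Finset.card_insert_of_notMem hq, pow_succ, ← mul_assoc]
    refine (ih.free (.inr q) fun K _ _ x hx => hx.2 q hq).congr fun K _ _ x => ?_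
    refine and_congr (by simp) ⟨fun H r hr => ?_, fun H r hr => ?_⟩
    · rw [Finset.mem_insert, not_or] at hr
      simpa [hr.1] using H r hr.2
    · by_cases e : r = q
      · simp [e]
      · simpa [e] using H r (by simp [e, hr])

end

end Pool.Agent.P.MP_b91a16_ag.Qo
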