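import Pool.Agent.P.MP_b91a16_ag.Qo.Spec

/-! Quasi-ordinary polynomials: the pieces cover the contact locus. -/

set_option linter.unusedSectionVars false

open PowerSeries

namespace Pool.Agent.P.MP_b91a16_ag.Qo

noncomputable section

namespace CoverP

section PS

variable {K : Type} [Field K]

theorem assoc_of {F : PowerSeries K} {q : ℕ} (h : X ^ q ∣ F) (h' : ¬X ^ (q + 1) ∣ F) :
    Associated (X ^ q) F := by
  obtain ⟨v, rfl⟩ := h
  refine associated_mul_unit_right _ _ (isUnit_iff_constantCoeff.2 (Ne.isUnit fun h0 => h' ?_))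
  rw [pow_succ]
  exact mul_dvd_mul_left _ (X_dvd_iff.2 h0)

theorem pow_le {p q : ℕ} : (X : PowerSeries K) ^ p ∣ X ^ q ↔ p ≤ q :=
  pow_dvd_pow_iff X_ne_zero fun h => by simpa using isUnit_iff_constantCoeff.1 h

theorem dvd_expand {n : ℕ} (hn : n ≠ 0) {H : PowerSeries K} {M : ℕ} (h : X ^ M ∣ H) :
    X ^ (n * M) ∣ expand n hn H := by
  have := map_dvd (expand n hn) h
  rwa [map_pow, expand_X, ← pow_mul] at this

theorem dvd_expand_iff {n : ℕ} (hn : n ≠ 0) (H : PowerSeries K) (m : ℕ) :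
    X ^ (n * m + 1) ∣ expand n hn H ↔ X ^ (m + 1) ∣ H := by
  constructor
  · intro h
    rw [X_pow_dvd_iff] at h ⊢
    intro p hp
    rw [← coeff_expand_mul n hn]
    exact h _ (Nat.lt_succ_of_le (Nat.mul_le_mul_left n (Nat.le_of_lt_succ hp)))
  · intro h
    refine (pow_dvd_pow _ ?_).trans (dvd_expand hn h)
    rw [mul_add, mul_one]
    omega

theorem resc_expand {n : ℕ} (hn : n ≠ 0) {c : K} (hc : c ^ n = 1) (H : PowerSeries K) :
    rescale c (expand n hn H) = expand n hn H := by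
  ext p
  rw [coeff_rescale, coeff_expand]
  split_ifs with h
  · obtain ⟨q, rfl⟩ := h
    rw [pow_mul, hc, one_pow, one_mul]
  · exact mul_zero _

theorem resc_C (c a : K) : rescale c (C a) = C a := by
  ext p
  rw [coeff_rescale, coeff_C]
  split_ifs with h
  · rw [h, pow_zero, one_mul]
  · exact mul_zero _

theorem dvd_resc (c : K) {r : ℕ} {H : PowerSeries K} (h : X ^ r ∣ H) : X ^ r ∣ rescale c H := by
  rw [X_pow_dvd_iff] at h ⊢
  intro p hp
  rw [coeff_rescale, h p hp, mul_zero]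

theorem dvd_lead {H : PowerSeries K} {r : ℕ} (h : X ^ r ∣ H) :
    X ^ (r + 1) ∣ H - C (coeff r H) * X ^ r := by
  refine St.dvd_succ_iff.2 ⟨dvd_sub h (Dvd.intro_left _ rfl), ?_⟩
  rw [map_sub, coeff_C_mul, coeff_X_pow_self, mul_one, sub_self]

/-- Every series without constant term has a presentation. -/
theorem pres [IsAlgClosed K] [CharZero K] (hN : S_Nth) {n : ℕ} (hn : n ≠ 0) (M : ℕ)
    {x : PowerSeries K} (hx : X ∣ x) : ∃ (κ : ℕ) (b : K) (θ : PowerSeries K),
      (1 ≤ κ ∧ κ ≤ M + 1) ∧ b ≠ 0 ∧ constantCoeff θ = 1 ∧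
      X ^ (M + 1) ∣ x - if κ ≤ M then C (b ^ n) * X ^ κ * θ ^ n else 0 := by
  by_cases h : X ^ (M + 1) ∣ x
  · refine ⟨M + 1, 1, 1, ⟨by omega, le_rfl⟩, one_ne_zero, map_one _, ?_⟩
    rwa [if_neg (by omega), sub_zero]
  · have h0 : x ≠ 0 := fun e => h (e ▸ dvd_zero _)
    have e := (X_pow_order_mul_divXPowOrder (f := x)).symm
    have hv : constantCoeff (divXPowOrder x) ≠ 0 :=
      fun e => h0 (constantCoeff_divXPowOrder_eq_zero_iff.1 e)
    generalize x.order.toNat = κ at e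
    generalize divXPowOrder x = v at e hv
    have hκ : κ ≤ M := by
      by_contra hc
      exact h (e ▸ (pow_dvd_pow _ (by omega)).mul_right _)
    have hκ1 : 1 ≤ κ := by
      by_contra hc
      have : κ = 0 := by omega
      rw [this, pow_zero, one_mul] at e
      exact hv (e ▸ X_dvd_iff.1 hx)
    obtain ⟨b, hb⟩ := IsAlgClosed.exists_pow_nat_eq (constantCoeff v) (Nat.pos_of_ne_zero hn)
    obtain ⟨θ, h1, h2⟩ := (hN K n hn).1 (C (constantCoeff v)⁻¹ * v)
      (by rw [map_mul, constantCoeff_C, inv_mul_cancel₀ hv])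
    refine ⟨κ, b, θ, ⟨hκ1, by omega⟩, fun e => hv (by rw [← hb, e, zero_pow hn]), h1, ?_⟩
    have h3 : C (constantCoeff v) * C (constantCoeff v)⁻¹ = (1 : PowerSeries K) := by
      rw [← map_mul, mul_inv_cancel₀ hv, map_one]
    have h4 : C (b ^ n) * X ^ κ * θ ^ n = x := by
      rw [hb, h2, e]
      linear_combination (X ^ κ * v) * h3
    rw [if_pos hκ, h4, sub_self]
    exact dvd_zero _

end PS

variable {σ k : Type} [Fintype σ] [DecidableEq σ] [Field k] {D : Dat σ k}
  {K : Type} [Field K] [Algebra k K] {M : ℕ} {κ : σ → ℕ} {b : σ → K} {θ : σ → PowerSeries K}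

theorem eps_n (D : Dat σ k) : algebraMap k K D.ε ^ D.n = 1 := by
  rw [← map_pow, D.hε.pow_eq_one, map_one]

theorem cen_yy (hκ : ∀ j, 1 ≤ κ j) : St.Cen (D.yy M κ b θ) := by
  intro j
  unfold Dat.yy
  split_ifs
  · exact ((dvd_pow_self X (by have := hκ j; omega)).mul_left _).mul_right _
  · exact dvd_zero _

theorem yy_pow (j : σ) : D.yy M κ b θ j ^ D.n = expand D.n D.hn (D.xx M κ b θ j) := by
  unfold Dat.yy Dat.xx
  split_ifs
  · simp only [map_mul, map_pow, expand_C, expand_X, mul_pow, ← pow_mul, mul_comm (κ j)]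
  · rw [zero_pow D.hn, map_zero]

theorem yy_resc (j : σ) : rescale (algebraMap k K D.ε) (D.yy M κ b θ j) =
    C (algebraMap k K D.ε ^ κ j) * D.yy M κ b θ j := by
  unfold Dat.yy
  split_ifs
  · simp only [map_mul, map_pow, resc_C, rescale_X, resc_expand D.hn (eps_n D)]
    ring
  · rw [map_zero, mul_zero]

theorem yy_act (g : σ → ℕ) : D.yy M κ (fun j => algebraMap k K D.ε ^ g j * b j) θ =
    fun j => C (algebraMap k K D.ε ^ g j) * D.yy M κ b θ j := by
  funext j
  unfold Dat.yy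
  split_ifs
  · simp only [map_mul, mul_assoc]
  · rw [mul_zero]

theorem xx_act (g : σ → ℕ) (j : σ) :
    D.xx M κ (fun j => algebraMap k K D.ε ^ g j * b j) θ j = D.xx M κ b θ j := by
  unfold Dat.xx
  simp only [mul_pow, ← pow_mul, mul_comm (g j)]
  simp only [pow_mul, eps_n D, one_pow, one_mul]

/-- The value of `f` on the ramified arc. -/
theorem val_expand {γ : Option σ → PowerSeries K}
    (h : ∀ j, X ^ (M + 1) ∣ γ (some j) - D.xx M κ b θ j) :
    X ^ (M + 1) ∣ expand D.n D.hn (MvPolynomial.aeval γ D.f) - MvPolynomial.aeval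
      (fun o : Option σ => o.elim (expand D.n D.hn (γ none)) fun j => D.yy M κ b θ j ^ D.n) D.f := by
  have e := MvPolynomial.comp_aeval_apply γ ((expand D.n D.hn).restrictScalars k) D.f
  simp only [AlgHom.restrictScalars_apply] at e
  rw [e]
  refine St.aeval_congr_dvd (fun o => ?_) _
  cases o with
  | none => simp
  | some j =>
    simp only [Option.elim, yy_pow, ← map_sub]
    refine (pow_dvd_pow _ ?_).trans (dvd_expand D.hn (h j))
    exact Nat.le_mul_of_pos_left _ (Nat.pos_of_ne_zero D.hn)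

theorem val_iff {γ : Option σ → PowerSeries K} {m : ℕ}
    (h : ∀ j, X ^ (D.n * m + 1) ∣ γ (some j) - D.xx (D.n * m) κ b θ j) :
    X ^ (m + 1) ∣ MvPolynomial.aeval γ D.f - X ^ m ↔
    X ^ (D.n * m + 1) ∣ MvPolynomial.aeval (fun o : Option σ =>
      o.elim (expand D.n D.hn (γ none)) fun j => D.yy (D.n * m) κ b θ j ^ D.n) D.f -
        X ^ (D.n * m) := by
  rw [← dvd_expand_iff D.hn, map_sub, map_pow, expand_X, ← pow_mul]
  refine dvd_iff_dvd_of_dvd_sub ?_
  rw [sub_sub_sub_cancel_right]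
  exact val_expand h

variable {φ : R0 σ k →ₐ[k] PowerSeries K}

theorem mono_ev (hθ : ∀ j, constantCoeff (θ j) = 1)
    (hφ : ∀ j, φ (MvPowerSeries.X j) = D.yy M κ b θ j) (μ : σ →₀ ℕ) :
    (φ (mono μ) = 0 ∧ M < dot κ μ) ∨
      ∃ v, constantCoeff v = Dat.bp b μ ∧ φ (mono μ) = X ^ dot κ μ * v := by
  have e : φ (mono μ) = ∏ j, D.yy M κ b θ j ^ μ j := by
    rw [mono, MvPowerSeries.monomial_one_eq, Finsupp.prod_fintype _ _ fun _ => pow_zero _]
    simp only [map_prod, map_pow, hφ]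
  by_cases h : ∀ j, μ j ≠ 0 → κ j ≤ M
  · refine Or.inr ⟨∏ j, (C (b j) * expand D.n D.hn (θ j)) ^ μ j, ?_, ?_⟩
    · simp only [map_prod, map_pow, map_mul, constantCoeff_C, constantCoeff_expand, hθ, mul_one,
        Dat.bp]
    · rw [e, dot, ← Finset.prod_pow_eq_pow_sum, ← Finset.prod_mul_distrib]
      refine Finset.prod_congr rfl fun j _ => ?_
      by_cases h0 : μ j = 0
      · simp only [h0, pow_zero, mul_zero, mul_one]
      · rw [Dat.yy, if_pos (h j h0), pow_mul, ← mul_pow]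
        congr 1
        ring
  · push Not at h
    obtain ⟨j, h0, hj⟩ := h
    refine Or.inl ⟨?_, ?_⟩
    · rw [e]
      refine Finset.prod_eq_zero (Finset.mem_univ j) ?_
      rw [Dat.yy, if_neg (by omega), zero_pow h0]
    · have h1 : κ j * μ j ≤ dot κ μ :=
        Finset.single_le_sum (f := fun j => κ j * μ j) (fun _ _ => Nat.zero_le _)
          (Finset.mem_univ j)
      have h2 : κ j ≤ κ j * μ j := Nat.le_mul_of_pos_right _ (Nat.pos_of_ne_zero h0)
      omega

theorem fact (D : Dat σ k) (φ : R0 σ k →ₐ[k] PowerSeries K) {y : σ → PowerSeries K}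
    (hφ : ∀ j, φ (MvPowerSeries.X j) = y j) (w : PowerSeries K) :
    MvPolynomial.aeval (fun o : Option σ => o.elim w fun j => y j ^ D.n) D.f =
      φ (mono D.N) * Polynomial.aevalTower φ w D.e * ∏ a ∈ D.Z, (w - φ a) ^ D.m a := by
  have e : MvPolynomial.aeval (fun o : Option σ => o.elim w fun j => y j ^ D.n) =
      (Polynomial.aevalTower φ w).comp (io D.n 0) := by
    refine MvPolynomial.algHom_ext fun o => ?_
    cases o <;> simp [io, hφ]
  rw [e, AlgHom.comp_apply, D.hf]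
  simp only [map_mul, map_prod, map_pow, map_sub, Polynomial.aevalTower_C,
    Polynomial.aevalTower_X]

theorem unit_e (D : Dat σ k)
    (hc : ∀ a, constantCoeff (φ a) = algebraMap k K (MvPowerSeries.constantCoeff a))
    {w : PowerSeries K} (hw : constantCoeff w = 0) : IsUnit (Polynomial.aevalTower φ w D.e) := by
  refine isUnit_iff_constantCoeff.2 (Ne.isUnit ?_)
  rw [← Polynomial.X_mul_divX_add D.e, map_add, map_mul, Polynomial.aevalTower_C,
    Polynomial.aevalTower_X, map_add, map_mul, hw, zero_mul, zero_add, hc]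
  exact (map_ne_zero _).2 D.he

theorem dot_MM (s : Finset (R0 σ k)) :
    dot κ (D.MM s) = dot κ D.N + ∑ c ∈ D.Z \ s, dot κ (lam (pick s) c) * D.m c := by
  simp only [dot, Dat.MM, Finsupp.add_apply, Finsupp.finset_sum_apply, Finsupp.smul_apply,
    smul_eq_mul, mul_add, Finset.sum_add_distrib, Finset.mul_sum, Finset.sum_mul]
  rw [Finset.sum_comm]
  congr 1
  exact Finset.sum_congr rfl fun c _ => Finset.sum_congr rfl fun j _ => by ring

theorem assoc_val {F : PowerSeries K} (hF : X ^ (M + 1) ∣ F - X ^ M) : Associated (X ^ M) F := by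
  refine assoc_of ?_ fun h => ?_
  · have := dvd_add ((pow_dvd_pow X (Nat.le_succ M)).trans hF) (dvd_refl (X ^ M))
    rwa [sub_add_cancel] at this
  · have := dvd_sub h hF
    rw [sub_sub_cancel, pow_le] at this
    omega

theorem inner (hA : CA D) (hB : CB D) (hI : CI D) (hE : EV D K) (hG : Arg D) {m : ℕ}
    {w : PowerSeries K} (hκ : ∀ j, 1 ≤ κ j ∧ κ j ≤ D.n * m + 1) (hb : ∀ j, b j ≠ 0)
    (hθ : ∀ j, constantCoeff (θ j) = 1) (hw0 : constantCoeff w = 0)
    (hw : rescale (algebraMap k K D.ε) w = w)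
    (hF : X ^ (D.n * m + 1) ∣ MvPolynomial.aeval (fun o : Option σ =>
      o.elim w fun j => D.yy (D.n * m) κ b θ j ^ D.n) D.f - X ^ (D.n * m))
    {r : ℕ} {s : Finset (R0 σ k)}
    (hs : ∀ a, a ∈ s ↔ a ∈ D.Z ∧ X ^ r ∣ w - Dat.ev (D.yy (D.n * m) κ b θ) a) (hne : s.Nonempty)
    (hmax : ∀ a ∈ D.Z, ¬X ^ (r + 1) ∣ w - Dat.ev (D.yy (D.n * m) κ b θ) a) :
    D.IsCl s ∧ D.Idx m s κ r ∧ ∃ u : K,
      X ^ (r + 1) ∣ w - Dat.ev (D.yy (D.n * m) κ b θ) (ctr s) - C u * X ^ r ∧
      algebraMap k K (D.cc s) * Dat.bp b (D.MM s) * D.psi s κ r b u = 1 := by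
  have hcen : St.Cen (D.yy (D.n * m) κ b θ) := cen_yy fun j => (hκ j).1
  obtain ⟨φ, hφ, hφX⟩ := hE.hom _ hcen
  have hc : ∀ a, constantCoeff (φ a) = algebraMap k K (MvPowerSeries.constantCoeff a) :=
    fun a => by rw [hφ, hE.const _ hcen]
  simp only [← hφ] at hs hmax
  have hsZ : s ⊆ D.Z := fun a ha => ((hs a).1 ha).1
  have hbp : ∀ μ : σ → ℕ, Dat.bp b μ ≠ 0 :=
    fun μ => Finset.prod_ne_zero_iff.2 fun j _ => pow_ne_zero _ (hb j)
  have hmono : ∀ μ : σ →₀ ℕ, (φ (mono μ) = 0 ∧ D.n * m < dot κ μ) ∨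
      Associated (X ^ dot κ μ) (φ (mono μ)) := fun μ =>
    (mono_ev hθ hφX μ).imp id fun ⟨v, h1, h2⟩ => h2 ▸ associated_mul_unit_right _ _
      (isUnit_iff_constantCoeff.2 (Ne.isUnit (h1 ▸ hbp μ)))
  have hdiff : ∀ a ∈ D.Z, ∀ c ∈ D.Z, a ≠ c → Associated (φ (mono (lam a c))) (φ a - φ c) := by
    intro a ha c hc' hac
    obtain ⟨u, hu, e⟩ := hA.spec a ha c hc' hac
    rw [← map_sub, e, map_mul]
    exact associated_mul_unit_right _ _ (hu.map φ)
  have hmem : ∀ a ∈ s, ∀ c ∈ D.Z, a ≠ c → (c ∈ s ↔ X ^ r ∣ φ (mono (lam a c))) := by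
    intro a ha c hc' hac
    rw [(hdiff a (hsZ ha) c hc' hac).dvd_iff_dvd_right, hs, and_iff_right hc']
    refine dvd_iff_dvd_of_dvd_sub ?_
    rw [show w - φ c - (φ a - φ c) = w - φ a by ring]
    exact ((hs a).1 ha).2
  -- the cluster
  have hcl : D.IsCl s := by
    obtain ⟨a, ha⟩ := hne
    refine hB.ball a (hsZ ha) {μ | X ^ r ∣ φ (mono μ)} s (fun μ ν hle hμ => ?_) fun c => ?_
    · obtain ⟨ν', rfl⟩ := le_iff_exists_add.1 hle
      have : (mono (μ + ν') : R0 σ k) = mono μ * mono ν' := by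
        rw [mono, mono, mono, MvPowerSeries.monomial_mul_monomial, one_mul]
      rw [Set.mem_setOf_eq, this, map_mul]
      exact Dvd.dvd.mul_right hμ _
    · by_cases hac : a = c
      · subst hac
        exact iff_of_true ha ⟨hsZ ha, Or.inl rfl⟩
      · constructor
        · exact fun h => ⟨hsZ h, Or.inr ((hmem a ha c (hsZ h) hac).1 h)⟩
        · exact fun h => (hmem a ha c h.1 hac).2 (h.2.resolve_left (Ne.symm hac))
  have hp := hB.pick_mem s hcl
  have hr1 : 1 ≤ r := by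
    by_contra h
    have h0 : r = 0 := by omega
    refine hmax _ (hsZ hp) ?_
    rw [h0, zero_add, pow_one, X_dvd_iff, map_sub, hw0, hc, D.h0 _ (hsZ hp), map_zero, sub_zero]
  -- the roots outside
  have hout : ∀ c ∈ D.Z, c ∉ s → dot κ (lam (pick s) c) < r ∧
      Associated (X ^ dot κ (lam (pick s) c)) (w - φ c) := by
    intro c hc' hcs
    have hne' : pick s ≠ c := fun e => hcs (e ▸ hp)
    have h1 : ¬X ^ r ∣ φ (mono (lam (pick s) c)) := fun h => hcs ((hmem _ hp c hc' hne').2 h)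
    have h2 := (hmono (lam (pick s) c)).resolve_left fun h => h1 (h.1 ▸ dvd_zero _)
    have h3 : dot κ (lam (pick s) c) < r := by
      by_contra h
      exact h1 ((pow_dvd_pow _ (not_lt.1 h)).trans h2.dvd)
    have h4 := h2.trans (hdiff _ (hsZ hp) c hc' hne')
    have h5 : X ^ (dot κ (lam (pick s) c) + 1) ∣ w - φ c - (φ (pick s) - φ c) := by
      rw [show w - φ c - (φ (pick s) - φ c) = w - φ (pick s) by ring]
      exact (pow_dvd_pow _ h3).trans ((hs _).1 hp).2
    refine ⟨h3, assoc_of ?_ fun h => ?_⟩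
    · exact (dvd_iff_dvd_of_dvd_sub ((pow_dvd_pow _ (Nat.le_succ _)).trans h5)).2 h4.dvd
    · have := (dvd_iff_dvd_of_dvd_sub h5).1 h
      rw [← h4.dvd_iff_dvd_right, pow_le] at this
      omega
  -- adding the orders
  have hM : D.n * m = dot κ (D.MM s) + D.deg s * r := by
    have h1 := assoc_val hF
    rw [fact D φ hφX w] at h1
    have hN : Associated (X ^ dot κ D.N) (φ (mono D.N)) :=
      (hmono D.N).resolve_left fun h => by
        rw [h.1, zero_mul, zero_mul, associated_zero_iff_eq_zero] at h1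
        exact pow_ne_zero _ X_ne_zero h1
    have h2 := Associated.prod (D.Z \ s) (fun c => (X ^ dot κ (lam (pick s) c)) ^ D.m c)
      (fun c => (w - φ c) ^ D.m c) fun c hc' =>
        (hout c (Finset.mem_sdiff.1 hc').1 (Finset.mem_sdiff.1 hc').2).2.pow_pow
    have h3 := Associated.prod s (fun c => (X ^ r) ^ D.m c) (fun c => (w - φ c) ^ D.m c)
      fun c hc' => (assoc_of ((hs c).1 hc').2 (hmax c (hsZ hc'))).pow_pow
    have h4 := (hN.trans (associated_mul_unit_right _ _ (unit_e D hc hw0))).mul_mul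
      (h2.mul_mul h3)
    rw [Finset.prod_sdiff hsZ] at h4
    simp only [← pow_mul, Finset.prod_pow_eq_pow_sum, ← pow_add] at h4
    have h5 := h1.trans h4.symm
    rw [le_antisymm (pow_le.1 h5.dvd) (pow_le.1 h5.symm.dvd), dot_MM, add_assoc, Dat.deg,
      Finset.sum_mul]
    simp only [mul_comm r]
  have hdeg := hB.deg_pos s hcl
  have hrM : r ≤ D.n * m := by
    have : r ≤ D.deg s * r := Nat.le_mul_of_pos_left _ hdeg
    omega
  have hhi : 2 ≤ s.card → X ^ r ∣ φ (mono (hi s)) := by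
    intro h2
    obtain ⟨c, hc', hne', e⟩ := hB.hi_att s hcl h2 _ hp
    exact e ▸ (hmem _ hp c (hsZ hc') hne').1 hc'
  have hPos : D.Pos (D.n * m) s κ r := by
    refine ⟨hκ, ?_, fun h2 => ?_, hM.ge⟩
    · by_cases e : s = D.Z
      · rw [e, hB.top.2.1]
        have : dot κ (0 : σ →₀ ℕ) = 0 := by simp [dot]
        omega
      · obtain ⟨c, hc', hcs, e'⟩ := hB.lo_att s hcl e
        exact e' ▸ (hout c hc' hcs).1
    · rcases hmono (hi s) with h | h
      · omega
      · exact pow_le.1 (h.dvd_iff_dvd_right.2 (hhi h2))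
  have hone : ¬2 ≤ s.card → ∀ a ∈ s, ctr s = a := by
    intro h2 a ha
    have : s = {a} := Finset.eq_singleton_iff_unique_mem.2
      ⟨ha, fun c hc' => Finset.card_le_one.1 (by omega) c hc' a ha⟩
    rw [this, hB.ctr_one]
  have hctr : X ^ r ∣ w - φ (ctr s) := by
    by_cases h2 : 2 ≤ s.card
    · have h1 := (hhi h2).trans (map_dvd φ (hB.dvd_ctr s hcl _ hp))
      have := dvd_add ((hs _).1 hp).2 h1
      rwa [map_sub, sub_add_sub_cancel] at this
    · rw [hone h2 _ hp]
      exact ((hs _).1 hp).2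
  have hu := dvd_lead hctr
  have hco : ∀ a ∈ s, coeff r (w - φ (ctr s)) - coeff r (φ (a - ctr s)) ≠ 0 := by
    intro a ha h0
    refine hmax a (hsZ ha) (St.dvd_succ_iff.2 ⟨((hs a).1 ha).2, ?_⟩)
    rw [← h0, ← map_sub, map_sub φ, sub_sub_sub_cancel_right]
  have hpsi : D.psi s κ r b (coeff r (w - φ (ctr s))) ≠ 0 := by
    unfold Dat.psi
    split_ifs with h
    · refine Finset.prod_ne_zero_iff.2 fun a ha => pow_ne_zero _ ?_
      obtain ⟨Q, hQ⟩ := hB.dvd_ctr s hcl a ha
      have hd : dir s a = MvPowerSeries.constantCoeff Q := by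
        have := MvPowerSeries.coeff_add_monomial_mul (hi s) 0 Q (1 : k)
        rw [add_zero, one_mul, MvPowerSeries.coeff_zero_eq_constantCoeff_apply] at this
        rw [dir, hQ, mono, this]
      rcases mono_ev hθ hφX (hi s) with h' | ⟨v, h1, h2⟩
      · omega
      · have := hco a ha
        have e := coeff_X_pow_mul (v * φ Q) r 0
        rw [zero_add, coeff_zero_eq_constantCoeff_apply, map_mul constantCoeff, h1, hc, ← hd] at e
        rwa [hQ, map_mul, h2, ← h.2, mul_assoc, e, mul_comm (Dat.bp b _)] at this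
    · refine pow_ne_zero _ ?_
      have := hco _ hp
      have e : coeff r (φ (pick s - ctr s)) = 0 := by
        by_cases h2 : 2 ≤ s.card
        · have h3 : r < dot κ (hi s) := lt_of_le_of_ne (hPos.2.2.1 h2) fun e => h ⟨h2, e⟩
          have h4 : X ^ (r + 1) ∣ φ (mono (hi s)) := by
            rcases hmono (hi s) with h' | h'
            · exact h'.1 ▸ dvd_zero _
            · exact (pow_dvd_pow _ h3).trans h'.dvd
          exact (St.dvd_succ_iff.1 (h4.trans (map_dvd φ (hB.dvd_ctr s hcl _ hp)))).2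
        · rw [hone h2 _ hp, sub_self, map_zero, map_zero]
      rwa [e, sub_zero] at this
  have hStab : D.Stab s κ := by
    refine Finset.eq_of_subset_of_card_le (fun c hc' => ?_) (hI.card κ s).ge
    obtain ⟨a, ha, rfl⟩ := Finset.mem_image.1 hc'
    refine (hs _).2 ⟨(hA.act_mem κ a (hsZ ha)).1, ?_⟩
    have := dvd_resc (algebraMap k K D.ε) ((hs a).1 ha).2
    rw [map_sub, hw, hφ, hE.resc _ hcen] at this
    simp only [yy_resc] at this
    rwa [hφ, hE.act _ hcen]
  rw [hφ] at hu hpsi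
  refine ⟨hcl, ⟨hPos, fun μ hμ => hμ κ hStab, hM⟩, _, hu, ?_⟩
  have h1 := (hG K _ s κ r b θ w _ hcl hPos hb hθ hu hpsi).2.2
  rw [← hM] at h1
  have h2 := (St.dvd_succ_iff.1 (dvd_sub hF h1)).2
  rw [sub_sub_sub_cancel_left, map_sub, coeff_C_mul, coeff_X_pow_self, mul_one, sub_eq_zero] at h2
  exact h2

end CoverP

open CoverP in
theorem p_Cover (h : S_CA) (hB : S_CB) (hI : S_CI) (hE : S_EV) (hA : S_Arg) (hN : S_Nth) :
    S_Cover := by
  intro σ k _ _ _ _ _ D K _ _ _ m γ hm hγ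
  have hCA : CA D := h _ _ D
  have hCB : CB D := hB _ _ D
  have hCI : CI D := hI _ _ D
  have hEV : EV D K := hE _ _ D K
  have hG : Arg D := hA _ _ D
  constructor
  · intro hf
    haveI : CharZero K := charZero_of_injective_algebraMap (algebraMap k K).injective
    choose κ b θ hκ hb hθ hx using fun j => pres hN D.hn (D.n * m) (hγ (some j))
    have hx' : ∀ j, X ^ (D.n * m + 1) ∣ γ (some j) - D.xx (D.n * m) κ b θ j := hx
    have hcen : St.Cen (D.yy (D.n * m) κ b θ) := cen_yy fun j => (hκ j).1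
    have hw0 : constantCoeff (expand D.n D.hn (γ none)) = 0 := by
      rw [constantCoeff_expand]
      exact X_dvd_iff.1 (hγ none)
    have hw := resc_expand D.hn (eps_n (K := K) D) (γ none)
    have hF := (val_iff hx').1 hf
    obtain ⟨r, ⟨a₀, ha₀, hr⟩, hmax⟩ : ∃ r, (∃ a ∈ D.Z, X ^ r ∣ expand D.n D.hn (γ none) -
        Dat.ev (D.yy (D.n * m) κ b θ) a) ∧ ∀ a ∈ D.Z, ¬X ^ (r + 1) ∣ expand D.n D.hn (γ none) -
          Dat.ev (D.yy (D.n * m) κ b θ) a := by
      by_contra hc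
      push Not at hc
      have hall : ∀ r, ∃ a ∈ D.Z, X ^ r ∣ expand D.n D.hn (γ none) -
          Dat.ev (D.yy (D.n * m) κ b θ) a := by
        intro r
        induction r with
        | zero => exact D.hZ.imp fun a ha => ⟨ha, by simp⟩
        | succ r ih => exact hc r ih
      obtain ⟨a, ha, h1⟩ := hall (D.n * m + 1)
      obtain ⟨φ, hφ, hφX⟩ := hEV.hom _ hcen
      have h2 := assoc_val hF
      rw [fact D φ hφX] at h2
      rw [← hφ] at h1
      have h3 := ((h1.trans (dvd_pow_self _ (D.hm a ha).ne')).trans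
        (Finset.dvd_prod_of_mem (fun a => (expand D.n D.hn (γ none) - φ a) ^ D.m a) ha)).mul_left
          (φ (mono D.N) * Polynomial.aevalTower φ (expand D.n D.hn (γ none)) D.e)
      rw [← h2.dvd_iff_dvd_right, pow_le] at h3
      omega
    classical
    obtain ⟨s, hs⟩ : ∃ s : Finset (R0 σ k), ∀ a, a ∈ s ↔ a ∈ D.Z ∧
        X ^ r ∣ expand D.n D.hn (γ none) - Dat.ev (D.yy (D.n * m) κ b θ) a :=
      ⟨D.Z.filter _, fun a => Finset.mem_filter⟩
    obtain ⟨g₀, hg₀⟩ := hCI.rep_eq s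
    obtain ⟨g, hg⟩ := hCI.acts_inv g₀
    have hmem : ∀ a, a ∈ D.rep s ↔ D.act g a ∈ s := by
      intro a
      conv_rhs => rw [← hg s, ← hg₀, Dat.acts, Finset.mem_image]
      exact ⟨fun ha => ⟨a, ha, rfl⟩, fun ⟨a', ha', e⟩ => hCA.act_inj g e ▸ ha'⟩
    have hsub : D.rep s ⊆ D.Z := by
      intro a ha
      rw [hg₀] at ha
      obtain ⟨a', ha', rfl⟩ := Finset.mem_image.1 ha
      exact (hCA.act_mem _ _ ((hs a').1 ha').1).1
    have hev : ∀ a, Dat.ev (D.yy (D.n * m) κ (fun j => algebraMap k K D.ε ^ g j * b j) θ) a =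
        Dat.ev (D.yy (D.n * m) κ b θ) (D.act g a) := fun a => by rw [yy_act, hEV.act _ hcen]
    have hx'' : ∀ j, X ^ (D.n * m + 1) ∣ γ (some j) -
        D.xx (D.n * m) κ (fun j => algebraMap k K D.ε ^ g j * b j) θ j :=
      fun j => by rw [xx_act]; exact hx' j
    have hb' : ∀ j, algebraMap k K D.ε ^ g j * b j ≠ 0 := fun j =>
      mul_ne_zero (pow_ne_zero _ ((map_ne_zero _).2 (D.hε.ne_zero D.hn))) (hb j)
    obtain ⟨hcl, hidx, u, hu, hone⟩ := inner (s := D.rep s) (r := r) hCA hCB hCI hEV hG hκ hb' hθ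
      hw0 hw ((val_iff hx'').1 hf)
      (fun a => by
        rw [hev]
        exact ⟨fun ha => ⟨hsub ha, ((hs _).1 ((hmem a).1 ha)).2⟩,
          fun ha => (hmem a).2 ((hs _).2 ⟨(hCA.act_mem g a ha.1).1, ha.2⟩)⟩)
      (by
        rw [hg₀]
        exact Finset.Nonempty.image ⟨a₀, (hs a₀).2 ⟨ha₀, hr⟩⟩ _)
      fun a ha => by
        rw [hev]
        exact hmax _ (hCA.act_mem g a ha).1
    refine ⟨D.rep s, ?_, κ, r, hidx, _, θ, u, hb', hθ, hx'', hu, hone⟩
    refine Finset.mem_filter.2 ⟨Finset.mem_powerset.2 hsub, hcl, ?_⟩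
    conv_lhs => rw [hg₀, hCI.rep_act]
  · rintro ⟨s, hs, κ, r, ⟨hPos, -, hM⟩, b, θ, u, hb, hθ, hx, hu, hone⟩
    have hcl : D.IsCl s := by
      classical
      exact (Finset.mem_filter.1 hs).2.1
    have hpsi : D.psi s κ r b u ≠ 0 := fun e => by
      rw [e, mul_zero] at hone
      exact zero_ne_one hone
    have h1 := (hG K _ s κ r b θ _ u hcl hPos hb hθ hu hpsi).2.2
    rw [← hM, hone, map_one, one_mul] at h1
    exact (val_iff hx).2 h1

end

end Pool.Agent.P.MP_b91a16_ag.Qo
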