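import Pool.Agent.P.MP_b91a16_ag.DefsLoc

/-! Quasi-ordinary polynomials. -/

namespace Pool.Agent.P.MP_b91a16_ag.Qo

noncomputable section

/-- `f(z, x_1, …, x_d)` is quasi-ordinary at the origin: for some `n > 0`, in `k[[y]][z]` one has
`f(z, y_1^n, …, y_d^n) = y^N e ∏ (z - ζ)` with `e(0) ≠ 0` and at least one root `ζ`, where the
roots `ζ ∈ k[[y]]` (repetitions allowed) vanish at `0` and any two distinct roots differ by a
monomial times a unit. -/
def QuasiOrd {k : Type} [Field k] {d : ℕ} (f : MvPolynomial (Fin (d + 1)) k) : Prop :=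
  ∃ (n : ℕ) (N : Fin d →₀ ℕ) (e : Polynomial (MvPowerSeries (Fin d) k))
    (Z : Multiset (MvPowerSeries (Fin d) k)), 0 < n ∧ Z ≠ 0 ∧
    MvPowerSeries.constantCoeff (e.coeff 0) ≠ 0 ∧
    (∀ ζ ∈ Z, MvPowerSeries.constantCoeff ζ = 0) ∧
    (∀ ζ ∈ Z, ∀ ξ ∈ Z, ζ ≠ ξ → ∃ (μ : Fin d →₀ ℕ) (u : MvPowerSeries (Fin d) k), IsUnit u ∧
      ζ - ξ = MvPowerSeries.monomial μ 1 * u) ∧
    MvPolynomial.aeval
        (Fin.cons Polynomial.X fun j => Polynomial.C (MvPowerSeries.X j ^ n) :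
          Fin (d + 1) → Polynomial (MvPowerSeries (Fin d) k)) f =
      Polynomial.C (MvPowerSeries.monomial N 1) * e *
        (Z.map fun ζ => Polynomial.X - Polynomial.C ζ).prod

end

end Pool.Agent.P.MP_b91a16_ag.Qo
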