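import Pool.Agent.P.MP_b91a16_ag.Qo.Spec

/-! Quasi-ordinary polynomials: evaluation of series along arcs, and roots of unit series. -/

set_option linter.unusedSectionVars false

namespace Pool.Agent.P.MP_b91a16_ag.Qo

noncomputable section

namespace EVP

variable {σ k K : Type} [Fintype σ] [DecidableEq σ] [Field k] [Field K] [Algebra k K]

theorem cen0 {y : σ → PowerSeries K} (h : St.Cen y) (j : σ) :
    MvPowerSeries.constantCoeff (y j) = 0 :=
  PowerSeries.X_dvd_iff.1 (h j)

theorem hs {y : σ → PowerSeries K} (h : St.Cen y) : MvPowerSeries.HasSubst y :=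
  MvPowerSeries.hasSubst_of_constantCoeff_zero (cen0 h)

theorem trunc {y : σ → PowerSeries K} (h : St.Cen y) (a : R0 σ k) (M : ℕ) :
    PowerSeries.X ^ M ∣ Dat.ev y a - MvPolynomial.aeval y (a.truncTotal M) := by
  rw [PowerSeries.X_pow_dvd_iff]
  intro m hm
  have h1 := MvPowerSeries.truncTotal_subst_eq_truncTotal_truncTotal_subst (f := a) (k := M)
    (cen0 h)
  have hd : Finsupp.degree (Finsupp.single () m) < M := by simpa using hm
  have h2 := congrArg (MvPolynomial.coeff (Finsupp.single () m)) h1
  rw [MvPowerSeries.coeff_truncTotal _ hd, MvPowerSeries.coeff_truncTotal _ hd,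
    MvPowerSeries.subst_coe] at h2
  rw [map_sub, sub_eq_zero]
  exact h2

theorem eq_of_dvd {F G : PowerSeries K} (h : ∀ M, PowerSeries.X ^ M ∣ F - G) : F = G := by
  ext m
  have := PowerSeries.X_pow_dvd_iff.1 (h (m + 1)) m (Nat.lt_succ_self m)
  rwa [map_sub, sub_eq_zero] at this

theorem const {y : σ → PowerSeries K} (h : St.Cen y) (a : R0 σ k) :
    PowerSeries.constantCoeff (Dat.ev y a) = algebraMap k K (MvPowerSeries.constantCoeff a) := by
  have h1 := trunc h a 1
  have h2 := St.dvd_aeval_sub_const h (a.truncTotal 1)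
  rw [pow_one] at h1
  have h3 := PowerSeries.X_dvd_iff.1 (dvd_add h1 h2)
  rw [sub_add_sub_cancel, map_sub, sub_eq_zero, MvPowerSeries.constantCoeff_truncTotal_eq_ite,
    if_pos Nat.one_pos] at h3
  rw [h3, PowerSeries.algebraMap_apply, PowerSeries.constantCoeff_C]

theorem congr {y y' : σ → PowerSeries K} (h : St.Cen y) (h' : St.Cen y') (a : R0 σ k) (M : ℕ)
    (e : ∀ j, PowerSeries.X ^ M ∣ y' j - y j) :
    PowerSeries.X ^ M ∣ Dat.ev y' a - Dat.ev y a := by
  have h1 := dvd_sub (dvd_add (trunc h' a M) (St.aeval_congr_dvd e (a.truncTotal M))) (trunc h a M)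
  convert h1 using 1
  ring

theorem act (D : Dat σ k) {y : σ → PowerSeries K} (h : St.Cen y) (a : R0 σ k) (g : σ → ℕ) :
    Dat.ev y (D.act g a) =
      Dat.ev (fun j => PowerSeries.C (algebraMap k K D.ε ^ g j) * y j) a := by
  unfold Dat.ev Dat.act
  rw [MvPowerSeries.rescale_eq_subst,
    MvPowerSeries.subst_comp_subst_apply (MvPowerSeries.HasSubst.smul_X _) (hs h)]
  congr 1
  funext j
  rw [Pi.smul_apply', MvPowerSeries.subst_smul (hs h), MvPowerSeries.subst_X (hs h),
    Algebra.smul_def, ← map_pow, ← PowerSeries.algebraMap_apply]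

theorem resc_dvd (c : K) {F : PowerSeries K} {M : ℕ} (h : PowerSeries.X ^ M ∣ F) :
    PowerSeries.X ^ M ∣ PowerSeries.rescale c F := by
  rw [PowerSeries.X_pow_dvd_iff] at h ⊢
  intro m hm
  rw [PowerSeries.coeff_rescale, h m hm, mul_zero]

theorem resc_aeval (c : K) (y : σ → PowerSeries K) (p : MvPolynomial σ k) :
    PowerSeries.rescale c (MvPolynomial.aeval y p) =
      MvPolynomial.aeval (fun j => PowerSeries.rescale c (y j)) p := by
  induction p using MvPolynomial.induction_on with
  | C a =>
    rw [MvPolynomial.aeval_C, MvPolynomial.aeval_C, PowerSeries.algebraMap_apply]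
    ext m
    rw [PowerSeries.coeff_rescale, PowerSeries.coeff_C]
    split_ifs with hm
    · simp [hm]
    · simp
  | add p q hp hq => rw [map_add, map_add, map_add, hp, hq]
  | mul_X p i hp =>
    rw [map_mul, map_mul, map_mul, hp, MvPolynomial.aeval_X, MvPolynomial.aeval_X]

theorem resc {y : σ → PowerSeries K} (h : St.Cen y) (a : R0 σ k) (c : K) :
    PowerSeries.rescale c (Dat.ev y a) = Dat.ev (fun j => PowerSeries.rescale c (y j)) a := by
  have h' : St.Cen fun j => PowerSeries.rescale c (y j) := fun j => by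
    have := resc_dvd c (M := 1) (F := y j) (by simpa using h j)
    simpa using this
  refine eq_of_dvd fun M => ?_
  have h1 := resc_dvd c (trunc h a M)
  rw [map_sub, resc_aeval] at h1
  have h2 := dvd_sub h1 (trunc h' a M)
  convert h2 using 1
  ring

theorem binom_pow (A : Type) [CommRing A] [Algebra ℚ A] (r : ℚ) (n : ℕ) :
    PowerSeries.binomialSeries A r ^ n = PowerSeries.binomialSeries A (n * r) := by
  induction n with
  | zero => simp
  | succ n ih => rw [pow_succ, ih, ← PowerSeries.binomialSeries_add]; congr 1; push_cast; ring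

end EVP

theorem p_EV : S_EV := by
  intro σ k _ _ _ _ _ D K _ _
  exact
    { hom := fun y h => ⟨MvPowerSeries.substAlgHom (EVP.hs h),
        fun a => MvPowerSeries.substAlgHom_apply _ a, fun j => MvPowerSeries.substAlgHom_X _ j⟩
      const := fun y h a => EVP.const h a
      trunc := fun y h a M => EVP.trunc h a M
      congr := fun y y' h h' a M e => EVP.congr h h' a M e
      act := fun y h a g => EVP.act D h a g
      resc := fun y h a c => EVP.resc h a c }

theorem p_Nth : S_Nth := by
  intro A _ _ n hn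
  have hq : (n : ℚ) ≠ 0 := Nat.cast_ne_zero.2 hn
  refine ⟨fun v hv => ?_, fun θ θ' M h h' hd => ?_⟩
  · have h0 : PowerSeries.constantCoeff (v - 1) = 0 := by simp [hv]
    have hs : PowerSeries.HasSubst (v - 1) := PowerSeries.HasSubst.of_constantCoeff_zero' h0
    let φ : PowerSeries A →ₐ[A] PowerSeries A := PowerSeries.substAlgHom hs
    refine ⟨φ (PowerSeries.binomialSeries A ((n : ℚ)⁻¹)), ?_, ?_⟩
    · have h1 : PowerSeries.constantCoeff (PowerSeries.binomialSeries A ((n : ℚ)⁻¹) - 1) = 0 := by
        simp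
      have h2 := PowerSeries.constantCoeff_subst_eq_zero (a := v - 1) h0 _ h1
      rw [← PowerSeries.coe_substAlgHom hs, map_sub, map_one, map_sub, map_one, sub_eq_zero] at h2
      exact h2
    · have h1 := PowerSeries.binomialSeries_nat (R := ℚ) (A := A) 1
      rw [← map_pow, EVP.binom_pow, mul_inv_cancel₀ hq, ← Nat.cast_one, h1, pow_one, map_add,
        map_one, PowerSeries.substAlgHom_X]
      ring
  · have hu : IsUnit (∑ i ∈ Finset.range n, θ ^ i * θ' ^ (n - 1 - i)) := by
      rw [PowerSeries.isUnit_iff_constantCoeff]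
      have : IsUnit (algebraMap ℚ A n) := (IsUnit.mk0 _ hq).map _
      simpa [h, h'] using this
    rw [← Commute.geom_sum₂_mul (Commute.all θ θ')] at hd
    exact (hu.dvd_mul_left).1 hd

end

end Pool.Agent.P.MP_b91a16_ag.Qo
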