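import Pool.Agent.P.MP_b91a16_ag.Qo.Spec

/-! Generating series of sets of lattice points: union, bijection, shift, and rationality for
sets generated by finitely many rays (a Hilbert-Serre induction on the rays). -/

set_option linter.unusedSectionVars false

namespace Pool.Agent.P.MP_b91a16_ag.Qo

noncomputable section

namespace GFsP

variable {σ : Type} [Fintype σ] [DecidableEq σ]

theorem wt_add (p q : Pt σ) : wt (p + q) = wt p + wt q := by
  simp only [wt, Prod.fst_add, Prod.snd_add, Pi.add_apply, Finset.sum_add_distrib]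
  omega

theorem fin_bd (B M : ℕ) : {p : Pt σ | wt p ≤ B ∧ p.2.2 ≤ M}.Finite := by
  have h1 : (Set.Iic (fun _ : σ => B)).Finite := Set.finite_Iic _
  have h2 := h1.prod ((Set.finite_Iic B).prod (Set.finite_Iic M))
  refine h2.subset ?_
  rintro p ⟨ha, hb⟩
  unfold wt at ha
  refine ⟨fun j => ?_, ?_, hb⟩
  · have := Finset.single_le_sum (f := p.1) (fun _ _ => Nat.zero_le _) (Finset.mem_univ j)
    show p.1 j ≤ B
    omega
  · show p.2.1 ≤ B
    omega

theorem fin_fib (S : Set (Pt σ)) (a m : ℕ) : (S ∩ {p | wt p = a ∧ p.2.2 = m}).Finite :=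
  (fin_bd a m).subset fun _ hp => ⟨hp.2.1.le, hp.2.2.le⟩

theorem coeff_GF (S : Set (Pt σ)) (m a : ℕ) :
    PowerSeries.coeff a (PowerSeries.coeff m (GF S)) =
      ((S ∩ {p | wt p = a ∧ p.2.2 = m}).ncard : ℤ) := by
  simp only [GF, PowerSeries.coeff_mk]

theorem GF_union {S S' : Set (Pt σ)} (h : Disjoint S S') : GF (S ∪ S') = GF S + GF S' := by
  ext m a
  rw [map_add, map_add, coeff_GF, coeff_GF, coeff_GF, Set.union_inter_distrib_right,
    Set.ncard_union_eq (h.mono Set.inter_subset_left Set.inter_subset_left) (fin_fib S a m)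
      (fin_fib S' a m)]
  push_cast
  rfl

theorem GF_bij {S S' : Set (Pt σ)} (φ : Pt σ → Pt σ) (h : Set.BijOn φ S S')
    (hw : ∀ p ∈ S, wt (φ p) = wt p ∧ (φ p).2.2 = p.2.2) : GF S = GF S' := by
  ext m a
  rw [coeff_GF, coeff_GF]
  have : φ '' (S ∩ {p | wt p = a ∧ p.2.2 = m}) = S' ∩ {p | wt p = a ∧ p.2.2 = m} := by
    ext q
    constructor
    · rintro ⟨p, ⟨hp, h1, h2⟩, rfl⟩
      exact ⟨h.mapsTo hp, (hw p hp).1.trans h1, (hw p hp).2.trans h2⟩
    · rintro ⟨hq, h1, h2⟩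
      obtain ⟨p, hp, rfl⟩ := h.surjOn hq
      exact ⟨p, ⟨hp, (hw p hp).1.symm.trans h1, (hw p hp).2.symm.trans h2⟩, rfl⟩
  rw [← this, (h.injOn.mono Set.inter_subset_left).ncard_image]

theorem GF_shift (S : Set (Pt σ)) (v : Pt σ) : GF ((· + v) '' S) =
    PowerSeries.C (PowerSeries.X ^ wt v) * PowerSeries.X ^ v.2.2 * GF S := by
  ext m a
  rw [coeff_GF, mul_assoc, PowerSeries.coeff_C_mul, PowerSeries.coeff_X_pow_mul',
    PowerSeries.coeff_X_pow_mul']
  by_cases h : wt v ≤ a ∧ v.2.2 ≤ m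
  · rw [if_pos h.1, if_pos h.2, coeff_GF]
    have : (· + v) '' S ∩ {p | wt p = a ∧ p.2.2 = m} =
        (· + v) '' (S ∩ {p | wt p = a - wt v ∧ p.2.2 = m - v.2.2}) := by
      ext q
      constructor
      · rintro ⟨⟨p, hp, rfl⟩, h1, h2⟩
        rw [wt_add] at h1
        have h3 : p.2.2 + v.2.2 = m := h2
        exact ⟨p, ⟨hp, by omega, by omega⟩, rfl⟩
      · rintro ⟨p, ⟨hp, h1, h2⟩, rfl⟩
        refine ⟨⟨p, hp, rfl⟩, ?_, ?_⟩
        · rw [wt_add]
          omega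
        · show p.2.2 + v.2.2 = m
          omega
    rw [this, Set.ncard_image_of_injective _ (add_left_injective v)]
  · have : (· + v) '' S ∩ {p | wt p = a ∧ p.2.2 = m} = ∅ := by
      rw [Set.eq_empty_iff_forall_notMem]
      rintro q ⟨⟨p, hp, rfl⟩, h1, h2⟩
      rw [wt_add] at h1
      have h3 : p.2.2 + v.2.2 = m := h2
      exact h ⟨by omega, by omega⟩
    rw [this]
    by_cases h1 : wt v ≤ a
    · have h2 : ¬ v.2.2 ≤ m := fun h2 => h ⟨h1, h2⟩
      simp [h1, h2]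
    · simp [h1]

theorem GF_empty : GF (∅ : Set (Pt σ)) = 0 := by
  ext m a
  rw [coeff_GF]
  simp

theorem wt_zero : wt (0 : Pt σ) = 0 := by
  simp [wt]

theorem GF_zero : GF ({0} : Set (Pt σ)) = 1 := by
  ext m a
  rw [coeff_GF]
  by_cases h : a = 0 ∧ m = 0
  · obtain ⟨rfl, rfl⟩ := h
    have : ({0} : Set (Pt σ)) ∩ {p | wt p = 0 ∧ p.2.2 = 0} = {0} :=
      Set.inter_eq_left.2 (by rintro p rfl; exact ⟨wt_zero, rfl⟩)
    rw [this]
    simp
  · have : ({0} : Set (Pt σ)) ∩ {p | wt p = a ∧ p.2.2 = m} = ∅ := by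
      rw [Set.eq_empty_iff_forall_notMem]
      rintro q ⟨rfl, h1, h2⟩
      rw [wt_zero] at h1
      exact h ⟨h1.symm, h2.symm⟩
    rw [this]
    by_cases hm : m = 0
    · have ha : a ≠ 0 := fun ha => h ⟨ha, hm⟩
      subst hm
      simp [PowerSeries.coeff_one, ha]
    · simp [PowerSeries.coeff_one, hm]

theorem X_mem (Al : ℕ → ℕ → Prop) : PowerSeries.X ∈ hat Al :=
  Subring.subset_closure (Or.inl (Or.inr rfl))

theorem C_mem (Al : ℕ → ℕ → Prop) (u : PowerSeries ℤ) : PowerSeries.C u ∈ hat Al :=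
  Subring.subset_closure (Or.inl (Or.inl ⟨u, rfl⟩))

theorem mon_mem (Al : ℕ → ℕ → Prop) (a b : ℕ) :
    PowerSeries.C (PowerSeries.X ^ a) * PowerSeries.X ^ b ∈ hat Al :=
  (hat Al).mul_mem (C_mem Al _) ((hat Al).pow_mem (X_mem Al) b)

theorem fin_mem (Al : ℕ → ℕ → Prop) {T : Set (Pt σ)} (hT : T.Finite) : GF T ∈ hat Al := by
  induction T, hT using Set.Finite.induction_on with
  | empty => rw [GF_empty]; exact (hat Al).zero_mem
  | @insert p T hp _ ih =>
    have h1 : ({p} : Set (Pt σ)) = (· + p) '' {0} := by simp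
    rw [Set.insert_eq, GF_union (Set.disjoint_singleton_left.2 hp), h1, GF_shift, GF_zero, mul_one]
    exact (hat Al).add_mem (mon_mem Al _ _) ih

theorem inv_mem (Al : ℕ → ℕ → Prop) {a b : ℕ} (ha : 0 < a) (hb : Ok Al a b) :
    ∃ g ∈ hat Al, g * (1 - PowerSeries.C (PowerSeries.X ^ a) * PowerSeries.X ^ b) = 1 := by
  rcases hb with rfl | hb
  · have hu : IsUnit (1 - PowerSeries.X ^ a : PowerSeries ℤ) := by
      rw [PowerSeries.isUnit_iff_constantCoeff]
      simp [ha.ne']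
    obtain ⟨w, hw⟩ := hu.exists_left_inv
    refine ⟨PowerSeries.C w, C_mem Al w, ?_⟩
    rw [pow_zero, mul_one, ← map_one (PowerSeries.C (R := PowerSeries ℤ)), ← map_sub, ← map_mul, hw]
  · have hu : IsUnit (1 - PowerSeries.C (PowerSeries.X ^ a) * PowerSeries.X ^ b :
        PowerSeries (PowerSeries ℤ)) := by
      rw [PowerSeries.isUnit_iff_constantCoeff, PowerSeries.isUnit_iff_constantCoeff]
      simp [ha.ne']
    obtain ⟨g, hg⟩ := hu.exists_left_inv
    exact ⟨g, Subring.subset_closure (Or.inr ⟨a, b, hb, hg⟩), hg⟩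

/-- `q - p` is a sum of rays. -/
def le (V : Finset (Pt σ)) (p q : Pt σ) : Prop :=
  ∃ c ∈ Submodule.span ℕ (V : Set (Pt σ)), q = p + c

def Cvx (V : Finset (Pt σ)) (T : Set (Pt σ)) : Prop :=
  ∀ p ∈ T, ∀ r ∈ T, ∀ q, le V p q → le V q r → q ∈ T

def Wq (V : Finset (Pt σ)) (T : Set (Pt σ)) : Prop :=
  ∀ f : ℕ → Pt σ, (∀ n, f n ∈ T) → ∃ m n, m < n ∧ le V (f m) (f n)

theorem le_mono {V W : Finset (Pt σ)} (h : V ⊆ W) {p q : Pt σ} (hpq : le V p q) : le W p q := by
  obtain ⟨c, hc, rfl⟩ := hpq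
  exact ⟨c, Submodule.span_mono (Finset.coe_subset.2 h) hc, rfl⟩

theorem main (Al : ℕ → ℕ → Prop) (V : Finset (Pt σ)) :
    (∀ v ∈ V, 0 < wt v ∧ Ok Al (wt v) v.2.2) → ∀ T : Set (Pt σ), Cvx V T → Wq V T →
      GF T ∈ hat Al := by
  classical
  induction V using Finset.induction_on with
  | empty =>
    intro _ T _ hw
    refine fin_mem Al ?_
    by_contra hi
    have hi' : T.Infinite := hi
    obtain ⟨m, n, hmn, c, hc, h⟩ := hw (fun n => hi'.natEmbedding _ n)
      fun n => (hi'.natEmbedding _ n).2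
    rw [Finset.coe_empty, Submodule.span_empty, Submodule.mem_bot] at hc
    subst hc
    rw [add_zero] at h
    exact hmn.ne' ((hi'.natEmbedding _).injective (Subtype.ext h))
  | @insert v V _ ih =>
    intro hV T hc hw
    have hsub : V ⊆ insert v V := Finset.subset_insert v V
    have hv : v ∈ Submodule.span ℕ ((insert v V : Finset (Pt σ)) : Set (Pt σ)) :=
      Submodule.subset_span (by simp)
    have hsp : ∀ c ∈ Submodule.span ℕ (V : Set (Pt σ)),
        c ∈ Submodule.span ℕ ((insert v V : Finset (Pt σ)) : Set (Pt σ)) :=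
      fun c hc => Submodule.span_mono (Finset.coe_subset.2 hsub) hc
    have hsplit : ∀ p q, le (insert v V) p q →
        le V p q ∨ ∃ c ∈ Submodule.span ℕ ((insert v V : Finset (Pt σ)) : Set (Pt σ)),
          q = p + c + v := by
      rintro p q ⟨c, hc, rfl⟩
      rw [Finset.coe_insert, Submodule.mem_span_insert] at hc
      obtain ⟨a, z, hz, rfl⟩ := hc
      rcases a with _ | a
      · exact Or.inl ⟨z, hz, by simp⟩
      · refine Or.inr ⟨a • v + z, Submodule.add_mem _ (Submodule.smul_mem _ _ hv) (hsp z hz), ?_⟩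
        rw [succ_nsmul]
        abel
    have ih' := ih fun w hw => hV w (hsub hw)
    have hK : GF {p | p ∈ T ∧ p + v ∉ T} ∈ hat Al := by
      refine ih' _ ?_ ?_
      · rintro p ⟨hp, hp'⟩ r ⟨hr, -⟩ q hpq hqr
        refine ⟨hc p hp r hr q (le_mono hsub hpq) (le_mono hsub hqr), fun hq => hp' ?_⟩
        obtain ⟨c, hc', rfl⟩ := hpq
        exact hc p hp _ hq _ ⟨v, hv, rfl⟩ ⟨c, hsp c hc', by abel⟩
      · intro f hf
        obtain ⟨m, n, hmn, h⟩ := hw f fun n => (hf n).1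
        rcases hsplit _ _ h with h | ⟨c, hc', h⟩
        · exact ⟨m, n, hmn, h⟩
        · exact absurd (hc _ (hf m).1 _ (hf n).1 _ ⟨v, hv, rfl⟩ ⟨c, hc', by rw [h]; abel⟩)
            (hf m).2
    have hC : GF {p | p ∈ T ∧ ¬ ∃ q ∈ T, p = q + v} ∈ hat Al := by
      refine ih' _ ?_ ?_
      · rintro p ⟨hp, -⟩ r ⟨hr, hr'⟩ q hpq hqr
        refine ⟨hc p hp r hr q (le_mono hsub hpq) (le_mono hsub hqr), ?_⟩
        rintro ⟨q0, hq0, rfl⟩
        obtain ⟨c, hc', rfl⟩ := hqr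
        exact hr' ⟨q0 + c, hc q0 hq0 _ hr _ ⟨c, hsp c hc', rfl⟩ ⟨v, hv, by abel⟩, by abel⟩
      · intro f hf
        obtain ⟨m, n, hmn, h⟩ := hw f fun n => (hf n).1
        rcases hsplit _ _ h with h | ⟨c, hc', h⟩
        · exact ⟨m, n, hmn, h⟩
        · exact absurd ⟨f m + c, hc _ (hf m).1 _ (hf n).1 _ ⟨c, hc', rfl⟩ ⟨v, hv, h⟩, h⟩ (hf n).2
    have e1 : T = {p | p ∈ T ∧ ¬ ∃ q ∈ T, p = q + v} ∪ (· + v) '' {p | p ∈ T ∧ p + v ∈ T} := by
      ext p
      constructor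
      · intro hp
        by_cases h : ∃ q ∈ T, p = q + v
        · obtain ⟨q, hq, rfl⟩ := h
          exact Or.inr ⟨q, ⟨hq, hp⟩, rfl⟩
        · exact Or.inl ⟨hp, h⟩
      · rintro (hp | ⟨q, hq, rfl⟩)
        · exact hp.1
        · exact hq.2
    have e2 : T = {p | p ∈ T ∧ p + v ∉ T} ∪ {p | p ∈ T ∧ p + v ∈ T} := by
      ext p
      constructor
      · intro hp
        by_cases h : p + v ∈ T
        · exact Or.inr ⟨hp, h⟩
        · exact Or.inl ⟨hp, h⟩
      · rintro (hp | hp) <;> exact hp.1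
    have d1 : Disjoint {p | p ∈ T ∧ ¬ ∃ q ∈ T, p = q + v}
        ((· + v) '' {p | p ∈ T ∧ p + v ∈ T}) := by
      rw [Set.disjoint_left]
      rintro p hp ⟨q, hq, rfl⟩
      exact hp.2 ⟨q, hq.1, rfl⟩
    have d2 : Disjoint {p | p ∈ T ∧ p + v ∉ T} {p | p ∈ T ∧ p + v ∈ T} := by
      rw [Set.disjoint_left]
      exact fun p hp hq => hp.2 hq.2
    have f1 := GF_union d1
    have f2 := GF_union d2
    rw [← e1, GF_shift] at f1
    rw [← e2] at f2
    obtain ⟨h0, hok⟩ := hV v (Finset.mem_insert_self v V)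
    obtain ⟨g, hg, hg1⟩ := inv_mem Al h0 hok
    have key : GF T = g * (GF {p | p ∈ T ∧ ¬ ∃ q ∈ T, p = q + v} -
        PowerSeries.C (PowerSeries.X ^ wt v) * PowerSeries.X ^ v.2.2 *
          GF {p | p ∈ T ∧ p + v ∉ T}) := by
      linear_combination (-GF T) * hg1 + g * f1 -
        g * (PowerSeries.C (PowerSeries.X ^ wt v) * PowerSeries.X ^ v.2.2) * f2
    rw [key]
    exact (hat Al).mul_mem hg ((hat Al).sub_mem hC ((hat Al).mul_mem (mon_mem Al _ _) hK))

theorem rep {S : Set (Pt σ)} {V : Finset (Pt σ)} {B : ℕ} (h0 : ∀ v ∈ V, 0 < wt v)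
    (h : ∀ p ∈ S, B < wt p → ∃ v ∈ V, ∃ q ∈ S, p = q + v) (w : ℕ) :
    ∀ p ∈ S, wt p = w → ∃ b, (b ∈ S ∧ wt b ≤ B) ∧ ∃ a : V → ℕ, p = b + ∑ v : V, a v • v.1 := by
  classical
  induction w using Nat.strong_induction_on with
  | _ w ih =>
    intro p hp hw
    by_cases hB : wt p ≤ B
    · exact ⟨p, ⟨hp, hB⟩, 0, by simp⟩
    · obtain ⟨v, hv, q, hq, rfl⟩ := h p hp (not_le.1 hB)
      have := h0 v hv
      rw [wt_add] at hw
      obtain ⟨b, hb, a, rfl⟩ := ih (wt q) (by omega) q hq rfl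
      refine ⟨b, hb, a + Pi.single ⟨v, hv⟩ 1, ?_⟩
      simp only [Pi.add_apply, add_smul, Finset.sum_add_distrib, add_assoc]
      rw [Finset.sum_eq_single (f := fun x : V => (Pi.single (⟨v, hv⟩ : V) 1 : V → ℕ) x • x.1)
        ⟨v, hv⟩ (fun x _ hx => by simp [hx]) (by simp)]
      simp

end GFsP

theorem p_GF : S_GF := fun _ _ _ S _ =>
  ⟨GFsP.GF_union, GFsP.GF_bij, GFsP.GF_shift S⟩

theorem p_Cone (_h : S_GF) : S_Cone := by
  intro σ _ _ S V Al B C hV hadd hdesc hbd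
  refine GFsP.main Al V hV S ?_ ?_
  · rintro p hp - - q ⟨c, hc, rfl⟩ -
    induction hc using Submodule.span_induction generalizing p with
    | mem v hv => exact hadd p hp v hv
    | zero => simpa using hp
    | add x y _ _ hx hy => rw [← add_assoc]; exact hy _ (hx p hp)
    | smul a x _ hx =>
      induction a with
      | zero => simpa using hp
      | succ a iha => rw [succ_nsmul, ← add_assoc]; exact hx _ iha
  · intro f hf
    have hfin : {b | b ∈ S ∧ wt b ≤ B}.Finite :=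
      (GFsP.fin_bd B (C * B)).subset fun b hb =>
        ⟨hb.2, (hbd b hb.1).trans (Nat.mul_le_mul_left C hb.2)⟩
    have := hfin.to_subtype
    choose b hb a ha using fun n =>
      GFsP.rep (fun v hv => (hV v hv).1) hdesc _ (f n) (hf n) rfl
    have hq : WellQuasiOrdered fun x y : (V → ℕ) × {b | b ∈ S ∧ wt b ≤ B} =>
        x.1 ≤ y.1 ∧ x.2 = y.2 :=
      wellQuasiOrdered_le.prod (Finite.wellQuasiOrdered _)
    obtain ⟨m, n, hmn, h1, h2⟩ := hq fun n => (a n, ⟨b n, hb n⟩)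
    have h3 : b m = b n := congrArg Subtype.val h2
    refine ⟨m, n, hmn, ∑ v : V, (a n v - a m v) • v.1,
      Submodule.sum_mem _ fun v _ => Submodule.smul_mem _ _ (Submodule.subset_span v.2), ?_⟩
    rw [ha n, ha m, h3, add_assoc, ← Finset.sum_add_distrib]
    congr 1
    refine Finset.sum_congr rfl fun v _ => ?_
    rw [← add_smul, Nat.add_sub_cancel' (h1 v)]

end

end Pool.Agent.P.MP_b91a16_ag.Qo
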