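import Pool.Agent.P.MP_b91a16_ag.Qo.Spec

/-! Quasi-ordinary polynomials: clusters that are moved by a coordinate rotation. -/

set_option linter.unusedSectionVars false

namespace Pool.Agent.P.MP_b91a16_ag.Qo

namespace HalfP

variable {σ k : Type} [Fintype σ] [DecidableEq σ] [Field k] {D : Dat σ k}

/-- Clusters of the same size that meet are equal. -/
theorem eq_of_mem {s s' : Finset (R0 σ k)} (h : D.IsCl s) (h' : D.IsCl s') (hc : s.card = s'.card)
    {a : R0 σ k} (ha : a ∈ s) (ha' : a ∈ s') : s = s' := by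
  by_contra hne
  obtain ⟨b, hb, hb'⟩ := Finset.not_subset.1 fun hh : s ⊆ s' =>
    hne (Finset.eq_of_subset_of_card_le hh hc.ge)
  obtain ⟨c, hc1, hc'⟩ := Finset.not_subset.1 fun hh : s' ⊆ s =>
    hne (Finset.eq_of_subset_of_card_le hh hc.le).symm
  exact lt_asymm (h.2.2 a ha b hb (fun e => hb' (e ▸ ha')) c (h'.2.1 hc1) hc')
    (h'.2.2 a ha' c hc1 (fun e => hc' (e ▸ ha)) b (h.2.1 hb) hb')

theorem dot_single (j : σ) (t : ℕ) (μ : σ → ℕ) : dot (Pi.single j t) μ = t * μ j := by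
  unfold dot
  rw [Finset.sum_eq_single j (fun i _ hi => by simp [hi]) (by simp)]
  simp

theorem coeff_mono_mul {μ ν : σ →₀ ℕ} (u : R0 σ k) :
    MvPowerSeries.coeff ν (mono μ * u) =
      if μ ≤ ν then MvPowerSeries.coeff (ν - μ) u else 0 := by
  unfold mono
  rw [MvPowerSeries.coeff_monomial_mul]
  simp

/-- The contact of a root with a conjugate outside the cluster is large. -/
theorem key (A : CA D) (B : CB D) {s : Finset (R0 σ k)} (hs : D.IsCl s) {j : σ}
    (hj : D.lo s j < hi s j) {P t : ℕ} (hP0 : 0 < P) (hP : D.Stab s (Pi.single j P))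
    {a : R0 σ k} (ha : a ∈ s) (ht : D.act (Pi.single j t) a ∉ s) :
    D.n ≤ P * lam (pick s) (D.act (Pi.single j t) a) j := by
  have hz := (A.act_mem (Pi.single j t) a (hs.2.1 ha)).1
  have hlo := B.le_lo s _ hz ht j
  rw [← B.out s hs a ha _ hz ht] at hlo ⊢
  obtain ⟨u, hu, e⟩ := A.spec a (hs.2.1 ha) _ hz fun e => ht (e ▸ ha)
  generalize lam a (D.act (Pi.single j t) a) = l at hlo e ⊢
  have h1 : MvPowerSeries.coeff l a * (1 - D.ε ^ (t * l j)) ≠ 0 := by
    have := congrArg (MvPowerSeries.coeff l) e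
    rw [coeff_mono_mul, if_pos le_rfl, tsub_self, map_sub, A.coeff_act, dot_single,
      MvPowerSeries.coeff_zero_eq_constantCoeff_apply] at this
    have h0 := (MvPowerSeries.isUnit_iff_constantCoeff.1 hu).ne_zero
    rw [← this] at h0
    exact fun hh => h0 (by linear_combination hh)
  have h2 : l j ≠ 0 := fun hh => h1 (by simp [hh])
  have hm : D.act (Pi.single j P) a ∈ s := by
    have := Finset.mem_image_of_mem (D.act (Pi.single j P)) ha
    exact (show D.acts (Pi.single j P) s = s from hP) ▸ this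
  obtain ⟨v, hv⟩ := dvd_sub (B.dvd_ctr s hs a ha) (B.dvd_ctr s hs _ hm)
  have h3 := congrArg (MvPowerSeries.coeff l) hv
  rw [coeff_mono_mul, if_neg (fun hh => absurd (hh j) (by omega)), sub_sub_sub_cancel_right,
    map_sub, A.coeff_act, dot_single] at h3
  have h4 : D.ε ^ (P * l j) = 1 := by
    have : MvPowerSeries.coeff l a * (D.ε ^ (P * l j) - 1) = 0 := by linear_combination -h3
    exact sub_eq_zero.1 ((mul_eq_zero.1 this).resolve_left (left_ne_zero_of_mul h1))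
  exact Nat.le_of_dvd (Nat.mul_pos hP0 (Nat.pos_of_ne_zero h2)) (D.hε.dvd_of_pow_eq_one _ h4)

theorem half (A : CA D) (B : CB D) (I : CI D) : Half D := by
  classical
  intro s j hs _ hj hn
  have ex : ∃ t, 0 < t ∧ D.Stab s (Pi.single j t) := by
    refine ⟨D.n, Nat.pos_of_ne_zero D.hn, ?_⟩
    have e : (Pi.single j D.n : σ → ℕ) = D.n • Pi.single j 1 := by
      rw [← Pi.single_smul, smul_eq_mul, mul_one]
    unfold Dat.Stab Dat.acts
    rw [e, Finset.image_congr (g := id) fun a _ => A.act_n _ a, Finset.image_id]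
  obtain ⟨hP0, hP⟩ := Nat.find_spec ex
  have hmin : ∀ t < Nat.find ex, 0 < t → ¬D.Stab s (Pi.single j t) := fun t ht h0 hh =>
    Nat.find_min ex ht ⟨h0, hh⟩
  generalize Nat.find ex = P at hP0 hP hmin
  have hP2 : 2 ≤ P := by
    by_contra hh
    obtain rfl : P = 1 := by omega
    exact hn hP
  have hout : ∀ t < P, 0 < t → ∀ a ∈ s, D.act (Pi.single j t) a ∉ s := fun t ht h0 a ha hh =>
    hmin t ht h0 (eq_of_mem (I.cl _ s hs) hs (I.card _ s) (Finset.mem_image_of_mem _ ha) hh)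
  have hlt : ∀ t t', t < t' → t' < P → ∀ a ∈ s, ∀ b ∈ s,
      D.act (Pi.single j t) a ≠ D.act (Pi.single j t') b := by
    intro t t' h1 h2 a ha b hb e
    obtain ⟨d, rfl⟩ := Nat.exists_eq_add_of_le h1.le
    rw [Pi.single_add, A.act_add] at e
    exact hout d (by omega) (by omega) b hb (A.act_inj _ e ▸ ha)
  have hinj : Set.InjOn (fun p : ℕ × R0 σ k => D.act (Pi.single j p.1) p.2)
      ↑(Finset.Ico 1 P ×ˢ s) := by
    rintro ⟨t, a⟩ h1 ⟨t', b⟩ h2 e
    simp only [Finset.coe_product, Set.mem_prod, Finset.mem_coe, Finset.mem_Ico] at h1 h2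
    rcases lt_trichotomy t t' with h | rfl | h
    · exact absurd e (hlt t t' h h2.1.2 a h1.2 b h2.2)
    · exact congrArg _ (A.act_inj _ e)
    · exact absurd e.symm (hlt t' t h h1.1.2 b h2.2 a h1.2)
  have hsub : (Finset.Ico 1 P ×ˢ s).image (fun p : ℕ × R0 σ k => D.act (Pi.single j p.1) p.2) ⊆
      D.Z \ s := by
    intro c hc
    obtain ⟨p, hp, rfl⟩ := Finset.mem_image.1 hc
    obtain ⟨h1, h2⟩ := Finset.mem_product.1 hp
    obtain ⟨h3, h4⟩ := Finset.mem_Ico.1 h1
    exact Finset.mem_sdiff.2 ⟨(A.act_mem _ _ (hs.2.1 h2)).1, hout _ h4 h3 _ h2⟩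
  have h1 := Finset.sum_le_sum_of_subset (f := fun c => P * (D.m c * lam (pick s) c j)) hsub
  rw [Finset.sum_image hinj, ← Finset.mul_sum (D.Z \ s)] at h1
  have h2 : ∑ p ∈ Finset.Ico 1 P ×ˢ s, D.n * D.m p.2 ≤ ∑ p ∈ Finset.Ico 1 P ×ˢ s,
      P * (D.m (D.act (Pi.single j p.1) p.2) * lam (pick s) (D.act (Pi.single j p.1) p.2) j) := by
    refine Finset.sum_le_sum fun p hp => ?_
    obtain ⟨h1, h2⟩ := Finset.mem_product.1 hp
    obtain ⟨h3, h4⟩ := Finset.mem_Ico.1 h1
    rw [(A.act_mem _ _ (hs.2.1 h2)).2, mul_left_comm, mul_comm D.n]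
    exact Nat.mul_le_mul_left _ (key A B hs hj hP0 hP h2 (hout _ h4 h3 _ h2))
  rw [Finset.sum_product' (f := fun _ a => D.n * D.m a), Finset.sum_const, Nat.card_Ico,
    smul_eq_mul, ← Finset.mul_sum] at h2
  have h3 : ∑ c ∈ D.Z \ s, D.m c * lam (pick s) c j ≤ D.MM s j := by
    unfold Dat.MM
    rw [Finsupp.add_apply, Finsupp.finsetSum_apply]
    exact Nat.le_add_left _ _
  have h4 : (P - 1) * (D.n * D.deg s) ≤ P * D.MM s j :=
    (h2.trans h1).trans (Nat.mul_le_mul_left _ h3)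
  obtain ⟨Q, rfl⟩ := Nat.exists_eq_add_of_le hP2
  have e : 2 + Q - 1 = Q + 1 := by omega
  rw [e] at h4
  by_contra hh
  push Not at hh
  nlinarith

end HalfP

theorem p_Half (h : S_CA) (hB : S_CB) (hI : S_CI) : S_Half := by
  intro σ k _ _ _ _ _ D
  exact HalfP.half (h _ _ D) (hB _ _ D) (hI _ _ D)

end Pool.Agent.P.MP_b91a16_ag.Qo
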