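import Pool.Agent.P.MP_b91a16_ag.Qo.Spec

/-! Quasi-ordinary polynomials: the initial form along a stratum. -/

set_option linter.unusedSectionVars false

open Polynomial

namespace Pool.Agent.P.MP_b91a16_ag.Qo

noncomputable section

namespace InitP

/-- `Φ = τ^q F` with `F(0) = G`. -/
def Ld {B : Type} [CommRing B] (Φ : PowerSeries B) (q : ℕ) (G : B) : Prop :=
  ∃ F, Φ = PowerSeries.X ^ q * F ∧ PowerSeries.constantCoeff F = G

section

variable {B : Type} [CommRing B]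

theorem Ld.mul {Φ Φ' : PowerSeries B} {q q' : ℕ} {G G' : B} (h : Ld Φ q G) (h' : Ld Φ' q' G') :
    Ld (Φ * Φ') (q + q') (G * G') := by
  obtain ⟨F, rfl, rfl⟩ := h
  obtain ⟨F', rfl, rfl⟩ := h'
  exact ⟨F * F', by ring, by simp⟩

theorem Ld.one : Ld (1 : PowerSeries B) 0 1 := ⟨1, by simp, by simp⟩

theorem Ld.pow {Φ : PowerSeries B} {q : ℕ} {G : B} (h : Ld Φ q G) (m : ℕ) :
    Ld (Φ ^ m) (m * q) (G ^ m) := by
  obtain ⟨F, rfl, rfl⟩ := h
  exact ⟨F ^ m, by ring, by simp⟩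

theorem Ld.prod {ι : Type} (s : Finset ι) (Φ : ι → PowerSeries B) (q : ι → ℕ) (G : ι → B)
    (h : ∀ i ∈ s, Ld (Φ i) (q i) (G i)) :
    Ld (∏ i ∈ s, Φ i) (∑ i ∈ s, q i) (∏ i ∈ s, G i) := by
  classical
  induction s using Finset.induction_on with
  | empty => simpa using Ld.one
  | insert a s ha ih =>
    rw [Finset.prod_insert ha, Finset.sum_insert ha, Finset.prod_insert ha]
    exact (h a (Finset.mem_insert_self _ _)).mul
      (ih fun i hi => h i (Finset.mem_insert_of_mem hi))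

theorem Ld.zero (Φ : PowerSeries B) : Ld Φ 0 (PowerSeries.constantCoeff Φ) := ⟨Φ, by simp, rfl⟩

end

variable {σ k : Type} [Fintype σ] [DecidableEq σ] [Field k]

theorem mono_add (μ ν : σ →₀ ℕ) : (mono (μ + ν) : R0 σ k) = mono μ * mono ν := by
  simp [mono, MvPowerSeries.monomial_mul_monomial]

theorem mono_ne (μ : σ →₀ ℕ) : (mono μ : R0 σ k) ≠ 0 := fun h => by
  have := congrArg (MvPowerSeries.coeff μ) h
  simp [mono, MvPowerSeries.coeff_monomial_same] at this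

theorem cc_mono {μ : σ →₀ ℕ} (h : μ ≠ 0) : MvPowerSeries.constantCoeff (mono μ : R0 σ k) = 0 := by
  rw [← MvPowerSeries.coeff_zero_eq_constantCoeff_apply, mono,
    MvPowerSeries.coeff_monomial_ne h.symm]

theorem mono_eq (μ : σ →₀ ℕ) : (mono μ : R0 σ k) = ∏ j, MvPowerSeries.X j ^ μ j := by
  rw [mono, MvPowerSeries.monomial_one_eq, Finsupp.prod_fintype _ _ fun _ => pow_zero _]

theorem cc_kill (V : Finset σ) (a : R0 σ k) :
    MvPowerSeries.constantCoeff (kill V a) = MvPowerSeries.constantCoeff a := by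
  rw [← MvPowerSeries.coeff_zero_eq_constantCoeff_apply, kill, MvPowerSeries.coeff_rescale]
  simp

theorem kill_ne (V : Finset σ) {a : R0 σ k} (h : MvPowerSeries.constantCoeff a ≠ 0) :
    kill V a ≠ 0 := fun h0 => h (by rw [← cc_kill V a, h0, map_zero])

/-- The monomial in the new variables. -/
def YY (V : Finset σ) (μ : σ →₀ ℕ) : P0 σ k := ∏ v ∈ V, MvPolynomial.X (some v) ^ μ v

theorem YY_add (V : Finset σ) (μ ν : σ →₀ ℕ) : (YY V (μ + ν) : P0 σ k) = YY V μ * YY V ν := by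
  simp [YY, pow_add, Finset.prod_mul_distrib]

theorem YY_zero (V : Finset σ) : (YY V 0 : P0 σ k) = 1 := by simp [YY]

theorem psi_mono {V : Finset σ} {Ψ : R0 σ k →ₐ[k] PowerSeries (P0 σ k)} (h : IsPsi V Ψ)
    (μ : σ →₀ ℕ) : Ψ (mono μ) = PowerSeries.X ^ (∑ v ∈ V, μ v) *
      PowerSeries.C (MvPolynomial.C (mono (μ.filter (· ∉ V))) * YY V μ) := by
  have h1 : (mono (μ.filter (· ∉ V)) : R0 σ k) = ∏ j ∈ Vᶜ, MvPowerSeries.X j ^ μ j := by
    rw [mono_eq, ← Finset.prod_mul_prod_compl V]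
    have h2 : ∏ j ∈ V, (MvPowerSeries.X j : R0 σ k) ^ (μ.filter (· ∉ V)) j = 1 :=
      Finset.prod_eq_one fun j hj => by simp [Finsupp.filter_apply, hj]
    rw [h2, one_mul]
    exact Finset.prod_congr rfl fun j hj => by
      simp [Finsupp.filter_apply, Finset.mem_compl.1 hj]
  rw [h1, mono_eq, ← Finset.prod_mul_prod_compl V, map_mul, map_prod, map_prod, YY]
  have h3 : ∏ j ∈ V, Ψ (MvPowerSeries.X j ^ μ j) = PowerSeries.X ^ (∑ v ∈ V, μ v) *
      PowerSeries.C (∏ v ∈ V, MvPolynomial.X (some v) ^ μ v) := by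
    rw [← Finset.prod_pow_eq_pow_sum, map_prod, ← Finset.prod_mul_distrib]
    exact Finset.prod_congr rfl fun j hj => by rw [map_pow, h.inV j hj, mul_pow, map_pow]
  have h4 : ∏ j ∈ Vᶜ, Ψ (MvPowerSeries.X j ^ μ j) =
      PowerSeries.C (MvPolynomial.C (∏ j ∈ Vᶜ, MvPowerSeries.X j ^ μ j)) := by
    rw [map_prod, map_prod]
    exact Finset.prod_congr rfl fun j hj => by
      rw [map_pow, h.out j (Finset.mem_compl.1 hj), map_pow, map_pow]
  rw [h3, h4, map_mul]
  ring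

/-- Leading term: a nonzero constant times a monomial. -/
def Lm (V : Finset σ) (Φ : PowerSeries (P0 σ k)) (μ : σ →₀ ℕ) : Prop :=
  ∃ d : R0 σ k, d ≠ 0 ∧ Ld Φ (∑ v ∈ V, μ v) (MvPolynomial.C d * YY V μ)

theorem Lm.mul {V : Finset σ} {Φ Φ' : PowerSeries (P0 σ k)} {μ μ' : σ →₀ ℕ} (h : Lm V Φ μ)
    (h' : Lm V Φ' μ') : Lm V (Φ * Φ') (μ + μ') := by
  obtain ⟨d, hd, h⟩ := h
  obtain ⟨d', hd', h'⟩ := h'
  refine ⟨d * d', mul_ne_zero hd hd', ?_⟩
  have := h.mul h'
  convert this using 1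
  · simp [Finset.sum_add_distrib]
  · rw [YY_add, map_mul]
    ring

theorem Lm.one (V : Finset σ) : Lm V (1 : PowerSeries (P0 σ k)) 0 :=
  ⟨1, one_ne_zero, by simpa [YY_zero] using Ld.one⟩

theorem Lm.pow {V : Finset σ} {Φ : PowerSeries (P0 σ k)} {μ : σ →₀ ℕ} (h : Lm V Φ μ) (m : ℕ) :
    Lm V (Φ ^ m) (m • μ) := by
  induction m with
  | zero => simpa using Lm.one V
  | succ m ih =>
    rw [pow_succ, succ_nsmul]
    exact ih.mul h

theorem Lm.prod {ι : Type} (V : Finset σ) (s : Finset ι) (Φ : ι → PowerSeries (P0 σ k))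
    (μ : ι → σ →₀ ℕ) (h : ∀ i ∈ s, Lm V (Φ i) (μ i)) : Lm V (∏ i ∈ s, Φ i) (∑ i ∈ s, μ i) := by
  classical
  induction s using Finset.induction_on with
  | empty => simpa using Lm.one V
  | insert a s ha ih =>
    rw [Finset.prod_insert ha, Finset.sum_insert ha]
    exact (h a (Finset.mem_insert_self _ _)).mul
      (ih fun i hi => h i (Finset.mem_insert_of_mem hi))

theorem psi_io (Ψ : R0 σ k →ₐ[k] PowerSeries (P0 σ k)) (w n : ℕ) (c : R0 σ k)
    (f : MvPolynomial (Option σ) k) : psiX Ψ w (io n c f) =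
      eval₂RingHom (Ψ : R0 σ k →+* PowerSeries (P0 σ k))
        (PowerSeries.X ^ w * PowerSeries.C (MvPolynomial.X none) + Ψ c) (io n 0 f) := by
  induction f using MvPolynomial.induction_on with
  | C a => simp [io, psiX, Polynomial.algebraMap_apply]
  | add p q hp hq => simp only [map_add, hp, hq]
  | mul_X p o hp =>
    simp only [map_mul, hp]
    congr 1
    cases o <;> simp [io, psiX, eval₂_pow]

theorem lm_out {V : Finset σ} {Ψ : R0 σ k →ₐ[k] PowerSeries (P0 σ k)} (h : IsPsi V Ψ) {w : ℕ}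
    {μ : σ →₀ ℕ} (hw : ∑ v ∈ V, μ v < w) {u : R0 σ k} (hu : MvPowerSeries.constantCoeff u ≠ 0) :
    Lm V (PowerSeries.X ^ w * PowerSeries.C (MvPolynomial.X none) + Ψ (mono μ * u)) μ := by
  obtain ⟨t, rfl⟩ := Nat.exists_eq_add_of_lt hw
  refine ⟨mono (μ.filter (· ∉ V)) * kill V u, mul_ne_zero (mono_ne _) (kill_ne V hu),
    PowerSeries.X ^ (t + 1) * PowerSeries.C (MvPolynomial.X none) +
      PowerSeries.C (MvPolynomial.C (mono (μ.filter (· ∉ V))) * YY V μ) * Ψ u, ?_, ?_⟩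
  · rw [map_mul, psi_mono h]
    ring
  · simp [h.const]
    ring

theorem ld_in {V : Finset σ} {Ψ : R0 σ k →ₐ[k] PowerSeries (P0 σ k)} (h : IsPsi V Ψ)
    (μ : σ →₀ ℕ) (u : R0 σ k) :
    Ld (PowerSeries.X ^ (∑ v ∈ V, μ v) * PowerSeries.C (MvPolynomial.X none) - Ψ (mono μ * u))
      (∑ v ∈ V, μ v)
      (MvPolynomial.X none - MvPolynomial.C (mono (μ.filter (· ∉ V)) * kill V u) * YY V μ) := by
  refine ⟨PowerSeries.C (MvPolynomial.X none) -
      PowerSeries.C (MvPolynomial.C (mono (μ.filter (· ∉ V))) * YY V μ) * Ψ u, ?_, ?_⟩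
  · rw [map_mul, psi_mono h]
    ring
  · simp [h.const]
    ring

theorem lm_e {V : Finset σ} {Ψ : R0 σ k →ₐ[k] PowerSeries (P0 σ k)} (h : IsPsi V Ψ) {w : ℕ}
    (hw : 0 < w) {c : R0 σ k} (hc : MvPowerSeries.constantCoeff c = 0) {e : (R0 σ k)[X]}
    (he : MvPowerSeries.constantCoeff (e.coeff 0) ≠ 0) :
    Lm V (eval₂RingHom (Ψ : R0 σ k →+* PowerSeries (P0 σ k))
      (PowerSeries.X ^ w * PowerSeries.C (MvPolynomial.X none) + Ψ c) e) 0 := by
  have h1 : MvPowerSeries.constantCoeff (e.eval c) = MvPowerSeries.constantCoeff (e.coeff 0) := by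
    rw [← eval₂_at_apply, hc, eval₂_at_zero]
  refine ⟨kill V (e.eval c), kill_ne V (h1 ▸ he), ?_⟩
  have h2 : ∀ p : (R0 σ k)[X], PowerSeries.constantCoeff
      (eval₂RingHom (Ψ : R0 σ k →+* PowerSeries (P0 σ k))
        (PowerSeries.X ^ w * PowerSeries.C (MvPolynomial.X none) + Ψ c) p) =
      MvPolynomial.C (kill V (p.eval c)) := by
    intro p
    induction p using Polynomial.induction_on with
    | C a => simp [h.const]
    | add p q hp hq => rw [map_add, map_add, hp, hq, eval_add, map_add, map_add]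
    | monomial m a _ => simp [h.const, hw.ne']
  simpa [YY_zero, ← h2] using Ld.zero _

end InitP

open InitP

theorem p_Init (h : S_CA) (hB : S_CB) : S_Init := by
  intro σ k _ _ _ _ _ D V Ψ s c Q hΨ hs hc hlt hw hQ
  have B : CB D := hB _ _ D
  obtain ⟨x, hx⟩ := hc
  have hhi : hi s ≠ 0 := fun h0 => by
    rw [h0] at hlt
    exact absurd hlt (not_lt_of_ge zero_le)
  have hc0 : MvPowerSeries.constantCoeff c = 0 := by
    have := congrArg MvPowerSeries.constantCoeff hx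
    rwa [map_sub, B.ctr_zero s hs, sub_zero, map_mul, cc_mono hhi, zero_mul] at this
  set w := ∑ v ∈ V, hi s v with hwdef
  set T : PowerSeries (P0 σ k) := PowerSeries.X ^ w * PowerSeries.C (MvPolynomial.X none) with hT
  have hN : Lm V (Ψ (mono D.N)) D.N :=
    ⟨_, mono_ne _, _, psi_mono hΨ _, PowerSeries.constantCoeff_C _⟩
  have he := lm_e hΨ (show 0 < w by omega) hc0 D.he
  have ho : Lm V (∏ a ∈ D.Z \ s, (T + Ψ c - Ψ a) ^ D.m a)
      (∑ a ∈ D.Z \ s, D.m a • lam (pick s) a) := by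
    refine Lm.prod V _ _ _ fun a ha => Lm.pow ?_ _
    obtain ⟨haZ, has⟩ := Finset.mem_sdiff.1 ha
    obtain ⟨u, hu, -, hu'⟩ := B.ctr_out s hs a haZ has
    have hle := B.le_lo s a haZ has
    have hl : lam (pick s) a < hi s := hle.trans_lt hlt
    obtain ⟨ν, hν⟩ := exists_add_of_le hl.le
    have hν0 : ν ≠ 0 := fun h0 => hl.ne' (by rw [hν, h0, add_zero])
    have h1 : c - a = mono (lam (pick s) a) * (mono ν * x + u) := by
      have : c - a = (c - ctr s) + (ctr s - a) := by ring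
      rw [this, hx, hu, hν, mono_add]
      ring
    have h2 : MvPowerSeries.constantCoeff (mono ν * x + u) ≠ 0 := by
      rw [map_add, map_mul, cc_mono hν0, zero_mul, zero_add]
      exact (MvPowerSeries.isUnit_iff_constantCoeff.1 hu').ne_zero
    have h3 : ∑ v ∈ V, lam (pick s) a v < w :=
      (Finset.sum_le_sum fun v _ => hle v).trans_lt hw
    have h4 := lm_out hΨ h3 h2
    rwa [← h1, map_sub, ← add_sub_assoc] at h4
  have hi' : Ld (∏ a ∈ s, (T + Ψ c - Ψ a) ^ D.m a) (∑ a ∈ s, D.m a * w)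
      (∏ a ∈ s, (MvPolynomial.X none -
        MvPolynomial.C (mono ((hi s).filter (· ∉ V)) * kill V (Q a)) * YY V (hi s)) ^ D.m a) := by
    refine Ld.prod _ _ _ _ fun a ha => Ld.pow ?_ _
    have h4 := ld_in hΨ (hi s) (Q a)
    rw [← hQ a ha, map_sub] at h4
    convert h4 using 1
    rw [hT]
    ring
  obtain ⟨d, hd, h1⟩ := (hN.mul he).mul ho
  obtain ⟨F, hF, hF'⟩ := h1.mul hi'
  refine ⟨F, d, hd, ?_, ?_⟩
  · rw [psi_io, D.hf, ← Finset.prod_sdiff hs.2.1, Dat.deg, Finset.sum_mul, Dat.MM]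
    rw [add_zero] at hF
    rw [← hF]
    simp only [map_mul, map_prod, map_pow, map_sub, coe_eval₂RingHom, eval₂_C, eval₂_X,
      RingHom.coe_coe]
    ring
  · rw [hF', add_zero]
    rfl

end

end Pool.Agent.P.MP_b91a16_ag.Qo
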