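import Pool.Agent.P.MP_b91a16_ag.Qo.Spec

/-! Quasi-ordinary polynomials: the volume of a piece of the contact locus. -/

set_option linter.unusedSectionVars false

open PowerSeries

namespace Pool.Agent.P.MP_b91a16_ag.Qo

noncomputable section

namespace PcVolP

/-- The coordinates below given levels. -/
def box {τ : Type} [Fintype τ] (lv : τ → ℕ) : Finset (τ × ℕ) :=
  (Finset.univ.sigma fun o => Finset.range (lv o)).map (Equiv.sigmaEquivProd τ ℕ).toEmbedding

theorem mem_box {τ : Type} [Fintype τ] {lv : τ → ℕ} {q : τ × ℕ} : q ∈ box lv ↔ q.2 < lv q.1 := by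
  simp [box]

theorem card_box {τ : Type} [Fintype τ] (lv : τ → ℕ) : (box lv).card = ∑ o, lv o := by
  simp [box]

theorem dvd_expand {K : Type} [Field K] {n : ℕ} (hn : n ≠ 0) {H : PowerSeries K} {M : ℕ}
    (h : X ^ M ∣ H) : X ^ (n * M) ∣ expand n hn H := by
  have := map_dvd (expand n hn) h
  rwa [map_pow, expand_X, ← pow_mul] at this

theorem dvd_lead {K : Type} [Field K] {H : PowerSeries K} {r : ℕ} (h : X ^ r ∣ H) :
    X ^ (r + 1) ∣ H - C (coeff r H) * X ^ r := by
  refine St.dvd_succ_iff.2 ⟨dvd_sub h (Dvd.intro_left _ rfl), ?_⟩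
  rw [map_sub, coeff_C_mul, coeff_X_pow_self, mul_one, sub_self]

variable {σ k : Type} [Fintype σ] [DecidableEq σ] [Field k]

abbrev Io (σ : Type) : Type := Option (σ → ℤ) ⊕ (σ × ℕ)

section Univ

variable {A B : Type} [CommRing A] [Algebra k A] [CommRing B] [Algebra k B]

def zs (n : ℕ) (κ : σ → ℕ) (p : MvPolynomial σ k) (β : (σ → ℤ) → A) (θ : σ → PowerSeries A) :
    PowerSeries A :=
  ∑ μ ∈ p.support,
    C (algebraMap k A (p.coeff μ) * β (zc μ)) * X ^ (dot κ μ / n) * ∏ j, θ j ^ μ j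

def th (x : Io σ → A) (j : σ) : PowerSeries A := 1 + St.arc (fun q => x (.inr q)) j

def be (x : Io σ → A) (μ : σ → ℤ) : A := x (.inl (some μ))

def GG (n M ρ : ℕ) (κ : σ → ℕ) (p : MvPolynomial σ k) (x : Io σ → A) :
    Option σ → PowerSeries A := fun o =>
  o.elim (zs n κ p (be x) (th x) + C (x (.inl none)) * X ^ ρ) fun j =>
    if κ j ≤ M then C (be x (Pi.single j n)) * X ^ κ j * th x j ^ n else 0

theorem map_th (φ : A →+* B) (x : Io σ → A) (j : σ) :
    PowerSeries.map φ (th x j) = th (fun i => φ (x i)) j := by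
  rw [th, th, map_add, map_one]
  congr 1
  ext p
  rcases p with _ | p <;> simp [St.arc, ser, coeff_succ_X_mul]

theorem map_GG (φ : A →ₐ[k] B) (n M ρ : ℕ) (κ : σ → ℕ) (p : MvPolynomial σ k) (x : Io σ → A)
    (o : Option σ) : PowerSeries.map (φ : A →+* B) (GG n M ρ κ p x o) =
      GG n M ρ κ p (fun i => φ (x i)) o := by
  rcases o with _ | j
  · simp [GG, zs, be, map_th]
  · simp only [GG, Option.elim]
    split_ifs <;> simp [be, map_th]

theorem cc_th (x : Io σ → A) (j : σ) : constantCoeff (th x j) = 1 := by simp [th, St.arc]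

theorem coeff_th (x : Io σ → A) (j : σ) (l : ℕ) : coeff (l + 1) (th x j) = x (.inr (j, l)) := by
  rw [th, map_add, St.coeff_arc, coeff_one, if_neg l.succ_ne_zero, zero_add]

end Univ

theorem mem_res {Λ : AddSubgroup (σ → ℤ)} {J : Finset σ} {μ : σ → ℤ} :
    μ ∈ res Λ J ↔ μ ∈ Λ ∧ ∀ j, j ∉ J → μ j = 0 := by
  simp [res, AddSubgroup.mem_pi]

variable (D : Dat σ k) (m : ℕ) (s : Finset (R0 σ k)) (κ : σ → ℕ) (r : ℕ)

def rh : ℕ := (r + D.n - 1) / D.n

theorem rh_spec : r ≤ D.n * rh D r ∧ D.n * rh D r < r + D.n := by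
  have h1 := Nat.div_add_mod (r + D.n - 1) D.n
  have h2 := Nat.mod_lt (r + D.n - 1) (Nat.pos_of_ne_zero D.hn)
  unfold rh
  omega

theorem rh_dvd (h : D.n ∣ r) : D.n * rh D r = r := by
  obtain ⟨q, rfl⟩ := h
  obtain ⟨h1, h2⟩ := rh_spec D (D.n * q)
  have h3 := Nat.le_of_mul_le_mul_left h1 (Nat.pos_of_ne_zero D.hn)
  have h4 : rh D (D.n * q) < q + 1 := Nat.lt_of_mul_lt_mul_left (a := D.n) (by rwa [mul_add, mul_one])
  rw [show rh D (D.n * q) = q by omega]

theorem rh_not (h : ¬D.n ∣ r) : r < D.n * rh D r :=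
  lt_of_le_of_ne (rh_spec D r).1 fun e => h ⟨_, e⟩

/-- The lattice of the piece. -/
def La : AddSubgroup (σ → ℤ) := res (D.Lam s) (Finset.univ.filter fun j => κ j ≤ D.n * m)

def lv : Option σ → ℕ := fun o => o.elim (rh D r) fun _ => D.n * m

def pc : MvPolynomial σ k := (ctr s).truncTotal (D.n * m + 1)

def Gm {A : Type} [CommRing A] [Algebra k A] (x : Io σ → A) : Option σ → PowerSeries A :=
  GG D.n (D.n * m) (rh D r) κ (pc D m s) x

/-- The parameter space. -/
def Pp : Pred k (Io σ) := fun K _ _ x =>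
  WP (La D m s κ) (D.Pol s κ r) (zc (D.MM s)) (zc (hi s)) (D.deg s) K (fun i => x (.inl i)) ∧
    ∀ q, q ∉ box (fun j => D.n * m - κ j) → x (.inr q) = 0

variable {K : Type} [Field K] [Algebra k K]

/-- The arc `γ` has the parameters `x`. -/
def Rp (x : Io σ → K) (γ : Option σ → PowerSeries K) : Prop :=
  ∀ o, X ^ (lv D m r o + 1) ∣ γ o - Gm D m s κ r x o

/-- `b` lifts the character `β`. -/
def Lf (β : (σ → ℤ) → K) (b : σ → K) : Prop := (∀ j, b j ≠ 0) ∧
  (∀ μ ∈ La D m s κ, β μ = ∏ j, b j ^ μ j) ∧ ∀ μ, μ ∉ La D m s κ → β μ = 0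

variable {D m s κ r} {β : (σ → ℤ) → K} {b : σ → K} {θ θ' : σ → PowerSeries K}

theorem mem_La {μ : σ → ℤ} : μ ∈ La D m s κ ↔ μ ∈ D.Lam s ∧ ∀ j, D.n * m < κ j → μ j = 0 := by
  simp [La, mem_res]

theorem Lf.single (h : Lf D m s κ β b) {j : σ} (hj : κ j ≤ D.n * m) :
    β (Pi.single j D.n) = b j ^ D.n := by
  rw [h.2.1 _ (mem_La.2 ⟨fun g _ => ?_, fun i hi => ?_⟩), Finset.prod_eq_single j]
  · simp
  · exact fun i _ hi => by simp [Pi.single_eq_of_ne hi]
  · simp
  · exact Finset.dvd_sum fun i _ => Dvd.dvd.mul_left (by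
      rw [Pi.single_apply]; split_ifs <;> simp) _
  · exact Pi.single_eq_of_ne (fun e => by subst e; omega) _

theorem Lf.nat (h : Lf D m s κ β b) {μ : σ → ℕ} (hμ : zc μ ∈ La D m s κ) :
    β (zc μ) = Dat.bp b μ := by
  simp [h.2.1 _ hμ, zc, Dat.bp]

theorem cen_yy {M : ℕ} (hκ : ∀ j, 1 ≤ κ j) : St.Cen (D.yy M κ b θ) := by
  intro j
  unfold Dat.yy
  split_ifs
  · exact ((dvd_pow_self X (by have := hκ j; omega)).mul_left _).mul_right _
  · exact dvd_zero _

theorem zs_eq (hC : CC D) (ha : D.Adm s κ) (h : Lf D m s κ β b) :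
    MvPolynomial.aeval (D.yy (D.n * m) κ b θ) (pc D m s) =
      expand D.n D.hn (zs D.n κ (pc D m s) β θ) := by
  rw [MvPolynomial.aeval_def, MvPolynomial.eval₂_eq', zs, map_sum]
  refine Finset.sum_congr rfl fun μ hμ => ?_
  have h1 : zc μ ∈ D.Lam s := hC.ctr_mem s μ fun e => MvPolynomial.mem_support_iff.1 hμ (by
    rw [pc, MvPowerSeries.coeff_truncTotal_eq_ite, e, ite_self])
  by_cases h2 : ∀ j, D.n * m < κ j → μ j = 0
  · have h3 : D.n ∣ dot κ μ := by
      have := ha _ h1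
      simp only [zc, ← Nat.cast_mul, ← Nat.cast_sum] at this
      exact Int.natCast_dvd_natCast.1 this
    have h4 : ∏ j, D.yy (D.n * m) κ b θ j ^ μ j =
        ∏ j, (C (b j) * X ^ κ j * expand D.n D.hn (θ j)) ^ μ j :=
      Finset.prod_congr rfl fun j _ => by
        by_cases hj : κ j ≤ D.n * m
        · rw [Dat.yy, if_pos hj]
        · rw [h2 j (not_le.1 hj), pow_zero, pow_zero]
    rw [h4, h.nat (mem_La.2 ⟨h1, fun j hj => by simp [zc, h2 j hj]⟩)]
    simp only [map_mul, map_pow, map_prod, expand_C, expand_X, ← pow_mul, Nat.mul_div_cancel' h3,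
      Dat.bp, mul_pow, Finset.prod_mul_distrib, St.alg_ps, Finset.prod_pow_eq_pow_sum, mul_assoc]
    rfl
  · rw [h.2.2 _ fun hm => h2 fun j hj => by simpa [zc] using (mem_La.1 hm).2 j hj]
    push Not at h2
    obtain ⟨j, hj, h3⟩ := h2
    rw [Finset.prod_eq_zero (Finset.mem_univ j) (by rw [Dat.yy, if_neg (by omega), zero_pow h3])]
    simp

theorem ev_zs (hC : CC D) (hE : EV D K) (hI : D.Idx m s κ r) (h : Lf D m s κ β b) :
    X ^ (D.n * m + 1) ∣ Dat.ev (D.yy (D.n * m) κ b θ) (ctr s) -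
      expand D.n D.hn (zs D.n κ (pc D m s) β θ) := by
  rw [← zs_eq hC hI.2.1 h]
  exact hE.trunc _ (cen_yy fun j => (hI.1.1 j).1) _ _

theorem r_le (hB : CB D) (hs : D.IsCl s) (hI : D.Idx m s κ r) : r ≤ D.n * m := by
  have := hB.deg_pos _ hs
  have := hI.1.2.2.2
  nlinarith

theorem supp {M : ℕ} {μ : σ → ℕ} (h : dot κ μ ≤ M) {j : σ} (hj : M < κ j) : μ j = 0 := by
  have : κ j * μ j ≤ dot κ μ :=
    Finset.single_le_sum (f := fun j => κ j * μ j) (fun _ _ => Nat.zero_le _) (Finset.mem_univ j)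
  by_contra h0
  have := Nat.le_mul_of_pos_right (κ j) (Nat.pos_of_ne_zero h0)
  omega

theorem prod_eq (B u : K) (hB : B ≠ 0) :
    ∏ a ∈ s, (u - algebraMap k K (dir s a) * B) ^ D.m a = ∑ l ∈ Finset.range (D.deg s + 1),
      algebraMap k K ((D.PP s).coeff l) * B ^ (D.deg s - l) * u ^ l := by
  have h1 : (D.PP s).natDegree < D.deg s + 1 := by
    refine Nat.lt_succ_of_le ((Polynomial.natDegree_prod_le _ _).trans
      (Finset.sum_le_sum fun a _ => ?_))
    exact Polynomial.natDegree_pow_le.trans (by simp)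
  have h2 := Polynomial.aeval_eq_sum_range' h1 (u / B)
  have h3 : ∏ a ∈ s, (u - algebraMap k K (dir s a) * B) ^ D.m a =
      B ^ D.deg s * Polynomial.aeval (u / B) (D.PP s) := by
    simp only [Dat.PP, Dat.deg, map_prod, map_pow, map_sub, Polynomial.aeval_X, Polynomial.aeval_C,
      ← Finset.prod_pow_eq_pow_sum, ← Finset.prod_mul_distrib, ← mul_pow]
    refine Finset.prod_congr rfl fun a _ => ?_
    congr 1
    field_simp
  rw [h3, h2, Finset.mul_sum]
  refine Finset.sum_congr rfl fun l hl => ?_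
  obtain ⟨q, hq⟩ := Nat.exists_eq_add_of_le (Nat.le_of_lt_succ (Finset.mem_range.1 hl))
  rw [hq, Nat.add_sub_cancel_left, Algebra.smul_def, pow_add, div_pow]
  field_simp

theorem sum_eq (hB : CB D) (hC : CC D) (hs : D.IsCl s) (hI : D.Idx m s κ r)
    (h : Lf D m s κ β b) (u : K) :
    ∑ l ∈ Finset.range (D.deg s + 1), algebraMap k K ((D.Pol s κ r).coeff l) *
      β (zc (D.MM s) + (D.deg s - l) • zc (hi s)) * u ^ l =
    algebraMap k K (D.cc s) * Dat.bp b (D.MM s) * D.psi s κ r b (if D.n ∣ r then u else 0) := by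
  have hM : zc (D.MM s) ∈ La D m s κ := mem_La.2 ⟨hC.MM_mem s hs, fun j hj => by
    simp [zc, supp (le_trans (Nat.le_add_right _ _) hI.1.2.2.2) hj]⟩
  have hd := hB.deg_pos s hs
  unfold Dat.Pol Dat.psi
  by_cases hv : 2 ≤ s.card ∧ r = dot κ (hi s)
  · have hb : Dat.bp b (hi s) ≠ 0 := Finset.prod_ne_zero_iff.2 fun j _ => pow_ne_zero _ (h.1 j)
    have h1 : ∀ l, algebraMap k K ((D.PP s).coeff l) *
        β (zc (D.MM s) + (D.deg s - l) • zc (hi s)) = Dat.bp b (D.MM s) *
          (algebraMap k K ((D.PP s).coeff l) * Dat.bp b (hi s) ^ (D.deg s - l)) := fun l => by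
      by_cases h0 : (D.PP s).coeff l = 0
      · simp [h0]
      have e : zc (D.MM s) + (D.deg s - l) • zc (hi s) =
          zc (fun j => D.MM s j + (D.deg s - l) * hi s j) := by
        funext j
        simp [zc]
      have h2 : zc (D.MM s) + (D.deg s - l) • zc (hi s) ∈ La D m s κ :=
        add_mem hM (mem_La.2 ⟨hC.PP_mem s hs l h0, fun j hj => by
          simp [zc, supp (hv.2 ▸ r_le hB hs hI) hj]⟩)
      rw [e] at h2 ⊢
      rw [h.nat h2]
      simp only [Dat.bp, pow_add, Finset.prod_mul_distrib, mul_comm (D.deg s - l), pow_mul,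
        Finset.prod_pow]
      ring
    rw [if_pos hv, if_pos hv, prod_eq _ _ hb, Finset.mul_sum]
    refine Finset.sum_congr rfl fun l _ => ?_
    rw [Polynomial.coeff_C_mul, map_mul]
    split_ifs
    · linear_combination algebraMap k K (D.cc s) * u ^ l * h1 l
    · rcases l with _ | l
      · rw [Polynomial.coeff_C_zero]
        linear_combination algebraMap k K (D.cc s) * h1 0
      · simp
  · rw [if_neg hv, if_neg hv]
    split_ifs
    · rw [Finset.sum_eq_single (D.deg s)]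
      · simp [h.nat hM]
      · exact fun l _ hl => by simp [Polynomial.coeff_X_pow, hl]
      · simp
    · simp [hd.ne']

theorem Gm_some {x : Io σ → K} (h : Lf D m s κ (be x) b) (j : σ) :
    Gm D m s κ r x (some j) = D.xx (D.n * m) κ b (th x) j := by
  simp only [Gm, GG, Option.elim, Dat.xx]
  split_ifs with hj
  · rw [h.single hj]
  · rfl

theorem Gm_none (x : Io σ → K) : Gm D m s κ r x none =
    zs D.n κ (pc D m s) (be x) (th x) + C (x (.inl none)) * X ^ rh D r := rfl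

theorem lift (h4 : S_ChLift) [IsAlgClosed K] {x : Io σ → K} (hx : Pp D m s κ r K x) :
    ∃ b, Lf D m s κ (be x) b := by
  obtain ⟨b, h1, h2⟩ := h4 σ K _ _ hx.1.1
  exact ⟨b, h1, h2, hx.1.1.2.2⟩

theorem z_cond (hB : CB D) (hC : CC D) (hE : EV D K) (hs : D.IsCl s) (hI : D.Idx m s κ r)
    {x : Io σ → K} (h : Lf D m s κ (be x) b) {w : PowerSeries K}
    (hw : X ^ (rh D r + 1) ∣ w - Gm D m s κ r x none) :
    X ^ (r + 1) ∣ expand D.n D.hn w - Dat.ev (D.yy (D.n * m) κ b (th x)) (ctr s) -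
      C (if D.n ∣ r then x (.inl none) else 0) * X ^ r := by
  have hn := Nat.pos_of_ne_zero D.hn
  have h1 := (pow_dvd_pow X (show r + 1 ≤ D.n * (rh D r + 1) by
    have := (rh_spec D r).1; rw [mul_add]; omega)).trans (dvd_expand D.hn hw)
  have h2 := (pow_dvd_pow X (Nat.succ_le_succ (r_le hB hs hI))).trans (ev_zs (θ := th x) hC hE hI h)
  have h3 : (X : PowerSeries K) ^ (r + 1) ∣ C (x (.inl none)) * X ^ (D.n * rh D r) -
      C (if D.n ∣ r then x (.inl none) else 0) * X ^ r := by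
    split_ifs with hr
    · simp [rh_dvd D r hr]
    · simpa using (pow_dvd_pow X (rh_not D r hr)).mul_left _
  rw [Gm_none, map_sub, map_add, map_mul, expand_C, map_pow, expand_X, ← pow_mul] at h1
  convert dvd_add (dvd_sub h1 h2) h3 using 1
  ring

theorem eq_one (hB : CB D) (hC : CC D) (hs : D.IsCl s) (hI : D.Idx m s κ r) {x : Io σ → K}
    (hx : Pp D m s κ r K x) (h : Lf D m s κ (be x) b) :
    algebraMap k K (D.cc s) * Dat.bp b (D.MM s) *
      D.psi s κ r b (if D.n ∣ r then x (.inl none) else 0) = 1 :=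
  (sum_eq hB hC hs hI h _).symm.trans hx.1.2

theorem maps (h4 : S_ChLift) [IsAlgClosed K] (hB : CB D) (hC : CC D) (hE : EV D K) (hs : D.IsCl s)
    (hI : D.Idx m s κ r) {x : Io σ → K} (hx : Pp D m s κ r K x) {γ : Option σ → PowerSeries K}
    (hγ : Rp D m s κ r x γ) : D.Pc m s κ r γ := by
  obtain ⟨b, hb⟩ := lift h4 hx
  exact ⟨b, th x, _, hb.1, cc_th x, fun j => Gm_some (r := r) hb j ▸ hγ (some j),
    z_cond hB hC hE hs hI hb (hγ none), eq_one hB hC hs hI hx hb⟩

theorem cen_Gm (h4 : S_ChLift) [IsAlgClosed K] (hB : CB D) (hC : CC D) (hE : EV D K)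
    (hs : D.IsCl s) (hI : D.Idx m s κ r) {x : Io σ → K} (hx : Pp D m s κ r K x) :
    St.Cen (Gm D m s κ r x) := by
  obtain ⟨b, hb⟩ := lift h4 hx
  rintro (_ | j)
  · have h1 := X_pow_dvd_iff.1 (ev_zs (θ := th x) hC hE hI hb) 0 (Nat.succ_pos _)
    rw [map_sub, coeff_zero_eq_constantCoeff_apply, coeff_zero_eq_constantCoeff_apply,
      hE.const _ (cen_yy fun j => (hI.1.1 j).1), hB.ctr_zero s hs, map_zero, zero_sub,
      neg_eq_zero, constantCoeff_expand] at h1
    have h2 : rh D r ≠ 0 := fun e => by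
      have h3 := (rh_spec D r).1
      have h5 := hI.1.2.1
      rw [e] at h3
      omega
    exact dvd_add (X_dvd_iff.2 h1) ((dvd_pow_self X h2).mul_left _)
  · rw [Gm_some hb, Dat.xx]
    split_ifs
    · exact ((dvd_pow_self X (by have := (hI.1.1 j).1; omega)).mul_left _).mul_right _
    · exact dvd_zero _

theorem inj (h4 : S_ChLift) [IsAlgClosed K] (hB : CB D) (hC : CC D) (hE : EV D K) (hU : Uniq D)
    (hs : D.IsCl s) (hI : D.Idx m s κ r) {x x' : Io σ → K} (hx : Pp D m s κ r K x)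
    (hx' : Pp D m s κ r K x') {γ : Option σ → PowerSeries K} (hγ : Rp D m s κ r x γ)
    (hγ' : Rp D m s κ r x' γ) : x = x' := by
  obtain ⟨b, hb⟩ := lift h4 hx
  obtain ⟨b', hb'⟩ := lift h4 hx'
  obtain ⟨-, -, h1, g, h2, h3⟩ := hU K _ s s κ κ r r b b' (th x) (th x') _ _ _ hs hs hI.1 hI.1
    hb.1 hb'.1 (cc_th x) (cc_th x') (fun j => by
      have := dvd_sub (hγ' (some j)) (hγ (some j))
      rwa [sub_sub_sub_cancel_left, Gm_some hb, Gm_some hb'] at this)
    (z_cond hB hC hE hs hI hb (hγ none)) (z_cond hB hC hE hs hI hb' (hγ' none))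
    (right_ne_zero_of_mul_eq_one (eq_one hB hC hs hI hx hb))
    (right_ne_zero_of_mul_eq_one (eq_one hB hC hs hI hx' hb'))
  have hε : algebraMap k K D.ε ^ D.n = 1 := by rw [← map_pow, D.hε.pow_eq_one, map_one]
  have hε0 : algebraMap k K D.ε ≠ 0 := fun e => by
    rw [e, zero_pow D.hn] at hε
    exact zero_ne_one hε
  have e1 : be x = be x' := funext fun μ => by
    by_cases hμ : μ ∈ La D m s κ
    · obtain ⟨q, hq⟩ := (mem_La.1 hμ).1 g h2.symm
      have h5 : ∏ j, b' j ^ μ j = ∏ j, (algebraMap k K D.ε ^ ((g j : ℤ) * μ j) * b j ^ μ j) :=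
        Finset.prod_congr rfl fun j _ => by
          by_cases hj : κ j ≤ D.n * m
          · rw [h3 j hj, mul_zpow, zpow_mul, zpow_natCast]
          · simp [(mem_La.1 hμ).2 j (not_le.1 hj)]
      have h6 : ∏ j, algebraMap k K D.ε ^ ((g j : ℤ) * μ j) =
          algebraMap k K D.ε ^ ∑ j, (g j : ℤ) * μ j :=
        Finset.induction_on (motive := fun t => ∏ j ∈ t, algebraMap k K D.ε ^ ((g j : ℤ) * μ j) =
          algebraMap k K D.ε ^ ∑ j ∈ t, (g j : ℤ) * μ j) _ (by simp) fun j t hj ih => by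
            rw [Finset.prod_insert hj, Finset.sum_insert hj, zpow_add₀ hε0, ih]
      rw [hb.2.1 μ hμ, hb'.2.1 μ hμ, h5, Finset.prod_mul_distrib, h6, hq, zpow_mul, zpow_natCast,
        hε, one_zpow, one_mul]
    · rw [hb.2.2 μ hμ, hb'.2.2 μ hμ]
  have e2 : ∀ q, x (.inr q) = x' (.inr q) := fun ⟨j, l⟩ => by
    by_cases hl : l < D.n * m - κ j
    · have := X_pow_dvd_iff.1 (h1 j (by omega)) (l + 1) (by omega)
      rwa [map_sub, coeff_th, coeff_th, sub_eq_zero] at this
    · rw [hx.2 _ (mem_box.not.2 hl), hx'.2 _ (mem_box.not.2 hl)]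
  have e3 : th x = th x' := funext fun j => by simp only [th, e2]
  have e4 : x (.inl none) = x' (.inl none) := by
    have h5 := dvd_sub (hγ' none) (hγ none)
    rw [sub_sub_sub_cancel_left, Gm_none, Gm_none, e1, e3, add_sub_add_left_eq_sub] at h5
    have := X_pow_dvd_iff.1 h5 (rh D r) (Nat.lt_succ_self _)
    rwa [map_sub, coeff_C_mul, coeff_C_mul, coeff_X_pow_self, mul_one, mul_one, sub_eq_zero] at this
  funext i
  rcases i with (_ | μ) | q
  exacts [e4, congrFun e1 μ, e2 q]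

theorem surj (hB : CB D) (hC : CC D) (hE : EV D K) (hs : D.IsCl s) (hI : D.Idx m s κ r)
    {γ : Option σ → PowerSeries K} (hγ : D.Pc m s κ r γ) :
    ∃ x, Pp D m s κ r K x ∧ Rp D m s κ r x γ := by
  classical
  obtain ⟨b, θ, u', hb, hθ, h1, h2, h3⟩ := hγ
  have hn := Nat.pos_of_ne_zero D.hn
  let β : (σ → ℤ) → K := fun μ => if μ ∈ La D m s κ then ∏ j, b j ^ μ j else 0
  have hL : Lf D m s κ β b := ⟨hb, fun μ h => if_pos h, fun μ h => if_neg h⟩
  let y : σ × ℕ → K := fun q => if q.2 < D.n * m - κ q.1 then coeff (q.2 + 1) (θ q.1) else 0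
  let θ' : σ → PowerSeries K := fun j => 1 + St.arc y j
  have ht : ∀ j, κ j ≤ D.n * m → X ^ (D.n * m - κ j + 1) ∣ θ' j - θ j := fun j _ => by
    have := (St.dvd_arc_sub (x := y) (j := j) (γ := θ j - 1) (X_dvd_iff.2 (by simp [hθ]))
      (M := D.n * m - κ j)).2 fun l hl => by simp [y, hl, coeff_one]
    convert this using 1
    simp only [θ']
    ring
  have hy : ∀ j, X ^ (D.n * m + 1) ∣ D.yy (D.n * m) κ b θ' j - D.yy (D.n * m) κ b θ j := fun j => by
    unfold Dat.yy
    split_ifs with hj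
    · rw [← mul_sub, ← map_sub, mul_assoc,
        show D.n * m + 1 = κ j + (D.n * m - κ j + 1) by omega, pow_add]
      exact (mul_dvd_mul_left _ ((pow_dvd_pow X (Nat.le_mul_of_pos_left _ hn)).trans
        (dvd_expand D.hn (ht j hj)))).mul_left _
    · simp
  have hx : ∀ j, X ^ (D.n * m + 1) ∣ D.xx (D.n * m) κ b θ j - D.xx (D.n * m) κ b θ' j := fun j => by
    unfold Dat.xx
    split_ifs with hj
    · rw [← mul_sub, mul_assoc, show D.n * m + 1 = κ j + (D.n * m - κ j + 1) by omega, pow_add]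
      exact (mul_dvd_mul_left _ ((dvd_sub_comm.1 (ht j hj)).trans
        (sub_dvd_pow_sub_pow _ _ _))).mul_left _
    · simp
  let H := γ none - zs D.n κ (pc D m s) β θ'
  have hr := Nat.succ_le_succ (r_le hB hs hI)
  have hH : X ^ (r + 1) ∣ expand D.n D.hn H - C u' * X ^ r := by
    have h5 := (pow_dvd_pow X hr).trans (ev_zs (θ := θ') hC hE hI hL)
    have h6 := (pow_dvd_pow X hr).trans (hE.congr _ _ (cen_yy fun j => (hI.1.1 j).1)
      (cen_yy fun j => (hI.1.1 j).1) (ctr s) _ hy)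
    convert dvd_sub (dvd_add h2 h5) h6 using 1
    simp only [H, map_sub]
    ring
  have h7 : X ^ rh D r ∣ H := X_pow_dvd_iff.2 fun l hl => by
    have h8 : D.n * l < r := by
      have := (rh_spec D r).2
      have := Nat.mul_le_mul_left D.n (Nat.succ_le_of_lt hl)
      rw [Nat.mul_succ] at this
      omega
    have := X_pow_dvd_iff.1 hH (D.n * l) (by omega)
    rwa [map_sub, coeff_expand_mul, coeff_C_mul, coeff_X_pow, if_neg h8.ne, mul_zero,
      sub_zero] at this
  have h9 : u' = if D.n ∣ r then coeff (rh D r) H else 0 := by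
    have := X_pow_dvd_iff.1 hH r (Nat.lt_succ_self _)
    rw [map_sub, coeff_C_mul, coeff_X_pow_self, mul_one, sub_eq_zero] at this
    rw [← this]
    split_ifs with h
    · conv_lhs => rw [← rh_dvd D r h, coeff_expand_mul]
    · exact coeff_expand_of_not_dvd _ _ _ h
  let x : Io σ → K := Sum.elim (fun o => o.elim (coeff (rh D r) H) β) y
  have hL' : Lf D m s κ (be x) b := hL
  refine ⟨x, ⟨⟨⟨?_, fun μ hμ ν hν => ?_, hL.2.2⟩, ?_⟩, fun q hq => if_neg (mem_box.not.1 hq)⟩, ?_⟩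
  · exact (hL.2.1 0 (zero_mem _)).trans (by simp)
  · change β (μ + ν) = β μ * β ν
    rw [hL.2.1 _ (add_mem hμ hν), hL.2.1 _ hμ, hL.2.1 _ hν, ← Finset.prod_mul_distrib]
    exact Finset.prod_congr rfl fun j _ => zpow_add₀ (hb j) _ _
  · exact (sum_eq hB hC hs hI hL _).trans (h9 ▸ h3)
  · rintro (_ | j)
    · rw [Gm_none, ← sub_sub]
      exact dvd_lead h7
    · have := dvd_add (h1 j) (hx j)
      rw [sub_add_sub_cancel] at this
      rw [Gm_some hL']
      exact this

theorem Pc_congr {γ γ' : Option σ → PowerSeries K}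
    (h : ∀ o, X ^ (lv D m r o + 1) ∣ γ' o - γ o) (hγ : D.Pc m s κ r γ) : D.Pc m s κ r γ' := by
  obtain ⟨b, θ, u, hb, hθ, h1, h2, h3⟩ := hγ
  have hn := Nat.pos_of_ne_zero D.hn
  refine ⟨b, θ, u, hb, hθ, fun j => ?_, ?_, h3⟩
  · have := dvd_add (h (some j)) (h1 j)
    rwa [sub_add_sub_cancel] at this
  · have h4 := (pow_dvd_pow X (show r + 1 ≤ D.n * (rh D r + 1) by
      have := (rh_spec D r).1; rw [mul_add]; omega)).trans (dvd_expand D.hn (h none))
    convert dvd_add h4 h2 using 1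
    rw [map_sub]
    ring

end PcVolP

open PcVolP in
theorem p_PcVol (h : S_CB) (hC : S_CC) (hE : S_EV) (hU : S_Uniq) (h1 : S_Clsd) (h2 : S_Free)
    (h3 : S_Wc) (h4 : S_ChLift) : S_PcVol := by
  intro σ k _ _ _ _ _ D m s κ r hs hI
  have cb : CB D := h _ _ D
  have cc : CC D := hC _ _ D
  let g : Option σ × ℕ → MvPolynomial (Io σ) k := fun q =>
    if q.2 < lv D m r q.1 then coeff (q.2 + 1) (Gm D m s κ r MvPolynomial.X q.1) else 0
  have hg : ∀ (K : Type) [Field K] [Algebra k K] (x : Io σ → K) q, MvPolynomial.aeval x (g q) =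
      if q.2 < lv D m r q.1 then coeff (q.2 + 1) (Gm D m s κ r x q.1) else 0 := fun K _ _ x q => by
    simp only [g]
    split_ifs
    · have := congrArg (coeff (q.2 + 1)) (map_GG (MvPolynomial.aeval x) D.n (D.n * m) (rh D r) κ
        (pc D m s) MvPolynomial.X q.1)
      simp only [coeff_map, MvPolynomial.aeval_X] at this
      exact this
    · exact map_zero _
  have key := h1 k (Io σ) (Option σ × ℕ) (Pp D m s κ r)
    (fun K _ _ y => D.Pc m s κ r (St.arc y) ∧ ∀ q, q ∉ box (lv D m r) → y q = 0) _ g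
    (h2 k _ _ _ _ _ (h3 σ k _ _ _ _ _)) fun K _ _ _ => by
      have ev : EV D K := hE _ _ D K
      have hR : ∀ x, Pp D m s κ r K x →
          Rp D m s κ r x (St.arc fun q => MvPolynomial.aeval x (g q)) := fun x hx o =>
        (St.dvd_arc_sub (cen_Gm h4 cb cc ev hs hI hx o)).2 fun l hl => by rw [hg, if_pos hl]
      refine ⟨fun x hx => ⟨maps h4 cb cc ev hs hI hx (hR x hx), fun q hq => ?_⟩,
        fun x hx x' hx' e => inj h4 cb cc ev (hU _ _ D) hs hI hx hx' (hR x hx) ?_,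
        fun y hy => ?_⟩
      · exact (hg K x q).trans (if_neg (mem_box.not.1 hq))
      · beta_reduce at e
        exact e ▸ hR x' hx'
      · obtain ⟨x, hx, hy'⟩ := surj cb cc ev hs hI hy.1
        refine ⟨x, hx, funext fun q => (hg K x q).trans ?_⟩
        split_ifs with hq
        · exact ((St.dvd_arc_sub (cen_Gm h4 cb cc ev hs hI hx q.1)).1 (hy' q.1) q.2 hq).symm
        · exact (hy.2 q (mem_box.not.2 hq)).symm
  refine ⟨box (lv D m r), _, fun K _ _ x y e hx => Pc_congr (fun o => ?_) hx,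
    key.congr fun K _ _ y => and_congr_right' ?_, ?_⟩
  · exact (St.dvd_arc_sub (St.cen_arc _ o)).2 fun l hl => by
      rw [St.coeff_arc, e _ (mem_box.2 hl)]
  · simp only [_root_.map_eq_zero]
  · have e : ∑ o, lv D m r o = ∑ j, (D.n * m - κ j) +
        (∑ j, min (κ j) (D.n * m) + (r + D.n - 1) / D.n) := by
      rw [Fintype.sum_option, ← add_assoc, ← Finset.sum_add_distrib, add_comm]
      exact congrArg₂ (· + ·) (Finset.sum_congr rfl fun j _ => by
        simp only [lv, Option.elim]; omega) rfl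
    rw [card_box, card_box, e, pow_add (Linv k) (∑ j, (D.n * m - κ j)), map_mul, map_pow, mul_assoc,
      ← mul_assoc (_ ^ _), ← mul_pow, L_mul_Linv, one_pow, one_mul]
    rfl

end

end Pool.Agent.P.MP_b91a16_ag.Qo
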