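import Pool.Agent.P.MP_b91a16_ag.Qo.Spec

/-! Quasi-ordinary polynomials: free torus factors and scaling. -/

set_option linter.unusedSectionVars false

open Polynomial

namespace Pool.Agent.P.MP_b91a16_ag.Qo

noncomputable section

namespace ProdP

variable {σ k : Type} [Fintype σ] [DecidableEq σ] [Field k]

theorem ch_ne {K : Type} [Field K] {Λ : AddSubgroup (σ → ℤ)} {β : (σ → ℤ) → K} (hβ : IsCh Λ β)
    {e : σ → ℤ} (he : e ∈ Λ) : β e ≠ 0 := by
  intro h0
  have := hβ.2.1 e he (-e) (Λ.neg_mem he)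
  rw [add_neg_cancel, hβ.1, h0, zero_mul] at this
  exact one_ne_zero this

theorem ch_zsmul {K : Type} [Field K] {Λ : AddSubgroup (σ → ℤ)} {β : (σ → ℤ) → K}
    (hβ : IsCh Λ β) {e : σ → ℤ} (he : e ∈ Λ) (t : ℤ) : β (t • e) = β e ^ t := by
  have h0 := ch_ne hβ he
  induction t using Int.induction_on with
  | zero => rw [zero_smul, zpow_zero, hβ.1]
  | succ t ih =>
    rw [add_smul, one_smul, hβ.2.1 _ (Λ.zsmul_mem he _) _ he, ih, zpow_add_one₀ h0]
  | pred t ih =>
    have h1 := hβ.2.1 ((-(t : ℤ) - 1) • e) (Λ.zsmul_mem he _) e he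
    rw [show (-(t : ℤ) - 1) • e + e = (-(t : ℤ)) • e by rw [sub_smul, one_smul, sub_add_cancel],
      ih] at h1
    rw [zpow_sub_one₀ h0, h1, mul_assoc, mul_inv_cancel₀ h0, mul_one]

theorem decomp {j : σ} {n : ℕ} {μ : σ → ℤ} (hd : (n : ℤ) ∣ μ j) :
    μ = Function.update μ j 0 + (μ j / n) • (Pi.single j (n : ℤ) : σ → ℤ) := by
  funext i
  by_cases hi : i = j
  · subst hi
    simp [Int.ediv_mul_cancel hd]
  · simp [Function.update_of_ne hi, Pi.single_eq_of_ne hi]

/-- The restriction map. -/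
def gg (k : Type) [Field k] (j : σ) (n : ℕ) :
    Option (σ → ℤ) ⊕ Unit → MvPolynomial (Option (σ → ℤ)) k
  | .inl none => MvPolynomial.X none
  | .inl (some μ) => if μ j = 0 then MvPolynomial.X (some μ) else 0
  | .inr _ => MvPolynomial.X (some (Pi.single j (n : ℤ)))

theorem gg_none {K : Type} [Field K] [Algebra k K] (j : σ) (n : ℕ) (x : Option (σ → ℤ) → K) :
    MvPolynomial.aeval x (gg k j n (.inl none)) = x none := by simp [gg]

theorem gg_some {K : Type} [Field K] [Algebra k K] (j : σ) (n : ℕ) (x : Option (σ → ℤ) → K)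
    (μ : σ → ℤ) :
    MvPolynomial.aeval x (gg k j n (.inl (some μ))) = if μ j = 0 then x (some μ) else 0 := by
  simp only [gg]
  split_ifs <;> simp

theorem gg_inr {K : Type} [Field K] [Algebra k K] (j : σ) (n : ℕ) (x : Option (σ → ℤ) → K)
    (q : Unit) :
    MvPolynomial.aeval x (gg k j n (.inr q)) = x (some (Pi.single j (n : ℤ))) := by simp [gg]

theorem bij {Λ₁ Λ₂ : AddSubgroup (σ → ℤ)} (P : k[X]) {M h : σ → ℤ} (D : ℕ) {n : ℕ} {j : σ}
    (hn : n ≠ 0) (he : (Pi.single j (n : ℤ) : σ → ℤ) ∈ Λ₂) (hd : ∀ μ ∈ Λ₂, (n : ℤ) ∣ μ j)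
    (h1 : ∀ μ, μ ∈ Λ₁ ↔ μ ∈ Λ₂ ∧ μ j = 0) (hM : M j = 0) (hh : h j = 0)
    (K : Type) [Field K] [Algebra k K] :
    Set.BijOn (fun (x : Option (σ → ℤ) → K) q => MvPolynomial.aeval x (gg k j n q))
      {x | WP Λ₂ P M h D K x}
      {y | WP Λ₁ P M h D K (fun i => y (.inl i)) ∧ y (.inr ()) ≠ 0} := by
  have hz : ∀ l : ℕ, (M + (D - l) • h) j = 0 := fun l => by simp [hM, hh]
  have hu : ∀ μ ∈ Λ₂, Function.update μ j 0 ∈ Λ₁ := by
    intro μ hμ
    refine (h1 _).2 ⟨?_, by simp⟩
    have e1 : Function.update μ j 0 = μ - (μ j / n) • (Pi.single j (n : ℤ) : σ → ℤ) :=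
      eq_sub_of_add_eq (decomp (hd μ hμ)).symm
    rw [e1]
    exact Λ₂.sub_mem hμ (Λ₂.zsmul_mem he _)
  refine ⟨?_, ?_, ?_⟩
  · rintro x ⟨hx, hs⟩
    refine ⟨⟨⟨?_, ?_, ?_⟩, ?_⟩, ?_⟩
    · simp only [gg_some, Pi.zero_apply, if_true]
      exact hx.1
    · intro μ hμ ν hν
      obtain ⟨a1, a2⟩ := (h1 μ).1 hμ
      obtain ⟨b1, b2⟩ := (h1 ν).1 hν
      simp only [gg_some, Pi.add_apply, a2, b2, add_zero, if_true]
      exact hx.2.1 μ a1 ν b1
    · intro μ hμ
      simp only [gg_some]
      split_ifs with h0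
      · exact hx.2.2 μ fun hm => hμ ((h1 μ).2 ⟨hm, h0⟩)
      · rfl
    · simp only [gg_some, gg_none, hz, if_true]
      exact hs
    · simp only [gg_inr]
      exact ch_ne hx he
  · rintro x ⟨hx, -⟩ x' ⟨hx', -⟩ e
    have e0 : x none = x' none := by
      have := congrFun e (.inl none)
      simpa only [gg_none] using this
    have e1 : ∀ μ : σ → ℤ, μ j = 0 → x (some μ) = x' (some μ) := fun μ h0 => by
      have := congrFun e (.inl (some μ))
      simpa only [gg_some, h0, if_true] using this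
    have e2 : x (some (Pi.single j (n : ℤ))) = x' (some (Pi.single j (n : ℤ))) := by
      have := congrFun e (.inr ())
      simpa only [gg_inr] using this
    funext o
    rcases o with _ | μ
    · exact e0
    · by_cases hμ : μ ∈ Λ₂
      · have hm := ((h1 _).1 (hu μ hμ)).1
        have a1 := hx.2.1 _ hm _ (Λ₂.zsmul_mem he (μ j / n))
        have a2 := hx'.2.1 _ hm _ (Λ₂.zsmul_mem he (μ j / n))
        have a3 := ch_zsmul hx he (μ j / n)
        have a4 := ch_zsmul hx' he (μ j / n)
        rw [← decomp (hd μ hμ)] at a1 a2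
        beta_reduce at a1 a2 a3 a4
        rw [a1, a2, a3, a4, e1 _ (by simp), e2]
      · exact (hx.2.2 μ hμ).trans (hx'.2.2 μ hμ).symm
  · rintro y ⟨⟨hy, hs⟩, ha⟩
    classical
    let x : Option (σ → ℤ) → K := fun o => o.elim (y (.inl none)) fun μ =>
      if μ ∈ Λ₂ then y (.inl (some (Function.update μ j 0))) * y (.inr ()) ^ (μ j / n) else 0
    have hx0 : ∀ μ : σ → ℤ, μ j = 0 → x (some μ) = y (.inl (some μ)) := by
      intro μ h0
      have e1 : Function.update μ j 0 = μ := by rw [← h0, Function.update_eq_self]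
      simp only [x, Option.elim_some, e1, h0, Int.zero_ediv, zpow_zero, mul_one]
      split_ifs with hm
      · rfl
      · exact (hy.2.2 μ fun h2 => hm ((h1 μ).1 h2).1).symm
    refine ⟨x, ⟨⟨?_, ?_, ?_⟩, ?_⟩, ?_⟩
    · exact (hx0 0 rfl).trans hy.1
    · intro μ hμ ν hν
      have e1 : Function.update (μ + ν) j 0 = Function.update μ j 0 + Function.update ν j 0 := by
        funext i
        by_cases hi : i = j
        · subst hi
          simp
        · simp [Function.update_of_ne hi]
      have e2 := hy.2.1 _ (hu μ hμ) _ (hu ν hν)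
      simp only [x, Option.elim_some, hμ, hν, Λ₂.add_mem hμ hν, if_true, e1, Pi.add_apply]
      simp only at e2
      rw [e2, Int.add_ediv_of_dvd_left (hd μ hμ), zpow_add₀ ha]
      ring
    · intro μ hμ
      simp only [x, Option.elim_some, hμ, if_false]
    · rw [← hs]
      refine Finset.sum_congr rfl fun l _ => ?_
      rw [hx0 _ (hz l)]
      rfl
    · funext q
      rcases q with (_ | μ) | q
      · exact gg_none j n x
      · simp only [gg_some]
        split_ifs with h0
        · exact hx0 μ h0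
        · exact (hy.2.2 μ fun h2 => h0 ((h1 μ).1 h2).2).symm
      · have e1 : Function.update (Pi.single j (n : ℤ) : σ → ℤ) j 0 = 0 := by
          funext i
          by_cases hi : i = j
          · subst hi
            simp
          · simp [Function.update_of_ne hi, Pi.single_eq_of_ne hi]
        have e2 : y (.inl (some 0)) = 1 := hy.1
        have e3 : (n : ℤ) / n = 1 := Int.ediv_self (by exact_mod_cast hn)
        simp only [gg_inr, x, Option.elim_some, he, if_true, e1, e2, Pi.single_eq_same, e3,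
          zpow_one, one_mul]

theorem step (h : S_Wc) (hF : S_Free) {Λ₁ Λ₂ : AddSubgroup (σ → ℤ)} (P : k[X]) {M v : σ → ℤ}
    (D : ℕ) {n : ℕ} {j : σ}
    (hn : n ≠ 0) (he : (Pi.single j (n : ℤ) : σ → ℤ) ∈ Λ₂) (hd : ∀ μ ∈ Λ₂, (n : ℤ) ∣ μ j)
    (h1 : ∀ μ, μ ∈ Λ₁ ↔ μ ∈ Λ₂ ∧ μ j = 0) (hM : M j = 0) (hh : v j = 0) :
    wc Λ₂ P M v D = (LL k - 1) * wc Λ₁ P M v D := by
  have a1 := h σ k Λ₁ P M v D
  have a2 := (h σ k Λ₂ P M v D).map
    (Q := fun K _ _ y => WP Λ₁ P M v D K (fun i => y (.inl i)) ∧ y (.inr ()) ≠ 0) (gg k j n)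
    (bij P D hn he hd h1 hM hh)
  have b0 := hF k _ Unit _ _ ∅ a1
  have b1 := hF k _ Unit _ _ Finset.univ a1
  obtain ⟨c₁, c₂, p1, p2, e⟩ := b1.split (MvPolynomial.X (.inr ()))
  have e1 : c₁ = wcl Λ₁ P M v D * cls k k[X] ^ (∅ : Finset Unit).card :=
    p1.unique (b0.congr fun K _ _ x => by simp [Unique.forall_iff])
  have e2 : c₂ = wcl Λ₂ P M v D := p2.unique (a2.congr fun K _ _ x => by simp)
  rw [e1, e2] at e
  simp only [Finset.card_univ, Fintype.card_unique, pow_one, Finset.card_empty, pow_zero,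
    mul_one] at e
  have e3 := congrArg (algebraMap (K0 k) (Mot k)) e
  rw [map_mul, map_add] at e3
  unfold wc LL
  linear_combination -e3

theorem mem_res {Λ : AddSubgroup (σ → ℤ)} {J : Finset σ} {μ : σ → ℤ} :
    μ ∈ res Λ J ↔ μ ∈ Λ ∧ ∀ i, i ∉ J → μ i = 0 := by
  simp [res, AddSubgroup.mem_pi]

theorem sumD {K : Type} [Field K] [Algebra k K] (c : k) (M v : σ → ℤ) (D : ℕ)
    (x : Option (σ → ℤ) → K) :
    ∑ l ∈ Finset.range (D + 1),
      algebraMap k K ((C c * X ^ D : k[X]).coeff l) * x (some (M + (D - l) • v)) * x none ^ l =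
      algebraMap k K c * x (some M) * x none ^ D := by
  rw [Finset.sum_eq_single D]
  · simp
  · intro l _ hl
    simp [coeff_X_pow, hl]
  · intro hD
    exact absurd (Finset.self_mem_range_succ D) hD

end ProdP

open ProdP

theorem p_Prod (h : S_Wc) (hF : S_Free) : S_Prod := by
  intro σ k _ _ _ Λ P M v D n J₀ J hn hJ hc h0
  have key : ∀ T : Finset σ, (∀ j ∈ T, j ∈ J ∧ j ∉ J₀) →
      wc (res Λ (J₀ ∪ T)) P M v D = (LL k - 1) ^ T.card * wc (res Λ J₀) P M v D := by
    intro T
    induction T using Finset.induction_on with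
    | empty => intro _; simp
    | insert j T hj ih =>
      intro hT
      obtain ⟨j1, j2⟩ := hT j (Finset.mem_insert_self j T)
      obtain ⟨c1, c2⟩ := hc j j1 j2
      rw [step h hF (Λ₁ := res Λ (J₀ ∪ T)) P D hn (j := j) ?_ ?_ ?_ (h0 j j2).1 (h0 j j2).2,
        ih fun i hi => hT i (Finset.mem_insert_of_mem hi), Finset.card_insert_of_notMem hj]
      · ring
      · refine mem_res.2 ⟨c1, fun i hi => Pi.single_eq_of_ne ?_ _⟩
        rintro rfl
        exact hi (by simp)
      · exact fun μ hμ => c2 μ (mem_res.1 hμ).1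
      · intro μ
        simp only [mem_res, Finset.mem_union, Finset.mem_insert, not_or]
        constructor
        · rintro ⟨a1, a2⟩
          exact ⟨⟨a1, fun i hi => a2 i ⟨hi.1, hi.2.2⟩⟩, a2 j ⟨j2, hj⟩⟩
        · rintro ⟨⟨a1, a2⟩, a3⟩
          refine ⟨a1, fun i hi => ?_⟩
          by_cases hij : i = j
          · rw [hij, a3]
          · exact a2 i ⟨hi.1, hij, hi.2⟩
  have := key (J \ J₀) fun j hj => Finset.mem_sdiff.1 hj
  rwa [Finset.union_sdiff_of_subset hJ] at this

theorem p_Scale (h : S_Wc) : S_Scale := by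
  intro σ k _ _ _ _ Λ M v D
  constructor
  · have e : wcl Λ (0 : k[X]) M v D = 0 :=
      (h σ k Λ 0 M v D).unique (hasClass_false.congr fun K _ _ x => by simp [WP])
    rw [wc, e, map_zero]
  · intro c hc hD
    obtain ⟨d, hd⟩ := IsAlgClosed.exists_pow_nat_eq c hD
    have hd0 : d ≠ 0 := by
      rintro rfl
      rw [zero_pow hD.ne'] at hd
      exact hc hd.symm
    have hX : (X ^ D : k[X]) = C 1 * X ^ D := by simp
    have a := (h σ k Λ (C c * X ^ D) M v D).map (Q := WP Λ (X ^ D : k[X]) M 0 D)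
      (fun o => o.elim (MvPolynomial.C d * MvPolynomial.X none) fun μ => MvPolynomial.X (some μ))
      (by
        intro K _ _
        have hK : algebraMap k K d ≠ 0 := (_root_.map_ne_zero _).2 hd0
        have hw1 : ∀ x : Option (σ → ℤ) → K, WP Λ (C c * X ^ D) M v D K x ↔
            IsCh Λ (fun μ => x (some μ)) ∧
              x (some M) * (algebraMap k K d * x none) ^ D = 1 := fun x => by
          rw [WP, sumD, mul_pow, ← map_pow, hd, ← mul_assoc, mul_comm (x (some M))]
        have hw2 : ∀ x : Option (σ → ℤ) → K, WP Λ (X ^ D : k[X]) M 0 D K x ↔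
            IsCh Λ (fun μ => x (some μ)) ∧ x (some M) * x none ^ D = 1 := fun x => by
          rw [hX, WP, sumD, map_one, one_mul]
        refine ⟨?_, ?_, ?_⟩
        · intro x hx
          have := (hw1 x).1 hx
          rw [Set.mem_ofPred_eq, hw2]
          simpa using this
        · intro x _ x' _ e
          funext o
          rcases o with _ | μ
          · have := congrFun e none
            simp only [Option.elim_none, map_mul, MvPolynomial.aeval_C,
              MvPolynomial.aeval_X] at this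
            exact mul_left_cancel₀ hK this
          · have := congrFun e (some μ)
            simpa using this
        · intro y hy
          have := (hw2 y).1 hy
          refine ⟨fun o => o.elim ((algebraMap k K d)⁻¹ * y none) fun μ => y (some μ), ?_, ?_⟩
          · rw [Set.mem_ofPred_eq, hw1]
            simpa [mul_inv_cancel_left₀ hK] using this
          · funext o
            rcases o with _ | μ
            · simp [mul_inv_cancel_left₀ hK]
            · simp)
    rw [wc, wc, a.unique (h σ k Λ (X ^ D) M 0 D)]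

end

end Pool.Agent.P.MP_b91a16_ag.Qo
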