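import Pool.Agent.P.MP_b91a16_ag.Qo.Spec

/-! Quasi-ordinary polynomials: the substitution `y_v ↦ τ Y_v` and derivations of localisations. -/

set_option linter.unusedSectionVars false

namespace Pool.Agent.P.MP_b91a16_ag.Qo

noncomputable section

namespace PsiP

open Finset

variable {σ k : Type} [Fintype σ] [DecidableEq σ] [Field k]

/-- The triple coefficient. -/
def co (F : PowerSeries (P0 σ k)) (p : ℕ) (ν : Option σ →₀ ℕ) (μ : σ →₀ ℕ) : k :=
  MvPowerSeries.coeff μ (MvPolynomial.coeff ν (PowerSeries.coeff p F))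

theorem co_ext {F G : PowerSeries (P0 σ k)} (h : ∀ p ν μ, co F p ν μ = co G p ν μ) : F = G := by
  ext p ν μ
  exact h p ν μ

theorem co_add (F G : PowerSeries (P0 σ k)) p ν μ :
    co (F + G) p ν μ = co F p ν μ + co G p ν μ := by
  simp [co]

theorem co_mul (F G : PowerSeries (P0 σ k)) p ν μ :
    co (F * G) p ν μ = ∑ q ∈ antidiagonal p ×ˢ (antidiagonal ν ×ˢ antidiagonal μ),
      co F q.1.1 q.2.1.1 q.2.2.1 * co G q.1.2 q.2.1.2 q.2.2.2 := by
  simp only [co, PowerSeries.coeff_mul, MvPolynomial.coeff_sum, MvPolynomial.coeff_mul, map_sum,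
    MvPowerSeries.coeff_mul, Finset.sum_product]

theorem co_mono (p₀ : ℕ) (ν₀ : Option σ →₀ ℕ) (μ₀ : σ →₀ ℕ) (c : k) p ν μ :
    co (PowerSeries.monomial p₀ (MvPolynomial.monomial ν₀ (MvPowerSeries.monomial μ₀ c))) p ν μ =
      if p = p₀ ∧ ν = ν₀ ∧ μ = μ₀ then c else 0 := by
  unfold co
  rw [PowerSeries.coeff_monomial]
  by_cases h1 : p = p₀
  · rw [if_pos h1, MvPolynomial.coeff_monomial]
    by_cases h2 : ν₀ = ν
    · rw [if_pos h2, MvPowerSeries.coeff_monomial]
      simp [h1, h2]
    · rw [if_neg h2, if_neg (fun h => h2 h.2.1.symm)]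
      simp
  · rw [if_neg h1, if_neg (fun h => h1 h.1)]
    simp

variable (V : Finset σ)

def Good (p : ℕ) (ν : Option σ →₀ ℕ) (μ : σ →₀ ℕ) : Prop :=
  ν none = 0 ∧ (∀ l, l ∉ V → ν (some l) = 0) ∧ (∀ v ∈ V, μ v = 0) ∧ p = ∑ v ∈ V, ν (some v)

def t1 (x : σ →₀ ℕ) : ℕ := ∑ v ∈ V, x v

def t2 (x : σ →₀ ℕ) : Option σ →₀ ℕ :=
  Finsupp.equivFunOnFinite.symm fun o => o.elim 0 fun v => if v ∈ V then x v else 0

def t3 (x : σ →₀ ℕ) : σ →₀ ℕ :=
  Finsupp.equivFunOnFinite.symm fun l => if l ∈ V then 0 else x l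

@[simp] theorem t2_none (x : σ →₀ ℕ) : t2 V x none = 0 := rfl

@[simp] theorem t2_some (x : σ →₀ ℕ) (v : σ) : t2 V x (some v) = if v ∈ V then x v else 0 := rfl

@[simp] theorem t3_apply (x : σ →₀ ℕ) (l : σ) : t3 V x l = if l ∈ V then 0 else x l := rfl

theorem t1_add (x y : σ →₀ ℕ) : t1 V (x + y) = t1 V x + t1 V y := by
  simp [t1, Finset.sum_add_distrib]

theorem t2_add (x y : σ →₀ ℕ) : t2 V (x + y) = t2 V x + t2 V y := by
  ext o
  cases o with
  | none => simp
  | some v => by_cases h : v ∈ V <;> simp [h]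

theorem t3_add (x y : σ →₀ ℕ) : t3 V (x + y) = t3 V x + t3 V y := by
  ext l
  by_cases h : l ∈ V <;> simp [h]

theorem good_t (x : σ →₀ ℕ) : Good V (t1 V x) (t2 V x) (t3 V x) := by
  refine ⟨rfl, fun l hl => by simp [hl], fun v hv => by simp [hv], ?_⟩
  exact Finset.sum_congr rfl fun v hv => by simp [hv]

theorem rho_t (x : σ →₀ ℕ) : (t2 V x).some + t3 V x = x := by
  ext l
  by_cases h : l ∈ V <;> simp [h]

variable {V}

theorem Good.t1 {p ν μ} (h : Good V p ν μ) : t1 V (ν.some + μ) = p := by
  rw [h.2.2.2]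
  exact Finset.sum_congr rfl fun v hv => by simp [h.2.2.1 v hv]

theorem Good.t2 {p ν μ} (h : Good V p ν μ) : t2 V (ν.some + μ) = ν := by
  ext o
  cases o with
  | none => simp [h.1]
  | some v =>
    by_cases hv : v ∈ V
    · simp [hv, h.2.2.1 v hv]
    · simp [hv, h.2.1 v hv]

theorem Good.t3 {p ν μ} (h : Good V p ν μ) : t3 V (ν.some + μ) = μ := by
  ext l
  by_cases hl : l ∈ V
  · simp [hl, h.2.2.1 l hl]
  · simp [hl, h.2.1 l hl]

theorem Good.add {p ν μ p' ν' μ'} (h : Good V p ν μ) (h' : Good V p' ν' μ') :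
    Good V (p + p') (ν + ν') (μ + μ') := by
  refine ⟨by simp [h.1, h'.1], fun l hl => by simp [h.2.1 l hl, h'.2.1 l hl],
    fun v hv => by simp [h.2.2.1 v hv, h'.2.2.1 v hv], ?_⟩
  rw [h.2.2.2, h'.2.2.2, ← Finset.sum_add_distrib]
  rfl

theorem Good.mem {p ν μ} (h : Good V p ν μ) : ν ∈ finsuppAntidiag univ p := by
  rw [mem_finsuppAntidiag]
  refine ⟨?_, subset_univ _⟩
  rw [Fintype.sum_option, h.1, zero_add, h.2.2.2]
  exact (Finset.sum_subset (subset_univ V) fun l _ hl => h.2.1 l hl).symm

variable (V)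

open Classical in
def cf (a : R0 σ k) (p : ℕ) (ν : Option σ →₀ ℕ) (μ : σ →₀ ℕ) : k :=
  if Good V p ν μ then MvPowerSeries.coeff (ν.some + μ) a else 0

variable {V}

theorem cf_pos (a : R0 σ k) {p ν μ} (h : Good V p ν μ) :
    cf V a p ν μ = MvPowerSeries.coeff (ν.some + μ) a := if_pos h

theorem cf_neg (a : R0 σ k) {p ν μ} (h : ¬Good V p ν μ) : cf V a p ν μ = 0 := if_neg h

variable (V)

def psi (a : R0 σ k) : PowerSeries (P0 σ k) :=
  PowerSeries.mk fun p => ∑ ν ∈ finsuppAntidiag univ p,
    MvPolynomial.monomial ν (show R0 σ k from fun μ => cf V a p ν μ)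

theorem co_psi (a : R0 σ k) p ν μ : co (psi V a) p ν μ = cf V a p ν μ := by
  unfold co psi
  rw [PowerSeries.coeff_mk, MvPolynomial.coeff_sum]
  simp only [MvPolynomial.coeff_monomial]
  rw [Finset.sum_ite_eq']
  by_cases h : ν ∈ finsuppAntidiag univ p
  · rw [if_pos h]
    rfl
  · rw [if_neg h, cf_neg a fun hg => h hg.mem]
    simp

theorem psi_add (a b : R0 σ k) : psi V (a + b) = psi V a + psi V b := by
  refine co_ext fun p ν μ => ?_
  rw [co_add, co_psi, co_psi, co_psi]
  by_cases h : Good V p ν μ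
  · simp [cf_pos _ h]
  · simp [cf_neg _ h]

theorem psi_mono (x : σ →₀ ℕ) (c : k) : psi V (MvPowerSeries.monomial x c) =
    PowerSeries.monomial (t1 V x)
      (MvPolynomial.monomial (t2 V x) (MvPowerSeries.monomial (t3 V x) c)) := by
  refine co_ext fun p ν μ => ?_
  rw [co_psi, co_mono]
  by_cases h : Good V p ν μ
  · rw [cf_pos _ h, MvPowerSeries.coeff_monomial]
    refine if_congr ⟨fun e => ?_, fun e => ?_⟩ rfl rfl
    · rw [← e, h.t1, h.t2, h.t3]
      exact ⟨rfl, rfl, rfl⟩
    · rw [e.2.1, e.2.2, rho_t]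
  · rw [cf_neg _ h, if_neg]
    rintro ⟨rfl, rfl, rfl⟩
    exact h (good_t V x)

theorem psi_mul (a b : R0 σ k) : psi V (a * b) = psi V a * psi V b := by
  classical
  refine co_ext fun p ν μ => ?_
  rw [co_mul, co_psi]
  simp only [co_psi]
  by_cases h : Good V p ν μ
  · rw [cf_pos _ h, MvPowerSeries.coeff_mul]
    symm
    rw [← Finset.sum_filter_of_ne
      (p := fun q => Good V q.1.1 q.2.1.1 q.2.2.1 ∧ Good V q.1.2 q.2.1.2 q.2.2.2)]
    · refine Finset.sum_nbij' (fun q => (q.2.1.1.some + q.2.2.1, q.2.1.2.some + q.2.2.2))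
        (fun x => ((t1 V x.1, t1 V x.2), (t2 V x.1, t2 V x.2), (t3 V x.1, t3 V x.2))) ?_ ?_ ?_ ?_ ?_
      · intro q hq
        simp only [mem_filter, mem_product, HasAntidiagonal.mem_antidiagonal] at hq ⊢
        rw [← hq.1.2.1, ← hq.1.2.2, Finsupp.some_add]
        abel
      · intro x hx
        simp only [mem_filter, mem_product, HasAntidiagonal.mem_antidiagonal] at hx ⊢
        refine ⟨⟨?_, ?_, ?_⟩, good_t V _, good_t V _⟩
        · rw [← t1_add, hx, h.t1]
        · rw [← t2_add, hx, h.t2]
        · rw [← t3_add, hx, h.t3]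
      · intro q hq
        simp only [mem_filter] at hq
        simp only [hq.2.1.t1, hq.2.1.t2, hq.2.1.t3, hq.2.2.t1, hq.2.2.t2, hq.2.2.t3]
      · intro x _
        simp only [rho_t]
      · intro q hq
        simp only [mem_filter] at hq
        rw [cf_pos _ hq.2.1, cf_pos _ hq.2.2]
    · intro q _ hq
      by_contra hn
      rcases not_and_or.1 hn with h1 | h1
      · exact hq (by rw [cf_neg _ h1, zero_mul])
      · exact hq (by rw [cf_neg _ h1, mul_zero])
  · rw [cf_neg _ h]
    refine (Finset.sum_eq_zero fun q hq => ?_).symm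
    simp only [mem_product, HasAntidiagonal.mem_antidiagonal] at hq
    by_cases h1 : Good V q.1.1 q.2.1.1 q.2.2.1
    · by_cases h2 : Good V q.1.2 q.2.1.2 q.2.2.2
      · have := h1.add h2
        rw [hq.1, hq.2.1, hq.2.2] at this
        exact absurd this h
      · rw [cf_neg _ h2, mul_zero]
    · rw [cf_neg _ h1, zero_mul]

theorem t1_zero : t1 V 0 = 0 := by simp [t1]

theorem t2_zero : t2 V 0 = 0 := by
  ext o
  cases o <;> simp

theorem t3_zero : t3 V 0 = 0 := by
  ext l
  simp

theorem psi_C (c : k) : psi V (algebraMap k (R0 σ k) c) = algebraMap k _ c := by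
  have h : algebraMap k (R0 σ k) c = MvPowerSeries.monomial 0 c := by
    rw [MvPowerSeries.algebraMap_apply]
    rfl
  rw [h, psi_mono, t1_zero, t2_zero, t3_zero, ← h, PowerSeries.algebraMap_apply,
    MvPolynomial.algebraMap_apply, PowerSeries.monomial_zero_eq_C_apply]
  rfl

def psiA : R0 σ k →ₐ[k] PowerSeries (P0 σ k) where
  toFun := psi V
  map_one' := by simpa using psi_C V (1 : k)
  map_mul' := psi_mul V
  map_zero' := by simpa using psi_C V (0 : k)
  map_add' := psi_add V
  commutes' := psi_C V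

theorem psiA_apply (a : R0 σ k) : psiA V a = psi V a := rfl

theorem coeff_mul_nat (f : R0 σ k) (n : ℕ) (μ : σ →₀ ℕ) :
    MvPowerSeries.coeff μ (f * ((n : R0 σ k) + 1)) = MvPowerSeries.coeff μ f * ((n : k) + 1) := by
  have : ((n : R0 σ k) + 1) = MvPowerSeries.C ((n : k) + 1) := by simp
  rw [this, MvPowerSeries.coeff_mul_C]

theorem isPsi : IsPsi V (psiA (k := k) V) where
  inV v hv := by
    have h1 : t1 V (Finsupp.single v 1) = 1 := by
      simp [t1, Finsupp.single_apply, hv]
    have h2 : t2 V (Finsupp.single v 1) = Finsupp.single (some v) 1 := by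
      ext o
      cases o with
      | none => simp
      | some l =>
        by_cases hl : v = l
        · subst hl
          simp [hv]
        · simp [hl]
    have h3 : t3 V (Finsupp.single v 1) = 0 := by
      ext l
      by_cases hl : v = l
      · subst hl
        simp [hv]
      · simp [hl]
    rw [psiA_apply, MvPowerSeries.X_def, psi_mono, h1, h2, h3, PowerSeries.monomial_eq_C_mul_X_pow,
      pow_one, mul_comm]
    rfl
  out l hl := by
    have h1 : t1 V (Finsupp.single l 1) = 0 := by
      refine Finset.sum_eq_zero fun v hv => ?_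
      have : l ≠ v := fun e => hl (e ▸ hv)
      simp [this]
    have h2 : t2 V (Finsupp.single l 1) = 0 := by
      ext o
      cases o with
      | none => simp
      | some v =>
        by_cases hv : l = v
        · subst hv
          simp [hl]
        · simp [hv]
    have h3 : t3 V (Finsupp.single l 1) = Finsupp.single l 1 := by
      ext v
      by_cases hv : l = v
      · subst hv
        simp [hl]
      · simp [hv]
    rw [psiA_apply, MvPowerSeries.X_def, psi_mono, h1, h2, h3,
      PowerSeries.monomial_zero_eq_C_apply]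
    rfl
  const a := by
    ext ν μ
    rw [← PowerSeries.coeff_zero_eq_constantCoeff_apply]
    change co (psi V a) 0 ν μ = _
    rw [co_psi, MvPolynomial.coeff_C]
    by_cases hν : 0 = ν
    · subst hν
      rw [if_pos rfl, kill, MvPowerSeries.coeff_rescale]
      by_cases hμ : ∀ v ∈ V, μ v = 0
      · rw [cf_pos a ⟨rfl, fun _ _ => rfl, hμ, by simp⟩, Finsupp.some_zero, zero_add,
          Finsupp.prod, Finset.prod_eq_one, one_mul]
        intro l hl
        rw [if_neg fun h => Finsupp.mem_support_iff.1 hl (hμ l h), one_pow]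
      · rw [cf_neg a fun h => hμ h.2.2.1]
        push Not at hμ
        obtain ⟨v, hv, hv'⟩ := hμ
        rw [Finsupp.prod, Finset.prod_eq_zero (Finsupp.mem_support_iff.2 hv'), zero_mul]
        rw [if_pos hv, zero_pow hv']
    · rw [if_neg hν, cf_neg a, map_zero]
      intro h
      apply hν
      ext o
      cases o with
      | none => exact h.1.symm
      | some v =>
        by_cases hv : v ∈ V
        · exact ((Finset.sum_eq_zero_iff.1 h.2.2.2.symm) v hv).symm
        · exact (h.2.1 v hv).symm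
  dV v hv a p := by
    ext ν μ
    rw [MvPolynomial.coeff_pderiv, coeff_mul_nat]
    change co (psi V a) _ _ μ * _ = co (psi V _) p ν μ
    rw [co_psi, co_psi]
    have hs : ∑ l ∈ V, (ν + Finsupp.single (some v) 1 : Option σ →₀ ℕ) (some l) =
        ∑ l ∈ V, ν (some l) + 1 := by
      simp [Finset.sum_add_distrib, Finsupp.single_apply, hv]
    by_cases h : Good V p ν μ
    · have h' : Good V (p + 1) (ν + Finsupp.single (some v) 1) μ := by
        refine ⟨by simp [h.1], fun l hl => ?_, h.2.2.1, by rw [hs, ← h.2.2.2]⟩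
        have : v ≠ l := fun e => hl (e ▸ hv)
        simp [h.2.1 l hl, this]
      rw [cf_pos _ h, cf_pos _ h', MvPowerSeries.coeff_pderiv, Finsupp.some_add,
        Finsupp.some_single_some, add_right_comm]
      simp [h.2.2.1 v hv]
    · rw [cf_neg _ h, cf_neg, zero_mul]
      intro h'
      refine h ⟨by simpa using h'.1, fun l hl => ?_, h'.2.2.1, ?_⟩
      · have := h'.2.1 l hl
        rw [Finsupp.add_apply] at this
        omega
      · have := h'.2.2.2
        rw [hs] at this
        omega
  dO l hl a p ν := by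
    ext μ
    rw [MvPowerSeries.coeff_pderiv]
    change co (psi V _) p ν μ = co (psi V a) p ν _ * _
    rw [co_psi, co_psi]
    by_cases h : Good V p ν μ
    · have h' : Good V p ν (μ + Finsupp.single l 1) := by
        refine ⟨h.1, h.2.1, fun v hv => ?_, h.2.2.2⟩
        have : l ≠ v := fun e => hl (e ▸ hv)
        simp [h.2.2.1 v hv, this]
      rw [cf_pos _ h, cf_pos _ h', MvPowerSeries.coeff_pderiv, add_assoc]
      simp [h.2.1 l hl]
    · rw [cf_neg _ h, cf_neg, zero_mul]
      intro h'
      refine h ⟨h'.1, h'.2.1, fun v hv => ?_, h'.2.2.2⟩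
      have := h'.2.2.1 v hv
      rw [Finsupp.add_apply] at this
      omega
  dz a p := by
    ext ν μ
    rw [MvPolynomial.coeff_pderiv, coeff_mul_nat]
    change co (psi V a) _ _ μ * _ = _
    rw [co_psi, cf_neg, zero_mul]
    · simp
    · intro h
      have := h.1
      simp at this

section Der

variable {k B : Type} [Field k] [CommRing B] [Algebra k B] (x : B) (d : Derivation k B B)

/-- The ring map `a ↦ (a, d a)` to the dual numbers over the localisation. -/
def jet : B →+* TrivSqZeroExt (Localization.Away x) (Localization.Away x) where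
  toFun a := (algebraMap B _ a, algebraMap B _ (d a))
  map_one' := by
    rw [map_one, d.map_one_eq_zero, map_zero]
    rfl
  map_mul' a b := by
    ext
    · rw [TrivSqZeroExt.fst_mul]
      simp [TrivSqZeroExt.fst]
    · rw [TrivSqZeroExt.snd_mul]
      simp [TrivSqZeroExt.fst, TrivSqZeroExt.snd, mul_comm]
  map_zero' := by
    rw [map_zero d, map_zero]
    rfl
  map_add' a b := by
    ext
    · rw [TrivSqZeroExt.fst_add]
      simp [TrivSqZeroExt.fst]
    · rw [TrivSqZeroExt.snd_add]
      simp [TrivSqZeroExt.snd]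

theorem fst_jet (a : B) : (jet x d a).fst = algebraMap B _ a := rfl

theorem snd_jet (a : B) : (jet x d a).snd = algebraMap B _ (d a) := rfl

theorem jet_unit : IsUnit (jet x d x) := by
  rw [TrivSqZeroExt.isUnit_iff_isUnit_fst, fst_jet]
  exact IsLocalization.Away.algebraMap_isUnit x

def jetL : Localization.Away x →+* TrivSqZeroExt (Localization.Away x) (Localization.Away x) :=
  IsLocalization.Away.lift x (jet_unit x d)

theorem jetL_alg (a : B) : jetL x d (algebraMap B _ a) = jet x d a :=
  IsLocalization.Away.lift_eq x (jet_unit x d) a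

theorem fst_jetL (s : Localization.Away x) : (jetL x d s).fst = s := by
  have h : ((TrivSqZeroExt.fstHom B (Localization.Away x) (Localization.Away x) :
      _ →+* Localization.Away x).comp (jetL x d)) = RingHom.id _ := by
    refine IsLocalization.ringHom_ext (Submonoid.powers x) ?_
    ext a
    simp [jetL_alg, fst_jet]
  exact DFunLike.congr_fun h s

theorem snd_mul (s t : Localization.Away x) :
    (jetL x d (s * t)).snd = s * (jetL x d t).snd + t * (jetL x d s).snd := by
  rw [map_mul, TrivSqZeroExt.snd_mul, fst_jetL, fst_jetL]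
  simp [mul_comm]

def der : Derivation k (Localization.Away x) (Localization.Away x) :=
  Derivation.mk'
    { toFun := fun s => (jetL x d s).snd
      map_add' := fun s t => by rw [map_add, TrivSqZeroExt.snd_add]
      map_smul' := fun c s => by
        rw [Algebra.smul_def, snd_mul, RingHom.id_apply, Algebra.smul_def,
          IsScalarTower.algebraMap_apply k B (Localization.Away x) c, jetL_alg, snd_jet]
        simp }
    fun s t => snd_mul x d s t

theorem der_alg (a : B) : der x d (algebraMap B _ a) = algebraMap B _ (d a) := by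
  change (jetL x d _).snd = _
  rw [jetL_alg, snd_jet]

end Der

end PsiP

theorem p_Psi : S_Psi := fun _ _ _ _ _ V => ⟨PsiP.psiA V, PsiP.isPsi V⟩

theorem p_Der : S_Der := fun _ _ _ _ _ x d => ⟨PsiP.der x d, PsiP.der_alg x d⟩

end

end Pool.Agent.P.MP_b91a16_ag.Qo
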