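import Pool.Agent.P.MP_b91a16_ag.Qo.Spec

/-! Quasi-ordinary polynomials: the edge and vertex regions are cones over allowed rays. -/

set_option linter.unusedSectionVars false

namespace Pool.Agent.P.MP_b91a16_ag.Qo

namespace RegAP

variable {σ : Type} [Fintype σ] [DecidableEq σ]

theorem dot_add (κ κ' μ : σ → ℕ) : dot (κ + κ') μ = dot κ μ + dot κ' μ := by
  simp only [dot, Pi.add_apply, add_mul, Finset.sum_add_distrib]

theorem dot_single (j : σ) (n : ℕ) (μ : σ → ℕ) : dot (Pi.single j n) μ = n * μ j := by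
  unfold dot
  rw [Finset.sum_eq_single j]
  · simp
  · intro b _ hb
    simp [hb]
  · intro h
    exact absurd (Finset.mem_univ j) h

theorem dot_step (κ : σ → ℕ) (j : σ) (n : ℕ) (μ : σ → ℕ) :
    dot (κ + Pi.single j n) μ = dot κ μ + n * μ j := by
  rw [dot_add, dot_single]

theorem le_dot (κ μ : σ → ℕ) (j : σ) : κ j * μ j ≤ dot κ μ :=
  Finset.single_le_sum (f := fun j => κ j * μ j) (fun _ _ => Nat.zero_le _) (Finset.mem_univ j)

theorem le_dot' (κ μ : σ → ℕ) (j : σ) (h : μ j ≠ 0) : κ j ≤ dot κ μ :=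
  (Nat.le_mul_of_pos_right _ (Nat.pos_of_ne_zero h)).trans (le_dot κ μ j)

theorem dot_le (κ μ : σ → ℕ) (b : ℕ) (h : ∀ j, κ j ≤ b) : dot κ μ ≤ b * ∑ j, μ j := by
  rw [Finset.mul_sum]
  exact Finset.sum_le_sum fun j _ => Nat.mul_le_mul_right _ (h j)

theorem dot_le_sum (κ μ : σ → ℕ) : dot κ μ ≤ (∑ j, κ j) * ∑ j, μ j :=
  dot_le κ μ _ fun j =>
    Finset.single_le_sum (f := κ) (fun _ _ => Nat.zero_le _) (Finset.mem_univ j)

theorem sum_le (κ : σ → ℕ) (b : ℕ) (h : ∀ j, κ j ≤ b) : ∑ j, κ j ≤ b * Fintype.card σ := by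
  have := Finset.sum_le_card_nsmul Finset.univ κ b fun j _ => h j
  simpa [mul_comm] using this

theorem dot_congr {κ κ' μ : σ → ℕ} (h : ∀ j, μ j ≠ 0 → κ j = κ' j) : dot κ μ = dot κ' μ := by
  refine Finset.sum_congr rfl fun j _ => ?_
  by_cases hj : μ j = 0
  · simp [hj]
  · rw [h j hj]

theorem dot_gap {lo hi : σ → ℕ} (h : lo ≤ hi) (κ : σ → ℕ) (j : σ) :
    dot κ lo + κ j * (hi j - lo j) ≤ dot κ hi := by
  have e : dot κ hi = dot κ lo + dot κ (hi - lo) := by
    simp only [dot, ← Finset.sum_add_distrib, ← mul_add, Pi.sub_apply]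
    exact Finset.sum_congr rfl fun i _ => by rw [Nat.add_sub_cancel' (h i)]
  have := le_dot κ (hi - lo) j
  rw [Pi.sub_apply] at this
  omega

/-- The ray in direction `j` along the face `μ`. -/
def ray (n : ℕ) (μ M : σ → ℕ) (D : ℕ) (j : σ) : Pt σ := (Pi.single j n, μ j, M j + D * μ j)

theorem wt_ray (n : ℕ) (μ M : σ → ℕ) (D : ℕ) (j : σ) : wt (ray n μ M D j) = n + μ j := by
  simp [wt, ray, Finset.sum_pi_single']

theorem split (κ : σ → ℕ) (j : σ) (n : ℕ) (h1 : ∀ i, 1 ≤ κ i) (h : n < κ j) :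
    ∃ κ' : σ → ℕ, (∀ i, 1 ≤ κ' i) ∧ κ = κ' + Pi.single j n := by
  refine ⟨fun i => if i = j then κ j - n else κ i, fun i => ?_, ?_⟩
  · by_cases hi : i = j
    · simp only [hi, if_true]
      omega
    · simpa only [hi, if_false] using h1 i
  · funext i
    by_cases hi : i = j
    · subst hi
      simp only [Pi.add_apply, if_true, Pi.single_eq_same]
      omega
    · simp [hi]

theorem one_le_step {κ : σ → ℕ} (h : ∀ i, 1 ≤ κ i) (j : σ) (n : ℕ) (i : σ) :
    1 ≤ (κ + Pi.single j n : σ → ℕ) i :=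
  (h i).trans (Nat.le_add_right _ _)

theorem bound {n : ℕ} (hn : n ≠ 0) {κ M : σ → ℕ} {ρ m D : ℕ}
    (h : n * m ≤ dot κ M + D * (n * ρ)) : m ≤ (∑ j, M j + D) * wt (κ, ρ, m) := by
  have h1 := dot_le_sum κ M
  have h2 : (∑ j, κ j) * ∑ j, M j ≤ n * ((∑ j, κ j) * ∑ j, M j) :=
    Nat.le_mul_of_pos_left _ (Nat.pos_of_ne_zero hn)
  have h3 : n * m ≤ n * ((∑ j, κ j) * ∑ j, M j + D * ρ) := by
    rw [mul_add, mul_left_comm n D ρ]
    omega
  have h4 := Nat.le_of_mul_le_mul_left h3 (Nat.pos_of_ne_zero hn)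
  simp only [wt]
  nlinarith [Nat.zero_le (D * ∑ j, κ j), Nat.zero_le ((∑ j, M j) * ρ)]

/-- Subtracting a ray from a point. -/
theorem sub_ray {n : ℕ} (hn : n ≠ 0) {κ μ M : σ → ℕ} {ρ m D : ℕ} {j : σ} (h1 : ∀ i, 1 ≤ κ i)
    (hj : n < κ j) (hρ : n * μ j ≤ n * ρ) (hm : n * (M j + D * μ j) ≤ n * m) :
    ∃ (κ' : σ → ℕ) (ρ' m' : ℕ), (∀ i, 1 ≤ κ' i) ∧ κ = κ' + Pi.single j n ∧ ρ = ρ' + μ j ∧
      m = m' + (M j + D * μ j) := by
  obtain ⟨κ', h, e⟩ := split κ j n h1 hj
  have a := Nat.le_of_mul_le_mul_left hρ (Nat.pos_of_ne_zero hn)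
  have b := Nat.le_of_mul_le_mul_left hm (Nat.pos_of_ne_zero hn)
  exact ⟨κ', ρ - μ j, m - (M j + D * μ j), h, e, by omega, by omega⟩

theorem m_ge {n : ℕ} {κ μ M : σ → ℕ} {m D x : ℕ} {j : σ} (hj : n < κ j) (hx : n * μ j ≤ x)
    (hm : n * m = dot κ M + D * x) : n * (M j + D * μ j) ≤ n * m := by
  have a : n * M j ≤ dot κ M := (Nat.mul_le_mul_right _ hj.le).trans (le_dot κ M j)
  have b : D * (n * μ j) ≤ D * x := Nat.mul_le_mul_left _ hx
  rw [mul_add, mul_left_comm n D]
  omega

theorem trOk_of {n : ℕ} {S : Set (Pt σ)} {I : Finset σ}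
    (h1 : ∀ κ ρ m, (κ, ρ, m) ∈ S → (∀ j, 1 ≤ κ j) ∧ ρ ≤ m ∧ ∀ j, j ∉ I → κ j ≤ n * m)
    (h2 : ∀ κ κ' ρ m, (κ, ρ, m) ∈ S → (∀ j, j ∉ I → κ j = κ' j) →
      (∀ j, κ j = κ' j ∨ n * m < κ' j) → (κ', ρ, m) ∈ S) : TrOk n S I := by
  intro κ ρ m
  refine ⟨h1 κ ρ m, fun h => h2 _ _ _ _ h (fun j hj => ?_) fun j => ?_,
    fun h => h2 _ _ _ _ h (fun j hj => ?_) fun j => ?_⟩
  · have := (h1 _ _ _ h).2.2 j hj
    omega
  · omega
  · have := (h1 _ _ _ h).2.2 j hj
    omega
  · omega

theorem one_le_of {κ κ' : σ → ℕ} {b : ℕ} (h : ∀ j, 1 ≤ κ j) (h' : ∀ j, κ j = κ' j ∨ b < κ' j)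
    (j : σ) : 1 ≤ κ' j := by
  have := h j
  have := h' j
  omega

end RegAP

open RegAP

theorem p_RegE (h : S_Cone) : S_RegE := by
  classical
  intro σ _ _ Al n A lo c hi st M D hn hA hc hlo hhi hD
  have hn' := Nat.pos_of_ne_zero hn
  refine h σ _ (Finset.univ.image (ray n lo M D) ∪
    if c then Finset.univ.image (ray n hi M D) else {(0, 1, D)}) Al
    (2 * n * Fintype.card σ + (2 * ∑ j, hi j + 2 * ∑ j, lo j + 1)) (∑ j, M j + D) ?_ ?_ ?_ ?_
  · intro v hv
    rcases Finset.mem_union.1 hv with hv | hv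
    · obtain ⟨j, -, rfl⟩ := Finset.mem_image.1 hv
      rw [wt_ray]
      exact ⟨by omega, hlo j⟩
    · by_cases hc' : c
      · rw [if_pos hc'] at hv
        obtain ⟨j, -, rfl⟩ := Finset.mem_image.1 hv
        rw [wt_ray]
        exact ⟨by omega, hhi hc' j⟩
      · rw [if_neg hc', Finset.mem_singleton] at hv
        subst hv
        have e : wt ((0, 1, D) : Pt σ) = 1 := by simp [wt]
        rw [e]
        exact ⟨one_pos, hD hc'⟩
  · rintro ⟨κ, ρ, m⟩ ⟨h1, h2, h3, h4, h5⟩ v hv
    simp only at h1 h2 h3 h4 h5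
    rcases Finset.mem_union.1 hv with hv | hv
    · obtain ⟨j, -, rfl⟩ := Finset.mem_image.1 hv
      refine ⟨one_le_step h1 j n, (hA κ j).2 h2, ?_, fun hc' => ?_, ?_⟩
      · simp only [ray, Prod.mk_add_mk, dot_step, mul_add]
        omega
      · simp only [ray, Prod.mk_add_mk, dot_step, mul_add]
        have a : n * lo j ≤ n * hi j := Nat.mul_le_mul_left _ (hc hc' j)
        rcases h4 hc' with h4 | ⟨hs, h4⟩
        · left
          omega
        · rcases a.lt_or_eq with a | a
          · left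
            omega
          · exact Or.inr ⟨hs, by omega⟩
      · simp only [ray, Prod.mk_add_mk, dot_step, mul_add, h5]
        ring
    · by_cases hc' : c
      · rw [if_pos hc'] at hv
        obtain ⟨j, -, rfl⟩ := Finset.mem_image.1 hv
        have a : n * lo j ≤ n * hi j := Nat.mul_le_mul_left _ (hc hc' j)
        refine ⟨one_le_step h1 j n, (hA κ j).2 h2, ?_, fun _ => ?_, ?_⟩
        · simp only [ray, Prod.mk_add_mk, dot_step, mul_add]
          omega
        · simp only [ray, Prod.mk_add_mk, dot_step, mul_add]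
          rcases h4 hc' with h4 | ⟨hs, h4⟩
          · left
            omega
          · exact Or.inr ⟨hs, by omega⟩
        · simp only [ray, Prod.mk_add_mk, dot_step, mul_add, h5]
          ring
      · rw [if_neg hc', Finset.mem_singleton] at hv
        subst hv
        refine ⟨?_, ?_, ?_, fun hc'' => absurd hc'' hc', ?_⟩
        · simpa only [Prod.mk_add_mk, add_zero] using h1
        · simpa only [Prod.mk_add_mk, add_zero] using h2
        · simp only [Prod.mk_add_mk, add_zero, mul_add]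
          omega
        · simp only [Prod.mk_add_mk, add_zero, mul_add, h5]
          ring
  · rintro ⟨κ, ρ, m⟩ ⟨h1, h2, h3, h4, h5⟩ hB
    simp only at h1 h2 h3 h4 h5
    by_cases hκ : ∃ j, 2 * n < κ j
    · obtain ⟨j, hj⟩ := hκ
      have hj' : n < κ j := by omega
      have hl : n * lo j ≤ dot κ lo := (Nat.mul_le_mul_right _ hj'.le).trans (le_dot κ lo j)
      by_cases hb : c → lo j = hi j ∨ n * ρ + n * (hi j - lo j) < dot κ hi
      · obtain ⟨κ', ρ', m', g1, rfl, rfl, rfl⟩ := sub_ray (M := M) (D := D) (m := m) hn h1 hj'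
          (hl.trans h3.le) (m_ge hj' (hl.trans h3.le) h5)
        refine ⟨ray n lo M D j, Finset.mem_union_left _ (Finset.mem_image_of_mem _
          (Finset.mem_univ j)), (κ', ρ', m'), ⟨g1, (hA κ' j).1 h2, ?_, fun hc' => ?_, ?_⟩, rfl⟩
        · simp only [dot_step, mul_add] at h3
          simp only
          omega
        · simp only [dot_step, mul_add] at h4 hb
          simp only
          rcases hb hc' with hb | hb
          · rw [hb] at h4
            rcases h4 hc' with h4 | ⟨hs, h4⟩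
            · left
              omega
            · exact Or.inr ⟨hs, by omega⟩
          · left
            have e : n * hi j = n * lo j + n * (hi j - lo j) := by
              rw [← mul_add, Nat.add_sub_cancel' (hc hc' j)]
            omega
        · simp only [dot_step, mul_add] at h5
          simp only
          rw [mul_left_comm n D] at h5
          omega
      · push Not at hb
        obtain ⟨hc', hne, hb⟩ := hb
        have hδ : 0 < hi j - lo j := by
          have : lo j ≤ hi j := hc hc' j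
          omega
        have g := dot_gap (hc hc') κ j
        have g' : (2 * n + 1) * (hi j - lo j) ≤ κ j * (hi j - lo j) := Nat.mul_le_mul_right _ hj
        have e : n * hi j = n * lo j + n * (hi j - lo j) := by
          rw [← mul_add, Nat.add_sub_cancel' (hc hc' j)]
        have e' : (2 * n + 1) * (hi j - lo j) = 2 * (n * (hi j - lo j)) + (hi j - lo j) := by ring
        have hh : n * hi j ≤ n * ρ := by omega
        obtain ⟨κ', ρ', m', g1, rfl, rfl, rfl⟩ := sub_ray (M := M) (D := D) (m := m) hn h1 hj'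
          hh (m_ge hj' hh h5)
        refine ⟨ray n hi M D j, Finset.mem_union_right _ ?_, (κ', ρ', m'),
          ⟨g1, (hA κ' j).1 h2, ?_, fun _ => ?_, ?_⟩, rfl⟩
        · rw [if_pos hc']
          exact Finset.mem_image_of_mem _ (Finset.mem_univ j)
        · simp only [dot_step, mul_add] at g hb
          simp only
          omega
        · simp only [dot_step, mul_add] at h4
          simp only
          rcases h4 hc' with h4 | ⟨hs, h4⟩
          · left
            omega
          · exact Or.inr ⟨hs, by omega⟩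
        · simp only [dot_step, mul_add] at h5
          simp only
          rw [mul_left_comm n D] at h5
          omega
    · push Not at hκ
      have s1 := sum_le κ _ hκ
      simp only [wt] at hB
      have hρ : 2 * ∑ j, hi j + 2 * ∑ j, lo j + 1 < ρ := by omega
      by_cases hc' : c
      · exfalso
        have a := dot_le κ hi _ hκ
        have b : n * ρ ≤ n * (2 * ∑ j, hi j) := by
          have e : n * (2 * ∑ j, hi j) = 2 * n * ∑ j, hi j := by ring
          rcases h4 hc' with h4 | ⟨-, h4⟩ <;> omega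
        have := Nat.le_of_mul_le_mul_left b hn'
        omega
      · obtain ⟨ρ', rfl⟩ : ∃ ρ', ρ = ρ' + 1 := ⟨ρ - 1, by omega⟩
        have hm : D ≤ m := by
          refine Nat.le_of_mul_le_mul_left ?_ hn'
          rw [h5]
          nlinarith [Nat.zero_le (dot κ M), Nat.zero_le (D * (n * ρ'))]
        obtain ⟨m', rfl⟩ : ∃ m', m = m' + D := ⟨m - D, by omega⟩
        refine ⟨(0, 1, D), Finset.mem_union_right _ ?_, (κ, ρ', m'),
          ⟨h1, h2, ?_, fun hc'' => absurd hc'' hc', ?_⟩, by simp⟩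
        · rw [if_neg hc']
          exact Finset.mem_singleton_self _
        · have a := dot_le κ lo _ hκ
          have b : n * (2 * ∑ j, lo j + 1) ≤ n * ρ' := Nat.mul_le_mul_left _ (by omega)
          have e : n * (2 * ∑ j, lo j + 1) = 2 * n * ∑ j, lo j + n := by ring
          simp only
          omega
        · simp only [mul_add, mul_one] at h5
          simp only
          rw [mul_comm n D] at h5
          omega
  · rintro ⟨κ, ρ, m⟩ ⟨-, -, -, -, h5⟩
    exact bound hn h5.le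

theorem p_RegV (h : S_Cone) : S_RegV := by
  classical
  intro σ _ _ Al n A hi M D hn hA hhi
  have hn' := Nat.pos_of_ne_zero hn
  have hV : ∀ v ∈ Finset.univ.image (ray n hi M D), 0 < wt v ∧ Ok Al (wt v) v.2.2 := by
    intro v hv
    obtain ⟨j, -, rfl⟩ := Finset.mem_image.1 hv
    rw [wt_ray]
    exact ⟨by omega, hhi j⟩
  have big : ∀ (κ : σ → ℕ) (ρ m : ℕ), n * ρ < dot κ hi + n →
      n * Fintype.card σ + ∑ j, hi j < wt (κ, ρ, m) → ∃ j, n < κ j := by
    intro κ ρ m h3 hB
    by_contra hκ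
    push Not at hκ
    have s1 := sum_le κ _ hκ
    have a := dot_le κ hi _ hκ
    simp only [wt] at hB
    have b : n * (∑ j, hi j + 1) ≤ n * ρ := Nat.mul_le_mul_left _ (by omega)
    rw [mul_add, mul_one] at b
    omega
  refine ⟨h σ _ _ Al (n * Fintype.card σ + ∑ j, hi j) (∑ j, M j + D) hV ?_ ?_ ?_,
    h σ _ _ Al (n * Fintype.card σ + ∑ j, hi j) (∑ j, M j + D) hV ?_ ?_ ?_⟩
  · rintro ⟨κ, ρ, m⟩ ⟨h1, h2, h3, h5⟩ v hv
    simp only at h1 h2 h3 h5
    obtain ⟨j, -, rfl⟩ := Finset.mem_image.1 hv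
    refine ⟨one_le_step h1 j n, (hA κ j).2 h2, ?_, ?_⟩
    · simp only [ray, Prod.mk_add_mk, dot_step, mul_add]
      omega
    · simp only [ray, Prod.mk_add_mk, dot_step, mul_add, h5]
      ring
  · rintro ⟨κ, ρ, m⟩ ⟨h1, h2, h3, h5⟩ hB
    simp only at h1 h2 h3 h5
    obtain ⟨j, hj⟩ := big κ ρ m (by omega) hB
    have hh : n * hi j ≤ n * ρ :=
      ((Nat.mul_le_mul_right _ hj.le).trans (le_dot κ hi j)).trans h3.ge
    obtain ⟨κ', ρ', m', g1, rfl, rfl, rfl⟩ := sub_ray (M := M) (D := D) (m := m) hn h1 hj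
      hh (m_ge hj hh h5)
    refine ⟨ray n hi M D j, Finset.mem_image_of_mem _ (Finset.mem_univ j), (κ', ρ', m'),
      ⟨g1, (hA κ' j).1 h2, ?_, ?_⟩, rfl⟩
    · simp only [dot_step, mul_add] at h3
      simp only
      omega
    · simp only [dot_step, mul_add] at h5
      simp only
      rw [mul_left_comm n D] at h5
      omega
  · rintro ⟨κ, ρ, m⟩ ⟨-, -, -, h5⟩
    exact bound hn h5.le
  · rintro ⟨κ, ρ, m⟩ ⟨h1, h2, h3, h4, h5⟩ v hv
    simp only at h1 h2 h3 h4 h5
    obtain ⟨j, -, rfl⟩ := Finset.mem_image.1 hv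
    refine ⟨one_le_step h1 j n, (hA κ j).2 h2, ?_, ?_, ?_⟩
    · simp only [ray, Prod.mk_add_mk, dot_step, mul_add]
      omega
    · simp only [ray, Prod.mk_add_mk, dot_step, mul_add]
      omega
    · simp only [ray, Prod.mk_add_mk, dot_step, mul_add, h5]
      ring
  · rintro ⟨κ, ρ, m⟩ ⟨h1, h2, h3, h4, h5⟩ hB
    simp only at h1 h2 h3 h4 h5
    obtain ⟨j, hj⟩ := big κ ρ m h4 hB
    have hh : n * hi j ≤ dot κ hi := (Nat.mul_le_mul_right _ hj.le).trans (le_dot κ hi j)
    obtain ⟨κ', ρ', m', g1, rfl, rfl, rfl⟩ := sub_ray (M := M) (D := D) (m := m) hn h1 hj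
      (hh.trans h3.le) (m_ge hj hh h5)
    refine ⟨ray n hi M D j, Finset.mem_image_of_mem _ (Finset.mem_univ j), (κ', ρ', m'),
      ⟨g1, (hA κ' j).1 h2, ?_, ?_, ?_⟩, rfl⟩
    · simp only [dot_step, mul_add] at h3
      simp only
      omega
    · simp only [dot_step, mul_add] at h4
      simp only
      omega
    · simp only [dot_step, mul_add] at h5
      simp only
      rw [mul_left_comm n D] at h5
      omega
  · rintro ⟨κ, ρ, m⟩ ⟨-, -, h3, -, h5⟩
    simp only at h3 h5
    have : D * dot κ hi ≤ D * (n * ρ) := Nat.mul_le_mul_left _ h3.le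
    exact bound (κ := κ) (ρ := ρ) (m := m) hn (by omega)

theorem p_TrOk : S_TrOk := by
  intro σ _ _ n A lo c hi M D I hn hD hA
  have hn' := Nat.pos_of_ne_zero hn
  have hD' : ∀ x, x ≤ D * x := fun x => Nat.le_mul_of_pos_left _ hD
  refine ⟨fun hI hlo => trOk_of ?_ ?_, fun hI => ⟨trOk_of ?_ ?_, trOk_of ?_ ?_⟩⟩
  · rintro κ ρ m ⟨h1, -, -, -, h5⟩
    simp only at h1 h5
    have := hD' (n * ρ)
    refine ⟨h1, Nat.le_of_mul_le_mul_left (by omega) hn', fun j hj => ?_⟩
    have := le_dot' κ M j fun e => hj ((hI j).2 e)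
    omega
  · rintro κ κ' ρ m ⟨h1, h2, h3, h4, h5⟩ e1 e2
    simp only at h1 h2 h3 h4 h5
    have a : dot κ M = dot κ' M := dot_congr fun j hj => e1 j fun hj' => hj ((hI j).1 hj')
    have b : dot κ lo = dot κ' lo :=
      dot_congr fun j hj => e1 j fun hj' => hj (hlo j ((hI j).1 hj'))
    refine ⟨one_le_of h1 e2, hA κ κ' e1 h2, by simpa only [← b] using h3, fun hc => Or.inl ?_,
      by simpa only [← a] using h5⟩
    simp only
    have h4' : n * ρ < dot κ hi := (h4 hc).resolve_right fun x => x.1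
    by_cases hx : ∀ j, hi j ≠ 0 → κ j = κ' j
    · rwa [← dot_congr hx]
    · push Not at hx
      obtain ⟨j, hj, hne⟩ := hx
      have := (e2 j).resolve_left hne
      have := le_dot' κ' hi j hj
      have := hD' (n * ρ)
      omega
  · rintro κ ρ m ⟨h1, -, h3, h5⟩
    simp only at h1 h3 h5
    have := hD' (n * ρ)
    refine ⟨h1, Nat.le_of_mul_le_mul_left (by omega) hn', fun j hj => ?_⟩
    by_cases hM : M j = 0
    · have := le_dot' κ hi j fun e => hj ((hI j).2 ⟨hM, e⟩)
      omega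
    · have := le_dot' κ M j hM
      omega
  · rintro κ κ' ρ m ⟨h1, h2, h3, h5⟩ e1 e2
    simp only at h1 h2 h3 h5
    have a : dot κ M = dot κ' M := dot_congr fun j hj => e1 j fun hj' => hj ((hI j).1 hj').1
    have b : dot κ hi = dot κ' hi := dot_congr fun j hj => e1 j fun hj' => hj ((hI j).1 hj').2
    exact ⟨one_le_of h1 e2, hA κ κ' e1 h2, by simpa only [← b] using h3,
      by simpa only [← a] using h5⟩
  · rintro κ ρ m ⟨h1, -, -, h4, h5⟩
    simp only at h1 h4 h5
    have := hD' (dot κ hi)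
    refine ⟨h1, ?_, fun j hj => ?_⟩
    · have e : n * ρ < n * (m + 1) := by
        rw [mul_add, mul_one]
        omega
      have := Nat.lt_of_mul_lt_mul_left e
      omega
    · by_cases hM : M j = 0
      · have := le_dot' κ hi j fun e => hj ((hI j).2 ⟨hM, e⟩)
        omega
      · have := le_dot' κ M j hM
        omega
  · rintro κ κ' ρ m ⟨h1, h2, h3, h4, h5⟩ e1 e2
    simp only at h1 h2 h3 h4 h5
    have a : dot κ M = dot κ' M := dot_congr fun j hj => e1 j fun hj' => hj ((hI j).1 hj').1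
    have b : dot κ hi = dot κ' hi := dot_congr fun j hj => e1 j fun hj' => hj ((hI j).1 hj').2
    exact ⟨one_le_of h1 e2, hA κ κ' e1 h2, by simpa only [← b] using h3,
      by simpa only [← b] using h4, by simpa only [← a, ← b] using h5⟩

end Pool.Agent.P.MP_b91a16_ag.Qo
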