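import Pool.Agent.P.MP_b91a16_ag.Qo.Spec

/-! Quasi-ordinary polynomials: three identities between series of lattice regions. -/

set_option linter.unusedSectionVars false

namespace Pool.Agent.P.MP_b91a16_ag.Qo

noncomputable section

namespace RegBP

variable {σ : Type} [Fintype σ] [DecidableEq σ]

/-- The scalar product without the coordinate `i`. -/
def rd (i : σ) (κ μ : σ → ℕ) : ℕ := ∑ j ∈ Finset.univ.erase i, κ j * μ j

theorem dot_split (i : σ) (κ μ : σ → ℕ) : dot κ μ = rd i κ μ + κ i * μ i := by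
  rw [dot, rd, Finset.sum_erase_add _ _ (Finset.mem_univ i)]

theorem rd_congr {i : σ} {κ κ' : σ → ℕ} (h : ∀ j, j ≠ i → κ j = κ' j) (μ : σ → ℕ) :
    rd i κ μ = rd i κ' μ :=
  Finset.sum_congr rfl fun j hj => by rw [h j (Finset.ne_of_mem_erase hj)]

theorem rd_upd (i : σ) (κ μ : σ → ℕ) (t : ℕ) : rd i (Function.update κ i t) μ = rd i κ μ :=
  rd_congr (fun _ hj => Function.update_of_ne hj _ _) μ

theorem dot_upd (i : σ) (κ μ : σ → ℕ) (t : ℕ) :
    dot (Function.update κ i t) μ = rd i κ μ + t * μ i := by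
  rw [dot_split i, rd_upd, Function.update_self]

theorem dot_upd0 (i : σ) (κ μ : σ → ℕ) : dot κ (Function.update μ i 0) = rd i κ μ := by
  rw [dot_split i, Function.update_self, mul_zero, add_zero]
  exact Finset.sum_congr rfl fun j hj => by
    rw [Function.update_of_ne (Finset.ne_of_mem_erase hj)]

theorem rd_mono (i : σ) (κ : σ → ℕ) {μ ν : σ → ℕ} (h : μ ≤ ν) : rd i κ μ ≤ rd i κ ν :=
  Finset.sum_le_sum fun j _ => Nat.mul_le_mul_left _ (h j)

theorem dot_lin (κ M μ : σ → ℕ) (c : ℕ) : dot κ (M + c • μ) = dot κ M + c * dot κ μ := by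
  simp only [dot, Pi.add_apply, Pi.smul_apply, smul_eq_mul, Finset.mul_sum,
    ← Finset.sum_add_distrib]
  exact Finset.sum_congr rfl fun j _ => by ring

theorem sum_upd (i : σ) (κ : σ → ℕ) (t : ℕ) :
    ∑ j, Function.update κ i t j + κ i = ∑ j, κ j + t := by
  rw [← Finset.sum_erase_add _ _ (Finset.mem_univ i),
    ← Finset.sum_erase_add _ κ (Finset.mem_univ i), Function.update_self,
    Finset.sum_congr rfl fun j hj => Function.update_of_ne (Finset.ne_of_mem_erase hj) t κ]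
  ring

theorem one_le_upd {i : σ} {κ : σ → ℕ} (h : ∀ j, 1 ≤ κ j) {t : ℕ} (ht : 1 ≤ t) (j : σ) :
    1 ≤ Function.update κ i t j := by
  by_cases hj : j = i
  · rw [hj, Function.update_self]; exact ht
  · rw [Function.update_of_ne hj]; exact h j

theorem A_upd {A : (σ → ℕ) → Prop} {i : σ} (hA : Indep A {i}) {κ : σ → ℕ} (h : A κ) (t : ℕ) :
    A (Function.update κ i t) :=
  hA κ _ (fun _ hj => (Function.update_of_ne (by simpa using hj) _ _).symm) h

theorem add_single (i : σ) (κ : σ → ℕ) : κ + Pi.single i 1 = Function.update κ i (κ i + 1) := by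
  funext j
  by_cases hj : j = i
  · rw [hj, Function.update_self, Pi.add_apply, Pi.single_eq_same]
  · rw [Function.update_of_ne hj, Pi.add_apply, Pi.single_eq_of_ne hj, add_zero]

theorem l_dvd {n p l R : ℕ} (hn : n ≠ 0) (hp : p * l = n) (h : n ∣ p * R) : l ∣ R := by
  subst hp
  exact Nat.dvd_of_mul_dvd_mul_left (Nat.pos_of_ne_zero (left_ne_zero_of_mul hn)) h

theorem GF_union (h : S_GF) {S S' : Set (Pt σ)} (d : ∀ p, p ∈ S → p ∉ S') :
    GF (S ∪ S') = GF S + GF S' :=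
  (h σ S S').1 (Set.disjoint_left.2 d)

theorem GF_shift (h : S_GF) (S : Set (Pt σ)) {v : Pt σ} (h1 : wt v = 1) (h2 : v.2.2 = 0) :
    GF ((· + v) '' S) = PowerSeries.C PowerSeries.X * GF S := by
  rw [(h σ S S).2.2 v, h1, h2, pow_one, pow_zero, mul_one]

/-- The part of the edge region that is cut off. -/
def regB (n : ℕ) (A : (σ → ℕ) → Prop) (i : σ) (hi M : σ → ℕ) (D : ℕ) : Set (Pt σ) :=
  {p | (∀ j, 1 ≤ p.1 j) ∧ A p.1 ∧ rd i p.1 hi < n * p.2.1 ∧ n * p.2.1 < dot p.1 hi ∧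
    n * p.2.2 = dot p.1 M + D * (n * p.2.1)}

theorem regB_eq {n p : ℕ} {A : (σ → ℕ) → Prop} {i : σ} {hi M : σ → ℕ} (D : ℕ) (hn : n ≠ 0)
    (hp : p * hi i = n) (hM : M i = 0) (hA : Indep A {i})
    (hd : ∀ κ, A κ → n ∣ p * dot κ (Function.update hi i 0)) :
    regB n A i hi M D =
      (· + ((Pi.single i 1, 0, 0) : Pt σ)) '' (regV n A hi M D ∪ regB n A i hi M D) := by
  have hl : 0 < hi i := Nat.pos_of_ne_zero (right_ne_zero_of_mul (hp ▸ hn))
  ext ⟨κ, ρ, m⟩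
  constructor
  · rintro ⟨h1, h2, h3, h4, h5⟩
    dsimp only at h1 h2 h3 h4 h5
    obtain ⟨r, hr⟩ := l_dvd hn hp (dot_upd0 i κ hi ▸ hd κ h2)
    rw [dot_split i] at h4 h5
    have e : n * ρ = hi i * (p * ρ) := by rw [← hp]; ring
    have a1 : r < p * ρ := Nat.lt_of_mul_lt_mul_left (a := hi i) (by rw [← hr, ← e]; exact h3)
    have a2 : p * ρ < r + κ i := Nat.lt_of_mul_lt_mul_left (a := hi i)
      (by rw [← e, mul_add, ← hr, mul_comm (hi i)]; exact h4)
    obtain ⟨w, hw⟩ : ∃ w, κ i = w + 1 := ⟨κ i - 1, by omega⟩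
    have a3 : n * ρ ≤ rd i κ hi + w * hi i := by
      rw [e, hr, mul_comm w, ← mul_add]
      exact Nat.mul_le_mul_left _ (by omega)
    have b1 := one_le_upd (i := i) h1 (show 1 ≤ w by omega)
    have b2 := A_upd hA h2 w
    have b5 : n * m = dot (Function.update κ i w) M + D * (n * ρ) := by
      rw [dot_upd, h5, hM, mul_zero, mul_zero]
    refine ⟨(Function.update κ i w, ρ, m), ?_, ?_⟩
    · rcases a3.eq_or_lt with a | a
      · exact Or.inl ⟨b1, b2, by rw [dot_upd]; exact a, b5⟩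
      · exact Or.inr ⟨b1, b2, by rw [rd_upd]; exact h3, by rw [dot_upd]; exact a, b5⟩
    · simp only [Prod.mk_add_mk, add_zero, add_single, Function.update_self, Function.update_idem,
        ← hw, Function.update_eq_self]
  · rintro ⟨⟨κ', ρ', m'⟩, hq, e⟩
    simp only [Prod.mk_add_mk, add_zero, add_single, Prod.mk.injEq] at e
    obtain ⟨rfl, rfl, rfl⟩ := e
    have key : (∀ j, 1 ≤ κ' j) ∧ A κ' ∧ rd i κ' hi < n * ρ' ∧ n * ρ' ≤ dot κ' hi ∧
        n * m' = dot κ' M + D * (n * ρ') := by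
      rcases hq with ⟨h1, h2, h3, h4⟩ | ⟨h1, h2, h3, h4, h5⟩
      · dsimp only at h1 h2 h3 h4
        refine ⟨h1, h2, ?_, h3.le, h4⟩
        rw [h3, dot_split i]
        have := Nat.mul_pos (h1 i) hl
        omega
      · exact ⟨h1, h2, h3, h4.le, h5⟩
    obtain ⟨h1, h2, h3, h4, h5⟩ := key
    rw [dot_split i] at h4 h5
    refine ⟨one_le_upd h1 (by omega), A_upd hA h2 _, by rw [rd_upd]; exact h3, ?_, ?_⟩
    · show n * ρ' < dot (Function.update κ' i (κ' i + 1)) hi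
      rw [dot_upd, add_mul]
      omega
    · show n * m' = dot (Function.update κ' i (κ' i + 1)) M + D * (n * ρ')
      rw [dot_upd, h5, hM, mul_zero, mul_zero]

theorem dead_eq {n : ℕ} (A : (σ → ℕ) → Prop) (hi M : σ → ℕ) (D : ℕ) (hn : n ≠ 0) :
    regE n A hi False 0 False (M + D • hi) 0 = regW n A hi M D ∪
      (· + ((0, 1, 0) : Pt σ)) '' (regV n A hi M D ∪ regE n A hi False 0 False (M + D • hi) 0) := by
  have hn0 := Nat.pos_of_ne_zero hn
  ext ⟨κ, ρ, m⟩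
  constructor
  · rintro ⟨h1, h2, h3, -, h5⟩
    dsimp only at h1 h2 h3 h5
    rw [dot_lin, zero_mul, add_zero] at h5
    by_cases hc : n * ρ < dot κ hi + n
    · exact Or.inl ⟨h1, h2, h3, hc, h5⟩
    · obtain ⟨w, rfl⟩ : ∃ w, ρ = w + 1 := ⟨ρ - 1, by
        rcases ρ with _ | ρ
        · simp at h3
        · rfl⟩
      rw [mul_add, mul_one] at hc
      refine Or.inr ⟨(κ, w, m), ?_, by simp⟩
      rcases (show dot κ hi ≤ n * w by omega).eq_or_lt with a | a
      · exact Or.inl ⟨h1, h2, a.symm, by rw [← a]; exact h5⟩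
      · exact Or.inr ⟨h1, h2, a, False.elim, by rw [dot_lin, zero_mul, add_zero]; exact h5⟩
  · rintro (⟨h1, h2, h3, -, h5⟩ | ⟨⟨κ', ρ', m'⟩, hq, e⟩)
    · exact ⟨h1, h2, h3, False.elim, by rw [dot_lin, zero_mul, add_zero]; exact h5⟩
    · simp only [Prod.mk_add_mk, add_zero, Prod.mk.injEq] at e
      obtain ⟨rfl, rfl, rfl⟩ := e
      rcases hq with ⟨h1, h2, h3, h4⟩ | ⟨h1, h2, h3, -, h5⟩
      · dsimp only at h1 h2 h3 h4
        refine ⟨h1, h2, ?_, False.elim, ?_⟩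
        · show dot κ' hi < n * (ρ' + 1)
          rw [mul_add]; omega
        · show n * m' = dot κ' (M + D • hi) + 0 * _
          rw [dot_lin, zero_mul, add_zero, ← h3]; exact h4
      · dsimp only at h1 h2 h3 h5
        refine ⟨h1, h2, ?_, False.elim, ?_⟩
        · show dot κ' hi < n * (ρ' + 1)
          rw [mul_add]; omega
        · show n * m' = dot κ' (M + D • hi) + 0 * _
          rw [zero_mul] at h5 ⊢; exact h5

theorem dot_lt {i : σ} {κ μ ν : σ → ℕ} (h : 1 ≤ κ i) (h1 : μ ≤ ν) (h2 : μ i < ν i) :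
    dot κ μ < dot κ ν := by
  rw [dot_split i, dot_split i κ ν]
  have := rd_mono i κ h1
  have := Nat.mul_lt_mul_of_pos_left h2 h
  omega

theorem dot_le (κ : σ → ℕ) {μ ν : σ → ℕ} (h1 : μ ≤ ν) : dot κ μ ≤ dot κ ν :=
  Finset.sum_le_sum fun j _ => Nat.mul_le_mul_left _ (h1 j)

section Mrg

variable {n : ℕ} {A A₁ : (σ → ℕ) → Prop} {i : σ} {p : ℕ} {hi : σ → ℕ} {c₀ : Prop} {h₀ : σ → ℕ}
  {s₀ c₁ : Prop} {h₁ : σ → ℕ} {s₁ : Prop} {M : σ → ℕ} {m₀ e : ℕ}

theorem pdot (hp : p * hi i = n) (κ : σ → ℕ) (t : ℕ) :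
    n * t + p * rd i κ hi = p * (rd i κ hi + t * hi i) := by
  rw [← hp]; ring

theorem part0 (hp : p * hi i = n) (H0 : c₀ → hi ≤ h₀ ∧ hi i < h₀ i)
    (H1 : c₁ → hi ≤ h₁ ∧ hi i < h₁ i) : regV n A hi M (m₀ + p * e) =
      regC n A i p hi c₀ h₀ s₀ c₁ h₁ s₁ M m₀ e ∩ {q | n * q.2.1 = dot q.1 hi} := by
  ext ⟨κ, ρ, m⟩
  have key : n * ρ = dot κ hi → (m₀ + p * e) * (n * ρ) =
      m₀ * (n * ρ) + e * (n * κ i + p * dot κ (Function.update hi i 0)) := by
    intro h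
    rw [dot_upd0, pdot hp, ← dot_split, ← h]; ring
  constructor
  · rintro ⟨h1, h2, h3, h4⟩
    dsimp only at h1 h2 h3 h4
    refine ⟨⟨h1, h2, κ i, h1 i, ?_, fun c => Or.inl ?_, fun c => Or.inl ?_, ?_⟩, h3⟩
    · rw [Function.update_eq_self]; exact h3
    · rw [h3]; exact dot_lt (h1 i) (H0 c).1 (H0 c).2
    · have := dot_lt (h1 i) (H1 c).1 (H1 c).2
      rw [Function.update_eq_self, mul_add]
      dsimp only
      omega
    · rw [h4, key h3, add_assoc]
  · rintro ⟨⟨h1, h2, t, -, -, -, -, h4⟩, h3⟩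
    exact ⟨h1, h2, h3, by rw [key h3, ← add_assoc]; exact h4⟩

theorem part1 (hn : n ≠ 0) (hp : p * hi i = n)
    (hd : ∀ κ, A κ → n ∣ p * dot κ (Function.update hi i 0))
    (H1 : c₁ → hi ≤ h₁ ∧ hi i < h₁ i) : regE n A hi c₀ h₀ s₀ (M + (p * e) • hi) m₀ =
      regC n A i p hi c₀ h₀ s₀ c₁ h₁ s₁ M m₀ e ∩ {q | dot q.1 hi < n * q.2.1} := by
  ext ⟨κ, ρ, m⟩
  have key : dot κ (M + (p * e) • hi) + m₀ * (n * ρ) = dot κ M + m₀ * (n * ρ) +
      e * (n * κ i + p * dot κ (Function.update hi i 0)) := by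
    rw [dot_upd0, pdot hp, ← dot_split, dot_lin]; ring
  constructor
  · rintro ⟨h1, h2, h3, h4, h5⟩
    dsimp only at h1 h2 h3 h4 h5
    obtain ⟨r, hr⟩ := l_dvd hn hp (dot_upd0 i κ hi ▸ hd κ h2)
    have e1 : n * ρ = hi i * (p * ρ) := by rw [← hp]; ring
    have a1 : r + κ i < p * ρ := Nat.lt_of_mul_lt_mul_left (a := hi i)
      (by rw [← e1, mul_add, ← hr, mul_comm (hi i), ← dot_split]; exact h3)
    obtain ⟨t, ht⟩ : ∃ t, p * ρ = r + t := ⟨p * ρ - r, by omega⟩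
    have a2 : n * ρ = dot (Function.update κ i t) hi := by
      rw [dot_upd, e1, ht, hr]; ring
    refine ⟨⟨h1, h2, t, by omega, a2, h4, fun c => Or.inl ?_, by rw [← key]; exact h5⟩, h3⟩
    have b1 := dot_le (Function.update κ i t) (H1 c).1
    have b2 : n * κ i < n * t :=
      Nat.mul_lt_mul_of_pos_left (by omega) (Nat.pos_of_ne_zero hn)
    rw [mul_add]
    dsimp only
    omega
  · rintro ⟨⟨h1, h2, t, -, -, h4, -, h5⟩, h3⟩
    exact ⟨h1, h2, h3, h4, by rw [key]; exact h5⟩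

/-- The change of coordinates on the second edge. -/
def ph (n : ℕ) (i : σ) (hi : σ → ℕ) (q : Pt σ) : Pt σ :=
  (Function.update q.1 i (q.1 i + q.2.1 - dot q.1 hi / n), dot q.1 hi / n, q.2.2)

theorem m_eq (hp : p * hi i = n) (hp0 : 0 < p) {R t ρ d : ℕ} (h : n * ρ = R + t * hi i) :
    (m₀ + p * e - e) * (n * ρ) + e * (n * (ρ + d)) =
      m₀ * (n * ρ) + e * (n * (t + d) + p * R) := by
  obtain ⟨p', rfl⟩ : ∃ p', p = p' + 1 := ⟨p - 1, by omega⟩
  have e1 : m₀ + (p' + 1) * e - e = m₀ + p' * e := by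
    rw [add_mul, one_mul, ← add_assoc, Nat.add_sub_cancel]
  have e2 : n * t + (p' + 1) * R = (p' + 1) * (n * ρ) := by
    rw [h, ← hp]; ring
  rw [e1, mul_add n t, add_right_comm (n * t), e2]
  ring

theorem part2 (hn : n ≠ 0) (hp : p * hi i = n) (hl : 0 < hi i) (hM : M i = 0) (hA : Indep A {i})
    (hA1 : ∀ κ, A₁ κ ↔ A κ ∧ n ∣ dot κ hi) (H0 : c₀ → hi ≤ h₀ ∧ hi i < h₀ i) :
    Set.BijOn (ph n i hi) (regE n A₁ hi c₁ h₁ s₁ (M + (m₀ + p * e - e) • hi) e)
      (regC n A i p hi c₀ h₀ s₀ c₁ h₁ s₁ M m₀ e ∩ {q | n * q.2.1 < dot q.1 hi}) ∧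
    ∀ q ∈ regE n A₁ hi c₁ h₁ s₁ (M + (m₀ + p * e - e) • hi) e,
      wt (ph n i hi q) = wt q ∧ (ph n i hi q).2.2 = q.2.2 := by
  have hn0 := Nat.pos_of_ne_zero hn
  have hp0 : 0 < p := Nat.pos_of_ne_zero (left_ne_zero_of_mul (hp ▸ hn))
  have nf : ∀ κ ρ₁ m, (κ, ρ₁, m) ∈ regE n A₁ hi c₁ h₁ s₁ (M + (m₀ + p * e - e) • hi) e →
      ∃ ρ d, 1 ≤ d ∧ ρ₁ = ρ + d ∧ dot κ hi = n * ρ ∧
        ph n i hi (κ, ρ₁, m) = (Function.update κ i (κ i + d), ρ, m) := by
    rintro κ ρ₁ m ⟨-, h2, h3, -, -⟩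
    dsimp only at h2 h3
    obtain ⟨ρ, hρ⟩ := ((hA1 κ).1 h2).2
    have a : ρ < ρ₁ := Nat.lt_of_mul_lt_mul_left (a := n) (hρ ▸ h3)
    refine ⟨ρ, ρ₁ - ρ, by omega, by omega, hρ, ?_⟩
    simp only [ph, hρ, Nat.mul_div_cancel_left ρ hn0]
    rw [show κ i + ρ₁ - ρ = κ i + (ρ₁ - ρ) by omega]
  refine ⟨⟨?_, ?_, ?_⟩, ?_⟩
  · rintro ⟨κ, ρ₁, m⟩ hq
    obtain ⟨ρ, d, hd, rfl, hρ, e1⟩ := nf _ _ _ hq
    obtain ⟨h1, h2, -, h4, h5⟩ := hq
    dsimp only at h1 h2 h4 h5
    have a0 := dot_split i κ hi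
    have a1 : n * ρ < dot (Function.update κ i (κ i + d)) hi := by
      have := Nat.mul_pos hd hl
      rw [dot_upd, add_mul]
      omega
    rw [e1]
    refine ⟨⟨one_le_upd h1 (by omega), A_upd hA ((hA1 κ).1 h2).1 _, κ i, h1 i, ?_,
      fun c => Or.inl (a1.trans_le (dot_le _ (H0 c).1)), fun c => ?_, ?_⟩, a1⟩
    · rw [Function.update_idem, Function.update_eq_self]; exact hρ.symm
    · have e2 : n * (ρ + (κ i + d)) = n * κ i + n * (ρ + d) := by ring
      dsimp only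
      rw [Function.update_idem, Function.update_eq_self, Function.update_self, e2]
      rcases h4 c with h | ⟨s, h⟩
      · exact Or.inl (by omega)
      · exact Or.inr ⟨s, by omega⟩
    · dsimp only
      rw [h5, dot_lin, hρ, dot_upd0, rd_upd, Function.update_self, dot_upd, dot_split i κ M, hM,
        mul_zero, mul_zero, add_assoc (rd i κ M + 0), add_assoc (rd i κ M + 0),
        m_eq hp hp0 (hρ.symm.trans a0)]
  · rintro ⟨κ, ρ₁, m⟩ hq ⟨κ', ρ₁', m'⟩ hq' e0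
    obtain ⟨ρ, d, -, rfl, hρ, e1⟩ := nf _ _ _ hq
    obtain ⟨ρ', d', -, rfl, hρ', e1'⟩ := nf _ _ _ hq'
    rw [e1, e1'] at e0
    simp only [Prod.mk.injEq] at e0
    obtain ⟨e2, rfl, rfl⟩ := e0
    have a1 : ∀ j, j ≠ i → κ j = κ' j := fun j hj => by
      have := congrFun e2 j
      rwa [Function.update_of_ne hj, Function.update_of_ne hj] at this
    have a2 := congrFun e2 i
    rw [Function.update_self, Function.update_self] at a2
    rw [dot_split i] at hρ hρ'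
    rw [rd_congr a1] at hρ
    have a3 : κ i = κ' i := Nat.eq_of_mul_eq_mul_right hl (by omega)
    have a4 : κ = κ' := funext fun j => by
      by_cases hj : j = i
      · rw [hj]; exact a3
      · exact a1 j hj
    rw [a4, show d = d' by omega]
  · rintro ⟨κ, ρ, m⟩ ⟨⟨h1, h2, t, ht, h3, -, h4, h5⟩, h6⟩
    dsimp only at h1 h2 h3 h4 h5
    change n * ρ < dot κ hi at h6
    have a0 := dot_upd i κ hi t
    have a1 : t < κ i := Nat.lt_of_mul_lt_mul_right (a := hi i)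
      (by rw [dot_split i] at h6; omega)
    obtain ⟨d, hd⟩ : ∃ d, κ i = t + d := ⟨κ i - t, by omega⟩
    have mem : (Function.update κ i t, ρ + d, m) ∈
        regE n A₁ hi c₁ h₁ s₁ (M + (m₀ + p * e - e) • hi) e := by
      refine ⟨one_le_upd h1 ht, (hA1 _).2 ⟨A_upd hA h2 t, ρ, h3.symm⟩, ?_, fun c => ?_, ?_⟩
      · have := Nat.mul_pos hn0 (show 0 < d by omega)
        dsimp only
        rw [mul_add]
        omega
      · have e2 : n * (ρ + κ i) = n * t + n * (ρ + d) := by rw [hd]; ring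
        dsimp only
        rw [e2] at h4
        rcases h4 c with h | ⟨s, h⟩
        · exact Or.inl (by omega)
        · exact Or.inr ⟨s, by omega⟩
      · dsimp only
        rw [h5, dot_lin, ← h3, dot_upd0, dot_upd, dot_split i κ M, hM, mul_zero, mul_zero,
          add_assoc (rd i κ M + 0), add_assoc (rd i κ M + 0), m_eq hp hp0 (h3.trans a0), hd]
    refine ⟨_, mem, ?_⟩
    simp only [ph, ← h3, Nat.mul_div_cancel_left ρ hn0, Function.update_self, Function.update_idem]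
    rw [show t + (ρ + d) - ρ = κ i by omega, Function.update_eq_self]
  · rintro ⟨κ, ρ₁, m⟩ hq
    obtain ⟨ρ, d, -, rfl, -, e1⟩ := nf _ _ _ hq
    rw [e1]
    refine ⟨?_, rfl⟩
    have := sum_upd i κ (κ i + d)
    simp only [wt]
    omega

end Mrg

end RegBP

open RegBP

theorem p_Hat (h : S_GF) : S_Hat := by
  intro σ _ _ n A lo c hi M D p i hn hc hp hlo hlo0 hM hA hd
  have hl : 0 < hi i := Nat.pos_of_ne_zero (right_ne_zero_of_mul (hp ▸ hn))
  have e1 : regE n A lo c hi False M D =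
      regE n A lo c (Function.update hi i 0) True M D ∪ regB n A i hi M D := by
    ext ⟨κ, ρ, m⟩
    constructor
    · rintro ⟨h1, h2, h3, h4, h5⟩
      dsimp only at h1 h2 h3 h4 h5
      have h4' : n * ρ < dot κ hi := (h4 hc).resolve_right fun x => x.1
      by_cases hr : rd i κ hi < n * ρ
      · exact Or.inr ⟨h1, h2, hr, h4', h5⟩
      · refine Or.inl ⟨h1, h2, h3, fun _ => ?_, h5⟩
        rw [dot_upd0]
        exact (not_lt.1 hr).lt_or_eq.imp id fun x => ⟨trivial, x⟩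
    · rintro (⟨h1, h2, h3, h4, h5⟩ | ⟨h1, h2, h3, h4, h5⟩)
      · dsimp only at h1 h2 h3 h4 h5
        refine ⟨h1, h2, h3, fun _ => Or.inl ?_, h5⟩
        have a1 := Nat.mul_pos (h1 i) hl
        have a2 := dot_split i κ hi
        rw [dot_upd0] at h4
        dsimp only
        rcases h4 hc with a | ⟨-, a⟩ <;> omega
      · refine ⟨h1, h2, ?_, fun _ => Or.inl h4, h5⟩
        dsimp only at h3 ⊢
        rw [dot_split i, hlo0, mul_zero, add_zero]
        exact (rd_mono i κ hlo).trans_lt h3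
  have e2 : GF (regB n A i hi M D) =
      PowerSeries.C PowerSeries.X * (GF (regV n A hi M D) + GF (regB n A i hi M D)) := by
    conv_lhs => rw [regB_eq D hn hp hM hA hd]
    rw [GF_shift h _ (by simp [wt]) rfl, GF_union h]
    rintro q ⟨-, -, a, -⟩ ⟨-, -, -, b, -⟩
    omega
  rw [e1, GF_union h]
  · rw [map_sub, map_one]
    linear_combination e2
  · rintro q ⟨-, -, -, a, -⟩ ⟨-, -, b, -⟩
    rw [dot_upd0] at a
    rcases a hc with a | ⟨-, a⟩ <;> omega

theorem p_Dead (h : S_GF) : S_Dead := by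
  intro σ _ _ n A hi M D hn
  have e : GF (regE n A hi False 0 False (M + D • hi) 0) = GF (regW n A hi M D) +
      PowerSeries.C PowerSeries.X *
        (GF (regV n A hi M D) + GF (regE n A hi False 0 False (M + D • hi) 0)) := by
    conv_lhs => rw [dead_eq A hi M D hn]
    rw [GF_union h, GF_shift h _ (by simp [wt]) rfl, GF_union h]
    · rintro q ⟨-, -, a, -⟩ ⟨-, -, b, -⟩
      omega
    · rintro q ⟨-, -, -, a, -⟩ ⟨⟨κ, ρ, m⟩, hq, rfl⟩
      simp only [Prod.mk_add_mk, add_zero, mul_add, mul_one] at a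
      rcases hq with ⟨-, -, b, -⟩ | ⟨-, -, b, -⟩ <;> dsimp only at b <;> omega
  rw [map_sub, map_one]
  linear_combination -e

theorem p_Mrg (h : S_GF) : S_Mrg := by
  intro σ _ _ n A A₁ i p hi c₀ h₀ s₀ c₁ h₁ s₁ M m₀ e hn hp hM hA hd hA1 H0 H1
  have hl : 0 < hi i := Nat.pos_of_ne_zero (right_ne_zero_of_mul (hp ▸ hn))
  obtain ⟨b1, b2⟩ := part2 (c₀ := c₀) (h₀ := h₀) (s₀ := s₀) (c₁ := c₁) (h₁ := h₁) (s₁ := s₁)
    (m₀ := m₀) (e := e) hn hp hl hM hA hA1 H0
  rw [(h σ _ _).2.1 _ b1 b2, part0 (s₀ := s₀) (s₁ := s₁) hp H0 H1,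
    part1 (s₁ := s₁) hn hp hd H1, ← GF_union h, ← GF_union h]
  · congr 1
    ext q
    simp only [Set.mem_union, Set.mem_inter_iff, Set.mem_ofPred_eq]
    constructor
    · rintro ((a | a) | a) <;> exact a.1
    · intro a
      rcases lt_trichotomy (n * q.2.1) (dot q.1 hi) with b | b | b
      · exact Or.inr ⟨a, b⟩
      · exact Or.inl (Or.inl ⟨a, b⟩)
      · exact Or.inl (Or.inr ⟨a, b⟩)
  · rintro q (⟨-, a⟩ | ⟨-, a⟩) ⟨-, b⟩ <;> simp only [Set.mem_ofPred_eq] at a b <;> omega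
  · rintro q ⟨-, a⟩ ⟨-, b⟩
    simp only [Set.mem_ofPred_eq] at a b
    omega

end

end Pool.Agent.P.MP_b91a16_ag.Qo
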