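import Pool.Agent.P.MP_b91a16_ag.Qo.Spec

/-! Quasi-ordinary polynomials: the merged region is a cone with allowed rays. -/

set_option linter.unusedSectionVars false

namespace Pool.Agent.P.MP_b91a16_ag.Qo

noncomputable section

namespace RegCP

/-- The arithmetic of the descent: both `ω` and `t` are bounded. -/
theorem core (c₀ c₁ : Prop) (n p l a b H G : ℕ) (hn : p * l = n) (hn0 : n ≠ 0)
    (ha : c₀ → l < a) (hb : c₁ → n < b) : ∃ T : ℕ, ∀ ω t X₀ X₁ : ℕ,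
    (c₀ → t * l ≤ X₀ + ω * a) → (c₁ → n * ω ≤ X₁ + t * b) →
    (c₀ → ω ≤ n ∨ t ≤ p * a ∨ (c₁ ∧ X₁ + t * b + n * n ≤ p * a * b + n * ω)) →
    (c₁ → ω ≤ b ∨ t ≤ n ∨ (c₀ ∧ X₀ + ω * a + n * l ≤ b * a + t * l)) →
    (¬c₀ → t ≤ p ∨ (c₁ ∧ t * b ≤ p * b + n * ω)) →
    (¬c₁ → ω ≤ 1 ∨ (c₀ ∧ ω * a ≤ a + t * l)) →
    (c₀ → X₀ ≤ G ∨ t ≤ p * H ∨ (c₁ ∧ t * b ≤ p * H * b + n * ω)) →
    (c₁ → X₁ ≤ G ∨ ω ≤ H ∨ (c₀ ∧ ω * a ≤ H * a + t * l)) → ω ≤ T ∧ t ≤ T := by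
  have hp : 0 < p := Nat.pos_of_ne_zero fun h => hn0 (by rw [← hn, h, zero_mul])
  have hl : 0 < l := Nat.pos_of_ne_zero fun h => hn0 (by rw [← hn, h, mul_zero])
  have hn1 : 0 < n := Nat.pos_of_ne_zero hn0
  obtain ⟨T, hT⟩ : ∃ T, T = n + b + p * a + p + 1 := ⟨_, rfl⟩
  refine ⟨T + (1 + H + G + T * b) + (p + p * H + G + T * a), ?_⟩
  intro ω t X₀ X₁ hA hB U₁ U₂ R₀ R₁ N₁ N₂
  have d₀ : ∀ x, c₀ → ω * a ≤ x * a + t * l → ω ≤ x + t := fun x h h' => by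
    have h1 := ha h
    have h2 : t * l ≤ t * a := Nat.mul_le_mul_left _ h1.le
    have h3 : ω * a ≤ (x + t) * a := by rw [add_mul]; omega
    exact Nat.le_of_mul_le_mul_right h3 (by omega)
  have d₁ : ∀ x, c₁ → t * b ≤ x * b + n * ω → t ≤ x + ω := fun x h h' => by
    have h1 := hb h
    have h2 : n * ω ≤ b * ω := Nat.mul_le_mul_right _ h1.le
    have h3 : t * b ≤ (x + ω) * b := by rw [add_mul, mul_comm ω b]; omega
    exact Nat.le_of_mul_le_mul_right h3 (by omega)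
  have step1 : ω ≤ T ∨ t ≤ T := by
    by_cases h₀ : c₀
    · by_cases h₁ : c₁
      · rcases U₁ h₀ with h | h | ⟨-, h⟩
        · left; omega
        · right; omega
        rcases U₂ h₁ with h' | h' | ⟨-, h'⟩
        · left; omega
        · right; omega
        left
        have h1 := ha h₀
        have h2 := hb h₁
        obtain ⟨Δ, hΔ⟩ : ∃ Δ, a * b = n * l + Δ + 1 := by
          have : n * l < a * b := by
            rw [mul_comm a b]
            exact Nat.mul_lt_mul'' h2 h1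
          exact ⟨a * b - n * l - 1, by omega⟩
        have e1 := Nat.mul_le_mul_left l h
        have e2 := Nat.mul_le_mul_left b h'
        have h3 : ω * (Δ + 1) ≤ (n + b) * (Δ + 1) := by
          have f1 : l * (p * a * b) = n * (n * l + Δ + 1) := by rw [← hΔ, ← hn]; ring
          have f2 : b * (ω * a) = ω * (n * l + Δ + 1) := by rw [← hΔ]; ring
          have f3 : b * (b * a) = b * (n * l + Δ + 1) := by rw [← hΔ]; ring
          simp only [mul_add] at e1 e2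
          rw [f1] at e1
          rw [f2, f3] at e2
          nlinarith [Nat.zero_le (l * X₁), Nat.zero_le (b * X₀)]
        have := Nat.le_of_mul_le_mul_right h3 (by omega)
        omega
      · rcases U₁ h₀ with h | h | ⟨h, -⟩
        · left; omega
        · right; omega
        · exact absurd h h₁
    · by_cases h₁ : c₁
      · rcases U₂ h₁ with h | h | ⟨h, -⟩
        · left; omega
        · right; omega
        · exact absurd h h₀
      · rcases R₀ h₀ with h | ⟨h, -⟩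
        · right; omega
        · exact absurd h h₁
  rcases step1 with hω | ht
  · refine ⟨by omega, ?_⟩
    by_cases h₀ : c₀
    · rcases N₁ h₀ with h | h | ⟨h₁, h⟩
      · have h1 := hA h₀
        have h2 : ω * a ≤ T * a := Nat.mul_le_mul_right _ hω
        have h3 : t ≤ t * l := Nat.le_mul_of_pos_right _ hl
        omega
      · omega
      · have := d₁ _ h₁ h
        omega
    · rcases R₀ h₀ with h | ⟨h₁, h⟩
      · omega
      · have := d₁ _ h₁ h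
        omega
  · refine ⟨?_, by omega⟩
    by_cases h₁ : c₁
    · rcases N₂ h₁ with h | h | ⟨h₀, h⟩
      · have h1 := hB h₁
        have h2 : t * b ≤ T * b := Nat.mul_le_mul_right _ ht
        have h3 : ω ≤ n * ω := Nat.le_mul_of_pos_left _ hn1
        omega
      · omega
      · have := d₀ _ h₀ h
        omega
    · rcases R₁ h₁ with h | ⟨h₀, h⟩
      · omega
      · have := d₀ 1 h₀ (by omega)
        omega

variable {σ : Type} [Fintype σ] [DecidableEq σ]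

/-- The scalar product away from the coordinate `i`. -/
def dd (i : σ) (κ μ : σ → ℕ) : ℕ := ∑ j ∈ Finset.univ.erase i, κ j * μ j

theorem dot_eq (i : σ) (κ μ : σ → ℕ) : dot κ μ = dd i κ μ + κ i * μ i := by
  unfold dot dd
  rw [Finset.sum_erase_add _ _ (Finset.mem_univ i)]

theorem dd_congr (i : σ) {κ κ' μ μ' : σ → ℕ} (h : ∀ j, j ≠ i → κ j = κ' j)
    (h' : ∀ j, j ≠ i → μ j = μ' j) : dd i κ μ = dd i κ' μ' :=
  Finset.sum_congr rfl fun j hj => by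
    rw [h j (Finset.ne_of_mem_erase hj), h' j (Finset.ne_of_mem_erase hj)]

theorem dot_upd (i : σ) (κ μ : σ → ℕ) (t : ℕ) :
    dot (Function.update κ i t) μ = dd i κ μ + t * μ i := by
  rw [dot_eq i, Function.update_self,
    dd_congr i (κ' := κ) (μ' := μ) (fun j hj => Function.update_of_ne hj _ _) fun _ _ => rfl]

theorem dot_upd' (i : σ) (κ μ : σ → ℕ) : dot κ (Function.update μ i 0) = dd i κ μ := by
  rw [dot_eq i, Function.update_self,
    dd_congr i (κ' := κ) (μ' := μ) (fun _ _ => rfl) fun j hj => Function.update_of_ne hj _ _]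
  simp

theorem dd_add (i : σ) (κ κ' μ : σ → ℕ) : dd i (κ + κ') μ = dd i κ μ + dd i κ' μ := by
  unfold dd
  rw [← Finset.sum_add_distrib]
  exact Finset.sum_congr rfl fun j _ => by rw [Pi.add_apply, add_mul]

theorem dd_add' (i : σ) (κ μ μ' : σ → ℕ) : dd i κ (μ + μ') = dd i κ μ + dd i κ μ' := by
  unfold dd
  rw [← Finset.sum_add_distrib]
  exact Finset.sum_congr rfl fun j _ => by rw [Pi.add_apply, mul_add]

theorem dd_self (i : σ) (x : ℕ) (μ : σ → ℕ) : dd i (Pi.single i x) μ = 0 :=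
  Finset.sum_eq_zero fun j hj => by
    rw [Pi.single_eq_of_ne (Finset.ne_of_mem_erase hj), zero_mul]

theorem dd_single {i j : σ} (h : j ≠ i) (x : ℕ) (μ : σ → ℕ) :
    dd i (Pi.single j x) μ = x * μ j := by
  unfold dd
  rw [Finset.sum_eq_single j]
  · rw [Pi.single_eq_same]
  · intro b _ hb
    rw [Pi.single_eq_of_ne hb, zero_mul]
  · intro hj
    exact absurd (Finset.mem_erase.2 ⟨h, Finset.mem_univ _⟩) hj

theorem le_dd {i j : σ} (h : j ≠ i) (κ μ : σ → ℕ) : κ j * μ j ≤ dd i κ μ :=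
  Finset.single_le_sum (f := fun j => κ j * μ j) (fun _ _ => Nat.zero_le _)
    (Finset.mem_erase.2 ⟨h, Finset.mem_univ _⟩)

theorem dd_le (i : σ) {κ : σ → ℕ} (μ : σ → ℕ) {c : ℕ} (h : ∀ j, j ≠ i → κ j ≤ c) :
    dd i κ μ ≤ c * ∑ j, μ j := by
  rw [Finset.mul_sum]
  refine le_trans (Finset.sum_le_sum fun j hj => ?_)
    (Finset.sum_le_sum_of_subset (Finset.erase_subset i _))
  exact Nat.mul_le_mul_right _ (h j (Finset.ne_of_mem_erase hj))

/-- The data of the region. -/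
structure Par (σ : Type) where
  n : ℕ
  p : ℕ
  m₀ : ℕ
  e : ℕ
  l : ℕ
  a : ℕ
  b : ℕ
  i : σ
  A : (σ → ℕ) → Prop
  h : σ → ℕ
  d₀ : σ → ℕ
  d₁ : σ → ℕ
  M : σ → ℕ
  c₀ : Prop
  s₀ : Prop
  c₁ : Prop
  s₁ : Prop

namespace Par

variable (P : Par σ)

structure Mem (q : Pt σ) (t : ℕ) : Prop where
  pos : ∀ j, 1 ≤ q.1 j
  adm : P.A q.1
  tpos : 1 ≤ t
  lev : P.n * q.2.1 = dd P.i q.1 P.h + t * P.l
  up₀ : P.c₀ → t * P.l < dd P.i q.1 P.d₀ + q.1 P.i * P.a ∨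
    P.s₀ ∧ t * P.l = dd P.i q.1 P.d₀ + q.1 P.i * P.a
  up₁ : P.c₁ → P.n * q.1 P.i < dd P.i q.1 P.d₁ + t * P.b ∨
    P.s₁ ∧ P.n * q.1 P.i = dd P.i q.1 P.d₁ + t * P.b
  ord : P.n * q.2.2 = dd P.i q.1 P.M + P.m₀ * (P.n * q.2.1) +
    P.e * (P.n * q.1 P.i + P.p * dd P.i q.1 P.h)

structure Ray (v : Pt σ) (τ : ℕ) : Prop where
  adm : ∀ κ, P.A (κ + v.1) ↔ P.A κ
  lev : P.n * v.2.1 = dd P.i v.1 P.h + τ * P.l
  up₀ : P.c₀ → τ * P.l ≤ dd P.i v.1 P.d₀ + v.1 P.i * P.a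
  up₁ : P.c₁ → P.n * v.1 P.i ≤ dd P.i v.1 P.d₁ + τ * P.b
  ord : P.n * v.2.2 = dd P.i v.1 P.M + P.m₀ * (P.n * v.2.1) +
    P.e * (P.n * v.1 P.i + P.p * dd P.i v.1 P.h)

def Sub (q : Pt σ) (t : ℕ) (v : Pt σ) (τ : ℕ) : Prop :=
  (∀ j, v.1 j < q.1 j) ∧ τ < t ∧
    (P.c₀ → τ * P.l = dd P.i v.1 P.d₀ + v.1 P.i * P.a ∨
      dd P.i v.1 P.d₀ + v.1 P.i * P.a + t * P.l < dd P.i q.1 P.d₀ + q.1 P.i * P.a + τ * P.l) ∧
    (P.c₁ → P.n * v.1 P.i = dd P.i v.1 P.d₁ + τ * P.b ∨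
      dd P.i v.1 P.d₁ + τ * P.b + P.n * q.1 P.i < dd P.i q.1 P.d₁ + t * P.b + P.n * v.1 P.i)

variable {P}

theorem Mem.add {q v : Pt σ} {t τ : ℕ} (hq : P.Mem q t) (hv : P.Ray v τ) :
    P.Mem (q + v) (t + τ) where
  pos j := le_trans (hq.pos j) (Nat.le_add_right _ _)
  adm := (hv.adm _).2 hq.adm
  tpos := le_trans hq.tpos (Nat.le_add_right _ _)
  lev := by
    have h1 := hq.lev
    have h2 := hv.lev
    simp only [Prod.fst_add, Prod.snd_add, dd_add, mul_add, add_mul]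
    omega
  up₀ h := by
    have h2 := hv.up₀ h
    simp only [Prod.fst_add, Pi.add_apply, dd_add, add_mul]
    rcases hq.up₀ h with h1 | ⟨hs, h1⟩
    · left; omega
    · rcases h2.lt_or_eq with h2 | h2
      · left; omega
      · exact Or.inr ⟨hs, by omega⟩
  up₁ h := by
    have h2 := hv.up₁ h
    simp only [Prod.fst_add, Pi.add_apply, dd_add, add_mul, mul_add]
    rcases hq.up₁ h with h1 | ⟨hs, h1⟩
    · left; omega
    · rcases h2.lt_or_eq with h2 | h2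
      · left; omega
      · exact Or.inr ⟨hs, by omega⟩
  ord := by
    have h1 := hq.ord
    have h2 := hv.ord
    simp only [Prod.fst_add, Prod.snd_add, Pi.add_apply, dd_add, mul_add] at h1 h2 ⊢
    omega

theorem Mem.sub {q v : Pt σ} {t τ : ℕ} (hn : P.n ≠ 0) (hq : P.Mem q t) (hv : P.Ray v τ)
    (hs : P.Sub q t v τ) : ∃ q' t', P.Mem q' t' ∧ q = q' + v := by
  obtain ⟨κ, ρ, m⟩ := q
  obtain ⟨κ₁, ρ₁, m₁⟩ := v
  obtain ⟨s1, s2, s3, s4⟩ := hs
  obtain ⟨κ', rfl⟩ : ∃ κ', κ = κ' + κ₁ :=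
    ⟨κ - κ₁, funext fun j => (Nat.sub_add_cancel (s1 j).le).symm⟩
  obtain ⟨t', rfl⟩ : ∃ t', t = t' + τ := ⟨t - τ, by omega⟩
  have hn1 : 0 < P.n := Nat.pos_of_ne_zero hn
  have l1 := hq.lev
  have l2 := hv.lev
  simp only [dd_add, add_mul] at l1 l2
  obtain ⟨ρ', rfl⟩ : ∃ ρ', ρ = ρ' + ρ₁ := by
    have : ρ₁ ≤ ρ := Nat.le_of_mul_le_mul_left (by omega : P.n * ρ₁ ≤ P.n * ρ) hn1
    exact ⟨ρ - ρ₁, by omega⟩
  have o1 := hq.ord
  have o2 := hv.ord
  simp only [dd_add, Pi.add_apply, mul_add] at o1 o2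
  obtain ⟨m', rfl⟩ : ∃ m', m = m' + m₁ := by
    have : m₁ ≤ m := Nat.le_of_mul_le_mul_left (by omega : P.n * m₁ ≤ P.n * m) hn1
    exact ⟨m - m₁, by omega⟩
  refine ⟨(κ', ρ', m'), t', ⟨fun j => ?_, (hv.adm _).1 hq.adm, by omega, ?_, fun h => ?_,
    fun h => ?_, ?_⟩, rfl⟩
  · have := s1 j
    simp only [Pi.add_apply] at this ⊢
    omega
  · simp only [mul_add] at l1 ⊢
    omega
  · have u := hq.up₀ h
    have s := s3 h
    simp only [Pi.add_apply, dd_add, add_mul] at u s ⊢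
    rcases s with s | s
    · rcases u with u | ⟨hs, u⟩
      · left; omega
      · exact Or.inr ⟨hs, by omega⟩
    · left; omega
  · have u := hq.up₁ h
    have s := s4 h
    simp only [Pi.add_apply, dd_add, add_mul, mul_add] at u s ⊢
    rcases s with s | s
    · rcases u with u | ⟨hs, u⟩
      · left; omega
      · exact Or.inr ⟨hs, by omega⟩
    · left; omega
  · simp only [mul_add] at o1 ⊢
    omega

theorem adm_i (hI : Indep P.A {P.i}) (κ : σ → ℕ) (y : ℕ) :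
    P.A (κ + Pi.single P.i y) ↔ P.A κ := by
  constructor <;> refine hI _ _ fun j hj => ?_ <;>
    simp [Pi.single_eq_of_ne (Finset.notMem_singleton.1 hj)]

theorem ray_j (hP : Per P.n P.A) (hI : Indep P.A {P.i}) {j : σ} (hj : j ≠ P.i) (y ρ m τ : ℕ)
    (h1 : P.n * ρ = P.n * P.h j + τ * P.l)
    (h2 : P.c₀ → τ * P.l ≤ P.n * P.d₀ j + y * P.a) (h3 : P.c₁ → P.n * y ≤ P.n * P.d₁ j + τ * P.b)
    (h4 : P.n * m = P.n * P.M j + P.m₀ * (P.n * ρ) + P.e * (P.n * y + P.p * (P.n * P.h j))) :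
    P.Ray (Pi.single j P.n + Pi.single P.i y, ρ, m) τ where
  adm κ := by rw [← add_assoc, adm_i hI, hP]
  lev := by simpa only [dd_add, dd_single hj, dd_self, add_zero] using h1
  up₀ h := by
    simpa only [dd_add, dd_single hj, dd_self, add_zero, Pi.add_apply, Pi.single_eq_same,
      Pi.single_eq_of_ne hj.symm, zero_add] using h2 h
  up₁ h := by
    simpa only [dd_add, dd_single hj, dd_self, add_zero, Pi.add_apply, Pi.single_eq_same,
      Pi.single_eq_of_ne hj.symm, zero_add] using h3 h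
  ord := by
    simpa only [dd_add, dd_single hj, dd_self, add_zero, Pi.add_apply, Pi.single_eq_same,
      Pi.single_eq_of_ne hj.symm, zero_add] using h4

theorem ray_i (hI : Indep P.A {P.i}) (y ρ m τ : ℕ) (h1 : P.n * ρ = τ * P.l)
    (h2 : P.c₀ → τ * P.l ≤ y * P.a) (h3 : P.c₁ → P.n * y ≤ τ * P.b)
    (h4 : P.n * m = P.m₀ * (P.n * ρ) + P.e * (P.n * y)) :
    P.Ray (Pi.single P.i y, ρ, m) τ where
  adm κ := adm_i hI κ y
  lev := by simpa only [dd_self, zero_add] using h1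
  up₀ h := by simpa only [dd_self, Pi.single_eq_same, zero_add] using h2 h
  up₁ h := by simpa only [dd_self, Pi.single_eq_same, zero_add] using h3 h
  ord := by simpa only [dd_self, Pi.single_eq_same, zero_add, mul_zero, add_zero] using h4

theorem nosub_j {q : Pt σ} {t : ℕ} (hq : P.Mem q t) {j : σ} (hj : j ≠ P.i) {y ρ m τ : ℕ}
    (h : ¬P.Sub q t (Pi.single j P.n + Pi.single P.i y, ρ, m) τ) :
    q.1 j ≤ P.n ∨ q.1 P.i ≤ y ∨ t ≤ τ ∨
      (P.c₀ ∧ τ * P.l ≠ P.n * P.d₀ j + y * P.a ∧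
        dd P.i q.1 P.d₀ + q.1 P.i * P.a + τ * P.l ≤ P.n * P.d₀ j + y * P.a + t * P.l) ∨
      (P.c₁ ∧ P.n * y ≠ P.n * P.d₁ j + τ * P.b ∧
        dd P.i q.1 P.d₁ + t * P.b + P.n * y ≤ P.n * P.d₁ j + τ * P.b + P.n * q.1 P.i) := by
  by_contra hc
  simp only [not_or, not_and, not_le] at hc
  obtain ⟨c1, c2, c3, c4, c5⟩ := hc
  refine h ⟨fun k => ?_, c3, fun h₀ => ?_, fun h₁ => ?_⟩
  · have := hq.pos k
    simp only [Pi.add_apply, Pi.single_apply]
    split_ifs with e1 e2 e2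
    · exact absurd (e1.symm.trans e2) hj
    · subst e1; omega
    · subst e2; omega
    · omega
  · simp only [dd_add, dd_single hj, dd_self, add_zero, Pi.add_apply, Pi.single_eq_same,
      Pi.single_eq_of_ne hj.symm, zero_add]
    exact (em _).imp id (c4 h₀)
  · simp only [dd_add, dd_single hj, dd_self, add_zero, Pi.add_apply, Pi.single_eq_same,
      Pi.single_eq_of_ne hj.symm, zero_add]
    exact (em _).imp id (c5 h₁)

theorem nosub_i {q : Pt σ} {t : ℕ} (hq : P.Mem q t) {y ρ m τ : ℕ}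
    (h : ¬P.Sub q t (Pi.single P.i y, ρ, m) τ) :
    q.1 P.i ≤ y ∨ t ≤ τ ∨
      (P.c₀ ∧ τ * P.l ≠ y * P.a ∧
        dd P.i q.1 P.d₀ + q.1 P.i * P.a + τ * P.l ≤ y * P.a + t * P.l) ∨
      (P.c₁ ∧ P.n * y ≠ τ * P.b ∧
        dd P.i q.1 P.d₁ + t * P.b + P.n * y ≤ τ * P.b + P.n * q.1 P.i) := by
  by_contra hc
  simp only [not_or, not_and, not_le] at hc
  obtain ⟨c2, c3, c4, c5⟩ := hc
  refine h ⟨fun k => ?_, c3, fun h₀ => ?_, fun h₁ => ?_⟩
  · have := hq.pos k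
    simp only [Pi.single_apply]
    split_ifs with e2
    · subst e2; omega
    · omega
  · simp only [dd_self, Pi.single_eq_same, zero_add]
    exact (em _).imp id (c4 h₀)
  · simp only [dd_self, Pi.single_eq_same, zero_add]
    exact (em _).imp id (c5 h₁)

variable (P)

/-- The rays of the cone, each with its increment of `t`. -/
def IsRay (v : Pt σ) (τ : ℕ) : Prop :=
  (∃ j, j ≠ P.i ∧ v = (Pi.single j P.n + Pi.single P.i 0, P.h j,
    P.M j + (P.m₀ + P.p * P.e) * P.h j) ∧ τ = 0) ∨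
  (P.c₀ ∧ ∃ j, j ≠ P.i ∧ v = (Pi.single j P.n + Pi.single P.i 0, P.h j + P.d₀ j,
    P.M j + P.p * P.e * P.h j + P.m₀ * (P.h j + P.d₀ j)) ∧ τ = P.p * P.d₀ j) ∨
  (P.c₀ ∧ v = (Pi.single P.i P.n, P.a, P.e * P.n + P.m₀ * P.a) ∧ τ = P.p * P.a) ∨
  (¬P.c₀ ∧ v = (Pi.single P.i 0, 1, P.m₀) ∧ τ = P.p) ∨
  (P.c₁ ∧ ∃ j, j ≠ P.i ∧ v = (Pi.single j P.n + Pi.single P.i (P.d₁ j), P.h j,
    P.M j + (P.m₀ + P.p * P.e) * P.h j + P.e * P.d₁ j) ∧ τ = 0) ∨
  (P.c₁ ∧ v = (Pi.single P.i P.b, P.l, P.m₀ * P.l + P.e * P.b) ∧ τ = P.n) ∨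
  (¬P.c₁ ∧ v = (Pi.single P.i 1, 0, P.e) ∧ τ = 0)

theorem rays_finite : {v | ∃ τ, P.IsRay v τ}.Finite := by
  refine Set.Finite.subset (s := (Set.range fun j => ((Pi.single j P.n + Pi.single P.i 0, P.h j,
      P.M j + (P.m₀ + P.p * P.e) * P.h j) : Pt σ)) ∪
    (Set.range fun j => ((Pi.single j P.n + Pi.single P.i 0, P.h j + P.d₀ j,
      P.M j + P.p * P.e * P.h j + P.m₀ * (P.h j + P.d₀ j)) : Pt σ)) ∪
    (Set.range fun j => ((Pi.single j P.n + Pi.single P.i (P.d₁ j), P.h j,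
      P.M j + (P.m₀ + P.p * P.e) * P.h j + P.e * P.d₁ j) : Pt σ)) ∪
    {(Pi.single P.i P.n, P.a, P.e * P.n + P.m₀ * P.a), (Pi.single P.i 0, 1, P.m₀),
      (Pi.single P.i P.b, P.l, P.m₀ * P.l + P.e * P.b), (Pi.single P.i 1, 0, P.e)}) ?_ ?_
  · exact (((Set.finite_range _).union (Set.finite_range _)).union (Set.finite_range _)).union
      (Set.toFinite _)
  · rintro v ⟨τ, ⟨j, -, h, -⟩ | ⟨-, j, -, h, -⟩ | ⟨-, h, -⟩ | ⟨-, h, -⟩ | ⟨-, j, -, h, -⟩ |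
      ⟨-, h, -⟩ | ⟨-, h, -⟩⟩
    · exact Or.inl (Or.inl (Or.inl ⟨j, h.symm⟩))
    · exact Or.inl (Or.inl (Or.inr ⟨j, h.symm⟩))
    · exact Or.inr (Or.inl h)
    · exact Or.inr (Or.inr (Or.inl h))
    · exact Or.inl (Or.inr ⟨j, h.symm⟩)
    · exact Or.inr (Or.inr (Or.inr (Or.inl h)))
    · exact Or.inr (Or.inr (Or.inr (Or.inr h)))

variable {P}

theorem IsRay.ray (hn : P.p * P.l = P.n) (ha : P.c₀ → P.l < P.a) (hb : P.c₁ → P.n < P.b)
    (hP : Per P.n P.A) (hI : Indep P.A {P.i}) {v : Pt σ} {τ : ℕ} (h : P.IsRay v τ) :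
    P.Ray v τ := by
  have e1 : ∀ x, P.p * x * P.l = P.n * x := fun x => by rw [← hn]; ring
  rcases h with ⟨j, hj, rfl, rfl⟩ | ⟨h, j, hj, rfl, rfl⟩ | ⟨h, rfl, rfl⟩ | ⟨h, rfl, rfl⟩ |
    ⟨h, j, hj, rfl, rfl⟩ | ⟨h, rfl, rfl⟩ | ⟨h, rfl, rfl⟩
  · exact ray_j hP hI hj _ _ _ _ (by ring) (fun _ => by omega) (fun _ => by omega) (by ring)
  · exact ray_j hP hI hj _ _ _ _ (by rw [e1]; ring) (fun _ => by rw [e1]; omega)
      (fun _ => by omega) (by ring)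
  · refine ray_i hI _ _ _ _ (by rw [e1]) (fun _ => by rw [e1]) (fun h' => ?_) (by ring)
    have h1 := ha h
    have h2 := hb h'
    calc P.n * P.n = P.p * P.l * P.n := by rw [hn]
      _ ≤ P.p * P.a * P.b := Nat.mul_le_mul (Nat.mul_le_mul_left _ h1.le) h2.le
  · exact ray_i hI _ _ _ _ (by rw [hn, mul_one]) (fun h' => absurd h' h) (fun _ => by omega)
      (by ring)
  · exact ray_j hP hI hj _ _ _ _ (by ring) (fun _ => by omega) (fun _ => by omega) (by ring)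
  · refine ray_i hI _ _ _ _ rfl (fun h' => ?_) (fun _ => le_rfl) (by ring)
    exact Nat.mul_le_mul (hb h).le (ha h').le
  · exact ray_i hI _ _ _ _ (by ring) (fun _ => by omega) (fun h' => absurd h' h) (by ring)

theorem bound (hn : P.p * P.l = P.n) (hn0 : P.n ≠ 0) (ha : P.c₀ → P.l < P.a)
    (hb : P.c₁ → P.n < P.b) : ∃ B, ∀ q t, P.Mem q t →
      (∀ v τ, P.IsRay v τ → ¬P.Sub q t v τ) → wt q ≤ B := by
  obtain ⟨H, hH⟩ : ∃ H, H = ∑ j, P.d₀ j + ∑ j, P.d₁ j := ⟨_, rfl⟩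
  have H₀ : ∀ j, P.d₀ j ≤ H := fun j => by
    have := Finset.single_le_sum (f := P.d₀) (fun _ _ => Nat.zero_le _) (Finset.mem_univ j)
    omega
  have H₁ : ∀ j, P.d₁ j ≤ H := fun j => by
    have := Finset.single_le_sum (f := P.d₁) (fun _ _ => Nat.zero_le _) (Finset.mem_univ j)
    omega
  obtain ⟨T, hT⟩ := core P.c₀ P.c₁ P.n P.p P.l P.a P.b H (P.n * H) hn hn0 ha hb
  obtain ⟨U, hU⟩ : ∃ U, U = T + P.n + T * P.l + P.n * T := ⟨_, rfl⟩
  refine ⟨Fintype.card σ * U + (U * ∑ j, P.h j + T * P.l), fun q t hq hno => ?_⟩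
  have e1 : ∀ x, P.p * x * P.l = P.n * x := fun x => by rw [← hn]; ring
  have hi1 := hq.pos P.i
  have ht1 := hq.tpos
  have big : ∀ {j} (d : σ → ℕ), j ≠ P.i → P.n < q.1 j → P.n * d j ≤ dd P.i q.1 d :=
    fun d hj h => le_trans (Nat.mul_le_mul_right _ h.le) (le_dd hj _ _)
  obtain ⟨hω, ht⟩ : q.1 P.i ≤ T ∧ t ≤ T := by
    refine hT _ _ (dd P.i q.1 P.d₀) (dd P.i q.1 P.d₁) (fun h => ?_) (fun h => ?_) (fun h => ?_)
      (fun h => ?_) (fun h => ?_) (fun h => ?_) (fun h => ?_) (fun h => ?_)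
    · rcases hq.up₀ h with u | ⟨-, u⟩ <;> omega
    · rcases hq.up₁ h with u | ⟨-, u⟩ <;> omega
    · rcases nosub_i hq (hno _ _ (Or.inr (Or.inr (Or.inl ⟨h, rfl, rfl⟩)))) with
        u | u | ⟨-, u, -⟩ | ⟨h', -, u⟩
      · exact Or.inl u
      · exact Or.inr (Or.inl u)
      · exact absurd (e1 _) u
      · exact Or.inr (Or.inr ⟨h', u⟩)
    · rcases nosub_i hq (hno _ _ (Or.inr (Or.inr (Or.inr (Or.inr (Or.inr
        (Or.inl ⟨h, rfl, rfl⟩))))))) with u | u | ⟨h', -, u⟩ | ⟨-, u, -⟩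
      · exact Or.inl u
      · exact Or.inr (Or.inl u)
      · exact Or.inr (Or.inr ⟨h', u⟩)
      · exact absurd rfl u
    · rcases nosub_i hq (hno _ _ (Or.inr (Or.inr (Or.inr (Or.inl ⟨h, rfl, rfl⟩))))) with
        u | u | ⟨h', -⟩ | ⟨h', -, u⟩
      · omega
      · exact Or.inl u
      · exact absurd h' h
      · exact Or.inr ⟨h', by omega⟩
    · rcases nosub_i hq (hno _ _ (Or.inr (Or.inr (Or.inr (Or.inr (Or.inr
        (Or.inr ⟨h, rfl, rfl⟩))))))) with u | u | ⟨h', -, u⟩ | ⟨h', -⟩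
      · exact Or.inl u
      · omega
      · exact Or.inr ⟨h', by omega⟩
      · exact absurd h' h
    · by_cases hs : ∀ j, j ≠ P.i → q.1 j ≤ P.n
      · left
        refine le_trans (dd_le _ _ hs) (Nat.mul_le_mul_left _ (by omega))
      right
      simp only [not_forall, not_le] at hs
      obtain ⟨j, hj, hs⟩ := hs
      have h1 : P.p * P.d₀ j ≤ P.p * H := Nat.mul_le_mul_left _ (H₀ j)
      rcases nosub_j hq hj (hno _ _ (Or.inr (Or.inl ⟨h, j, hj, rfl, rfl⟩))) with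
        u | u | u | ⟨-, u, -⟩ | ⟨h', -, u⟩
      · omega
      · omega
      · left; omega
      · exact absurd (by rw [e1]; omega) u
      · have h2 := big P.d₁ hj hs
        have h3 := Nat.mul_le_mul_right P.b h1
        exact Or.inr ⟨h', by omega⟩
    · by_cases hs : ∀ j, j ≠ P.i → q.1 j ≤ P.n
      · left
        refine le_trans (dd_le _ _ hs) (Nat.mul_le_mul_left _ (by omega))
      right
      simp only [not_forall, not_le] at hs
      obtain ⟨j, hj, hs⟩ := hs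
      have h1 := H₁ j
      rcases nosub_j hq hj (hno _ _ (Or.inr (Or.inr (Or.inr (Or.inr
        (Or.inl ⟨h, j, hj, rfl, rfl⟩)))))) with u | u | u | ⟨h', -, u⟩ | ⟨-, u, -⟩
      · omega
      · left; omega
      · omega
      · have h2 := big P.d₀ hj hs
        have h3 := Nat.mul_le_mul_right P.a h1
        exact Or.inr ⟨h', by omega⟩
      · exact absurd (by omega) u
  have small : ∀ {j} (d : σ → ℕ) (x : ℕ), j ≠ P.i → P.n * d j ≠ 0 →
      dd P.i q.1 d ≤ P.n * d j + x → q.1 j ≤ P.n + x := fun {j} d x hj h0 h => by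
    have h1 := le_dd hj q.1 d
    have h2 : 0 < d j := Nat.pos_of_ne_zero fun h' => h0 (by rw [h', mul_zero])
    have h3 : x ≤ x * d j := Nat.le_mul_of_pos_right _ h2
    exact Nat.le_of_mul_le_mul_right (by rw [add_mul]; omega) h2
  have t1 : t * P.l ≤ T * P.l := Nat.mul_le_mul_right _ ht
  have t2 : P.n * q.1 P.i ≤ P.n * T := Nat.mul_le_mul_left _ hω
  have hκ : ∀ j, q.1 j ≤ U := fun j => by
    by_cases hj : j = P.i
    · rw [hj]; omega
    rcases nosub_j hq hj (hno _ _ (Or.inl ⟨j, hj, rfl, rfl⟩)) with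
      u | u | u | ⟨-, u, u'⟩ | ⟨-, u, u'⟩
    · omega
    · omega
    · omega
    · have := small P.d₀ (t * P.l) hj (by omega) (by omega)
      omega
    · have := small P.d₁ (P.n * q.1 P.i) hj (by omega) (by omega)
      omega
  have s1 : ∑ j, q.1 j ≤ Fintype.card σ * U := by
    simpa using Finset.sum_le_card_nsmul Finset.univ q.1 U fun j _ => hκ j
  have s2 := dd_le P.i P.h fun j (_ : j ≠ P.i) => hκ j
  have s3 : q.2.1 ≤ P.n * q.2.1 := Nat.le_mul_of_pos_left _ (Nat.pos_of_ne_zero hn0)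
  have s4 := hq.lev
  unfold wt
  omega

theorem ord_le (hn0 : P.n ≠ 0) {q : Pt σ} {t : ℕ} (hq : P.Mem q t) : q.2.2 ≤
    (∑ j, P.M j + P.m₀ * P.n + P.e * (P.n + P.p * ∑ j, P.h j)) * wt q := by
  have h1 : ∀ j, q.1 j ≤ wt q := fun j => le_trans
    (Finset.single_le_sum (f := q.1) (fun _ _ => Nat.zero_le _) (Finset.mem_univ j))
    (Nat.le_add_right _ _)
  have h2 : q.2.1 ≤ wt q := Nat.le_add_left _ _
  calc q.2.2 ≤ P.n * q.2.2 := Nat.le_mul_of_pos_left _ (Nat.pos_of_ne_zero hn0)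
    _ = _ := hq.ord
    _ ≤ wt q * ∑ j, P.M j + P.m₀ * (P.n * wt q) +
        P.e * (P.n * wt q + P.p * (wt q * ∑ j, P.h j)) := by
      have a1 := dd_le P.i P.M fun j (_ : j ≠ P.i) => h1 j
      have a2 := dd_le P.i P.h fun j (_ : j ≠ P.i) => h1 j
      have a3 := h1 P.i
      gcongr
    _ = _ := by ring

theorem cone (h : S_Cone) (Al : ℕ → ℕ → Prop) (hn : P.p * P.l = P.n) (hn0 : P.n ≠ 0)
    (ha : P.c₀ → P.l < P.a) (hb : P.c₁ → P.n < P.b) (hP : Per P.n P.A) (hI : Indep P.A {P.i})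
    (hok : ∀ v τ, P.IsRay v τ → 0 < wt v ∧ Ok Al (wt v) v.2.2) :
    GF {q | ∃ t, P.Mem q t} ∈ hat Al := by
  obtain ⟨B, hB⟩ := bound hn hn0 ha hb
  refine h σ _ P.rays_finite.toFinset Al B
    (∑ j, P.M j + P.m₀ * P.n + P.e * (P.n + P.p * ∑ j, P.h j)) (fun v hv => ?_)
    (fun q hq v hv => ?_) (fun q hq hw => ?_) (fun q hq => ?_)
  · obtain ⟨τ, hτ⟩ := (Set.Finite.mem_toFinset _).1 hv
    exact hok v τ hτ
  · obtain ⟨τ, hτ⟩ := (Set.Finite.mem_toFinset _).1 hv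
    obtain ⟨t, ht⟩ := hq
    exact ⟨_, ht.add (hτ.ray hn ha hb hP hI)⟩
  · obtain ⟨t, ht⟩ := hq
    by_contra hc
    refine absurd (hB q t ht fun v τ hτ hs => hc ?_) (by omega)
    obtain ⟨q', t', h1, h2⟩ := ht.sub hn0 (hτ.ray hn ha hb hP hI) hs
    exact ⟨v, (Set.Finite.mem_toFinset _).2 ⟨τ, hτ⟩, q', ⟨t', h1⟩, h2⟩
  · obtain ⟨t, ht⟩ := hq
    exact ord_le hn0 ht

end Par

theorem wt_j (i j : σ) (x y ρ m : ℕ) :
    wt ((Pi.single j x + Pi.single i y, ρ, m) : Pt σ) = x + y + ρ := by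
  simp [wt, Finset.sum_add_distrib]

theorem wt_i (i : σ) (y ρ m : ℕ) : wt ((Pi.single i y, ρ, m) : Pt σ) = y + ρ := by
  simp [wt]

end RegCP

open RegCP in
theorem p_RegC (h : S_Cone) : S_RegC := by
  intro σ _ _ Al n A i p hi c₀ h₀ s₀ c₁ h₁ s₁ M m₀ e hn0 hn hM hP hI hc₀ hc₁ k0 k1 k2 k3 k4
  obtain ⟨d₀, hd₀⟩ : ∃ d₀ : σ → ℕ, c₀ → h₀ = hi + d₀ :=
    ⟨h₀ - hi, fun hc => funext fun j => (Nat.add_sub_cancel' ((hc₀ hc).1 j)).symm⟩
  obtain ⟨d₁, hd₁⟩ : ∃ d₁ : σ → ℕ, c₁ → h₁ = hi + d₁ :=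
    ⟨h₁ - hi, fun hc => funext fun j => (Nat.add_sub_cancel' ((hc₁ hc).1 j)).symm⟩
  have hn1 : 0 < n := Nat.pos_of_ne_zero hn0
  obtain ⟨p', rfl⟩ : ∃ p', p = p' + 1 :=
    ⟨p - 1, by have : p ≠ 0 := fun h' => hn0 (by rw [← hn, h', zero_mul]); omega⟩
  have hsub : m₀ + (p' + 1) * e - e = m₀ + p' * e := by rw [add_mul, one_mul]; omega
  rw [hsub] at k3
  let P : Par σ := ⟨n, p' + 1, m₀, e, hi i, hi i + d₀ i, n + d₁ i, i, A, hi, d₀, d₁, M, c₀, s₀,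
    c₁, s₁⟩
  have hset : regC n A i (p' + 1) hi c₀ h₀ s₀ c₁ h₁ s₁ M m₀ e = {q | ∃ t, P.Mem q t} := by
    ext q
    have f₀ : c₀ → dot q.1 h₀ = dd i q.1 hi + (dd i q.1 d₀ + q.1 i * (hi i + d₀ i)) := fun hc => by
      rw [dot_eq i, hd₀ hc, dd_add', Pi.add_apply, add_assoc]
    have f₁ : ∀ t, c₁ → n * t + dot (Function.update q.1 i t) h₁ =
        dd i q.1 hi + t * hi i + (dd i q.1 d₁ + t * (n + d₁ i)) := fun t hc => by
      rw [dot_upd, hd₁ hc, dd_add', Pi.add_apply]; ring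
    have f₂ : dot q.1 M = dd i q.1 M := by rw [dot_eq i, hM, mul_zero, add_zero]
    constructor
    · rintro ⟨q1, q2, t, q3, q4, q5, q6, q7⟩
      rw [dot_upd] at q4
      rw [f₂, dot_upd'] at q7
      refine ⟨t, q1, q2, q3, q4, fun hc => ?_, fun hc => ?_, q7⟩
      · have := q5 hc
        rw [f₀ hc, q4] at this
        exact this.imp (fun u => Nat.lt_of_add_lt_add_left u)
          (fun u => ⟨u.1, Nat.add_left_cancel u.2⟩)
      · have := q6 hc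
        rw [f₁ t hc, mul_add, q4] at this
        exact this.imp (fun u => Nat.lt_of_add_lt_add_left u)
          (fun u => ⟨u.1, Nat.add_left_cancel u.2⟩)
    · rintro ⟨t, q1, q2, q3, q4, q5, q6, q7⟩
      have q4' : n * q.2.1 = dd i q.1 hi + t * hi i := q4
      refine ⟨q1, q2, t, q3, by rw [dot_upd]; exact q4, fun hc => ?_, fun hc => ?_,
        by rw [f₂, dot_upd']; exact q7⟩
      · rw [f₀ hc, q4']
        exact (q5 hc).imp (fun u => Nat.add_lt_add_left u _) (fun u => ⟨u.1, congrArg _ u.2⟩)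
      · rw [f₁ t hc, mul_add, q4']
        exact (q6 hc).imp (fun u => Nat.add_lt_add_left u _) (fun u => ⟨u.1, congrArg _ u.2⟩)
  rw [hset]
  refine Par.cone (P := P) h Al hn hn0 (fun hc => ?_) (fun hc => ?_) hP hI fun v τ hv => ?_
  · have := (hc₀ hc).2
    rw [hd₀ hc] at this
    exact this
  · have := (hc₁ hc).2
    rw [hd₁ hc, Pi.add_apply] at this
    show n < n + d₁ i
    omega
  have cong : ∀ {a b a' b' : ℕ}, Ok Al a b → a = a' → b = b' → Ok Al a' b' :=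
    fun h1 h2 h3 => h2 ▸ h3 ▸ h1
  rcases hv with ⟨j, hj, rfl, -⟩ | ⟨hc, j, hj, rfl, -⟩ | ⟨hc, rfl, -⟩ | ⟨hc, rfl, -⟩ |
    ⟨hc, j, hj, rfl, -⟩ | ⟨hc, rfl, -⟩ | ⟨hc, rfl, -⟩
  · rw [wt_j]
    exact ⟨by show 0 < n + 0 + hi j; omega, k0 j hj⟩
  · rw [wt_j]
    have := k1 hc j
    rw [hd₀ hc] at this
    exact ⟨by show 0 < n + 0 + (hi j + d₀ j); omega, this⟩
  · rw [wt_i]
    have := k1 hc i
    rw [hd₀ hc, hM] at this
    refine ⟨by show 0 < n + (hi i + d₀ i); omega, cong this rfl ?_⟩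
    show 0 + (p' + 1) * e * hi i + m₀ * (hi i + d₀ i) = e * n + m₀ * (hi i + d₀ i)
    rw [← hn]; ring
  · rw [wt_i]
    exact ⟨Nat.one_pos, k2 hc⟩
  · rw [wt_j]
    have := k3 hc j
    rw [hd₁ hc] at this
    refine ⟨by show 0 < n + d₁ j + hi j; omega, cong this ?_ ?_⟩
    · show n + (hi j + d₁ j) = n + d₁ j + hi j
      ring
    · show M j + (m₀ + p' * e) * hi j + e * (hi j + d₁ j) =
        M j + (m₀ + (p' + 1) * e) * hi j + e * d₁ j
      ring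
  · rw [wt_i]
    have := k3 hc i
    rw [hd₁ hc, hM] at this
    refine ⟨by show 0 < n + d₁ i + hi i; omega, cong this ?_ ?_⟩
    · show n + (hi i + d₁ i) = n + d₁ i + hi i
      ring
    · show 0 + (m₀ + p' * e) * hi i + e * (hi i + d₁ i) = m₀ * hi i + e * (n + d₁ i)
      rw [← hn]; ring
  · rw [wt_i]
    exact ⟨Nat.one_pos, k4 hc⟩

end

end Pool.Agent.P.MP_b91a16_ag.Qo
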