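import Pool.Agent.P.MP_b91a16_ag.Qo.Spec

/-! Quasi-ordinary polynomials: rays that are not bad give roots. -/

set_option linter.unusedSectionVars false

open Polynomial

namespace Pool.Agent.P.MP_b91a16_ag.Qo

noncomputable section

namespace RootBP

/-! ### Split polynomials -/

section Pol

variable {ι L β γ : Type} [Field L]

def ph (s : Finset ι) (q : ι → L) (m : ι → ℕ) : L[X] := ∏ a ∈ s, (X - C (q a)) ^ m a

open Classical in
def mu (s : Finset ι) (q : ι → β) (m : ι → ℕ) (t : β) : ℕ := ∑ a ∈ s, if q a = t then m a else 0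

variable {s : Finset ι} {q : ι → L} {m : ι → ℕ}

theorem ph_monic : (ph s q m).Monic := monic_prod_of_monic _ _ fun _ _ => (monic_X_sub_C _).pow _

theorem ph_natDegree : (ph s q m).natDegree = ∑ a ∈ s, m a := by
  rw [ph, natDegree_prod_of_monic _ _ fun _ _ => (monic_X_sub_C _).pow _]
  refine Finset.sum_congr rfl fun a _ => ?_
  rw [(monic_X_sub_C _).natDegree_pow, natDegree_X_sub_C, mul_one]

theorem ph_roots : (ph s q m).roots = ∑ a ∈ s, m a • ({q a} : Multiset L) := by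
  have h : ∀ a, ((X - C (q a)) ^ m a).roots = m a • ({q a} : Multiset L) := fun a => by
    rw [roots_pow, roots_X_sub_C]
  rw [ph, roots_prod _ _ ph_monic.ne_zero]
  simp only [h]
  rfl

theorem ph_card : (ph s q m).roots.card = (ph s q m).natDegree := by
  rw [ph_roots, ph_natDegree, Multiset.card_sum]
  simp

theorem ph_mult (t : L) : (ph s q m).rootMultiplicity t = mu s q m t := by
  classical
  rw [← count_roots, ph_roots, Multiset.count_sum', mu]
  refine Finset.sum_congr rfl fun a _ => ?_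
  rw [Multiset.count_nsmul, Multiset.count_singleton]
  by_cases h : q a = t
  · simp [h]
  · rw [if_neg h, if_neg (Ne.symm h), mul_zero]

theorem ph_toFinset [DecidableEq L] (hm : ∀ a ∈ s, 0 < m a) :
    (ph s q m).roots.toFinset = s.image q := by
  ext t
  rw [Multiset.mem_toFinset, ph_roots, Multiset.mem_sum, Finset.mem_image]
  refine exists_congr fun a => and_congr_right fun ha => ?_
  rw [Multiset.mem_nsmul_of_ne_zero (hm a ha).ne', Multiset.mem_singleton, eq_comm]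

theorem ph_fiber (T : Finset L) (h : ∀ a ∈ s, q a ∈ T) :
    ph s q m = ∏ t ∈ T, (X - C t) ^ mu s q m t := by
  classical
  simp only [mu, ← Finset.prod_pow_eq_pow_sum]
  rw [Finset.prod_comm]
  refine Finset.prod_congr rfl fun a ha => ?_
  rw [Finset.prod_eq_single (q a)]
  · simp
  · intro t _ ht; rw [if_neg ht.symm, pow_zero]
  · intro hn; exact absurd (h a ha) hn

theorem mu_pos {r : ι → β} {a : ι} (ha : a ∈ s) (h : 0 < m a) : 0 < mu s r m (r a) := by
  classical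
  refine lt_of_lt_of_le ?_ (Finset.single_le_sum (f := fun b => if r b = r a then m b else 0)
    (fun _ _ => Nat.zero_le _) ha)
  simpa using h

theorem mu_congr {r : ι → β} {r' : ι → γ} {t : β} {t' : γ} (h : ∀ a ∈ s, r a = t ↔ r' a = t') :
    mu s r m t = mu s r' m t' := by
  refine Finset.sum_congr rfl fun a ha => ?_
  by_cases h1 : r a = t
  · rw [if_pos h1, if_pos ((h a ha).1 h1)]
  · rw [if_neg h1, if_neg fun h2 => h1 ((h a ha).2 h2)]

theorem mu_two {r : ι → β} {t t' : β} (ht : t ≠ t') (h : ∀ a ∈ s, r a = t ∨ r a = t') :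
    mu s r m t + mu s r m t' = ∑ a ∈ s, m a := by
  rw [mu, mu, ← Finset.sum_add_distrib]
  refine Finset.sum_congr rfl fun a ha => ?_
  rcases h a ha with h1 | h1
  · rw [if_pos h1, if_neg (h1 ▸ ht), add_zero]
  · rw [if_pos h1, if_neg (h1 ▸ ht.symm), zero_add]

variable [DecidableEq ι] {τ : ι → ι} {ξ : L}

theorem ph_comp (hτ : s.image τ = s) (hi : Function.Injective τ) (hm : ∀ a ∈ s, m (τ a) = m a)
    (hq : ∀ a ∈ s, q (τ a) = ξ * q a) :
    (ph s q m).comp (C ξ * X) = C (ξ ^ (ph s q m).natDegree) * ph s q m := by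
  have h1 : ph s q m = ∏ a ∈ s, (X - C (q (τ a))) ^ m (τ a) := by
    conv_lhs => rw [← hτ]
    rw [ph, Finset.prod_image hi.injOn]
  conv_lhs => rw [h1]
  rw [ph_natDegree, ph, Polynomial.prod_comp, C_pow, ← Finset.prod_pow_eq_pow_sum,
    ← Finset.prod_mul_distrib]
  refine Finset.prod_congr rfl fun a ha => ?_
  rw [hm a ha, hq a ha, ← mul_pow, pow_comp, sub_comp, X_comp, C_comp, C_mul, mul_sub]

theorem mu_perm (hτ : s.image τ = s) (hi : Function.Injective τ) (hm : ∀ a ∈ s, m (τ a) = m a)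
    (hq : ∀ a ∈ s, q (τ a) = ξ * q a) (h0 : ξ ≠ 0) (t : L) : mu s q m (ξ * t) = mu s q m t := by
  conv_lhs => rw [← hτ]
  rw [mu, mu, Finset.sum_image hi.injOn]
  refine Finset.sum_congr rfl fun a ha => ?_
  rw [hm a ha, hq a ha]
  by_cases h : q a = t
  · rw [if_pos h, if_pos (by rw [h])]
  · rw [if_neg h, if_neg fun h' => h (mul_left_cancel₀ h0 h')]

end Pol

/-! ### Power series -/

variable {σ k : Type} [Fintype σ] [DecidableEq σ] [Field k]

theorem mono_ne (μ : σ →₀ ℕ) : (mono μ : R0 σ k) ≠ 0 := fun h => by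
  have := congrArg (MvPowerSeries.coeff μ) h
  simp [mono] at this

theorem mono_add (μ ν : σ →₀ ℕ) : (mono (μ + ν) : R0 σ k) = mono μ * mono ν := by
  rw [mono, mono, mono, MvPowerSeries.monomial_mul_monomial, mul_one]

theorem coeff_mono_mul (μ : σ →₀ ℕ) (x : R0 σ k) :
    MvPowerSeries.coeff μ (mono μ * x) = MvPowerSeries.constantCoeff x := by
  rw [mono, MvPowerSeries.coeff_monomial_mul, if_pos le_rfl, one_mul, tsub_self,
    MvPowerSeries.coeff_zero_eq_constantCoeff_apply]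

theorem const_kill (V : Finset σ) (x : R0 σ k) :
    MvPowerSeries.constantCoeff (kill V x) = MvPowerSeries.constantCoeff x := by
  rw [← MvPowerSeries.coeff_zero_eq_constantCoeff_apply, kill, MvPowerSeries.coeff_rescale,
    Finsupp.prod_zero_index, one_mul, MvPowerSeries.coeff_zero_eq_constantCoeff_apply]

theorem kill_mono (j : σ) (ν : σ →₀ ℕ) (h : ν j = 0) : kill {j} (mono ν : R0 σ k) = mono ν := by
  ext μ
  rw [kill, MvPowerSeries.coeff_rescale, mono, MvPowerSeries.coeff_monomial]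
  split_ifs with h1
  · subst h1
    rw [mul_one, Finsupp.prod]
    refine Finset.prod_eq_one fun l hl => ?_
    have : l ≠ j := fun e => (Finsupp.mem_support_iff.1 hl) (e ▸ h)
    simp [this]
  · rw [mul_zero]

theorem kill_C (V : Finset σ) (c : k) : kill V (MvPowerSeries.C c : R0 σ k) = MvPowerSeries.C c := by
  ext μ
  rw [kill, MvPowerSeries.coeff_rescale, MvPowerSeries.coeff_C]
  split_ifs with h1
  · subst h1
    rw [Finsupp.prod_zero_index, one_mul]
  · rw [mul_zero]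

theorem kill_act (D : Dat σ k) (j : σ) (x : R0 σ k) :
    kill {j} (D.act (Pi.single j 1) x) = kill {j} x := by
  rw [kill, Dat.act, MvPowerSeries.rescale_rescale]
  congr 2
  funext l
  by_cases h : l = j
  · simp [h]
  · simp [h]

theorem act_mono {D : Dat σ k} (hA : CA D) (g : σ → ℕ) (μ : σ →₀ ℕ) :
    D.act g (mono μ) = MvPowerSeries.C (D.ε ^ dot g μ) * mono μ := by
  ext ν
  rw [hA.coeff_act, MvPowerSeries.coeff_C_mul, mono, MvPowerSeries.coeff_monomial]
  split_ifs with h1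
  · rw [h1]
  · rw [mul_zero, mul_zero]

theorem dot_single (j : σ) (μ : σ → ℕ) : dot (Pi.single j 1) μ = μ j := by
  rw [dot, Finset.sum_eq_single j]
  · simp
  · intro l _ hl; simp [hl]
  · simp

theorem exact_map {B B' : Type} [CommRing B] [CommRing B'] (φ : B →+* B')
    (hφ : Function.Injective φ) {V : Finset σ} {J F : MvPolynomial (Option σ) B} {α : B}
    (h : Exact V J F α) : Exact V (MvPolynomial.map φ J) (MvPolynomial.map φ F) (φ α) := by
  obtain ⟨K, h, c, hc, e⟩ := h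
  refine ⟨K, fun v => MvPolynomial.map φ (h v), φ c, fun h0 => hc (hφ (by rw [h0, map_zero])), ?_⟩
  have := congrArg (MvPolynomial.map φ) e
  simpa only [map_mul, map_pow, map_sum, map_sub, MvPolynomial.map_C, MvPolynomial.pderiv_map,
    map_add, map_natCast] using this

/-! ### The exact case -/

theorem delta [CharZero k] [IsAlgClosed k] {D : Dat σ k} (hB : CB D) (h1 : S_Psi) (h2 : Init D)
    (h3 : S_Chart) (h4 : S_Sl1) (h5 : S_Ex1) {s : Finset (R0 σ k)} {j : σ} (hs : D.IsCl s)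
    (hc : 2 ≤ s.card) (hj : D.lo s j < hi s j) {Q : R0 σ k → R0 σ k}
    (hQ : ∀ a ∈ s, a - ctr s = mono (hi s) * Q a) {a₀ a₁ : R0 σ k} (h₀ : a₀ ∈ s) (h₁ : a₁ ∈ s)
    (hne : kill {j} (Q a₀) ≠ kill {j} (Q a₁)) {b : k[X]} (hb : St.LB D.f b)
    (hb' : b.eval (-(((D.n + hi s j : ℕ) : k) / (D.MM s j + D.deg s * hi s j : ℕ))) ≠ 0) :
    ∃ δ : ℕ, δ * (D.MM s j + D.deg s * hi s j) = (D.n + hi s j) * D.deg s ∧
      (s.image fun a => kill {j} (Q a)).card ≤ δ ∧
      (∀ a ∈ s, mu s (fun a => kill {j} (Q a)) D.m (kill {j} (Q a)) * δ ≠ D.deg s) ∧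
      ∀ (ξ : k) (τ : R0 σ k → R0 σ k), ξ ≠ 0 → s.image τ = s → Function.Injective τ →
        (∀ a ∈ s, D.m (τ a) = D.m a) →
        (∀ a ∈ s, kill {j} (Q (τ a)) = MvPowerSeries.C ξ * kill {j} (Q a)) → ξ ^ δ = ξ := by
  classical
  obtain ⟨Ψ, hΨ⟩ := h1 σ k {j}
  obtain ⟨F, c₁, hc₁, e1, e2⟩ := h2 {j} Ψ s (ctr s) Q hΨ hs (by rw [sub_self]; exact dvd_zero _)
    (hB.lo_lt s hs hc) (by simpa using hj) hQ
  simp only [Finset.sum_singleton, Finset.prod_singleton] at e1 e2
  have l0 : 0 < hi s j := lt_of_le_of_lt (Nat.zero_le _) hj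
  have d0 := hB.deg_pos s hs
  have N0 : 0 < D.MM s j + D.deg s * hi s j := by positivity
  have F0 : PowerSeries.constantCoeff F ≠ 0 := by
    rw [e2]
    refine mul_ne_zero (mul_ne_zero (MvPolynomial.C_ne_zero.2 hc₁)
      (pow_ne_zero _ (MvPolynomial.X_ne_zero _)))
      (Finset.prod_ne_zero_iff.2 fun a _ => pow_ne_zero _ fun h0 => ?_)
    have := congrArg (MvPolynomial.eval fun o : Option σ => o.elim (1 : R0 σ k) fun _ => 0) h0
    simp [l0.ne'] at this
  have ex := h3 σ k D.f D.n (hi s j) _ (D.n + hi s j) _ {j} Ψ (ctr s) F b D.hn l0 N0 N0.ne' hΨ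
    (hB.ctr_zero s hs) e1 F0 hb hb'
  rw [e2, Finset.prod_singleton] at ex
  obtain ⟨φ, hφ⟩ : ∃ φ : R0 σ k →+* FractionRing (R0 σ k), Function.Injective φ :=
    ⟨algebraMap _ _, IsFractionRing.injective _ _⟩
  obtain ⟨ψ, hψ⟩ : ∃ ψ : k →+* FractionRing (R0 σ k), ψ = φ.comp MvPowerSeries.C := ⟨_, rfl⟩
  have : CharZero (FractionRing (R0 σ k)) := charZero_of_injective_ringHom ψ.injective
  have ex' := exact_map φ hφ ex
  obtain ⟨q, hq⟩ : ∃ q : R0 σ k → FractionRing (R0 σ k),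
      q = fun a => φ (mono ((hi s).filter (· ∉ ({j} : Finset σ))) * kill {j} (Q a)) := ⟨_, rfl⟩
  obtain ⟨α, hα⟩ : ∃ α : FractionRing (R0 σ k), α = φ (algebraMap k (R0 σ k)
      (((D.n + hi s j : ℕ) : k) / (D.MM s j + D.deg s * hi s j : ℕ))) := ⟨_, rfl⟩
  have hαN : α * (D.MM s j + D.deg s * hi s j : ℕ) = (D.n + hi s j : ℕ) := by
    have : α = ψ (((D.n + hi s j : ℕ) : k) / (D.MM s j + D.deg s * hi s j : ℕ)) := by
      rw [hα, hψ]; rfl
    rw [this, map_div₀, map_natCast, map_natCast, div_mul_cancel₀]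
    exact Nat.cast_ne_zero.2 N0.ne'
  have qq : ∀ a a', q a = q a' ↔ kill {j} (Q a) = kill {j} (Q a') := fun a a' => by
    rw [hq]
    exact ⟨fun h => mul_left_cancel₀ (mono_ne _) (hφ h), fun h => by simp only [h]⟩
  obtain ⟨K, h, e3⟩ := h4 σ (R0 σ k) (FractionRing (R0 σ k)) j D.n (hi s j) (D.MM s j) s q D.m
    (φ c₁) α D.hn (fun h0 => hc₁ (hφ (by rw [h0, map_zero]))) hαN (by
      rw [hα, hq]
      simpa only [map_mul, map_pow, map_prod, map_sub, MvPolynomial.map_C, MvPolynomial.map_X]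
        using ex')
  have hm : ∀ a ∈ s, 0 < D.m a := fun a ha => D.hm a (hs.2.1 ha)
  have two : 2 ≤ (ph s q D.m).roots.toFinset.card := by
    rw [ph_toFinset hm]
    exact Finset.one_lt_card.2 ⟨_, Finset.mem_image_of_mem q h₀, _, Finset.mem_image_of_mem q h₁,
      fun h => hne ((qq _ _).1 h)⟩
  obtain ⟨δ, f1, f2, f3, f4⟩ := h5 (FractionRing (R0 σ k)) (ph s q D.m) h α K _ _ ph_monic ph_card
    two (by have := D.hn; omega) hαN e3
  have dg : (ph s q D.m).natDegree = D.deg s := ph_natDegree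
  rw [dg] at f1
  refine ⟨δ, ?_, ?_, ?_, ?_⟩
  · refine Nat.cast_injective (R := FractionRing (R0 σ k)) ?_
    rw [Nat.cast_mul, Nat.cast_mul (D.n + hi s j), f1, ← hαN]
    ring
  · refine le_trans ?_ f2
    rw [ph_toFinset hm]
    have : s.image q = (s.image fun a => kill {j} (Q a)).image
        fun x => φ (mono ((hi s).filter (· ∉ ({j} : Finset σ))) * x) := by
      rw [Finset.image_image, hq]; rfl
    rw [this]
    exact (Finset.card_image_of_injective _
      fun x y hxy => mul_left_cancel₀ (mono_ne _) (hφ hxy)).ge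
  · intro a ha e4
    have r : (ph s q D.m).IsRoot (q a) := by
      rw [← mem_roots ph_monic.ne_zero, ← Multiset.mem_toFinset, ph_toFinset hm]
      exact Finset.mem_image_of_mem q ha
    refine f3 _ r ?_
    rw [ph_mult, mu_congr fun a' _ => qq a' a]
    have e5 := congrArg (Nat.cast (R := FractionRing (R0 σ k))) e4
    rw [Nat.cast_mul, f1] at e5
    refine mul_right_cancel₀ (b := (D.deg s : FractionRing (R0 σ k))) (Nat.cast_ne_zero.2 d0.ne') ?_
    rw [one_mul]
    conv_rhs => rw [← e5]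
    ring
  · intro ξ τ hξ t1 t2 t3 t4
    have := f4 (ψ ξ) ((map_ne_zero ψ).2 hξ) (ph_comp t1 t2 t3 fun a ha => by
      rw [hq, hψ]
      simp only [t4 a ha, map_mul, RingHom.comp_apply]
      ring)
    exact ψ.injective (by rw [map_pow, this])

/-! ### The shape of the cluster -/

section Shape

variable {D : Dat σ k} {s : Finset (R0 σ k)} {j : σ} {Q : R0 σ k → R0 σ k}

theorem dir_Q (hQ : ∀ a ∈ s, a - ctr s = mono (hi s) * Q a) {a : R0 σ k} (ha : a ∈ s) :
    dir s a = MvPowerSeries.constantCoeff (kill {j} (Q a)) := by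
  rw [dir, hQ a ha, coeff_mono_mul, const_kill]

theorem act_mem {g : σ → ℕ} (hg : D.Stab s g) {a : R0 σ k} (ha : a ∈ s) : D.act g a ∈ s := by
  have : D.act g a ∈ D.acts g s := Finset.mem_image_of_mem _ ha
  rwa [hg] at this

theorem dir_act (hI : CI D) (hs : D.IsCl s) {g : σ → ℕ} (hg : D.Stab s g) (a : R0 σ k) :
    dir s (D.act g a) = D.ε ^ dot g (hi s) * dir s a := by
  have := hI.dir g s a hs
  rwa [hg] at this

theorem eps_ne (D : Dat σ k) (t : ℕ) : D.ε ^ t ≠ 0 := pow_ne_zero _ (D.hε.ne_zero D.hn)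

theorem mu_act (hA : CA D) (hI : CI D) (hs : D.IsCl s) {g : σ → ℕ} (hg : D.Stab s g) (t : k) :
    mu s (dir s) D.m (D.ε ^ dot g (hi s) * t) = mu s (dir s) D.m t :=
  mu_perm hg (hA.act_inj g) (fun a ha => (hA.act_mem g a (hs.2.1 ha)).2)
    (fun a _ => dir_act hI hs hg a) (eps_ne D _) t

theorem Q_act (hA : CA D) (hI : CI D) (hQ : ∀ a ∈ s, a - ctr s = mono (hi s) * Q a)
    (hg : D.Stab s (Pi.single j 1)) {a : R0 σ k} (ha : a ∈ s) :
    kill {j} (Q (D.act (Pi.single j 1) a)) = MvPowerSeries.C (D.ε ^ hi s j) * kill {j} (Q a) := by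
  have h1 := hI.ctr (Pi.single j 1) s
  rw [hg] at h1
  have h2 := congrArg (D.act (Pi.single j 1)) (hQ a ha)
  rw [map_sub, ← h1, hQ _ (act_mem hg ha), map_mul, act_mono hA, dot_single, mul_right_comm,
    mul_comm _ (mono (hi s))] at h2
  rw [mul_left_cancel₀ (mono_ne _) h2, map_mul, kill_C, kill_act]

theorem strict (hA : CA D) (hB : CB D) (hs : D.IsCl s)
    (hQ : ∀ a ∈ s, a - ctr s = mono (hi s) * Q a) {a b : R0 σ k} (ha : a ∈ s) (hb : b ∈ s)
    (hab : a ≠ b) (h : kill {j} (Q a) = kill {j} (Q b)) : hi s j < lam a b j := by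
  obtain ⟨u, hu, e⟩ := hA.spec a (hs.2.1 ha) b (hs.2.1 hb) hab
  have hle := hB.hi_le s hs a ha b hb hab
  have e1 : mono (hi s) * (Q a - Q b) = mono (hi s) * (mono (lam a b - hi s) * u) := by
    rw [← mul_assoc, ← mono_add, add_tsub_cancel_of_le hle, ← e, mul_sub, ← hQ a ha, ← hQ b hb]
    ring
  have e2 := congrArg (kill {j}) (mul_left_cancel₀ (mono_ne _) e1)
  rw [map_sub, h, sub_self, map_mul] at e2
  by_contra hn
  rw [kill_mono j _ (by rw [Finsupp.tsub_apply]; omega)] at e2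
  exact mul_ne_zero (mono_ne _) (hu.map _).ne_zero e2.symm

theorem lam_mem {p : ℕ} (h : ∀ g, D.Stab s g → (D.ε ^ dot g (hi s)) ^ p = 1) :
    p • zc (hi s) ∈ D.Lam s := by
  intro g hg
  have h1 := h g hg
  rw [← pow_mul, D.hε.pow_eq_one_iff_dvd] at h1
  have h2 : ∑ l, (g l : ℤ) * (p • zc (hi s)) l = ((dot g (hi s) * p : ℕ) : ℤ) := by
    simp only [dot, zc, Pi.smul_apply, nsmul_eq_mul, Nat.cast_mul, Nat.cast_sum, Finset.sum_mul]
    exact Finset.sum_congr rfl fun l _ => by ring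
  rw [h2]
  exact Int.natCast_dvd_natCast.2 h1

/-- The case of a non-trivial rotation. -/
theorem bad_two (hA : CA D) (hB : CB D) (hI : CI D) (hs : D.IsCl s)
    (hQ : ∀ a ∈ s, a - ctr s = mono (hi s) * Q a) (hg : D.Stab s (Pi.single j 1)) {p : ℕ}
    (hp : 2 ≤ p) (hM : D.MM s j = 0) (hl : p * hi s j = D.n) {a₀ : R0 σ k} (h₀ : a₀ ∈ s)
    (hd : dir s a₀ ≠ 0) (hR : (s.image fun a => kill {j} (Q a)).card ≤ p + 1) : D.Bad s j := by
  classical
  have hζ : IsPrimitiveRoot (D.ε ^ hi s j) p :=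
    D.hε.pow (Nat.pos_of_ne_zero D.hn) (by rw [← hl, mul_comm])
  obtain ⟨ζ, hζe⟩ : ∃ ζ, ζ = D.ε ^ hi s j := ⟨_, rfl⟩
  obtain ⟨U, hU⟩ : ∃ U, U = s.image fun a => kill {j} (Q a) := ⟨_, rfl⟩
  obtain ⟨u₀, hu₀⟩ : ∃ u, u = kill {j} (Q a₀) := ⟨_, rfl⟩
  rw [← hζe] at hζ
  rw [← hU] at hR
  have ζ0 : ζ ≠ 0 := hζ.ne_zero (by omega)
  have cu : MvPowerSeries.constantCoeff u₀ = dir s a₀ := by rw [hu₀, dir_Q hQ h₀]
  have Uinv : ∀ u ∈ U, MvPowerSeries.C ζ * u ∈ U := by
    intro u hu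
    rw [hU] at hu ⊢
    obtain ⟨a, ha, rfl⟩ := Finset.mem_image.1 hu
    exact Finset.mem_image.2 ⟨_, act_mem hg ha, by rw [Q_act hA hI hQ hg ha, hζe]⟩
  have Upow : ∀ t : ℕ, MvPowerSeries.C (ζ ^ t) * u₀ ∈ U := by
    intro t
    induction t with
    | zero => rw [pow_zero, map_one, one_mul, hU, hu₀]; exact Finset.mem_image_of_mem _ h₀
    | succ t ih => rw [pow_succ', map_mul, mul_assoc]; exact Uinv _ ih
  obtain ⟨O, hO⟩ : ∃ O, O = (Finset.range p).image fun t => MvPowerSeries.C (ζ ^ t) * u₀ :=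
    ⟨_, rfl⟩
  have Omem : ∀ t : ℕ, MvPowerSeries.C (ζ ^ t) * u₀ ∈ O := by
    intro t
    rw [hO, ← pow_mod_orderOf, ← hζ.eq_orderOf]
    exact Finset.mem_image_of_mem _ (Finset.mem_range.2 (Nat.mod_lt _ (by omega)))
  have OU : O ⊆ U := by
    intro u hu
    rw [hO] at hu
    obtain ⟨t, _, rfl⟩ := Finset.mem_image.1 hu
    exact Upow t
  have Ocard : O.card = p := by
    rw [hO, Finset.card_image_of_injOn, Finset.card_range]
    intro t ht t' ht' e
    have e1 := congrArg MvPowerSeries.constantCoeff e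
    simp only [map_mul, MvPowerSeries.constantCoeff_C, cu] at e1
    exact hζ.pow_inj (by simpa using ht) (by simpa using ht') (mul_right_cancel₀ hd e1)
  have key : ∀ a ∈ s, kill {j} (Q a) = 0 ∨ ∃ t < p, kill {j} (Q a) = MvPowerSeries.C (ζ ^ t) * u₀ := by
    intro a ha
    have hu : kill {j} (Q a) ∈ U := by rw [hU]; exact Finset.mem_image_of_mem _ ha
    by_cases hO' : kill {j} (Q a) ∈ O
    · right
      rw [hO] at hO'
      obtain ⟨t, ht, e⟩ := Finset.mem_image.1 hO'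
      exact ⟨t, Finset.mem_range.1 ht, e.symm⟩
    · left
      have h1 : MvPowerSeries.C ζ * kill {j} (Q a) ∉ O := by
        intro h2
        rw [hO] at h2
        obtain ⟨t, _, e⟩ := Finset.mem_image.1 h2
        refine hO' ?_
        have e1 : kill {j} (Q a) = MvPowerSeries.C (ζ ^ (p - 1 + t)) * u₀ := by
          rw [pow_add, map_mul, mul_assoc, e, ← mul_assoc, ← map_mul, ← pow_succ,
            Nat.sub_add_cancel (by omega), hζ.pow_eq_one, map_one, one_mul]
        rw [e1]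
        exact Omem _
      have h2 : (U \ O).card ≤ 1 := by
        rw [Finset.card_sdiff_of_subset OU]; omega
      have h3 := Finset.card_le_one.1 h2 _ (Finset.mem_sdiff.2 ⟨Uinv _ hu, h1⟩) _
        (Finset.mem_sdiff.2 ⟨hu, hO'⟩)
      have h4 : MvPowerSeries.C (ζ - 1) * kill {j} (Q a) = 0 := by
        rw [map_sub, map_one, sub_mul, h3, one_mul, sub_self]
      refine (mul_eq_zero.1 h4).resolve_left fun h5 => ?_
      have h6 := congrArg MvPowerSeries.constantCoeff h5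
      rw [MvPowerSeries.constantCoeff_C, map_zero] at h6
      exact hζ.ne_one (by omega) (sub_eq_zero.1 h6)
  have key' : ∀ a ∈ s, (kill {j} (Q a) = 0 ∧ dir s a = 0) ∨
      ∃ t < p, kill {j} (Q a) = MvPowerSeries.C (ζ ^ t) * u₀ ∧ dir s a = ζ ^ t * dir s a₀ := by
    intro a ha
    rcases key a ha with h | ⟨t, ht, h⟩
    · exact Or.inl ⟨h, by rw [dir_Q (j := j) hQ ha, h, map_zero]⟩
    · exact Or.inr ⟨t, ht, h, by
        rw [dir_Q (j := j) hQ ha, h, map_mul, MvPowerSeries.constantCoeff_C, cu]⟩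
  have nz : ∀ t : ℕ, ζ ^ t * dir s a₀ ≠ 0 := fun t => mul_ne_zero (pow_ne_zero _ ζ0) hd
  have muO : ∀ t : ℕ, mu s (dir s) D.m (ζ ^ t * dir s a₀) = mu s (dir s) D.m (dir s a₀) := by
    intro t
    induction t with
    | zero => rw [pow_zero, one_mul]
    | succ t ih =>
      have := mu_act hA hI hs hg (ζ ^ t * dir s a₀)
      rw [dot_single, ← hζe] at this
      rw [pow_succ', mul_assoc, this, ih]
  refine ⟨p, mu s (dir s) D.m 0, mu s (dir s) D.m (dir s a₀), 0, dir s a₀ ^ p, hM, hl,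
    lam_mem fun g hg' => ?_, pow_ne_zero _ hd, mu_pos h₀ (D.hm _ (hs.2.1 h₀)),
    fun h => by omega, fun _ => rfl, ?_, fun a ha b hb hab e => strict hA hB hs hQ ha hb hab ?_⟩
  · have h1 := dir_act hI hs hg' a₀
    rcases key' _ (act_mem hg' h₀) with ⟨_, h⟩ | ⟨t, _, _, h⟩
    · rw [h] at h1
      exact absurd h1.symm (mul_ne_zero (eps_ne D _) hd)
    · rw [h] at h1
      rw [← mul_right_cancel₀ hd h1, ← pow_mul, mul_comm, pow_mul, hζ.pow_eq_one, one_pow]
  · have h1 : D.PP s = ph s (dir s) D.m := rfl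
    rw [h1, ph_fiber (insert 0 ((Finset.range p).image fun t => ζ ^ t * dir s a₀)),
      Finset.prod_insert, Finset.prod_image, C_0, sub_zero,
      X_pow_sub_C_eq_prod hζ (by omega) (rfl : dir s a₀ ^ p = _), ← Finset.prod_pow]
    · congr 1
      exact Finset.prod_congr rfl fun t _ => by rw [muO]
    · intro t ht t' ht' e
      exact hζ.pow_inj (by simpa using ht) (by simpa using ht') (mul_right_cancel₀ hd e)
    · intro h
      obtain ⟨t, _, e⟩ := Finset.mem_image.1 h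
      exact nz t e
    · intro a ha
      rcases key' a ha with ⟨_, h⟩ | ⟨t, ht, _, h⟩
      · rw [h]; exact Finset.mem_insert_self _ _
      · exact Finset.mem_insert_of_mem (Finset.mem_image.2 ⟨t, Finset.mem_range.2 ht, h.symm⟩)
  · rcases key' a ha with ⟨h, h'⟩ | ⟨t, _, h, h'⟩ <;>
      rcases key' b hb with ⟨k1, k1'⟩ | ⟨t', _, k1, k1'⟩
    · rw [h, k1]
    · exact absurd (k1'.symm.trans (e.symm.trans h')) (nz _)
    · exact absurd (h'.symm.trans (e.trans k1')) (nz _)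
    · rw [h, k1, mul_right_cancel₀ hd (h'.symm.trans (e.trans k1'))]

/-- The case of two directions. -/
theorem bad_one (hA : CA D) (hB : CB D) (hI : CI D) (hs : D.IsCl s)
    (hQ : ∀ a ∈ s, a - ctr s = mono (hi s) * Q a) (hM : D.MM s j = 0) (hl : 1 * hi s j = D.n)
    {a₀ a₁ : R0 σ k} (h₀ : a₀ ∈ s) (h₁ : a₁ ∈ s) (hd : dir s a₀ ≠ dir s a₁)
    (hR : (s.image fun a => kill {j} (Q a)).card ≤ 2)
    (hμ : mu s (fun a => kill {j} (Q a)) D.m (kill {j} (Q a₀)) * 2 ≠ D.deg s) : D.Bad s j := by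
  classical
  have hne : kill {j} (Q a₀) ≠ kill {j} (Q a₁) := fun h => hd (by
    rw [dir_Q (j := j) hQ h₀, dir_Q (j := j) hQ h₁, h])
  have hU : ({kill {j} (Q a₀), kill {j} (Q a₁)} : Finset (R0 σ k)) =
      s.image fun a => kill {j} (Q a) := by
    refine Finset.eq_of_subset_of_card_le ?_ (by rwa [Finset.card_pair hne])
    intro u hu
    rcases Finset.mem_insert.1 hu with h | h
    · rw [h]; exact Finset.mem_image_of_mem _ h₀
    · rw [Finset.mem_singleton.1 h]; exact Finset.mem_image_of_mem _ h₁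
  have key : ∀ a ∈ s, (kill {j} (Q a) = kill {j} (Q a₀) ∧ dir s a = dir s a₀) ∨
      (kill {j} (Q a) = kill {j} (Q a₁) ∧ dir s a = dir s a₁) := by
    intro a ha
    have : kill {j} (Q a) ∈ ({kill {j} (Q a₀), kill {j} (Q a₁)} : Finset (R0 σ k)) := by
      rw [hU]; exact Finset.mem_image_of_mem _ ha
    rcases Finset.mem_insert.1 this with h | h
    · exact Or.inl ⟨h, by rw [dir_Q (j := j) hQ ha, dir_Q (j := j) hQ h₀, h]⟩
    · have h := Finset.mem_singleton.1 h
      exact Or.inr ⟨h, by rw [dir_Q (j := j) hQ ha, dir_Q (j := j) hQ h₁, h]⟩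
  have inj : ∀ a ∈ s, ∀ b ∈ s, dir s a = dir s b → kill {j} (Q a) = kill {j} (Q b) := by
    intro a ha b hb e
    rcases key a ha with ⟨h, h'⟩ | ⟨h, h'⟩ <;> rcases key b hb with ⟨k1, k1'⟩ | ⟨k1, k1'⟩
    · rw [h, k1]
    · exact absurd (h'.symm.trans (e.trans k1')) hd
    · exact absurd (k1'.symm.trans (e.symm.trans h')) hd
    · rw [h, k1]
  have two : ∀ a ∈ s, dir s a = dir s a₀ ∨ dir s a = dir s a₁ := fun a ha =>
    (key a ha).imp And.right And.right
  have sum : mu s (dir s) D.m (dir s a₀) + mu s (dir s) D.m (dir s a₁) = D.deg s := mu_two hd two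
  have e0 : mu s (fun a => kill {j} (Q a)) D.m (kill {j} (Q a₀)) = mu s (dir s) D.m (dir s a₀) :=
    mu_congr fun a ha => ⟨fun h => by rw [dir_Q (j := j) hQ ha, dir_Q (j := j) hQ h₀, h],
      inj a ha a₀ h₀⟩
  have dif : mu s (dir s) D.m (dir s a₀) ≠ mu s (dir s) D.m (dir s a₁) := by
    rw [e0] at hμ; omega
  refine ⟨1, mu s (dir s) D.m (dir s a₀), mu s (dir s) D.m (dir s a₁), dir s a₀,
    dir s a₁ - dir s a₀, hM, hl, lam_mem fun g hg => ?_, sub_ne_zero.2 hd.symm,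
    mu_pos h₁ (D.hm _ (hs.2.1 h₁)), fun _ => mu_pos h₀ (D.hm _ (hs.2.1 h₀)), fun h => by omega, ?_,
    fun a ha b hb hab e => strict hA hB hs hQ ha hb hab (inj a ha b hb e)⟩
  · have f0 : D.ε ^ dot g (hi s) * dir s a₀ = dir s a₀ := by
      have h1 := mu_act hA hI hs hg (dir s a₀)
      rw [← dir_act hI hs hg] at h1 ⊢
      refine (two _ (act_mem hg h₀)).resolve_right fun h => dif ?_
      rw [← h1, h]
    have f1 : D.ε ^ dot g (hi s) * dir s a₁ = dir s a₁ := by
      have h1 := mu_act hA hI hs hg (dir s a₁)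
      rw [← dir_act hI hs hg] at h1 ⊢
      refine (two _ (act_mem hg h₁)).resolve_left fun h => dif ?_
      rw [← h1, h]
    rw [pow_one]
    refine mul_right_cancel₀ (sub_ne_zero.2 hd) ?_
    rw [mul_sub, f0, f1, one_mul]
  · have h1 : D.PP s = ph s (dir s) D.m := rfl
    rw [h1, ph_fiber {dir s a₀, dir s a₁}, Finset.prod_pair hd, pow_one, C_sub]
    · congr 2
      ring
    · intro a ha
      rcases two a ha with h | h <;> simp [h]

end Shape

end RootBP

open RootBP in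
theorem p_RootB (h : S_CA) (hB : S_CB) (hI : S_CI) (hC : S_CC) (hH : S_Half) (h1 : S_Psi)
    (h2 : S_Init) (h3 : S_Chart) (h4 : S_Sl1) (h5 : S_Ex1) : S_RootB := by
  intro σ k _ _ _ _ _ D s j hs hc hj hbad b hb
  have hA : CA D := h _ _ D
  have hB' : CB D := hB _ _ D
  have hI' : CI D := hI _ _ D
  have _hC' : CC D := hC _ _ D
  by_contra hb'
  refine hbad ?_
  have hQ : ∀ a, ∃ x, a ∈ s → a - ctr s = mono (hi s) * x := fun a => by
    by_cases ha : a ∈ s
    · obtain ⟨x, hx⟩ := hB'.dvd_ctr s hs a ha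
      exact ⟨x, fun _ => hx⟩
    · exact ⟨0, fun h => absurd h ha⟩
  choose Q hQ using hQ
  obtain ⟨a₀, a₁, h₀, h₁, hd, hd0⟩ : ∃ a₀ a₁, a₀ ∈ s ∧ a₁ ∈ s ∧ dir s a₀ ≠ dir s a₁ ∧
      dir s a₀ ≠ 0 := by
    obtain ⟨a, ha⟩ := hs.1
    obtain ⟨a', ha', hne, e⟩ := hB'.hi_att s hs hc a ha
    have hd : dir s a ≠ dir s a' := fun h' => by
      rcases (hB'.dir_eq s hs a ha a' ha').1 h' with h'' | h''
      · exact hne h''
      · rw [e] at h''; exact lt_irrefl _ h''
    by_cases h0 : dir s a = 0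
    · exact ⟨a', a, ha', ha, hd.symm, fun h' => hd (h0.trans h'.symm)⟩
    · exact ⟨a, a', ha, ha', hd, h0⟩
  have hne : kill {j} (Q a₀) ≠ kill {j} (Q a₁) := fun h' => hd (by
    rw [dir_Q (j := j) hQ h₀, dir_Q (j := j) hQ h₁, h'])
  obtain ⟨δ, e1, e2, e3, e4⟩ := delta hB' h1 (h2 _ _ D) h3 h4 h5 hs hc hj hQ h₀ h₁ hne hb hb'
  have two : 2 ≤ δ := le_trans (Finset.one_lt_card.2 ⟨_, Finset.mem_image_of_mem _ h₀, _,
    Finset.mem_image_of_mem _ h₁, hne⟩) e2
  have l0 : 0 < hi s j := lt_of_le_of_lt (Nat.zero_le _) hj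
  have d0 := hB'.deg_pos s hs
  have dl : 0 < D.deg s * hi s j := Nat.mul_pos d0 l0
  by_cases hg : D.Stab s (Pi.single j 1)
  · have e5 := e4 (D.ε ^ hi s j) (D.act (Pi.single j 1)) (eps_ne D _) hg (hA.act_inj _)
      (fun a ha => (hA.act_mem _ a (hs.2.1 ha)).2) fun a ha => Q_act hA hI' hQ hg ha
    obtain ⟨p, rfl⟩ : ∃ p, δ = p + 1 := ⟨δ - 1, by omega⟩
    have e6 : (D.ε ^ hi s j) ^ p = 1 :=
      mul_right_cancel₀ (eps_ne D (hi s j)) (by rw [← pow_succ, e5, one_mul])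
    rw [← pow_mul, D.hε.pow_eq_one_iff_dvd] at e6
    have e7 : D.n ≤ hi s j * p := Nat.le_of_dvd (Nat.mul_pos l0 (by omega)) e6
    have e8 : D.n * D.deg s ≤ hi s j * p * D.deg s := Nat.mul_le_mul_right _ e7
    have e9 : (p + 1) * D.MM s j + hi s j * p * D.deg s = D.n * D.deg s := by nlinarith
    have hM : D.MM s j = 0 := by
      have : (p + 1) * D.MM s j = 0 := by omega
      simpa using this
    have hl : p * hi s j = D.n := by
      rw [hM, mul_zero, zero_add] at e9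
      rw [mul_comm]
      exact Nat.eq_of_mul_eq_mul_right d0 e9
    rcases Nat.lt_or_ge p 2 with hp | hp
    · obtain rfl : p = 1 := by omega
      exact bad_one hA hB' hI' hs hQ hM hl h₀ h₁ hd e2 (e3 a₀ h₀)
    · exact bad_two hA hB' hI' hs hQ hg hp hM hl h₀ hd0 e2
  · exfalso
    have e5 := hH _ _ D s j hs hc hj hg
    have e6 := Nat.mul_le_mul_right (D.MM s j + D.deg s * hi s j) two
    nlinarith

end

end Pool.Agent.P.MP_b91a16_ag.Qo
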