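import Pool.Agent.P.MP_b91a16_ag.Qo.BadZ

/-! Quasi-ordinary polynomials: a cluster with two bad rays gives a root. -/

set_option linter.unusedSectionVars false

open Polynomial

namespace Pool.Agent.P.MP_b91a16_ag.Qo

noncomputable section

namespace RootCP

section Gen

theorem roots_prod_map {k A ι : Type} [Field k] [CommMonoid A] (F : k → A) (s : Finset ι)
    (d : ι → k) (m : ι → ℕ) :
    ((∏ a ∈ s, (X - C (d a)) ^ m a : k[X]).roots.map F).prod = ∏ a ∈ s, F (d a) ^ m a := by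
  classical
  induction s using Finset.induction_on with
  | empty => simp
  | insert a s ha ih =>
    have h1 : ((X - C (d a)) ^ m a : k[X]).Monic := (monic_X_sub_C _).pow _
    have h2 : (∏ a ∈ s, (X - C (d a)) ^ m a : k[X]).Monic :=
      monic_prod_of_monic _ _ fun a _ => (monic_X_sub_C _).pow _
    rw [Finset.prod_insert ha, Finset.prod_insert ha, roots_mul (h1.mul h2).ne_zero,
      Multiset.map_add, Multiset.prod_add, ih, roots_pow, roots_X_sub_C, Multiset.map_nsmul,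
      Multiset.prod_nsmul, Multiset.map_singleton, Multiset.prod_singleton]

theorem pow_sub {k A : Type} [Field k] [CommRing A] [IsDomain A] (φ : k →+* A) {ζ : k} {p : ℕ}
    (hζ : IsPrimitiveRoot ζ p) (hp : 0 < p) (u v : A) :
    u ^ p - v ^ p = ∏ j ∈ Finset.range p, (u - φ ζ ^ j * v) := by
  have h := congrArg (eval u)
    (X_pow_sub_C_eq_prod (hζ.map_of_injective φ.injective) hp (rfl : v ^ p = v ^ p))
  simpa [eval_prod] using h

/-- Regrouping a product over the roots of `(X - c₁)^m₀ ((X - c₁)^p - x^p)^e`. -/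
theorem regroup {k A ι : Type} [Field k] [CommMonoid A] (F : k → A) (s : Finset ι) (d : ι → k)
    (m : ι → ℕ) {ζ : k} {p : ℕ} (hζ : IsPrimitiveRoot ζ p) (hp : 0 < p) (c₁ x : k) (m₀ e : ℕ)
    (h : (∏ a ∈ s, (X - C (d a)) ^ m a : k[X]) =
      (X - C c₁) ^ m₀ * ((X - C c₁) ^ p - C (x ^ p)) ^ e) :
    ∏ a ∈ s, F (d a) ^ m a = F c₁ ^ m₀ * (∏ j ∈ Finset.range p, F (c₁ + ζ ^ j * x)) ^ e := by
  have h1 : ((X - C c₁) ^ p - C (x ^ p) : k[X]) ^ e =
      ∏ j ∈ Finset.range p, (X - C (c₁ + ζ ^ j * x)) ^ e := by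
    rw [C_pow, pow_sub (C : k →+* k[X]) hζ hp, Finset.prod_pow]
    congr 1
    refine Finset.prod_congr rfl fun j _ => ?_
    rw [C_add, C_mul, C_pow]
    ring
  have h2 : ((X - C c₁) ^ m₀ : k[X]).Monic := (monic_X_sub_C _).pow _
  have h3 : (∏ j ∈ Finset.range p, (X - C (c₁ + ζ ^ j * x)) ^ e : k[X]).Monic :=
    monic_prod_of_monic _ _ fun a _ => (monic_X_sub_C _).pow _
  rw [← roots_prod_map F s d m, h, h1, roots_mul (h2.mul h3).ne_zero, Multiset.map_add,
    Multiset.prod_add, roots_prod_map F _ (fun j => c₁ + ζ ^ j * x) fun _ => e, roots_pow,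
    roots_X_sub_C, Multiset.map_nsmul, Multiset.prod_nsmul, Multiset.map_singleton,
    Multiset.prod_singleton, Finset.prod_pow]

end Gen

variable {σ k : Type} [Fintype σ] [DecidableEq σ] [Field k]

theorem exact_map {B B' : Type} [CommRing B] [CommRing B'] (φ : B →+* B')
    (hφ : Function.Injective φ) {V : Finset σ} {J F : MvPolynomial (Option σ) B} {α : B}
    (h : Exact V J F α) :
    Exact V (MvPolynomial.map φ J) (MvPolynomial.map φ F) (φ α) := by
  obtain ⟨K, g, c, hc, h⟩ := h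
  refine ⟨K, fun v => MvPolynomial.map φ (g v), φ c, fun h0 => hc (hφ (by rw [h0, map_zero])), ?_⟩
  have h1 := congrArg (MvPolynomial.map φ) h
  simp only [map_mul, map_pow, map_sum, map_sub, MvPolynomial.map_C, map_add φ,
    map_natCast φ] at h1
  simp only [MvPolynomial.pderiv_map]
  exact h1

theorem coeff_mono (μ : σ →₀ ℕ) (u : R0 σ k) :
    MvPowerSeries.coeff μ (mono μ * u) = MvPowerSeries.constantCoeff u := by
  have h := MvPowerSeries.coeff_add_monomial_mul μ 0 u (1 : k)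
  rw [add_zero, one_mul] at h
  exact h

theorem mono_ne (μ : σ →₀ ℕ) : (mono μ : R0 σ k) ≠ 0 := fun h => by
  have := congrArg (MvPowerSeries.coeff μ) h
  simp [mono, MvPowerSeries.coeff_monomial_same] at this

theorem mono_split {μ ν : σ →₀ ℕ} (h : μ ≤ ν) :
    (mono ν : R0 σ k) = mono μ * mono (ν - μ) := by
  unfold mono
  rw [MvPowerSeries.monomial_mul_monomial, one_mul, add_tsub_cancel_of_le h]

theorem cc_kill (V : Finset σ) (a : R0 σ k) :
    MvPowerSeries.constantCoeff (kill V a) = MvPowerSeries.constantCoeff a := by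
  rw [← MvPowerSeries.coeff_zero_eq_constantCoeff_apply, kill, MvPowerSeries.coeff_rescale]
  simp

theorem kill_mono {V : Finset σ} {i : σ} (hi : i ∈ V) {μ : σ →₀ ℕ} (h : μ i ≠ 0) :
    kill V (mono μ : R0 σ k) = 0 := by
  ext ν
  rw [kill, MvPowerSeries.coeff_rescale, map_zero]
  by_cases e : ν = μ
  · subst e
    rw [Finsupp.prod_fintype _ _ (by simp), Finset.prod_eq_zero (Finset.mem_univ i), zero_mul]
    rw [if_pos hi, zero_pow h]
  · rw [mono, MvPowerSeries.coeff_monomial_ne e, mul_zero]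

theorem kill_C (V : Finset σ) (c : k) :
    kill V (MvPowerSeries.C c : R0 σ k) = MvPowerSeries.C c := by
  ext ν
  rw [kill, MvPowerSeries.coeff_rescale]
  by_cases e : ν = 0
  · subst e
    simp
  · rw [MvPowerSeries.coeff_C, if_neg e, mul_zero]

variable {D : Dat σ k}

theorem kill_act {V : Finset σ} {i : σ} (hi : i ∈ V) (t : ℕ) (a : R0 σ k) :
    kill V (D.act (Pi.single i t) a) = kill V a := by
  unfold kill Dat.act
  rw [MvPowerSeries.rescale_rescale]
  refine congrArg (fun t : σ → k => MvPowerSeries.rescale t a) (funext fun j => ?_)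
  rw [Pi.mul_apply]
  by_cases e : j = i
  · subst e
    rw [if_pos hi, mul_zero]
  · rw [Pi.single_eq_of_ne e, pow_zero, one_mul]

theorem act_mono (A : CA D) (g : σ → ℕ) (μ : σ →₀ ℕ) :
    D.act g (mono μ) = mono μ * MvPowerSeries.C (D.ε ^ dot g μ) := by
  ext ν
  rw [A.coeff_act, MvPowerSeries.coeff_mul_C]
  by_cases h : ν = μ
  · subst h; ring
  · simp [mono, MvPowerSeries.coeff_monomial, h]

/-- The leading series of a root depends only on its direction. -/
theorem kill_congr (A : CA D) (B : CB D) {s : Finset (R0 σ k)} (hs : D.IsCl s) {V : Finset σ}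
    {i : σ} (hV : i ∈ V) {c : R0 σ k} {Q : R0 σ k → R0 σ k}
    (hQ : ∀ a ∈ s, a - c = mono (hi s) * Q a)
    (hd : ∀ a ∈ s, ∀ b ∈ s, a ≠ b → dir s a = dir s b → hi s i < lam a b i)
    {a b : R0 σ k} (ha : a ∈ s) (hb : b ∈ s) (e : dir s a = dir s b) :
    kill V (Q a) = kill V (Q b) := by
  by_cases hab : a = b
  · rw [hab]
  obtain ⟨u, -, hu⟩ := A.spec a (hs.2.1 ha) b (hs.2.1 hb) hab
  have h1 : mono (hi s) * (Q a - Q b) = mono (hi s) * (mono (lam a b - hi s) * u) := by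
    rw [← mul_assoc, ← mono_split (B.hi_le s hs a ha b hb hab), ← hu, mul_sub, ← hQ a ha,
      ← hQ b hb]
    ring
  have h2 := congrArg (kill V) (mul_left_cancel₀ (mono_ne _) h1)
  have h3 : (lam a b - hi s) i ≠ 0 := by
    have := hd a ha b hb hab e
    rw [Finsupp.tsub_apply]
    omega
  rw [map_sub, map_mul, kill_mono hV h3, zero_mul] at h2
  exact sub_eq_zero.1 h2

/-- The centre of the deformation and the leading series of the roots. -/
theorem centre (A : CA D) (B : CB D) (I : CI D) (Cc : CC D) {s : Finset (R0 σ k)} (hs : D.IsCl s)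
    {V : Finset σ} {i : σ} (hV : i ∈ V) {p m₀ e : ℕ} {c₁ c : k} (hb : D.BadD s i p m₀ e c₁ c) :
    ∃ (c₀ : R0 σ k) (Q : R0 σ k → R0 σ k), MvPowerSeries.constantCoeff c₀ = 0 ∧
      mono (hi s) ∣ c₀ - ctr s ∧ (∀ a ∈ s, a - c₀ = mono (hi s) * Q a) ∧
      (∀ a ∈ s, MvPowerSeries.constantCoeff (Q a) = dir s a - c₁) ∧
      (∀ a ∈ s, dir s a = c₁ → kill V (Q a) = 0) ∧
      ∀ a ∈ s, ∀ j < p, ∃ b ∈ s, dir s b = c₁ + (D.ε ^ hi s i) ^ j * (dir s a - c₁) ∧
        kill V (Q b) = MvPowerSeries.C ((D.ε ^ hi s i) ^ j) * kill V (Q a) := by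
  obtain ⟨hM, hpn, -, -, -, hp1, hp2, hP, hd⟩ := hb
  have hp : p ≠ 0 := by
    rintro rfl
    exact D.hn (by simpa using hpn.symm)
  choose! R hR using B.dvd_ctr s hs
  have hc : ∀ a ∈ s, MvPowerSeries.constantCoeff (R a) = dir s a := fun a ha => by
    rw [dir, hR a ha, coeff_mono]
  rcases Nat.lt_or_ge p 2 with h1 | h2
  · obtain rfl : p = 1 := by omega
    obtain ⟨a₀, ha₀, h₀⟩ := (BadZP.root_PP hs c₁).1 (by simp [hP, (hp1 rfl).ne'])
    have hQ : ∀ a ∈ s, a - a₀ = mono (hi s) * (R a - R a₀) := fun a ha => by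
      rw [mul_sub, ← hR a ha, ← hR a₀ ha₀]
      ring
    refine ⟨a₀, fun a => R a - R a₀, D.h0 a₀ (hs.2.1 ha₀), ⟨_, hR a₀ ha₀⟩, hQ, fun a ha => ?_,
      fun a ha h => ?_, fun a ha j hj => ⟨a, ha, ?_, ?_⟩⟩
    · rw [map_sub, hc a ha, hc a₀ ha₀, h₀]
    · rw [kill_congr A B hs hV hQ hd ha ha₀ (h.trans h₀.symm), sub_self, map_zero]
    · obtain rfl : j = 0 := by omega
      ring
    · obtain rfl : j = 0 := by omega
      simp
  · obtain rfl := hp2 h2
    have hst : ∀ t, D.Stab s (Pi.single i t) := BadZP.stab_single A I (Cc.stab s hs i hM)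
    have key : ∀ a ∈ s, ∀ j, ∃ b ∈ s, dir s b = (D.ε ^ hi s i) ^ j * dir s a ∧
        kill V (R b) = MvPowerSeries.C ((D.ε ^ hi s i) ^ j) * kill V (R a) := by
      intro a ha j
      have hg : D.acts (Pi.single i j) s = s := hst j
      have hm : D.act (Pi.single i j) a ∈ s := by
        rw [← hg]
        exact Finset.mem_image_of_mem _ ha
      have hε : D.ε ^ dot (Pi.single i j) (hi s) = (D.ε ^ hi s i) ^ j := by
        rw [BadZP.dot_single, ← pow_mul, mul_comm]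
      refine ⟨_, hm, ?_, ?_⟩
      · rw [← hε, ← I.dir _ s a hs, hg]
      · have h3 := congrArg (D.act (Pi.single i j)) (hR a ha)
        rw [map_sub, map_mul, ← I.ctr, hg, hR _ hm, act_mono A, mul_assoc, hε] at h3
        rw [mul_left_cancel₀ (mono_ne _) h3, map_mul, kill_C, kill_act hV]
    refine ⟨ctr s, R, B.ctr_zero s hs, by simp, hR, fun a ha => by rw [hc a ha, sub_zero],
      fun a ha h => ?_, fun a ha j _ => ?_⟩
    · obtain ⟨b, hb, e1, e2⟩ := key a ha 1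
      rw [h, mul_zero] at e1
      rw [kill_congr A B hs hV hR hd hb ha (e1.trans h.symm), pow_one] at e2
      have h4 : D.ε ^ hi s i ≠ 1 := fun h5 => by
        have h6 := (D.hε.pow_eq_one_iff_dvd _).1 h5
        have h7 : 0 < hi s i := Nat.pos_of_ne_zero fun h8 => D.hn (by rw [← hpn, h8, mul_zero])
        have h8 := Nat.le_of_dvd h7 h6
        nlinarith
      have h5 : (MvPowerSeries.C (1 - D.ε ^ hi s i) : R0 σ k) * kill V (R a) = 0 := by
        rw [map_sub, map_one, sub_mul, one_mul, ← e2, sub_self]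
      refine (mul_eq_zero.1 h5).resolve_left fun h6 => h4 ?_
      have h7 := congrArg MvPowerSeries.constantCoeff h6
      rw [MvPowerSeries.constantCoeff_C, map_zero] at h7
      exact (sub_eq_zero.1 h7).symm
    · simpa only [zero_add, sub_zero] using key a ha j

/-- The initial form at a bad cluster. -/
theorem form [IsAlgClosed k] (A : CA D) (B : CB D) (I : CI D) (Cc : CC D)
    {s : Finset (R0 σ k)} (hs : D.IsCl s) {V : Finset σ} {i : σ} (hV : i ∈ V) {p m₀ e : ℕ}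
    {c₁ c : k} (hb : D.BadD s i p m₀ e c₁ c) :
    ∃ (c₀ : R0 σ k) (Q : R0 σ k → R0 σ k) (q : R0 σ k), MvPowerSeries.constantCoeff c₀ = 0 ∧
      mono (hi s) ∣ c₀ - ctr s ∧ (∀ a ∈ s, a - c₀ = mono (hi s) * Q a) ∧ q ≠ 0 ∧
      ∀ (μ : R0 σ k) (Z W : P0 σ k),
        ∏ a ∈ s, (Z - MvPolynomial.C (μ * kill V (Q a)) * W) ^ D.m a =
          Z ^ m₀ * (Z ^ p - MvPolynomial.C ((μ * q) ^ p) * W ^ p) ^ e := by
  classical
  have _ : IsDomain (R0 σ k) := NoZeroDivisors.to_isDomain _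
  obtain ⟨c₀, Q, h1, h2, h3, h4, h5, h6⟩ := centre A B I Cc hs hV hb
  obtain ⟨-, hpn, -, hc, he, -, -, hP, hd⟩ := hb
  have hp : 0 < p := Nat.pos_of_ne_zero fun h => D.hn (by rw [← hpn, h, zero_mul])
  have hζ : IsPrimitiveRoot (D.ε ^ hi s i) p :=
    D.hε.pow (Nat.pos_of_ne_zero D.hn) (by rw [← hpn, mul_comm])
  obtain ⟨x, rfl⟩ := IsAlgClosed.exists_pow_nat_eq c hp
  obtain ⟨a₁, ha₁, hx⟩ := (BadZP.root_PP hs (c₁ + x)).1 (by simp [hP, he.ne'])
  have hx' : dir s a₁ - c₁ = x := by rw [hx, add_sub_cancel_left]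
  refine ⟨c₀, Q, kill V (Q a₁), h1, h2, h3, fun h => hc ?_, fun μ Z W => ?_⟩
  · rw [← hx', ← h4 a₁ ha₁, ← cc_kill V, h, map_zero, zero_pow hp.ne']
  let τ : k → R0 σ k := fun y => if h : ∃ a ∈ s, dir s a = y then kill V (Q h.choose) else 0
  have hτ : ∀ a ∈ s, τ (dir s a) = kill V (Q a) := fun a ha => by
    have h : ∃ b ∈ s, dir s b = dir s a := ⟨a, ha, rfl⟩
    simp only [τ, dif_pos h]
    exact kill_congr A B hs hV h3 hd h.choose_spec.1 ha h.choose_spec.2
  have hτ0 : τ c₁ = 0 := by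
    by_cases h : ∃ a ∈ s, dir s a = c₁
    · simp only [τ, dif_pos h]
      exact h5 _ h.choose_spec.1 h.choose_spec.2
    · simp only [τ, dif_neg h]
  have hr := regroup (fun y => Z - MvPolynomial.C (μ * τ y) * W) s (dir s) D.m hζ hp c₁ x m₀ e hP
  rw [Finset.prod_congr rfl fun a ha => by rw [hτ a ha]] at hr
  rw [hr, hτ0, mul_zero, map_zero, zero_mul, sub_zero, map_pow, ← mul_pow,
    pow_sub ((MvPolynomial.C : R0 σ k →+* P0 σ k).comp MvPowerSeries.C) hζ hp]
  refine congrArg (fun t : P0 σ k => Z ^ m₀ * t ^ e) (Finset.prod_congr rfl fun j hj => ?_)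
  obtain ⟨b, hb, e1, e2⟩ := h6 a₁ ha₁ j (Finset.mem_range.1 hj)
  rw [hx'] at e1
  rw [← e1, hτ b hb, e2]
  simp only [map_mul, map_pow, RingHom.comp_apply]
  ring

theorem p_dvd (Cc : CC D) {s : Finset (R0 σ k)} (hs : D.IsCl s) {i i' : σ}
    {p m₀ e p' m₀' e' : ℕ} {c₁ c c₁' c' : k} (hb : D.BadD s i p m₀ e c₁ c)
    (hb' : D.BadD s i' p' m₀' e' c₁' c') : p' ∣ p := by
  have h1 := hb.2.2.1 _ (Cc.stab s hs i' hb'.1)
  rw [BadZP.sum_single] at h1
  have hn := hb'.2.1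
  have h2 : 0 < hi s i' := Nat.pos_of_ne_zero fun h => D.hn (by rw [← hn, h, mul_zero])
  simp only [Nat.cast_one, one_mul, Pi.smul_apply, nsmul_eq_mul, zc] at h1
  rw [← hn] at h1
  exact Nat.dvd_of_mul_dvd_mul_right h2 (by exact_mod_cast h1)

end RootCP

open RootCP

theorem p_RootC (h : S_CA) (hB : S_CB) (hI : S_CI) (hC : S_CC) (h1 : S_Psi) (h2 : S_Init)
    (h3 : S_Chart) (h4 : S_Sl2) : S_RootC := by
  intro σ k _ _ _ _ _ D s i i' hs hc hii ⟨p, m₀, e, c₁, c, hb⟩ ⟨p', m₀', e', c₁', c', hb'⟩ b hLB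
  have A : CA D := h _ _ D
  have B : CB D := hB _ _ D
  have I : CI D := hI _ _ D
  have Cc : CC D := hC _ _ D
  have _ : IsDomain (R0 σ k) := NoZeroDivisors.to_isDomain _
  obtain rfl : p' = p := Nat.dvd_antisymm (p_dvd Cc hs hb hb') (p_dvd Cc hs hb' hb)
  obtain ⟨c₀, Q, q, e1, e2, e3, hq, e4⟩ :=
    form A B I Cc hs (V := {i, i'}) (Finset.mem_insert_self _ _) hb
  obtain ⟨hM, hpn, -, hc0, he, hp1, -, hP, -⟩ := hb
  obtain ⟨hM', hpn', -⟩ := hb'
  have hp : p' ≠ 0 := fun h => D.hn (by rw [← hpn, h, zero_mul])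
  have hl : hi s i ≠ 0 := fun h => D.hn (by rw [← hpn, h, mul_zero])
  have hll : hi s i' = hi s i :=
    Nat.eq_of_mul_eq_mul_left (Nat.pos_of_ne_zero hp) (hpn'.trans hpn.symm)
  have hdeg : D.deg s = m₀ + p' * e := by rw [← BadZP.nd_PP, hP, BadZP.nd hp c₁ hc0]
  have hd0 := B.deg_pos s hs
  obtain ⟨Ψ, hΨ⟩ := h1 σ k {i, i'}
  have hw : 0 < ∑ v ∈ ({i, i'} : Finset σ), hi s v := by
    rw [Finset.sum_pair hii]
    omega
  obtain ⟨F, c₂, hc₂, hF, hF0⟩ := h2 _ _ D {i, i'} Ψ s c₀ Q hΨ hs e2 (B.lo_lt s hs hc)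
    (by rw [Finset.sum_pair hii, B.lo_supp s hs i hM, B.lo_supp s hs i' hM']; exact hw) e3
  rw [e4, Finset.prod_pair hii, Finset.prod_pair hii, hM, hM', hll, pow_zero, pow_zero, mul_one,
    mul_one, ← mul_pow, ← pow_mul, mul_comm (hi s i) p', hpn, ← mul_assoc] at hF0
  by_contra hne
  have hF1 : PowerSeries.constantCoeff F ≠ 0 := by
    rw [hF0]
    refine mul_ne_zero (mul_ne_zero (MvPolynomial.C_ne_zero.2 hc₂)
      (pow_ne_zero _ (MvPolynomial.X_ne_zero _))) (pow_ne_zero _ fun h0 => ?_)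
    have h5 := congrArg (MvPolynomial.eval fun o : Option σ => o.elim (1 : R0 σ k) fun _ => 0) h0
    simp [D.hn] at h5
  have hb0 : D.MM s i + D.deg s * hi s i ≠ 0 :=
    (Nat.add_pos_right _ (Nat.mul_pos hd0 (Nat.pos_of_ne_zero hl))).ne'
  have hE := h3 σ k D.f D.n _ _ (D.n + hi s i) (D.MM s i + D.deg s * hi s i) {i, i'} Ψ c₀ F b D.hn
    hw (Nat.add_pos_right _ (Nat.mul_pos hd0 hw)) hb0 hΨ e1 hF hF1 hLB hne
  let φ : R0 σ k →+* FractionRing (R0 σ k) := algebraMap _ _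
  have hφ : Function.Injective φ := IsFractionRing.injective _ _
  let ψ : k →+* FractionRing (R0 σ k) := φ.comp (algebraMap k (R0 σ k))
  have _ : CharZero (FractionRing (R0 σ k)) := charZero_of_injective_ringHom ψ.injective
  have hE' := exact_map φ hφ hE
  rw [hF0, Finset.prod_pair hii, ← mul_pow] at hE'
  simp only [map_mul, map_pow, map_sub, MvPolynomial.map_C, MvPolynomial.map_X] at hE'
  refine h4 σ (FractionRing (R0 σ k)) i i' D.n p' m₀ e (φ c₂)
    ((φ (mono ((hi s).filter (· ∉ ({i, i'} : Finset σ)))) * φ q) ^ p')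
    (ψ (((D.n + hi s i : ℕ) : k) / (D.MM s i + D.deg s * hi s i : ℕ))) hii D.hn hp he.ne' hp1
    (fun h0 => hc₂ (hφ (by rw [h0, map_zero]))) (pow_ne_zero _ (mul_ne_zero
      (fun h0 => mono_ne _ (hφ (by rw [h0, map_zero]))) fun h0 => hq (hφ (by rw [h0, map_zero]))))
    ?_ ?_
  · rw [← map_natCast ψ, ← map_natCast ψ, ← map_mul, ← hdeg]
    refine congrArg ψ ?_
    have h5 : ((D.MM s i + D.deg s * hi s i : ℕ) : k) ≠ 0 := Nat.cast_ne_zero.2 hb0
    rw [div_mul_eq_mul_div, div_eq_iff h5, hM, ← hpn]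
    push_cast
    ring
  · simp only [map_mul, map_pow]
    exact hE'

end

end Pool.Agent.P.MP_b91a16_ag.Qo
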