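import Pool.Agent.P.MP_b91a16_ag.Qo.Spec

/-! Slicing an exact form to one variable, and the degree count in one variable. -/

open Polynomial

namespace Pool.Agent.P.MP_b91a16_ag.Qo

noncomputable section

namespace Sl1P

variable {L : Type} [Field L]

/-- The derivative of the coefficients. -/
def Dx : Derivation ℤ L[X][X] L[X][X] :=
  @Differential.mapCoeffs L[X] _ ⟨derivative'.restrictScalars ℤ⟩

theorem coeff_Dx (p : L[X][X]) (i : ℕ) : (Dx p).coeff i = derivative (p.coeff i) := rfl

theorem Dx_mul (p q : L[X][X]) : Dx (p * q) = p * Dx q + q * Dx p := Dx.leibniz p q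

theorem Dx_mon (a : L[X]) (d : ℕ) : Dx (C a * X ^ d) = C (derivative a) * X ^ d := by
  ext1 i
  rw [coeff_Dx, coeff_C_mul_X_pow, coeff_C_mul_X_pow]
  split_ifs <;> simp

theorem X_der {R : Type} [CommRing R] (p : R[X]) (d : ℕ) :
    p * derivative (p ^ d) = C (d : R) * p ^ d * derivative p := by
  cases d with
  | zero => simp
  | succ d => rw [derivative_pow_succ]; push_cast; ring

theorem coeff_X_der {R : Type} [CommRing R] (p : R[X]) (d : ℕ) :
    (X * derivative p).coeff d = d * p.coeff d := by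
  cases d with
  | zero => simp
  | succ d => rw [coeff_X_mul, coeff_derivative]; push_cast; ring

variable {σ : Type} [DecidableEq σ]

/-- The weighted substitution. -/
def wsub (L : Type) [Field L] (j : σ) (l : ℕ) : MvPolynomial (Option σ) L →ₐ[L] L[X][X] :=
  MvPolynomial.aeval fun v => v.elim (C X * X ^ l) fun i => if i = j then X else 0

variable {j : σ} {l : ℕ}

theorem th_C (a : L) : wsub L j l (MvPolynomial.C a) = C (C a) := by simp [wsub]

theorem th_none : wsub L j l (MvPolynomial.X none) = C X * X ^ l := by simp [wsub]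

theorem th_some (i : σ) : wsub L j l (MvPolynomial.X (some i)) = if i = j then X else 0 := by
  simp [wsub]

theorem Dx_X : Dx (X : L[X][X]) = 0 := by simpa using Dx_mon (1 : L[X]) 1

theorem Dx_CC (a : L) : Dx (C (C a)) = 0 := by simpa using Dx_mon (C a) 0

theorem th_d0 (H : MvPolynomial (Option σ) L) :
    X ^ l * wsub L j l (MvPolynomial.pderiv none H) = Dx (wsub L j l H) := by
  induction H using MvPolynomial.induction_on with
  | C a => rw [th_C, Dx_CC]; simp
  | add p q hp hq => simp only [map_add, mul_add, hp, hq]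
  | mul_X p v hp =>
    rw [MvPolynomial.pderiv_mul, map_add, map_mul, map_mul, map_mul, Dx_mul, ← hp]
    cases v with
    | none => rw [th_none, Dx_mon]; simp; ring
    | some i =>
      rw [th_some, MvPolynomial.pderiv_X_of_ne (by simp)]
      split_ifs
      · rw [Dx_X]; simp; ring
      · simp

theorem th_d1 (H : MvPolynomial (Option σ) L) :
    X * wsub L j l (MvPolynomial.pderiv (some j) H) =
      X * derivative (wsub L j l H) - C (l * X) * Dx (wsub L j l H) := by
  induction H using MvPolynomial.induction_on with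
  | C a => rw [th_C, Dx_CC]; simp
  | add p q hp hq => simp only [map_add, mul_add, hp, hq]; ring
  | mul_X p v hp =>
    rw [MvPolynomial.pderiv_mul, map_add, map_mul, map_mul, map_mul, Dx_mul, derivative_mul]
    cases v with
    | none =>
      have h := X_der (X : L[X][X]) l
      rw [th_none, Dx_mon, MvPolynomial.pderiv_X_of_ne (by simp), derivative_C_mul]
      simp only [map_zero, derivative_X, map_mul, map_one, map_natCast] at h hp ⊢
      linear_combination (C X * X ^ l) * hp - wsub L j l p * C X * h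
    | some i =>
      rw [th_some]
      split_ifs with h
      · subst h
        rw [Dx_X, MvPolynomial.pderiv_X_self, map_one, derivative_X]
        linear_combination X * hp
      · rw [MvPolynomial.pderiv_X_of_ne (by simpa using h)]
        simp

/-! ### One variable -/

variable [CharZero L] {φ h : L[X]} {α : L} {K N ν : ℕ}

theorem ord (h0 : φ ≠ 0) (hν : 0 < ν) (hα : α * N = ν)
    (e : φ ^ (K + 1) = φ * derivative h - C (α + K) * h * derivative φ) {t : L}
    (ht : φ.IsRoot t) :
    h.rootMultiplicity t = K * φ.rootMultiplicity t + 1 ∧ α * φ.rootMultiplicity t ≠ 1 := by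
  have h1 : h ≠ 0 := by
    rintro rfl
    exact pow_ne_zero (K + 1) h0 (by simpa using e)
  have hμ := (rootMultiplicity_pos h0).2 ht
  obtain ⟨ψ, e1, n1⟩ := exists_eq_pow_rootMultiplicity_mul_and_not_dvd φ h0 t
  obtain ⟨g, e2, n2⟩ := exists_eq_pow_rootMultiplicity_mul_and_not_dvd h h1 t
  generalize φ.rootMultiplicity t = μ at *
  generalize h.rootMultiplicity t = r at *
  rw [dvd_iff_isRoot, IsRoot] at n1 n2
  obtain ⟨W, hW⟩ : ∃ W, W = ψ * (C (r : L) * g + (X - C t) * derivative g) -
    C (α + K) * g * (C (μ : L) * ψ + (X - C t) * derivative ψ) := ⟨_, rfl⟩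
  have e3 : (X - C t) ^ (μ * (K + 1) + 1) * ψ ^ (K + 1) = (X - C t) ^ (μ + r) * W := by
    have a1 := X_der (X - C t) μ
    have a2 := X_der (X - C t) r
    rw [derivative_X_sub_C] at a1 a2
    rw [e1, e2, derivative_mul, derivative_mul, mul_pow, ← pow_mul] at e
    rw [hW, pow_succ _ (μ * _), pow_add _ μ r]
    linear_combination (X - C t) * e + (X - C t) ^ μ * ψ * g * a2 -
      C (α + K) * (X - C t) ^ r * g * ψ * a1
  have e4 : W.eval t = ψ.eval t * g.eval t * (r - (α + K) * μ) := by
    simp [hW]; ring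
  have n3 : (ψ ^ (K + 1)).eval t ≠ 0 := by rw [eval_pow]; exact pow_ne_zero _ n1
  have key : ∀ {a b : ℕ} {P Q : L[X]}, (X - C t) ^ a * P = (X - C t) ^ b * Q → P.eval t ≠ 0 →
      b ≤ a := fun {a b P Q} e n => by
    by_contra hc
    obtain ⟨c, rfl⟩ := Nat.exists_eq_add_of_lt (not_le.1 hc)
    rw [add_assoc, pow_add, mul_assoc] at e
    rw [mul_left_cancel₀ (pow_ne_zero _ (X_sub_C_ne_zero t)) e] at n
    simp at n
  by_cases hr : (r : L) - (α + K) * μ = 0
  · obtain ⟨W', rfl⟩ : X - C t ∣ W := dvd_iff_isRoot.2 (by rw [IsRoot, e4, hr, mul_zero])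
    rw [← mul_assoc, ← pow_succ] at e3
    have k1 := key e3 n3
    have k2 : N * r = ν * μ + N * (K * μ) := by
      have : (N * r : L) = ν * μ + N * (K * μ) := by linear_combination N * hr + μ * hα
      exact_mod_cast this
    have k3 : N * r ≤ N * (K * μ) := Nat.mul_le_mul_left _ (by nlinarith)
    have := Nat.mul_pos hν hμ
    omega
  · have k1 := key e3 n3
    have k2 := key e3.symm (by rw [e4]; exact mul_ne_zero (mul_ne_zero n1 n2) hr)
    have k3 : r = K * μ + 1 := by nlinarith
    refine ⟨k3, fun k4 => hr ?_⟩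
    rw [k3]; push_cast
    linear_combination -k4

variable [DecidableEq L]

theorem red (hm : φ.Monic) (hs : φ.roots.card = φ.natDegree) (hν : 0 < ν) (hα : α * N = ν)
    (e : φ ^ (K + 1) = φ * derivative h - C (α + K) * h * derivative φ) :
    ∃ g, φ = φ * derivative g - C α * g * derivative φ := by
  have h0 := hm.ne_zero
  obtain ⟨g, rfl⟩ : φ ^ K ∣ h := by
    refine ((splits_iff_card_roots.2 hs).pow K).dvd_of_roots_le_roots (pow_ne_zero _ h0) ?_
    refine Multiset.le_iff_count.2 fun t => ?_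
    rw [roots_pow, Multiset.count_nsmul, count_roots, count_roots]
    by_cases ht : φ.IsRoot t
    · rw [(ord h0 hν hα e ht).1]; omega
    · simp [rootMultiplicity_eq_zero ht]
  refine ⟨g, mul_left_cancel₀ (pow_ne_zero K h0) ?_⟩
  rw [derivative_mul, map_add] at e
  linear_combination e + g * X_der φ K

theorem base (hm : φ.Monic) (h2 : 2 ≤ φ.roots.toFinset.card) (hν : 0 < ν) (hα : α * N = ν)
    (e : φ = φ * derivative h - C α * h * derivative φ) :
    h ≠ 0 ∧ φ.roots.toFinset.card ≤ h.natDegree ∧ (h.natDegree : L) = α * φ.natDegree := by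
  have h0 := hm.ne_zero
  have h1 : h ≠ 0 := by
    rintro rfl
    exact h0 (by simpa using e)
  have h3 : φ.roots.toFinset.card ≤ h.natDegree := by
    refine (Finset.card_le_card fun t ht => ?_).trans
      ((Multiset.toFinset_card_le h.roots).trans (card_roots' h))
    rw [Multiset.mem_toFinset, mem_roots h0] at ht
    rw [Multiset.mem_toFinset, mem_roots h1, ← rootMultiplicity_pos h1,
      (ord (K := 0) h0 hν hα (by simpa using e) ht).1]
    omega
  refine ⟨h1, h3, ?_⟩
  have h4 := (Multiset.toFinset_card_le φ.roots).trans (card_roots' φ)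
  obtain ⟨d, hd⟩ : ∃ d, φ.natDegree = d + 1 := ⟨φ.natDegree - 1, by omega⟩
  obtain ⟨r, hr⟩ : ∃ r, h.natDegree = r + 1 := ⟨h.natDegree - 1, by omega⟩
  have c1 := coeff_mul_add_eq_of_natDegree_le hd.le
    ((natDegree_derivative_le h).trans (show _ ≤ r by omega))
  have c2 := coeff_mul_add_eq_of_natDegree_le hr.le
    ((natDegree_derivative_le φ).trans (show _ ≤ d by omega))
  have c3 := congrArg (coeff · (d + 1 + r)) e
  have c4 : φ.coeff (d + 1) = 1 := hd ▸ hm.coeff_natDegree
  have c5 : h.coeff (r + 1) ≠ 0 := hr ▸ leadingCoeff_ne_zero.2 h1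
  rw [show r + 1 + d = d + 1 + r by ring] at c2
  simp only [coeff_sub, mul_assoc, coeff_C_mul, c1, c2, coeff_derivative, c4] at c3
  rw [coeff_eq_zero_of_natDegree_lt (by omega)] at c3
  rw [hd, hr]
  push_cast
  exact mul_left_cancel₀ c5 (by linear_combination -c3)

end Sl1P

open Sl1P in
theorem p_Ex1 : S_Ex1 := by
  intro L _ _ _ φ h α K N ν hm hs h2 hν hα e
  obtain ⟨g, eg⟩ := red hm hs hν hα e
  obtain ⟨-, g1, g2⟩ := base hm h2 hν hα eg
  refine ⟨_, g2, g1, fun t ht => (ord hm.ne_zero hν hα e ht).2, fun ξ hξ hc => ?_⟩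
  by_contra hne
  have hz : ξ - ξ ^ g.natDegree ≠ 0 := sub_ne_zero.2 (Ne.symm hne)
  have d1 := congrArg derivative hc
  have d2 := congrArg (comp · (C ξ * X)) eg
  have d3 := derivative_comp g (C ξ * X)
  rw [derivative_comp, derivative_C_mul _ φ] at d1
  simp only [sub_comp, mul_comp, C_comp, hc] at d2
  rw [derivative_C_mul_X] at d1 d3
  have d4 : C ξ * φ = φ * derivative (g.comp (C ξ * X)) -
      C α * g.comp (C ξ * X) * derivative φ := by
    refine mul_left_cancel₀ (C_ne_zero.2 (pow_ne_zero φ.natDegree hξ)) ?_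
    rw [d3]
    linear_combination C ξ * d2 - C α * g.comp (C ξ * X) * d1
  obtain ⟨u, hu⟩ : ∃ u, u = C (ξ - ξ ^ g.natDegree)⁻¹ *
    (g.comp (C ξ * X) - C (ξ ^ g.natDegree) * g) := ⟨_, rfl⟩
  have d5 : C (ξ - ξ ^ g.natDegree)⁻¹ * (C ξ - C (ξ ^ g.natDegree)) = 1 := by
    rw [← map_sub, ← map_mul, inv_mul_cancel₀ hz, map_one]
  have d6 : φ = φ * derivative u - C α * u * derivative φ := by
    rw [hu, derivative_C_mul, derivative_sub, derivative_C_mul]
    linear_combination C (ξ - ξ ^ g.natDegree)⁻¹ * (d4 - C (ξ ^ g.natDegree) * eg) - φ * d5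
  obtain ⟨u0, -, u2⟩ := base hm h2 hν hα d6
  have u3 : u.natDegree = g.natDegree := by exact_mod_cast u2.trans g2.symm
  refine leadingCoeff_ne_zero.2 u0 ?_
  rw [leadingCoeff, u3, hu, coeff_C_mul, coeff_sub, comp_C_mul_X_coeff, coeff_C_mul, mul_comm (ξ ^ _),
    sub_self, mul_zero]

open Sl1P in
theorem p_Sl1 : S_Sl1 := by
  intro σ ι L _ _ _ _ j n l A s q m c α hn hc hα ⟨K, h, c₀, hc₀, e⟩
  obtain ⟨n, rfl⟩ := Nat.exists_eq_succ_of_ne_zero hn
  refine ⟨K, ?_⟩
  generalize hF : MvPolynomial.C c * _ * _ = F at e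
  obtain ⟨φ, hφ⟩ : ∃ φ : L[X], φ = ∏ a ∈ s, (X - C (q a)) ^ m a := ⟨_, rfl⟩
  obtain ⟨D, hD⟩ : ∃ D, D = A + (∑ a ∈ s, m a) * l := ⟨_, rfl⟩
  rw [← hφ]
  rw [← hD] at hα
  have f1 : wsub L j l F = C (C c * φ) * X ^ D := by
    have : ∀ a, wsub L j l ((MvPolynomial.X none - MvPolynomial.C (q a) *
        MvPolynomial.X (some j) ^ l) ^ m a) = C ((X - C (q a)) ^ m a) * X ^ (m a * l) := fun a => by
      rw [map_pow, map_sub, map_mul, map_pow, th_none, th_C, th_some, if_pos rfl, ← sub_mul, mul_pow,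
        ← pow_mul, map_pow, map_sub, mul_comm l]
    rw [← hF, map_mul, map_mul, map_prod, map_pow, th_C, th_some, if_pos rfl,
      Finset.prod_congr rfl fun a _ => this a, Finset.prod_mul_distrib, ← map_prod, ← hφ,
      Finset.prod_pow_eq_pow_sum, ← Finset.sum_mul, hD, pow_add, map_mul]
    ring
  have f2 := th_d0 (j := j) (l := l) F
  have f3 := th_d1 (j := j) (l := l) F
  have f4 := X_der (X : L[X][X]) D
  rw [f1, Dx_mon] at f2 f3
  rw [derivative_C_mul] at f3
  rw [derivative_X] at f4
  have p0 := th_d0 (j := j) (l := l) (h none)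
  have p1 := th_d1 (j := j) (l := l) (h (some j))
  have e1 := congrArg (wsub L j l) e
  simp only [Finset.sum_insertNone, Finset.sum_singleton, map_add (wsub L j l), map_sub, map_mul,
    map_pow, th_C, th_some, if_pos, f1, Nat.succ_sub_one] at e1
  generalize wsub L j l (h none) = P at *
  generalize wsub L j l (h (some j)) = Q at *
  have e2 : C (C c₀ * (C c * φ) ^ (K + 1)) * X ^ (n + D * K + l + 1) =
      X * (C (C c * φ) * Dx P - C (C (α + K) * derivative (C c * φ)) * P) +
      X ^ l * (C (C c * φ) * (X * derivative Q) - C (C c * φ * ((l : L[X]) * X)) * Dx Q -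
        C (C (α + K) * (C c * φ * (D : L[X]) - (l : L[X]) * X * derivative (C c * φ))) * Q) := by
    refine mul_left_cancel₀ (pow_ne_zero D X_ne_zero) ?_
    simp only [map_mul, map_pow, map_sub, map_natCast] at *
    linear_combination X ^ (l + 1) * e1 + X * C (C c) * C φ * X ^ D * p0 +
      X ^ l * C (C c) * C φ * X ^ D * p1 - X * C (C (α + K)) * P * f2 -
      X ^ l * C (C (α + K)) * Q * f3 - X ^ l * C (C (α + K)) * Q * C (C c) * C φ * f4
  have e3 := congrArg (coeff · (n + D * K + l + 1)) e2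
  simp only [coeff_C_mul_X_pow, if_pos, coeff_add, coeff_X_mul] at e3
  rw [show n + D * K + l + 1 = n + 1 + D * K + l by ring, coeff_X_pow_mul] at e3
  simp only [coeff_sub, coeff_C_mul, coeff_Dx, coeff_X_der, derivative_C_mul] at e3
  generalize P.coeff _ = H₀ at e3
  generalize Q.coeff _ = H₁ at e3
  have a1 : (C α * D : L[X]) = n + 1 + l := by
    have := congrArg (C : L →+* L[X]) hα
    simpa using this
  have a2 : C (c₀ * c ^ K)⁻¹ * (C c₀ * C c ^ K) = 1 := by
    rw [← map_pow, ← map_mul, ← map_mul, inv_mul_cancel₀ (mul_ne_zero hc₀ (pow_ne_zero _ hc)),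
      map_one]
  refine ⟨C (c₀ * c ^ K)⁻¹ * (H₀ - (l : L[X]) * X * H₁), mul_left_cancel₀ (C_ne_zero.2 hc) ?_⟩
  rw [derivative_C_mul]
  simp only [derivative_sub, derivative_mul, derivative_natCast, derivative_X,
    map_add, map_natCast, Nat.cast_add, Nat.cast_mul, Nat.cast_one] at e3 ⊢
  linear_combination C (c₀ * c ^ K)⁻¹ * e3 - C c * φ ^ (K + 1) * a2 -
    C (c₀ * c ^ K)⁻¹ * C c * φ * H₁ * a1

end

end Pool.Agent.P.MP_b91a16_ag.Qo
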