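import Pool.Agent.P.MP_b91a16_ag.Qo.Spec

/-! Two bad coordinates: the Beta form is never exact. -/

set_option linter.unusedSectionVars false

open Polynomial

namespace Pool.Agent.P.MP_b91a16_ag.Qo

noncomputable section

namespace Sl2P

section one

variable {L : Type} [Field L] [CharZero L] {ψ : L[X]}

theorem dvd_of (hc : IsCoprime ψ (derivative ψ)) {H G : L[X]} {γ : L} (hγ : γ ≠ 0)
    (h : ψ * G = C γ * H * derivative ψ) : ψ ∣ H := by
  have h1 : ψ ∣ C γ * H := hc.dvd_of_dvd_mul_right ⟨G, h.symm⟩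
  exact (isUnit_C.2 hγ.isUnit).dvd_mul_left.1 h1

theorem nat_of (hc : IsCoprime ψ (derivative ψ)) (hd : 0 < ψ.natDegree) (N : ℕ) :
    ∀ (H : L[X]) (γ : L), H.natDegree = N → H ≠ 0 →
      ψ * derivative H = C γ * H * derivative ψ → ∃ k : ℕ, γ = k := by
  have h0 : ψ ≠ 0 := ne_zero_of_natDegree_gt hd
  induction N using Nat.strong_induction_on with
  | _ N ih =>
    intro H γ hN hH h
    by_cases hγ : γ = 0
    · exact ⟨0, by simp [hγ]⟩
    obtain ⟨H1, rfl⟩ := dvd_of hc hγ h
    have h1 : H1 ≠ 0 := right_ne_zero_of_mul hH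
    rw [natDegree_mul h0 h1] at hN
    obtain ⟨k, hk⟩ := ih H1.natDegree (by omega) H1 (γ - 1) rfl h1 (by
      refine mul_left_cancel₀ h0 ?_
      rw [derivative_mul] at h
      rw [C_sub, C_1]
      linear_combination h)
    exact ⟨k + 1, by push_cast; rw [← hk]; ring⟩

theorem res (hc : IsCoprime ψ (derivative ψ)) (hd : 0 < ψ.natDegree) {κ : L} (hκ : κ ≠ 0)
    (M : ℕ) : ∀ H : L[X],
      C κ * derivative ψ * ψ ^ M ≠ ψ * derivative H - C (M : L) * H * derivative ψ := by
  have h0 : ψ ≠ 0 := ne_zero_of_natDegree_gt hd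
  induction M with
  | zero =>
    intro H h
    have h1 : ψ ∣ 1 := dvd_of hc hκ (G := derivative H) (by
      rw [Nat.cast_zero, C_0] at h
      linear_combination -h)
    have := natDegree_eq_zero_of_isUnit (isUnit_of_dvd_one h1)
    omega
  | succ M ih =>
    intro H h
    obtain ⟨H1, rfl⟩ := dvd_of hc (γ := ((M + 1 : ℕ) : L)) (H := H)
      (G := derivative H - C κ * derivative ψ * ψ ^ M) (Nat.cast_ne_zero.2 M.succ_ne_zero)
      (by linear_combination -h)
    refine ih H1 (mul_left_cancel₀ h0 ?_)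
    rw [derivative_mul, Nat.cast_succ, C_add, C_1] at h
    linear_combination h

theorem beta (hc : IsCoprime ψ (derivative ψ)) (hd : 0 < ψ.natDegree) (h1 : ψ.eval 0 ≠ 0)
    {κ β : L} (hκ : κ ≠ 0) {N D M : ℕ} (hN : 0 < N) (hD : N < 2 * D) (hβ : β * D = N)
    {H : L[X]} (h0 : H.eval 0 = 0) :
    C κ * derivative ψ * ψ ^ (M + 1) ≠ ψ * derivative H - C (β + M) * H * derivative ψ := by
  intro h
  by_cases hb : β = 1
  · refine res hc hd hκ (M + 1) H ?_
    rw [h, hb, Nat.cast_succ, add_comm]
  have hb' : 1 - β ≠ 0 := sub_ne_zero.2 (Ne.symm hb)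
  obtain ⟨γ, hγ⟩ : ∃ γ : L, γ * (1 - β) = κ := ⟨κ / (1 - β), div_mul_cancel₀ _ hb'⟩
  have hγ0 : γ ≠ 0 := fun e => hκ (by rw [← hγ, e, zero_mul])
  obtain ⟨k, hk⟩ := nat_of hc hd _ (H - C γ * ψ ^ (M + 1)) (β + M) rfl
    (fun e => by
      have := congrArg (eval 0) e
      simp [h0, hγ0, h1] at this)
    (by
      rw [← hγ] at h
      simp only [derivative_sub, derivative_mul, derivative_C, derivative_pow, zero_mul, zero_add,
        Nat.add_sub_cancel, Nat.cast_succ, C_add, C_mul, C_sub, C_1] at h ⊢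
      linear_combination -h)
  have e1 : ((N + M * D : ℕ) : L) = ((k * D : ℕ) : L) := by
    push_cast; rw [← hβ, ← hk]; ring
  have e2 : N + M * D = k * D := Nat.cast_injective e1
  have e3 : M < k := Nat.lt_of_mul_lt_mul_right (a := D) (by omega)
  have e4 : k < M + 2 := Nat.lt_of_mul_lt_mul_right (a := D) (by rw [add_mul]; omega)
  obtain rfl : k = M + 1 := by omega
  refine hb ?_
  push_cast at hk
  linear_combination hk

end one

section comp

open MvPolynomial Finsupp

variable {L τ : Type} [Field L] [Fintype τ] [DecidableEq τ] {w : τ → ℕ × ℕ} {d d' : ℕ × ℕ}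
  {p G : MvPolynomial τ L}

theorem hc_pderiv (j : τ) : weightedHomogeneousComponent w d (pderiv j p) =
    pderiv j (weightedHomogeneousComponent w (d + w j) p) := by
  ext v
  simp [coeff_pderiv, coeff_weightedHomogeneousComponent, weight_single]

theorem hc_mul (hG : G.IsWeightedHomogeneous w d') :
    weightedHomogeneousComponent w (d' + d) (G * p) = G * weightedHomogeneousComponent w d p := by
  ext v
  rw [coeff_weightedHomogeneousComponent, MvPolynomial.coeff_mul, MvPolynomial.coeff_mul]
  have key : ∀ x ∈ Finset.HasAntidiagonal.antidiagonal v,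
      coeff x.1 G * coeff x.2 (weightedHomogeneousComponent w d p) =
        if weight w v = d' + d then coeff x.1 G * coeff x.2 p else 0 := fun x hx => by
    by_cases h : coeff x.1 G = 0
    · simp [h]
    · rw [coeff_weightedHomogeneousComponent, ← Finset.HasAntidiagonal.mem_antidiagonal.1 hx,
        map_add, hG h]
      simp
  rw [Finset.sum_congr rfl key]
  split_ifs <;> simp

theorem hc_term (hG : G.IsWeightedHomogeneous w d') (j : τ) (γ : L) :
    weightedHomogeneousComponent w (d' + d)
        (G * pderiv j p - MvPolynomial.C γ * p * pderiv j G) =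
      G * pderiv j (weightedHomogeneousComponent w (d + w j) p) -
        MvPolynomial.C γ * weightedHomogeneousComponent w (d + w j) p * pderiv j G := by
  have e : G * pderiv j p - MvPolynomial.C γ * p * pderiv j G =
      MvPolynomial.C (1 + γ) * (G * pderiv j p) - MvPolynomial.C γ * pderiv j (G * p) := by
    rw [pderiv_mul, map_add, map_one]; ring
  rw [e, map_sub, weightedHomogeneousComponent_C_mul, weightedHomogeneousComponent_C_mul,
    hc_mul hG, hc_pderiv, hc_pderiv, add_assoc, hc_mul hG, pderiv_mul, map_add, map_one]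
  ring

theorem weight_fst (v : τ →₀ ℕ) : weight (fun j => (w j).1) v = (weight w v).1 := by
  simp [weight_apply, Finsupp.sum, Prod.fst_sum]

theorem weight_snd (v : τ →₀ ℕ) : weight (fun j => (w j).2) v = (weight w v).2 := by
  simp [weight_apply, Finsupp.sum, Prod.snd_sum]

theorem euler (h : p.IsWeightedHomogeneous w d) :
    ∑ j, (w j).1 • (X j * pderiv j p) = d.1 • p ∧ ∑ j, (w j).2 • (X j * pderiv j p) = d.2 • p :=
  ⟨IsWeightedHomogeneous.sum_weight_X_mul_pderiv fun v hv => by rw [weight_fst, h hv],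
    IsWeightedHomogeneous.sum_weight_X_mul_pderiv fun v hv => by rw [weight_snd, h hv]⟩

end comp

section slice

variable {σ L : Type} [Fintype σ] [DecidableEq σ] [Field L] [CharZero L] {i i' : σ} {n p : ℕ}
  {H : MvPolynomial (Option σ) L} {d : ℕ × ℕ}

/-- The two weightings. -/
def wt (i i' : σ) (n p : ℕ) : Option σ → ℕ × ℕ
  | none => (n, n)
  | some j => (if j = i then p else 0, if j = i' then p else 0)

/-- The slice. -/
def pv (L : Type) [Field L] (i i' : σ) : Option σ → L[X]
  | none => 1
  | some j => if j = i' then X else if j = i then 1 else 0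

theorem pv_i (h : i ≠ i') : pv L i i' (some i) = 1 := by simp [pv, h]

theorem pv_i' : pv L i i' (some i') = X := by simp [pv]

theorem pv_der (v : Option σ) : derivative (pv L i i' v) = if v = some i' then 1 else 0 := by
  rcases v with _ | j
  · simp [pv]
  · simp only [pv, Option.some.injEq]
    split_ifs <;> simp

theorem pi_der (H : MvPolynomial (Option σ) L) : derivative (MvPolynomial.aeval (pv L i i') H) =
    MvPolynomial.aeval (pv L i i') (MvPolynomial.pderiv (some i') H) := by
  induction H using MvPolynomial.induction_on with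
  | C a => simp
  | add a b ha hb => simp [ha, hb]
  | mul_X a v ha =>
    rw [MvPolynomial.pderiv_mul, map_add, map_mul (MvPolynomial.aeval _),
      map_mul (MvPolynomial.aeval _), map_mul (MvPolynomial.aeval _), derivative_mul, ha,
      MvPolynomial.aeval_X, pv_der, MvPolynomial.pderiv_X, Pi.single_apply]
    split_ifs <;> simp

theorem eul (hi : i ≠ i') (h : H.IsWeightedHomogeneous (wt i i' n p) d) :
    (p : L[X]) * MvPolynomial.aeval (pv L i i') (MvPolynomial.pderiv (some i) H) +
        (n : L[X]) * MvPolynomial.aeval (pv L i i') (MvPolynomial.pderiv none H) =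
      (d.1 : L[X]) * MvPolynomial.aeval (pv L i i') H ∧
    (p : L[X]) * (X * derivative (MvPolynomial.aeval (pv L i i') H)) +
        (n : L[X]) * MvPolynomial.aeval (pv L i i') (MvPolynomial.pderiv none H) =
      (d.2 : L[X]) * MvPolynomial.aeval (pv L i i') H := by
  obtain ⟨e1, e2⟩ := euler h
  simp only [Fintype.sum_option, wt, ite_smul, zero_smul, Finset.sum_ite_eq', Finset.mem_univ,
    if_true] at e1 e2
  have f1 := congrArg (MvPolynomial.aeval (pv L i i')) e1
  have f2 := congrArg (MvPolynomial.aeval (pv L i i')) e2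
  simp only [nsmul_eq_mul, map_add, map_mul, map_natCast, MvPolynomial.aeval_X, pv_i hi, pv_i',
    ← pi_der] at f1 f2
  have e0 : pv L i i' none = 1 := rfl
  rw [e0] at f1 f2
  exact ⟨by linear_combination f1, by linear_combination f2⟩

theorem eval_zero (h : H.IsWeightedHomogeneous (wt i i' n p) d) (hd : d.1 < d.2) :
    (MvPolynomial.aeval (pv L i i') H).eval 0 = 0 := by
  rw [← coe_aeval_eq_eval, ← AlgHom.comp_apply, MvPolynomial.comp_aeval]
  refine MvPolynomial.aeval_eq_zero _ _ fun u hu => ⟨some i', ?_, by simp [pv_i']⟩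
  rw [Finsupp.mem_support_iff]
  intro h0
  have e := h hu
  have e1 := weight_fst (w := wt i i' n p) u
  have e2 := weight_snd (w := wt i i' n p) u
  rw [e, Finsupp.weight_eq_sum, Fintype.sum_option] at e1 e2
  simp only [wt, smul_eq_mul, mul_ite, mul_zero, Finset.sum_ite_eq', Finset.mem_univ, if_true,
    h0, zero_mul] at e1 e2
  omega

theorem hom_xy (hi : i ≠ i') : (MvPolynomial.X (some i) * MvPolynomial.X (some i') :
    MvPolynomial (Option σ) L).IsWeightedHomogeneous (wt i i' n p) (p, p) := by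
  have := (MvPolynomial.isWeightedHomogeneous_X L (wt i i' n p) (some i)).mul
    (MvPolynomial.isWeightedHomogeneous_X L (wt i i' n p) (some i'))
  simpa [wt, hi, hi.symm] using this

theorem hom_z : (MvPolynomial.X none : MvPolynomial (Option σ) L).IsWeightedHomogeneous
    (wt i i' n p) (n, n) := MvPolynomial.isWeightedHomogeneous_X L (wt i i' n p) none

theorem hom_F (hi : i ≠ i') (m₀ e : ℕ) (c q : L) :
    (MvPolynomial.C c * MvPolynomial.X none ^ m₀ * (MvPolynomial.X none ^ p -
      MvPolynomial.C q * (MvPolynomial.X (some i) * MvPolynomial.X (some i')) ^ n) ^ e :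
      MvPolynomial (Option σ) L).IsWeightedHomogeneous (wt i i' n p)
      (n * (m₀ + p * e), n * (m₀ + p * e)) := by
  have h1 := (hom_z (L := L) (i := i) (i' := i') (n := n) (p := p)).pow p
  have h2 := ((hom_xy (L := L) (n := n) (p := p) hi).pow n).C_mul q
  have e1 : n • (p, p) = p • (n, n) := by simp [mul_comm]
  rw [e1] at h2
  have h3 := (((hom_z (L := L) (i := i) (i' := i') (n := n) (p := p)).pow m₀).C_mul c).mul
    ((h1.sub h2).pow e)
  convert h3 using 1
  ext <;> simp <;> ring

/-- The reduction to one variable. -/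
theorem red (hi : i ≠ i') (hn : n ≠ 0) (hp : p ≠ 0) {F : MvPolynomial (Option σ) L} {D K : ℕ}
    {α c : L} (hF : F.IsWeightedHomogeneous (wt i i' n p) (n * D, n * D))
    (hα : α * D = (p + 1 : ℕ)) (h : Option σ → MvPolynomial (Option σ) L)
    (e : MvPolynomial.C c * (MvPolynomial.X (some i) * MvPolynomial.X (some i')) ^ (n - 1) *
      F ^ (K + 1) = ∑ v ∈ ({i, i'} : Finset σ).insertNone, (F * MvPolynomial.pderiv v (h v) -
        MvPolynomial.C (α + K) * h v * MvPolynomial.pderiv v F)) :
    ∃ G : L[X], G.eval 0 = 0 ∧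
      C c * X ^ (n - 1) * MvPolynomial.aeval (pv L i i') F ^ (K + 1) =
        MvPolynomial.aeval (pv L i i') F * derivative G -
          C (α + K) * G * derivative (MvPolynomial.aeval (pv L i i') F) := by
  obtain ⟨n, rfl⟩ := Nat.exists_eq_succ_of_ne_zero hn
  simp only [Nat.succ_eq_add_one, Nat.add_sub_cancel] at *
  set s := p * n + (n + 1) * D * K with hs
  have hl := (((hom_xy (L := L) (n := n + 1) (p := p) hi).pow n).C_mul c).mul (hF.pow (K + 1))
  have e1 : n • (p, p) + (K + 1) • ((n + 1) * D, (n + 1) * D) =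
      ((n + 1) * D, (n + 1) * D) + (s, s) := by
    ext <;> simp [hs] <;> ring
  rw [e1] at hl
  have e2 := congrArg (MvPolynomial.weightedHomogeneousComponent (wt i i' (n + 1) p)
    (((n + 1) * D, (n + 1) * D) + (s, s))) e
  rw [hl.weightedHomogeneousComponent_same, map_sum,
    Finset.sum_congr rfl fun v _ => hc_term hF v _, Finset.sum_insertNone,
    Finset.sum_pair hi] at e2
  have ha := MvPolynomial.weightedHomogeneousComponent_isWeightedHomogeneous
    (w := wt i i' (n + 1) p) ((s, s) + wt i i' (n + 1) p none) (h none)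
  have hb := MvPolynomial.weightedHomogeneousComponent_isWeightedHomogeneous
    (w := wt i i' (n + 1) p) ((s, s) + wt i i' (n + 1) p (some i)) (h (some i))
  have hg := MvPolynomial.weightedHomogeneousComponent_isWeightedHomogeneous
    (w := wt i i' (n + 1) p) ((s, s) + wt i i' (n + 1) p (some i')) (h (some i'))
  generalize MvPolynomial.weightedHomogeneousComponent (wt i i' (n + 1) p)
    ((s, s) + wt i i' (n + 1) p none) (h none) = a at ha e2
  generalize MvPolynomial.weightedHomogeneousComponent (wt i i' (n + 1) p)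
    ((s, s) + wt i i' (n + 1) p (some i)) (h (some i)) = b at hb e2
  generalize MvPolynomial.weightedHomogeneousComponent (wt i i' (n + 1) p)
    ((s, s) + wt i i' (n + 1) p (some i')) (h (some i')) = g at hg e2
  have g0 := eval_zero hg (by simp [wt, hi.symm]; omega)
  obtain ⟨-, a2⟩ := eul hi ha
  obtain ⟨b1, b2⟩ := eul hi hb
  obtain ⟨f1, f2⟩ := eul hi hF
  have e3 := congrArg (MvPolynomial.aeval (pv L i i')) e2
  simp only [map_add, map_sub, map_mul, map_pow, MvPolynomial.aeval_X, pv_i hi, pv_i', ← pi_der,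
    MvPolynomial.aeval_C, Polynomial.algebraMap_eq, one_mul, map_natCast] at e3
  simp only [wt, Prod.fst_add, Prod.snd_add, if_true, if_neg hi, add_zero, hs] at a2 b1 b2 f1 f2
  have hp' : (p : L[X]) ≠ 0 := Nat.cast_ne_zero.2 hp
  have hn' : ((n + 1 : ℕ) : L[X]) ≠ 0 := Nat.cast_ne_zero.2 n.succ_ne_zero
  obtain ⟨r, hr⟩ : ∃ r : L, r * (n + 1 : ℕ) = p :=
    ⟨p / (n + 1 : ℕ), div_mul_cancel₀ _ (Nat.cast_ne_zero.2 n.succ_ne_zero)⟩
  have hr' := congrArg C hr
  have hα' := congrArg C hα
  simp only [map_mul, map_natCast] at hr' hα'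
  generalize MvPolynomial.aeval (pv L i i') F = φ at *
  generalize MvPolynomial.aeval (pv L i i') a = A at *
  generalize MvPolynomial.aeval (pv L i i') b = B at *
  generalize MvPolynomial.aeval (pv L i i') g = G at *
  generalize MvPolynomial.aeval (pv L i i') (MvPolynomial.pderiv none F) = Fz at *
  generalize MvPolynomial.aeval (pv L i i') (MvPolynomial.pderiv (some i) F) = Fx at *
  generalize MvPolynomial.aeval (pv L i i') (MvPolynomial.pderiv none a) = Az at *
  generalize MvPolynomial.aeval (pv L i i') (MvPolynomial.pderiv none b) = Bz at *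
  generalize MvPolynomial.aeval (pv L i i') (MvPolynomial.pderiv (some i) b) = Bx at *
  have k1 : Fx = X * derivative φ := mul_left_cancel₀ hp' (by linear_combination f1 - f2)
  have k2 : Bx = B + X * derivative B := mul_left_cancel₀ hp' (by
    push_cast at b1 b2; linear_combination b1 - b2)
  have k3 : Fz = (D : L[X]) * φ - C r * (X * derivative φ) := mul_left_cancel₀ hn' (by
    push_cast at f2 hr' ⊢; linear_combination f2 + X * derivative φ * hr')
  have k4 : Az = (C α + (K : L[X])) * (D : L[X]) * A - C r * (A + X * derivative A) :=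
    mul_left_cancel₀ hn' (by
      push_cast at a2 hr' hα' ⊢
      linear_combination a2 + (A + X * derivative A) * hr' - ((n : L[X]) + 1) * A * hα')
  refine ⟨G + X * B - C r * (X * A), by simp [g0], ?_⟩
  rw [e3, k1, k2, k3, k4]
  simp only [derivative_sub, derivative_mul, derivative_C, derivative_X, map_add, map_natCast]
  ring

end slice

end Sl2P

open Sl2P in
theorem p_Sl2 : S_Sl2 := by
  intro σ L _ _ _ _ i i' n p m₀ e c q α hi hn hp he h1 hc hq hα ⟨K, h, c', hc', eq⟩
  obtain ⟨G, g0, hG⟩ := red hi hn hp (hom_F hi m₀ e c q) hα h eq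
  have e0 : pv L i i' none = 1 := rfl
  simp only [map_mul, map_pow, map_sub, MvPolynomial.aeval_X, MvPolynomial.aeval_C,
    Polynomial.algebraMap_eq, pv_i hi, pv_i', e0, one_pow, mul_one, one_mul] at hG
  obtain ⟨e, rfl⟩ := Nat.exists_eq_succ_of_ne_zero he
  obtain ⟨n, rfl⟩ := Nat.exists_eq_succ_of_ne_zero hn
  simp only [Nat.succ_eq_add_one, Nat.add_sub_cancel] at *
  set ψ : L[X] := 1 - C q * X ^ (n + 1) with hψ
  have hn' : ((n + 1 : ℕ) : L) ≠ 0 := Nat.cast_ne_zero.2 hn
  have d1 : derivative ψ = -(C (q * (n + 1 : ℕ)) * X ^ n) := by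
    simp only [hψ, derivative_sub, derivative_one, derivative_mul, derivative_C, derivative_X_pow,
      Nat.add_sub_cancel, C_mul]
    ring
  have co : IsCoprime ψ (derivative ψ) := by
    refine ⟨1, -(C ((n + 1 : ℕ) : L)⁻¹ * X), ?_⟩
    have := congrArg C (inv_mul_cancel₀ hn')
    rw [C_mul, C_1] at this
    rw [d1, hψ, C_mul]
    linear_combination C q * X ^ (n + 1) * this
  have dg : 0 < ψ.natDegree := by
    refine lt_of_lt_of_le n.succ_pos (le_natDegree_of_ne_zero ?_)
    simp [hψ, coeff_one, hq]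
  have ψ0 : ψ ≠ 0 := ne_zero_of_natDegree_gt dg
  have u0 : q * (n + 1 : ℕ) ≠ 0 := mul_ne_zero hq hn'
  obtain ⟨κ, hκ⟩ : ∃ κ : L, κ * (q * (n + 1 : ℕ)) = -(c' * c ^ K) :=
    ⟨_, div_mul_cancel₀ _ u0⟩
  have κ0 : κ ≠ 0 := fun e => by
    rw [e, zero_mul, eq_comm, neg_eq_zero] at hκ
    exact mul_ne_zero hc' (pow_ne_zero _ hc) hκ
  refine beta co dg (by simp [hψ]) κ0 (β := α * (e + 1 : ℕ)) (N := (p + 1) * (e + 1))
    (D := m₀ + p * (e + 1)) (M := (e + 1) * K) (by positivity) ?_ ?_ g0 ?_
  · rcases Nat.eq_or_lt_of_le (Nat.one_le_iff_ne_zero.2 hp) with h2 | h2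
    · have := h1 h2.symm
      rw [← h2]; omega
    · nlinarith
  · rw [mul_right_comm, hα, ← Nat.cast_mul]
  · refine mul_left_cancel₀ (mul_ne_zero (C_ne_zero.2 hc) (pow_ne_zero e ψ0)) ?_
    have hκ' := congrArg C hκ
    rw [derivative_mul, derivative_C, derivative_pow, Nat.add_sub_cancel] at hG
    have e1 : C κ * derivative ψ = C c' * C c ^ K * X ^ n := by
      rw [d1]
      simp only [C_mul, C_neg, C_pow] at hκ' ⊢
      linear_combination -X ^ n * hκ'
    rw [e1]
    clear_value ψ
    simp only [Nat.cast_mul, C_add, C_mul, map_natCast] at hG ⊢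
    linear_combination hG

end

end Pool.Agent.P.MP_b91a16_ag.Qo
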