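import Pool.Agent.P.MP_b91a16_ag.Qo.Spec

/-! Transfer of rationality and truncation of lattice regions. -/

set_option linter.unusedSectionVars false

open Polynomial

namespace Pool.Agent.P.MP_b91a16_ag.Qo

noncomputable section

namespace TrP

abbrev up : PowerSeries ℤ[X] →+* PowerSeries (PowerSeries ℤ) :=
  PowerSeries.map (Polynomial.coeToPowerSeries.ringHom (R := ℤ))

def Den (Al : ℕ → ℕ → Prop) : Submonoid (PowerSeries ℤ[X]) :=
  Submonoid.closure {D | ∃ a b, Al a b ∧ D = 1 - PowerSeries.C (X ^ a) * PowerSeries.X ^ b}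

def Pol : Subring (PowerSeries (PowerSeries ℤ)) :=
  (Polynomial.coeToPowerSeries.ringHom (R := PowerSeries ℤ)).range

theorem C_mem (c : PowerSeries ℤ) : PowerSeries.C c ∈ Pol := ⟨C c, by simp⟩

theorem X_mem : PowerSeries.X ∈ Pol := ⟨X, by simp⟩

theorem up_gen (a b : ℕ) : up (1 - PowerSeries.C (X ^ a) * PowerSeries.X ^ b) =
    1 - PowerSeries.C (PowerSeries.X ^ a) * PowerSeries.X ^ b := by
  simp [up]

theorem up_mem {Al : ℕ → ℕ → Prop} {D : PowerSeries ℤ[X]} (h : D ∈ Den Al) : up D ∈ Pol := by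
  induction h using Submonoid.closure_induction with
  | mem D hD =>
    obtain ⟨a, b, -, rfl⟩ := hD
    rw [up_gen]
    exact sub_mem (one_mem _) (mul_mem (C_mem _) (pow_mem X_mem _))
  | one => rw [map_one]; exact one_mem _
  | mul x y _ _ hx hy => rw [map_mul]; exact mul_mem hx hy

theorem clear_den {Al : ℕ → ℕ → Prop} {Φ : PowerSeries (PowerSeries ℤ)} (h : Φ ∈ hat Al) :
    ∃ D ∈ Den Al, up D * Φ ∈ Pol := by
  induction h using Subring.closure_induction with
  | mem x hx =>
    rcases hx with (⟨c, rfl⟩ | rfl) | ⟨a, b, hab, e⟩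
    · exact ⟨1, one_mem _, by simpa using C_mem c⟩
    · exact ⟨1, one_mem _, by simpa using X_mem⟩
    · refine ⟨_, Submonoid.subset_closure ⟨a, b, hab, rfl⟩, ?_⟩
      rw [up_gen, mul_comm, e]
      exact one_mem _
  | zero => exact ⟨1, one_mem _, by simp⟩
  | one => exact ⟨1, one_mem _, by simp⟩
  | add x y _ _ hx hy =>
    obtain ⟨D, hD, h1⟩ := hx
    obtain ⟨E, hE, h2⟩ := hy
    refine ⟨D * E, mul_mem hD hE, ?_⟩
    rw [map_mul, show up D * up E * (x + y) = up E * (up D * x) + up D * (up E * y) by ring]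
    exact add_mem (mul_mem (up_mem hE) h1) (mul_mem (up_mem hD) h2)
  | neg x _ hx =>
    obtain ⟨D, hD, h1⟩ := hx
    exact ⟨D, hD, by rw [mul_neg]; exact neg_mem h1⟩
  | mul x y _ _ hx hy =>
    obtain ⟨D, hD, h1⟩ := hx
    obtain ⟨E, hE, h2⟩ := hy
    refine ⟨D * E, mul_mem hD hE, ?_⟩
    rw [map_mul, show up D * up E * (x * y) = (up D * x) * (up E * y) by ring]
    exact mul_mem h1 h2

variable {k : Type} [Field k] {Al : ℕ → ℕ → Prop}

theorem good_ev {F : PowerSeries (Mot k)} (M : ℕ)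
    (h : ∀ N, M ≤ N → PowerSeries.coeff N F = 0) : F ∈ good k Al := by
  refine Algebra.adjoin_mono ?_ (mem_poleRing_of_eventually ∅ M h)
  rintro g (hg | ⟨p, hp, -⟩)
  · exact Or.inl hg
  · simp at hp

theorem inv_den (hAl : ∀ a b, Al a b → 0 < b) {D : PowerSeries ℤ[X]} (h : D ∈ Den Al) :
    ∃ g ∈ good k Al, g * PowerSeries.map (evM k) D = 1 := by
  induction h using Submonoid.closure_induction with
  | mem D hD =>
    obtain ⟨a, b, hab, rfl⟩ := hD
    let D₀ : PowerSeries (Mot k) := 1 - PowerSeries.C (Linv k ^ a) * PowerSeries.X ^ b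
    have h1 : PowerSeries.constantCoeff D₀ = (1 : (Mot k)ˣ) := by
      simp [D₀, (hAl a b hab).ne']
    have h2 : PowerSeries.invOfUnit D₀ 1 * D₀ = 1 := by
      rw [mul_comm]
      exact PowerSeries.mul_invOfUnit D₀ 1 h1
    refine ⟨PowerSeries.invOfUnit D₀ 1, Algebra.subset_adjoin (Or.inr ⟨a, b, hab, h2⟩), ?_⟩
    rw [← h2]
    simp [D₀]
  | one => exact ⟨1, one_mem _, by simp⟩
  | mul x y _ _ hx hy =>
    obtain ⟨g, hg, e⟩ := hx
    obtain ⟨g', hg', e'⟩ := hy
    refine ⟨g * g', mul_mem hg hg', ?_⟩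
    rw [map_mul, mul_mul_mul_comm, e, e', mul_one]

/-- The series of the numbers with a given truncation. -/
def ind (N c : ℕ) : PowerSeries ℤ := PowerSeries.mk fun a => if min a (N + 1) = c then 1 else 0

theorem ind_eq {N c : ℕ} (h1 : 1 ≤ c) (h2 : c ≤ N + 1) :
    (1 - PowerSeries.X) * ind N c = ((X * wx N c : ℤ[X]) : PowerSeries ℤ) := by
  obtain ⟨c, rfl⟩ := Nat.exists_eq_add_of_le' h1
  unfold wx
  split_ifs with h
  · have : ind N (c + 1) = PowerSeries.X ^ (c + 1) := by
      ext a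
      simp only [ind, PowerSeries.coeff_mk, PowerSeries.coeff_X_pow]
      exact if_congr (by omega) rfl rfl
    rw [this]
    simp only [Nat.add_sub_cancel, Polynomial.coe_mul, Polynomial.coe_sub, Polynomial.coe_one,
      Polynomial.coe_X, Polynomial.coe_pow]
    ring
  · obtain rfl : c = N := by omega
    have : ind c (c + 1) = PowerSeries.X ^ (c + 1) * PowerSeries.mk 1 := by
      ext a
      simp only [ind, PowerSeries.coeff_mk, PowerSeries.coeff_X_pow_mul', Pi.one_apply]
      exact if_congr (by omega) rfl rfl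
    rw [this, mul_left_comm, mul_comm (1 - PowerSeries.X), PowerSeries.mk_one_mul_one_sub_eq_one]
    simp only [Polynomial.coe_mul, Polynomial.coe_X, Polynomial.coe_pow]
    ring

theorem ind_low {N c : ℕ} (h : c ≤ N) : ind N c = PowerSeries.X ^ c := by
  ext a
  simp only [ind, PowerSeries.coeff_mk, PowerSeries.coeff_X_pow]
  exact if_congr (by omega) rfl rfl

variable {σ : Type} [Fintype σ] [DecidableEq σ]

/-- The points of given weight and order. -/
def box (σ : Type) [Fintype σ] [DecidableEq σ] (a m : ℕ) : Finset (Pt σ) :=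
  ((Fintype.piFinset fun _ : σ => Finset.range (a + 1)) ×ˢ Finset.range (a + 1) ×ˢ {m}).filter
    fun p => wt p = a ∧ p.2.2 = m

theorem mem_box {a m : ℕ} {p : Pt σ} : p ∈ box σ a m ↔ wt p = a ∧ p.2.2 = m := by
  simp only [box, Finset.mem_filter, Finset.mem_product, Fintype.mem_piFinset, Finset.mem_range,
    Finset.mem_singleton]
  refine ⟨fun h => h.2, fun h => ⟨⟨fun j => ?_, ?_, h.2⟩, h⟩⟩
  · have := Finset.single_le_sum (f := p.1) (fun _ _ => Nat.zero_le _) (Finset.mem_univ j)
    have h1 := h.1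
    unfold wt at h1
    omega
  · have h1 := h.1
    unfold wt at h1
    omega

theorem coeff_fib (N a m ρ : ℕ) (c : σ → ℕ) :
    PowerSeries.coeff a (PowerSeries.X ^ ρ * ∏ j, ind N (c j)) =
      (((box σ a m).filter fun p => ((fun j => min (p.1 j) (N + 1)), p.2.1) = (c, ρ)).card : ℤ) := by
  rw [PowerSeries.coeff_X_pow_mul']
  split_ifs with h
  · rw [PowerSeries.coeff_prod]
    have e : ∀ l : σ →₀ ℕ, ∏ j, PowerSeries.coeff (l j) (ind N (c j)) =
        if ∀ j, min (l j) (N + 1) = c j then 1 else 0 := by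
      intro l
      simp only [ind, PowerSeries.coeff_mk, Finset.prod_boole, Finset.mem_univ, true_imp_iff]
    simp only [e, Finset.sum_boole]
    congr 1
    refine Finset.card_nbij' (fun l : σ →₀ ℕ => ((⇑l, ρ, m) : Pt σ)) (fun p => Finsupp.equivFunOnFinite.symm p.1)
      ?_ ?_ ?_ ?_
    · intro l hl
      simp only [Finset.coe_filter, Finset.mem_finsuppAntidiag, Set.mem_ofPred_eq] at hl
      simp only [Finset.coe_filter, mem_box, Set.mem_ofPred_eq, wt, and_true, Prod.mk.injEq]
      have h1 : ∑ j, l j = a - ρ := hl.1.1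
      exact ⟨by omega, funext fun j => hl.2 j⟩
    · intro p hp
      simp only [Finset.coe_filter, mem_box, Set.mem_ofPred_eq, wt, Prod.mk.injEq] at hp
      simp only [Finset.coe_filter, Finset.mem_finsuppAntidiag, Set.mem_ofPred_eq,
        Finsupp.coe_equivFunOnFinite_symm, Finset.subset_univ, and_true]
      refine ⟨?_, fun j => congrFun hp.2.1 j⟩
      show ∑ j, p.1 j = a - ρ
      omega
    · intro l _
      simp
    · intro p hp
      simp only [Finset.coe_filter, mem_box, Set.mem_ofPred_eq, wt, Prod.mk.injEq] at hp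
      simp only [Finsupp.coe_equivFunOnFinite_symm]
      exact Prod.ext rfl (Prod.ext hp.2.2.symm hp.1.2.symm)
  · rw [Finset.filter_eq_empty_iff.2, Finset.card_empty, Nat.cast_zero]
    intro p hp e
    rw [mem_box, wt] at hp
    have := congrArg Prod.snd e
    simp only at this
    omega

open Classical in
theorem coeff_GF {n : ℕ} {S : Set (Pt σ)} {I : Finset σ} (h : TrOk n S I) (m : ℕ) :
    PowerSeries.coeff m (GF S) =
      ∑ p ∈ ((Fintype.piFinset fun _ : σ => Finset.Icc 1 (n * m + 1)) ×ˢ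
        Finset.range (m + 1)).filter (fun p => (p.1, p.2, m) ∈ S),
        PowerSeries.X ^ p.2 * ∏ j, ind (n * m) (p.1 j) := by
  ext a
  rw [GF, PowerSeries.coeff_mk, PowerSeries.coeff_mk, map_sum]
  have e : S ∩ {p | wt p = a ∧ p.2.2 = m} = ((box σ a m).filter (· ∈ S) : Finset (Pt σ)) := by
    ext p
    simp only [Set.mem_inter_iff, Set.mem_ofPred_eq, Finset.coe_filter, mem_box]
    tauto
  rw [e, Set.ncard_coe_finset, Finset.card_eq_sum_card_fiberwise
    (f := fun p : Pt σ => ((fun j => min (p.1 j) (n * m + 1)), p.2.1))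
    (t := ((Fintype.piFinset fun _ : σ => Finset.Icc 1 (n * m + 1)) ×ˢ
        Finset.range (m + 1)).filter (fun p => (p.1, p.2, m) ∈ S)), Nat.cast_sum]
  · refine Finset.sum_congr rfl fun t ht => ?_
    rw [coeff_fib (n * m) a m t.2 t.1, Finset.filter_filter]
    congr 2
    refine Finset.filter_congr fun p hp => ⟨fun e => e.2, fun e => ⟨?_, e⟩⟩
    obtain ⟨κ, ρ, m'⟩ := p
    obtain rfl : m' = m := (mem_box.1 hp).2
    obtain rfl : _ = t := e
    exact (h κ ρ m').2.2 (Finset.mem_filter.1 ht).2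
  · rintro ⟨κ, ρ, m'⟩ hp
    simp only [Finset.coe_filter, mem_box, Set.mem_ofPred_eq] at hp
    obtain ⟨⟨-, rfl⟩, hp⟩ := hp
    obtain ⟨h1, h2, -⟩ := (h κ ρ m').1 hp
    simp only [Finset.coe_filter, Finset.mem_product, Fintype.mem_piFinset, Finset.mem_Icc,
      Finset.mem_range, Set.mem_ofPred_eq]
    exact ⟨⟨fun j => by have := h1 j; omega, by omega⟩, (h κ ρ m').2.1 hp⟩

end TrP

open TrP in
theorem p_Tr : S_Tr := by
  intro k _ Al F Φ hAl ⟨G, hG⟩ hΦ
  have e1 : F = PowerSeries.map (evM k) (PowerSeries.mk G) := by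
    ext m
    simp [(hG m).1]
  have e2 : Φ = up (PowerSeries.mk G) := by
    refine PowerSeries.ext fun m => ?_
    simp [(hG m).2, up]
  obtain ⟨D, hD, P, hP⟩ := clear_den hΦ
  obtain ⟨g, hg, e⟩ := inv_den (k := k) hAl hD
  have h1 : PowerSeries.map (evM k) (D * PowerSeries.mk G) ∈ good k Al := by
    refine good_ev (P.natDegree + 1) fun N hN => ?_
    have h2 := congrArg (PowerSeries.coeff N) hP
    rw [e2, ← map_mul, PowerSeries.coeff_map, Polynomial.coeToPowerSeries.ringHom_apply,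
      Polynomial.coeToPowerSeries.ringHom_apply, Polynomial.coeff_coe,
      Polynomial.coeff_eq_zero_of_natDegree_lt (by omega), eq_comm,
      Polynomial.coe_eq_zero_iff] at h2
    rw [PowerSeries.coeff_map, h2, map_zero]
  have h3 := mul_mem hg h1
  rwa [map_mul, ← mul_assoc, e, one_mul, ← e1] at h3

open TrP in
theorem p_Trunc (_h : S_GF) : S_Trunc := by
  intro σ k _ _ _ n S I h
  classical
  refine ⟨fun m => X ^ I.card * trP n S I m, fun m => ⟨by simp [FF], ?_⟩⟩
  beta_reduce
  rw [PowerSeries.coeff_C_mul, coeff_GF h, trP, Finset.mul_sum, Finset.mul_sum,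
    ← Polynomial.coeToPowerSeries.ringHom_apply, map_sum]
  refine Finset.sum_congr rfl fun p hp => ?_
  obtain ⟨hp, hS⟩ := Finset.mem_filter.1 hp
  have h1 := fun j => Finset.mem_Icc.1 (Fintype.mem_piFinset.1 (Finset.mem_product.1 hp).1 j)
  have h2 := ((h _ _ _).1 hS).2.2
  rw [← Finset.prod_mul_prod_compl I, Finset.prod_congr rfl
    (fun j (hj : j ∈ Iᶜ) => ind_low (h2 j (Finset.mem_compl.1 hj))), Finset.prod_pow_eq_pow_sum]
  have h3 : (1 - PowerSeries.X) ^ I.card * ∏ j ∈ I, ind (n * m) (p.1 j) =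
      Polynomial.coeToPowerSeries.ringHom (X ^ I.card * ∏ j ∈ I, wx (n * m) (p.1 j)) := by
    rw [← Finset.prod_const, ← Finset.prod_const, ← Finset.prod_mul_distrib,
      ← Finset.prod_mul_distrib, map_prod]
    exact Finset.prod_congr rfl fun j _ => ind_eq (h1 j).1 (h1 j).2
  rw [mul_left_comm (X ^ I.card), map_mul, ← h3, map_pow,
    Polynomial.coeToPowerSeries.ringHom_apply, Polynomial.coe_X]
  ring

end

end Pool.Agent.P.MP_b91a16_ag.Qo
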