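import Pool.Agent.P.MP_b91a16_ag.Qo.Spec

/-! Two presentations of the same arc differ by the group action. -/

open PowerSeries

namespace Pool.Agent.P.MP_b91a16_ag.Qo

namespace UniqP

variable {K : Type} [Field K]

/-- One coordinate of a truncated arc. -/
noncomputable def xc (M κ : ℕ) (c : K) (v : PowerSeries K) : PowerSeries K :=
  if κ ≤ M then C c * X ^ κ * v else 0

theorem xc_lt {M κ l : ℕ} (c : K) (v : PowerSeries K) (h : l < κ) : coeff l (xc M κ c v) = 0 := by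
  unfold xc
  split_ifs
  · exact X_pow_dvd_iff.1 (Dvd.dvd.mul_right (Dvd.intro_left _ rfl) _) l h
  · simp

theorem xc_at {M κ : ℕ} (c : K) {v : PowerSeries K} (hv : constantCoeff v = 1) (h : κ ≤ M) :
    coeff κ (xc M κ c v) = c := by
  unfold xc
  rw [if_pos h, mul_assoc, coeff_C_mul, coeff_X_pow_mul', if_pos le_rfl, Nat.sub_self,
    coeff_zero_eq_constantCoeff_apply, hv, mul_one]

theorem not_lt_of {M κ κ' : ℕ} {c c' : K} {v v' : PowerSeries K} (h' : κ' ≤ M + 1) (hc : c ≠ 0)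
    (hv : constantCoeff v = 1) (hd : X ^ (M + 1) ∣ xc M κ c v - xc M κ' c' v') : ¬κ < κ' := by
  intro h
  have := X_pow_dvd_iff.1 hd κ (by omega)
  rw [map_sub, xc_at c hv (by omega), xc_lt c' v' h, sub_zero] at this
  exact hc this

theorem one {M κ κ' : ℕ} {c c' : K} {v v' : PowerSeries K} (h : κ ≤ M + 1) (h' : κ' ≤ M + 1)
    (hc : c ≠ 0) (hc' : c' ≠ 0) (hv : constantCoeff v = 1) (hv' : constantCoeff v' = 1)
    (hd : X ^ (M + 1) ∣ xc M κ c v - xc M κ' c' v') :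
    κ = κ' ∧ (κ ≤ M → c' = c ∧ X ^ (M + 1 - κ) ∣ v - v') := by
  have a1 := not_lt_of h' hc hv hd
  have a2 := not_lt_of h hc' hv' (dvd_sub_comm.1 hd)
  obtain rfl : κ = κ' := by omega
  refine ⟨rfl, fun hk => ?_⟩
  have e : c' = c := by
    have := X_pow_dvd_iff.1 hd κ (by omega)
    rw [map_sub, xc_at c hv hk, xc_at c' hv' hk] at this
    exact (sub_eq_zero.1 this).symm
  subst e
  refine ⟨rfl, ?_⟩
  unfold xc at hd
  rw [if_pos hk, if_pos hk, ← mul_sub, mul_comm (C c'), mul_assoc,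
    show M + 1 = κ + (M + 1 - κ) by omega, pow_add,
    mul_dvd_mul_iff_left (pow_ne_zero _ X_ne_zero)] at hd
  exact (((IsUnit.mk0 c' hc).map (C (R := K))).dvd_mul_left).1 hd

theorem exp_dvd {n : ℕ} (hn : n ≠ 0) {q : ℕ} {v v' : PowerSeries K} (h : X ^ q ∣ v - v') :
    X ^ q ∣ expand n hn v' - expand n hn v := by
  have := map_dvd (expand n hn) (dvd_sub_comm.1 h)
  rw [map_pow, expand_X, map_sub] at this
  exact (pow_dvd_pow_of_dvd (dvd_pow_self X hn) q).trans this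

end UniqP

open UniqP in
theorem p_Uniq (h : S_CA) (hB : S_CB) (hE : S_EV) (hA : S_Arg) (hN : S_Nth) : S_Uniq := by
  intro σ k _ _ _ _ _ D K _ _ M s s' κ κ' r r' b b' θ θ' w u u' cs cs' P P' hb hb' hθ hθ' hx hw hw'
    hp hp'
  have ca : CA D := h _ _ D
  have cb : CB D := hB _ _ D
  have ev : EV D K := hE _ _ D K
  have : CharZero K := charZero_of_injective_algebraMap (algebraMap k K).injective
  have o := fun j => one (P.1 j).2 (P'.1 j).2 (pow_ne_zero D.n (hb j)) (pow_ne_zero D.n (hb' j))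
    (v := θ j ^ D.n) (v' := θ' j ^ D.n) (by rw [map_pow, hθ, one_pow])
    (by rw [map_pow, hθ', one_pow]) (hx j)
  obtain rfl : κ = κ' := funext fun j => (o j).1
  have ht : ∀ j, κ j ≤ M → X ^ (M + 1 - κ j) ∣ θ j - θ' j := fun j hj =>
    (hN K D.n D.hn).2 _ _ _ (hθ j) (hθ' j) ((o j).2 hj).2
  have hg : ∀ j, ∃ i : ℕ, κ j ≤ M → b' j = algebraMap k K D.ε ^ i * b j := fun j => by
    by_cases hj : κ j ≤ M
    · have : NeZero D.n := ⟨D.hn⟩
      obtain ⟨i, -, hi⟩ := (D.hε.map_of_injective (algebraMap k K).injective).eq_pow_of_pow_eq_one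
        (ξ := b' j / b j) (by rw [div_pow, ((o j).2 hj).1, div_self (pow_ne_zero _ (hb j))])
      exact ⟨i, fun _ => by rw [hi, div_mul_cancel₀ _ (hb j)]⟩
    · exact ⟨0, fun hh => absurd hh hj⟩
  choose g hg using hg
  have cen : ∀ (c : σ → K) (t : σ → PowerSeries K), St.Cen (D.yy M κ c t) := fun c t j => by
    unfold Dat.yy
    split_ifs
    · exact Dvd.dvd.mul_right (Dvd.dvd.mul_left (dvd_pow_self X (by have := (P.1 j).1; omega)) _) _
    · exact dvd_zero _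
  have hy : ∀ j, X ^ (M + 1) ∣
      D.yy M κ b' θ' j - C (algebraMap k K D.ε ^ g j) * D.yy M κ b θ j := fun j => by
    unfold Dat.yy
    split_ifs with hj
    · rw [hg j hj, map_mul, ← mul_assoc, ← mul_assoc, ← mul_sub, mul_assoc,
        show M + 1 = κ j + (M + 1 - κ j) by omega, pow_add]
      exact Dvd.dvd.mul_left (mul_dvd_mul_left _ (exp_dvd D.hn (ht j hj))) _
    · simp
  have key : ∀ a q, q ≤ M + 1 → (X ^ q ∣ w - Dat.ev (D.yy M κ b' θ') a ↔
      X ^ q ∣ w - Dat.ev (D.yy M κ b θ) (D.act g a)) := fun a q hq => by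
    have := (pow_dvd_pow X hq).trans (ev.congr _ _ (fun j => (cen b θ j).mul_left _) (cen b' θ') a
      (M + 1) hy)
    rw [← ev.act _ (cen b θ)] at this
    refine dvd_iff_dvd_of_dvd_sub ?_
    convert dvd_sub_comm.1 this using 1
    ring
  have sur : ∀ a ∈ D.Z, ∃ a' ∈ D.Z, D.act g a' = a := fun a ha =>
    ⟨D.act ((D.n - 1) • g) a, (ca.act_mem _ a ha).1, by
      rw [← ca.act_add, ← succ_nsmul', Nat.sub_add_cancel (Nat.pos_of_ne_zero D.hn), ca.act_n]⟩
  have rM : ∀ {t : Finset (R0 σ k)} {q : ℕ}, D.IsCl t → D.Pos M t κ q → q ≤ M := fun c p => by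
    have := cb.deg_pos _ c
    have := p.2.2.2
    nlinarith
  obtain ⟨A1, A2, -⟩ := hA _ _ D K M s κ r b θ w u cs P hb hθ hw hp
  obtain ⟨B1, B2, -⟩ := hA _ _ D K M s' κ r' b' θ' w u' cs' P' hb' hθ' hw' hp'
  have r1 := rM cs P
  have r2 := rM cs' P'
  have n1 : ¬r < r' := fun hh => by
    obtain ⟨a, ha⟩ := cs'.1
    have d := (key a r' (by omega)).1 (B1 a ha).1
    by_cases hm : D.act g a ∈ s
    · exact (A1 _ hm).2 ((pow_dvd_pow X hh).trans d)
    · exact A2 _ (ca.act_mem g a (cs'.2.1 ha)).1 hm ((pow_dvd_pow X hh.le).trans d)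
  have n2 : ¬r' < r := fun hh => by
    obtain ⟨a, ha⟩ := cs.1
    obtain ⟨a', ha', rfl⟩ := sur a (cs.2.1 ha)
    have d := (key a' r (by omega)).2 (A1 _ ha).1
    by_cases hm : a' ∈ s'
    · exact (B1 _ hm).2 ((pow_dvd_pow X hh).trans d)
    · exact B2 _ ha' hm ((pow_dvd_pow X hh.le).trans d)
  obtain rfl : r = r' := by omega
  refine ⟨rfl, rfl, ht, g, Finset.ext fun a => ?_, hg⟩
  unfold Dat.acts
  rw [Finset.mem_image]
  constructor
  · intro ha
    obtain ⟨a', ha', rfl⟩ := sur a (cs.2.1 ha)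
    by_contra hn
    exact B2 _ ha' (fun hm => hn ⟨a', hm, rfl⟩) ((key a' r (by omega)).2 (A1 _ ha).1)
  · rintro ⟨a', ha', rfl⟩
    by_contra hn
    exact A2 _ (ca.act_mem g a' (cs'.2.1 ha')).1 hn ((key a' r (by omega)).1 (B1 _ ha').1)

end Pool.Agent.P.MP_b91a16_ag.Qo
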