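import Pool.Agent.P.MP_b91a16_ag.Qo.Spec

/-! Package WBad: the classes attached to a bad ray. -/

set_option linter.unusedSectionVars false

open Polynomial

namespace Pool.Agent.P.MP_b91a16_ag.Qo

noncomputable section

namespace WBadP

variable {σ : Type} [Fintype σ] [DecidableEq σ]

section Ch

variable {K : Type} [Field K] {Γ Λ' : AddSubgroup (σ → ℤ)} {β : (σ → ℤ) → K}

theorem ch_ne (h : IsCh Γ β) {μ : σ → ℤ} (hμ : μ ∈ Γ) : β μ ≠ 0 := by
  have := h.2.1 μ hμ (-μ) (neg_mem hμ)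
  rw [add_neg_cancel, h.1] at this
  exact left_ne_zero_of_mul_eq_one this.symm

theorem ch_nsmul (h : IsCh Γ β) {μ : σ → ℤ} (hμ : μ ∈ Γ) (t : ℕ) : β (t • μ) = β μ ^ t := by
  induction t with
  | zero => rw [zero_smul, h.1, pow_zero]
  | succ t ih => rw [succ_nsmul, h.2.1 _ (nsmul_mem hμ t) _ hμ, ih, pow_succ]

theorem ch_neg (h : IsCh Γ β) {μ : σ → ℤ} (hμ : μ ∈ Γ) : β (-μ) = (β μ)⁻¹ := by
  have := h.2.1 μ hμ (-μ) (neg_mem hμ)
  rw [add_neg_cancel, h.1] at this
  exact eq_inv_of_mul_eq_one_right this.symm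

theorem ch_zsmul (h : IsCh Γ β) {μ : σ → ℤ} (hμ : μ ∈ Γ) (t : ℤ) : β (t • μ) = β μ ^ t := by
  cases t with
  | ofNat t => rw [Int.ofNat_eq_natCast, natCast_zsmul, zpow_natCast, ch_nsmul h hμ]
  | negSucc t => rw [negSucc_zsmul, zpow_negSucc, ch_neg h (nsmul_mem hμ _), ch_nsmul h hμ]

theorem ch_add (h : IsCh Γ β) {M μ : σ → ℤ} (hM : M ∈ Γ) (hμ : μ ∈ Γ) (t : ℕ) :
    β (M + t • μ) = β M * β μ ^ t := by
  rw [h.2.1 _ hM _ (nsmul_mem hμ t), ch_nsmul h hμ]

end Ch

/-- `Γ = Λ' ⊕ ℤ g`. -/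
structure Spl (Γ Λ' : AddSubgroup (σ → ℤ)) (g : σ → ℤ) (i : σ) : Prop where
  mem : ∀ μ, μ ∈ Λ' ↔ μ ∈ Γ ∧ μ i = 0
  gm : g ∈ Γ
  ne : g i ≠ 0
  dvd : ∀ μ ∈ Γ, g i ∣ μ i

theorem Spl.sub {Γ Λ' : AddSubgroup (σ → ℤ)} {g : σ → ℤ} {i : σ} (s : Spl Γ Λ' g i) {μ : σ → ℤ}
    (hμ : μ ∈ Γ) : μ - (μ i / g i) • g ∈ Λ' := by
  refine (s.mem _).2 ⟨sub_mem hμ (zsmul_mem s.gm _), ?_⟩
  simp only [Pi.sub_apply, Pi.smul_apply, smul_eq_mul]
  rw [Int.ediv_mul_cancel (s.dvd μ hμ), sub_self]

variable {k : Type} [Field k]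

abbrev Rel (k : Type) [Field k] : Type 1 := ∀ (K : Type) [Field K] [Algebra k K], K → K → K → Prop

/-- Triples (character of `Λ'`, `u`, `v`). -/
def TP (Λ' : AddSubgroup (σ → ℤ)) (M : σ → ℤ) (R : Rel k) : Pred k (Option (Option (σ → ℤ))) :=
  fun K _ _ y => IsCh Λ' (fun μ => y (some (some μ))) ∧
    R K (y (some (some M))) (y (some none)) (y none)

variable {Γ Λ' : AddSubgroup (σ → ℤ)} {g M : σ → ℤ} {i : σ} {c : K0 k}

open Classical in
theorem restr (s : Spl Γ Λ' g i) (hM : M ∈ Λ') {Q : Pred k (Option (σ → ℤ))} (hQ : HasClass Q c)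
    (R : Rel k) (hR : ∀ (K : Type) [Field K] [Algebra k K] (x : Option (σ → ℤ) → K),
      Q K x ↔ IsCh Γ (fun μ => x (some μ)) ∧ R K (x (some M)) (x none) (x (some g))) :
    HasClass (TP Λ' M fun K _ _ b u a => a ≠ 0 ∧ R K b u a) c := by
  refine hQ.map (fun j => j.elim (MvPolynomial.X (some g)) fun j' =>
    j'.elim (MvPolynomial.X none) fun μ => if μ ∈ Λ' then MvPolynomial.X (some μ) else 0)
    fun K _ _ => ?_
  have ev : ∀ (x : Option (σ → ℤ) → K) (μ : σ → ℤ), MvPolynomial.aeval x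
      (if μ ∈ Λ' then MvPolynomial.X (some μ) else 0 : MvPolynomial (Option (σ → ℤ)) k) =
      if μ ∈ Λ' then x (some μ) else 0 := by
    intro x μ
    split_ifs <;> simp
  have le : ∀ μ ∈ Λ', μ ∈ Γ := fun μ h => ((s.mem μ).1 h).1
  refine ⟨fun x hx => ?_, fun x hx x' hx' e => ?_, fun y hy => ?_⟩
  · obtain ⟨h1, h2⟩ := (hR K x).1 hx
    refine ⟨⟨?_, ?_, ?_⟩, ?_, ?_⟩
    · simp only [Option.elim, zero_mem, if_true, MvPolynomial.aeval_X]
      exact h1.1
    · intro μ hμ ν hν
      simp only [Option.elim, hμ, hν, add_mem hμ hν, if_true, MvPolynomial.aeval_X]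
      exact h1.2.1 μ (le μ hμ) ν (le ν hν)
    · intro μ hμ
      simp only [Option.elim, hμ, if_false, map_zero]
    · simp only [Option.elim, MvPolynomial.aeval_X]
      exact ch_ne h1 s.gm
    · simp only [Option.elim, MvPolynomial.aeval_X, hM, if_true]
      exact h2
  · obtain ⟨h1, -⟩ := (hR K x).1 hx
    obtain ⟨h1', -⟩ := (hR K x').1 hx'
    have e0 : x (some g) = x' (some g) := by simpa using congrFun e none
    have e1 : x none = x' none := by simpa using congrFun e (some none)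
    have e2 : ∀ μ ∈ Λ', x (some μ) = x' (some μ) := fun μ hμ => by
      simpa [hμ] using congrFun e (some (some μ))
    funext j
    cases j with
    | none => exact e1
    | some μ =>
      by_cases hμ : μ ∈ Γ
      · have d : ∀ z : Option (σ → ℤ) → K, IsCh Γ (fun μ => z (some μ)) →
            z (some μ) = z (some (μ - (μ i / g i) • g)) * z (some g) ^ (μ i / g i) := by
          intro z hz
          have := hz.2.1 _ (le _ (s.sub hμ)) _ (zsmul_mem s.gm (μ i / g i))
          rw [sub_add_cancel] at this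
          exact this.trans (congrArg _ (ch_zsmul hz s.gm _))
        rw [d x h1, d x' h1', e0, e2 _ (s.sub hμ)]
      · exact (h1.2.2 μ hμ).trans (h1'.2.2 μ hμ).symm
  · obtain ⟨h1, ha, h2⟩ := hy
    let x : Option (σ → ℤ) → K := fun j => j.elim (y (some none)) fun μ =>
      if μ ∈ Γ then y (some (some (μ - (μ i / g i) • g))) * y none ^ (μ i / g i) else 0
    have x1 : ∀ μ ∈ Λ', x (some μ) = y (some (some μ)) := by
      intro μ hμ
      simp only [x, Option.elim, le μ hμ, if_true, ((s.mem μ).1 hμ).2, Int.zero_ediv, zero_smul,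
        sub_zero, zpow_zero, mul_one]
    have x2 : x (some g) = y none := by
      have := h1.1
      simp only at this
      simp only [x, Option.elim, s.gm, if_true, Int.ediv_self s.ne, one_smul, sub_self, zpow_one,
        this, one_mul]
    have xc : IsCh Γ fun μ => x (some μ) := by
      refine ⟨(x1 0 (zero_mem _)).trans h1.1, fun μ hμ ν hν => ?_, fun μ hμ => ?_⟩
      · have t : (μ + ν) i / g i = μ i / g i + ν i / g i :=
          Int.add_ediv_of_dvd_left (s.dvd μ hμ)
        have e : μ + ν - (μ i / g i + ν i / g i) • g =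
            (μ - (μ i / g i) • g) + (ν - (ν i / g i) • g) := by
          rw [add_smul]; abel
        have := h1.2.1 _ (s.sub hμ) _ (s.sub hν)
        simp only at this
        simp only [x, Option.elim, hμ, hν, add_mem hμ hν, if_true, t, e, this, zpow_add₀ ha]
        ring
      · simp only [x, Option.elim, hμ, if_false]
    refine ⟨x, (hR K x).2 ⟨xc, ?_⟩, ?_⟩
    · rw [x1 M hM, x2]
      exact h2
    · funext j
      rcases j with _ | _ | μ
      · simpa using x2
      · simp [x]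
      · simp only [Option.elim, ev]
        split_ifs with hμ
        · exact x1 μ hμ
        · exact (h1.2.2 μ hμ).symm

/-- A polynomial change of the coordinates `(u, v)`. -/
theorem chg {R : Rel k} (h : HasClass (TP Λ' M R) c) (R' : Rel k)
    (F G : MvPolynomial (Option (Option (σ → ℤ))) k)
    (f f' : ∀ (K : Type) [Field K] [Algebra k K], K → K → K)
    (hF : ∀ (K : Type) [Field K] [Algebra k K] (y : Option (Option (σ → ℤ)) → K),
      MvPolynomial.aeval y F = f K (y (some none)) (y none) ∧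
        MvPolynomial.aeval y G = f' K (y (some none)) (y none))
    (hb : ∀ (K : Type) [Field K] [Algebra k K] (b : K),
      (∀ u v, R K b u v → R' K b (f K u v) (f' K u v)) ∧
      (∀ u v u' v', R K b u v → R K b u' v' → f K u v = f K u' v' → f' K u v = f' K u' v' →
        u = u' ∧ v = v') ∧
      ∀ u' v', R' K b u' v' → ∃ u v, R K b u v ∧ f K u v = u' ∧ f' K u v = v') :
    HasClass (TP Λ' M R') c := by
  refine h.map (fun j => j.elim G fun j' => j'.elim F fun μ => MvPolynomial.X (some (some μ)))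
    fun K _ _ => ⟨fun x hx => ?_, fun x hx x' hx' e => ?_, fun y hy => ?_⟩
  · refine ⟨by simpa using hx.1, ?_⟩
    simp only [Option.elim, MvPolynomial.aeval_X, (hF K x).1, (hF K x).2]
    exact (hb K _).1 _ _ hx.2
  · have e2 : ∀ μ, x (some (some μ)) = x' (some (some μ)) := fun μ => by
      simpa using congrFun e (some (some μ))
    have e0 := congrFun e none
    have e1 := congrFun e (some none)
    simp only [Option.elim, (hF K _).1, (hF K _).2] at e0 e1
    have := (hb K _).2.1 _ _ _ _ hx.2 (e2 M ▸ hx'.2) e1 e0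
    funext j
    rcases j with _ | _ | μ
    exacts [this.2, this.1, e2 μ]
  · obtain ⟨u, v, h1, h2, h3⟩ := (hb K _).2.2 _ _ hy.2
    refine ⟨fun j => j.elim v fun j' => j'.elim u fun μ => y (some (some μ)), ⟨hy.1, h1⟩, ?_⟩
    funext j
    rcases j with _ | _ | μ
    · simp only [Option.elim, (hF K _).2, h3]
    · simp only [Option.elim, (hF K _).1, h2]
    · simp

theorem emb {Q : Pred k (Option (σ → ℤ))} (hQ : HasClass Q c)
    (R : ∀ (K : Type) [Field K] [Algebra k K], K → K → Prop)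
    (hR : ∀ (K : Type) [Field K] [Algebra k K] (x : Option (σ → ℤ) → K),
      Q K x ↔ IsCh Λ' (fun μ => x (some μ)) ∧ R K (x (some M)) (x none)) :
    HasClass (TP Λ' M fun K _ _ b u v => R K b u ∧ v = 0) c := by
  refine hQ.map (fun j => j.elim 0 MvPolynomial.X)
    fun K _ _ => ⟨fun x hx => ?_, fun x _ x' _ e => ?_, fun y hy => ?_⟩
  · obtain ⟨h1, h2⟩ := (hR K x).1 hx
    exact ⟨by simpa using h1, by simpa using h2, by simp⟩
  · funext j
    simpa using congrFun e (some j)
  · refine ⟨fun j => y (some j), (hR K _).2 ⟨hy.1, hy.2.1⟩, ?_⟩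
    funext j
    cases j with
    | none => simpa using hy.2.2.symm
    | some j => simp

theorem fre (R : ∀ (K : Type) [Field K] [Algebra k K], K → K → Prop)
    (h : HasClass (TP Λ' M fun K _ _ b u v => R K b u ∧ v = 0) c) :
    HasClass (TP Λ' M fun K _ _ b u _ => R K b u) (c * cls k k[X]) := by
  refine (h.free none fun K _ _ x hx => hx.2.2).congr fun K _ _ x => ?_
  simp [TP]

theorem uni {R R' : Rel k} {c' : K0 k} (h : HasClass (TP Λ' M R) c) (h' : HasClass (TP Λ' M R') c')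
    (T : Rel k) (hd : ∀ (K : Type) [Field K] [Algebra k K] (b u v : K),
      (R K b u v → R' K b u v → False) ∧ (T K b u v ↔ R K b u v ∨ R' K b u v)) :
    HasClass (TP Λ' M T) (c + c') := by
  refine (h.union h' fun K _ _ x h1 h2 => (hd K _ _ _).1 h1.2 h2.2).congr fun K _ _ x => ?_
  simp only [TP, (hd K _ _ _).2, and_or_left]

/-! The sums. -/

theorem sum_mono {K : Type} [Field K] [Algebra k K] (w : ℕ → K) (u : K) (a : k) {l D : ℕ}
    (h : l ≤ D) : ∑ j ∈ Finset.range (D + 1), algebraMap k K ((C a * X ^ l).coeff j) * w j * u ^ j =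
      algebraMap k K a * w l * u ^ l := by
  rw [Finset.sum_eq_single l]
  · rw [coeff_C_mul_X_pow, if_pos rfl]
  · intro j _ hj
    rw [coeff_C_mul_X_pow, if_neg hj, map_zero, zero_mul, zero_mul]
  · intro hl
    exact absurd (Finset.mem_range.2 (Nat.lt_succ_of_le h)) hl

theorem sum_exp {K : Type} [Field K] [Algebra k K] {β : (σ → ℤ) → K} (hβ : IsCh Γ β)
    {h : σ → ℤ} {p : ℕ} (hM : M ∈ Γ) (hp : p • h ∈ Γ) (m e : ℕ) (Q : k[X]) (hQ : Q.natDegree ≤ e)
    (u : K) : ∑ l ∈ Finset.range (m + p * e + 1),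
      algebraMap k K ((X ^ m * expand k p Q).coeff l) * β (M + (m + p * e - l) • h) * u ^ l =
      β M * u ^ m * (β (p • h) ^ e * aeval (u ^ p / β (p • h)) Q) := by
  have ha := ch_ne hβ hp
  have e1 : X ^ m * expand k p Q =
      ∑ j ∈ Finset.range (e + 1), C (Q.coeff j) * X ^ (m + p * j) := by
    conv_lhs => rw [Q.as_sum_range_C_mul_X_pow' (Nat.lt_succ_of_le hQ)]
    rw [map_sum, Finset.mul_sum]
    refine Finset.sum_congr rfl fun j _ => ?_
    rw [map_mul, expand_C, map_pow, expand_X, pow_add, pow_mul]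
    ring
  rw [e1, aeval_eq_sum_range' (Nat.lt_succ_of_le hQ), Finset.mul_sum, Finset.mul_sum]
  simp only [finsetSum_coeff, map_sum, Finset.sum_mul]
  rw [Finset.sum_comm]
  refine Finset.sum_congr rfl fun j hj => ?_
  have hj' : j ≤ e := Nat.lt_succ_iff.1 (Finset.mem_range.1 hj)
  obtain ⟨d, rfl⟩ := Nat.exists_eq_add_of_le hj'
  rw [sum_mono (fun l => β (M + (m + p * (j + d) - l) • h)) u _ (by nlinarith)]
  have : m + p * (j + d) - (m + p * j) = d * p := by
    rw [mul_add, ← add_assoc, Nat.add_sub_cancel_left, mul_comm]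
  rw [this, mul_smul, ch_add hβ hM hp, Algebra.smul_def (Q.coeff j), div_pow]
  generalize β (p • h) = a at ha ⊢
  field_simp
  ring

theorem wp_mono (Λ : AddSubgroup (σ → ℤ)) (a : k) (N h : σ → ℤ) (D : ℕ) (K : Type) [Field K]
    [Algebra k K] (x : Option (σ → ℤ) → K) : WP Λ (C a * X ^ D) N h D K x ↔
      IsCh Λ (fun μ => x (some μ)) ∧ algebraMap k K a * x (some N) * x none ^ D = 1 := by
  unfold WP
  rw [sum_mono (fun l => x (some (N + (D - l) • h))) _ _ le_rfl, Nat.sub_self, zero_smul, add_zero]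

theorem wp_X (Λ : AddSubgroup (σ → ℤ)) (N h : σ → ℤ) (D : ℕ) (K : Type) [Field K]
    [Algebra k K] (x : Option (σ → ℤ) → K) : WP Λ (X ^ D : k[X]) N h D K x ↔
      IsCh Λ (fun μ => x (some μ)) ∧ x (some N) * x none ^ D = 1 := by
  have := wp_mono Λ (1 : k) N h D K x
  rwa [C_1, one_mul, map_one, one_mul] at this

theorem wp_C (Λ : AddSubgroup (σ → ℤ)) (a : k) (N h : σ → ℤ) (D : ℕ) (K : Type) [Field K]
    [Algebra k K] (x : Option (σ → ℤ) → K) : WP Λ (C a) N h D K x ↔
      IsCh Λ (fun μ => x (some μ)) ∧ algebraMap k K a * x (some (N + D • h)) = 1 := by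
  have := sum_mono (fun l => x (some (N + (D - l) • h))) (x none) a (Nat.zero_le D)
  rw [pow_zero, mul_one, pow_zero, mul_one, Nat.sub_zero] at this
  unfold WP
  rw [this]

theorem sum_bad {K : Type} [Field K] [Algebra k K] {β : (σ → ℤ) → K} (hβ : IsCh Γ β)
    {h : σ → ℤ} {p : ℕ} (hM : M ∈ Γ) (hp : p • h ∈ Γ) (m e : ℕ) (C₀ c₁ c : k)
    (h1 : p = 1 ∨ c₁ = 0) (u : K) : ∑ l ∈ Finset.range (m + p * e + 1),
      algebraMap k K ((C C₀ * ((X - C c₁) ^ m * ((X - C c₁) ^ p - C c) ^ e)).coeff l) *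
        β (M + (m + p * e - l) • h) * u ^ l =
      algebraMap k K C₀ * β M * (u - algebraMap k K c₁ * β (p • h)) ^ m *
        ((u - algebraMap k K c₁ * β (p • h)) ^ p - algebraMap k K c * β (p • h)) ^ e := by
  have ha := ch_ne hβ hp
  rcases h1 with rfl | rfl
  · have hd : (C C₀ * ((X - C c₁) ^ m * ((X - C c₁) ^ 1 - C c) ^ e)).natDegree ≤ m + e := by
      refine (natDegree_C_mul_le _ _).trans (natDegree_mul_le.trans (add_le_add ?_ ?_))
      · exact natDegree_pow_le.trans (by rw [natDegree_X_sub_C, mul_one])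
      · refine natDegree_pow_le.trans ?_
        rw [pow_one, sub_sub, ← C_add, natDegree_X_sub_C, mul_one]
    have := sum_exp hβ hM hp 0 (m + e) _ hd u
    simp only [pow_zero, one_mul, zero_add, expand_one] at this ⊢
    rw [this]
    simp only [map_mul, map_pow, map_sub, aeval_X, aeval_C, pow_one]
    have e1 : u / β (1 • h) - algebraMap k K c₁ =
      (u - algebraMap k K c₁ * β (1 • h)) / β (1 • h) := by field_simp
    have e2 : (u - algebraMap k K c₁ * β (1 • h)) / β (1 • h) - algebraMap k K c =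
      (u - algebraMap k K c₁ * β (1 • h) - algebraMap k K c * β (1 • h)) / β (1 • h) := by
      field_simp
    rw [e1, e2, div_pow, div_pow, pow_add]
    field_simp
  · have hd : (C C₀ * (X - C c) ^ e).natDegree ≤ e :=
      (natDegree_C_mul_le _ _).trans
        (natDegree_pow_le.trans (by rw [natDegree_X_sub_C, mul_one]))
    have := sum_exp hβ hM hp m e _ hd u
    have e0 : C C₀ * ((X - C 0) ^ m * ((X - C 0) ^ p - C c) ^ e) =
        X ^ m * expand k p (C C₀ * (X - C c) ^ e) := by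
      simp only [map_mul, map_pow, map_sub, expand_C, expand_X, map_zero, sub_zero]
      ring
    rw [e0, this]
    simp only [map_mul, map_pow, map_sub, aeval_X, aeval_C, map_zero, zero_mul, sub_zero]
    have e1 : u ^ p / β (p • h) - algebraMap k K c =
      (u ^ p - algebraMap k K c * β (p • h)) / β (p • h) := by field_simp
    rw [e1, div_pow]
    field_simp

end WBadP

open WBadP

theorem p_WBad (h : S_Wc) (hF : S_Free) (hS : S_Scale) : S_WBad := by
  intro σ k _ _ _ _ Λ Λ' Λ₂ M hh i n p m₀ e D C₀ c₁ c P hn hdv hΛ' hΛ₂ hM hp hpn hC hc he h1 h2 hD hP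
  have hn' : (n : ℤ) ≠ 0 := by exact_mod_cast hn
  have hp0 : 0 < p := by
    rcases Nat.eq_zero_or_pos p with rfl | h0
    · exact absurd (by simpa using hpn.symm) hn'
    · exact h0
  have hl : hh i ≠ 0 := fun h0 => hn' (by rw [← hpn, h0, mul_zero])
  have gi : (p • hh) i = n := by rw [← hpn]; simp
  have s1 : Spl Λ Λ' (p • hh) i := ⟨hΛ', hp, gi ▸ hn', fun μ hμ => gi ▸ hdv μ hμ⟩
  have s2 : Spl Λ₂ Λ' hh i := by
    refine ⟨fun μ => ⟨fun hμ => ⟨(hΛ₂ μ).2 ⟨0, by simpa using ((hΛ' μ).1 hμ).1⟩,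
      ((hΛ' μ).1 hμ).2⟩, fun ⟨hμ, h0⟩ => (hΛ' μ).2 ⟨?_, h0⟩⟩,
      (hΛ₂ _).2 ⟨1, by simp⟩, hl, fun μ hμ => ?_⟩
    · obtain ⟨l, hl'⟩ := (hΛ₂ μ).1 hμ
      have d := hdv _ hl'
      simp only [Pi.sub_apply, Pi.smul_apply, smul_eq_mul, h0, zero_sub, dvd_neg, ← hpn] at d
      obtain ⟨t, rfl⟩ := (mul_dvd_mul_iff_right hl).1 d
      have : μ = (μ - ((p : ℤ) * t) • hh) + t • p • hh := by
        rw [mul_comm, mul_smul, natCast_zsmul, sub_add_cancel]
      rw [this]
      exact add_mem hl' (zsmul_mem hp t)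
    · obtain ⟨l, hl'⟩ := (hΛ₂ μ).1 hμ
      have d := hdv _ hl'
      simp only [Pi.sub_apply, Pi.smul_apply, smul_eq_mul, ← hpn] at d
      have d' : hh i ∣ μ i - l * hh i := (dvd_mul_left _ _).trans d
      exact (dvd_sub_left (dvd_mul_left _ _)).1 d'
  have hMΛ : M ∈ Λ := ((hΛ' M).1 hM).1
  have hMΛ₂ : M ∈ Λ₂ := ((s2.mem M).1 hM).1
  have h12 : p = 1 ∨ c₁ = 0 := by
    rcases Nat.lt_or_ge p 2 with h0 | h0
    · left; omega
    · exact Or.inr (h2 h0)
  have hD0 : 0 < D := by rw [hD]; positivity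
  obtain ⟨d, hd⟩ := IsAlgClosed.exists_pow_nat_eq C₀⁻¹ he
  have hd0 : d ≠ 0 := fun h0 => by
    rw [h0, zero_pow he.ne'] at hd
    exact inv_ne_zero hC hd.symm
  have hdK : ∀ (K : Type) [Field K] [Algebra k K],
      algebraMap k K C₀ * algebraMap k K d ^ e = 1 := fun K _ _ => by
    rw [← map_pow, ← map_mul, hd, mul_inv_cancel₀ hC, map_one]
  have inj : ∀ (K : Type) [Field K] [Algebra k K] (a : k), a ≠ 0 → algebraMap k K a ≠ 0 :=
    fun K _ _ a ha => (_root_.map_ne_zero _).2 ha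
  let T : Rel k := fun K _ _ b u v => algebraMap k K C₀ * b * u ^ m₀ * v ^ e = 1
  have Tv : ∀ (K : Type) [Field K] [Algebra k K] (b u v : K), T K b u v → v ≠ 0 := by
    intro K _ _ b u v ht h0
    simp only [T, h0, zero_pow he.ne', mul_zero] at ht
    exact zero_ne_one ht
  -- the main set
  have A1 := restr s1 hM (h σ k Λ (C C₀ * P) M hh D)
    (fun K _ _ b u a => T K b (u - algebraMap k K c₁ * a)
      ((u - algebraMap k K c₁ * a) ^ p - algebraMap k K c * a)) fun K _ _ x => by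
      refine and_congr_right fun hx => ?_
      rw [hP, hD, sum_bad hx hMΛ hp m₀ e C₀ c₁ c h12]
  have B1 := chg A1 (fun K _ _ b u v => v ≠ u ^ p ∧ T K b u v)
    (MvPolynomial.X (some none) - MvPolynomial.C c₁ * MvPolynomial.X none)
    ((MvPolynomial.X (some none) - MvPolynomial.C c₁ * MvPolynomial.X none) ^ p -
      MvPolynomial.C c * MvPolynomial.X none)
    (fun K _ _ u a => u - algebraMap k K c₁ * a)
    (fun K _ _ u a => (u - algebraMap k K c₁ * a) ^ p - algebraMap k K c * a)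
    (fun K _ _ y => by simp) fun K _ _ b => by
      have cK := inj K c hc
      refine ⟨fun u a ⟨ha, ht⟩ => ⟨fun e0 => ?_, ht⟩, fun u a u' a' _ _ e1 e2 => ?_,
        fun u v ⟨hv, ht⟩ => ?_⟩
      · exact mul_ne_zero cK ha (sub_eq_self.1 e0)
      · rw [e1] at e2
        have : a = a' := mul_left_cancel₀ cK (sub_right_injective e2)
        rw [this] at e1
        exact ⟨sub_left_injective e1, this⟩
      · have e2 : u ^ p - algebraMap k K c * ((u ^ p - v) / algebraMap k K c) = v := by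
          field_simp; ring
        refine ⟨u + algebraMap k K c₁ * ((u ^ p - v) / algebraMap k K c),
          (u ^ p - v) / algebraMap k K c, ⟨div_ne_zero (sub_ne_zero.2 hv.symm) cK, ?_⟩, ?_, ?_⟩
        · rw [add_sub_cancel_right, e2]; exact ht
        · rw [add_sub_cancel_right]
        · rw [add_sub_cancel_right, e2]
  have A0 := emb (Λ' := Λ') (M := M) (h σ k Λ' (C C₀ * X ^ D) M 0 D)
    (fun K _ _ b u => algebraMap k K C₀ * b * u ^ D = 1) fun K _ _ x => wp_mono _ _ _ _ _ K x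
  have B0 := chg A0 (fun K _ _ b u v => v = u ^ p ∧ T K b u v)
    (MvPolynomial.X (some none)) (MvPolynomial.X (some none) ^ p + MvPolynomial.X none)
    (fun K _ _ u _ => u) (fun K _ _ u v => u ^ p + v) (fun K _ _ y => by simp) fun K _ _ b => by
      have key : ∀ u : K, T K b u (u ^ p) ↔ algebraMap k K C₀ * b * u ^ D = 1 := fun u => by
        simp only [T, hD, pow_add, pow_mul, mul_assoc]
      refine ⟨fun u v ⟨ht, hv⟩ => ?_, fun u v u' v' h1 h2 e1 _ => ⟨e1, h1.2.trans h2.2.symm⟩,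
        fun u v ⟨hv, ht⟩ => ⟨u, 0, ⟨(key u).1 (hv ▸ ht), rfl⟩, rfl, by rw [add_zero, hv]⟩⟩
      rw [hv, add_zero]
      exact ⟨rfl, (key u).2 ht⟩
  have BT := uni B1 B0 T fun K _ _ b u v => ⟨fun a a' => a.1 a'.1, by tauto⟩
  have sc := (hS σ k Λ' M 0 D).2 C₀ hC hD0
  -- the second lattice
  have hDe : D - e = m₀ + (p - 1) * e := by
    obtain ⟨q, hq⟩ : ∃ q, p = q + 1 := ⟨p - 1, by omega⟩
    rw [hD, hq, Nat.add_sub_cancel, add_mul, one_mul, ← add_assoc, Nat.add_sub_cancel]
  have A3 := restr s2 hM (h σ k Λ₂ (X ^ e : k[X]) (M + (D - e) • hh) 0 e)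
    (fun K _ _ b u a => b * a ^ (D - e) * u ^ e = 1) fun K _ _ x => by
      rw [wp_X]
      refine and_congr_right fun hx => ?_
      rw [show x (some (M + (D - e) • hh)) = _ from ch_add hx hMΛ₂ s2.gm _]
  have B3 := chg A3 (fun K _ _ b u v => u ≠ 0 ∧ T K b u v) (MvPolynomial.X none)
    (MvPolynomial.C d * MvPolynomial.X none ^ (p - 1) * MvPolynomial.X (some none))
    (fun K _ _ _ a => a) (fun K _ _ u a => algebraMap k K d * a ^ (p - 1) * u)
    (fun K _ _ y => by simp) fun K _ _ b => by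
      have dK := inj K d hd0
      have key : ∀ u a : K, T K b a (algebraMap k K d * a ^ (p - 1) * u) ↔
          b * a ^ (D - e) * u ^ e = 1 := fun u a => by
        have : algebraMap k K C₀ * b * a ^ m₀ * (algebraMap k K d * a ^ (p - 1) * u) ^ e =
            (algebraMap k K C₀ * algebraMap k K d ^ e) * (b * a ^ (D - e) * u ^ e) := by
          rw [hDe]; ring
        simp only [T, this, hdK K, one_mul]
      refine ⟨fun u a ⟨ha, ht⟩ => ⟨ha, (key u a).2 ht⟩, fun u a u' a' h1 _ e1 e2 => ?_,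
        fun u v ⟨hu, ht⟩ => ?_⟩
      · subst e1
        exact ⟨mul_left_cancel₀ (mul_ne_zero dK (pow_ne_zero _ h1.1)) e2, rfl⟩
      · have e2 : algebraMap k K d * u ^ (p - 1) * (v / (algebraMap k K d * u ^ (p - 1))) = v := by
          field_simp
        exact ⟨_, u, ⟨hu, (key _ u).1 (e2.symm ▸ ht)⟩, rfl, e2⟩
  rcases Nat.eq_zero_or_pos m₀ with h0 | h0
  · -- no root at the centre
    subst h0
    have hp2 : 2 ≤ p := by
      by_contra hlt
      exact absurd (h1 (by omega)) (lt_irrefl 0)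
    have hc1 := h2 hp2
    subst hc1
    have E0 := emb (Λ' := Λ') (M := M) (h σ k Λ' (C C₀ * X ^ e) M 0 e)
      (fun K _ _ b u => algebraMap k K C₀ * b * u ^ e = 1) fun K _ _ x => wp_mono _ _ _ _ _ K x
    have E1 := chg (fre _ E0) T (MvPolynomial.X none) (MvPolynomial.X (some none))
      (fun K _ _ _ v => v) (fun K _ _ u _ => u) (fun K _ _ y => by simp) fun K _ _ b =>
        ⟨fun u v ht => by simpa [T] using ht, fun u v u' v' _ _ e1 e2 => ⟨e2, e1⟩,
          fun u v ht => ⟨v, u, by simpa [T] using ht, rfl, rfl⟩⟩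
    have E2 := chg E0 (fun K _ _ b u v => u = 0 ∧ T K b u v) (MvPolynomial.X none)
      (MvPolynomial.X (some none)) (fun K _ _ _ v => v) (fun K _ _ u _ => u)
      (fun K _ _ y => by simp) fun K _ _ b =>
        ⟨fun u v ht => ⟨ht.2, by simpa [T] using ht.1⟩, fun u v u' v' _ _ e1 e2 => ⟨e2, e1⟩,
          fun u v ht => ⟨v, u, ⟨by simpa [T] using ht.2, ht.1⟩, rfl, rfl⟩⟩
    have E3 := uni B3 E2 T fun K _ _ b u v => ⟨fun a a' => a.1 a'.1, by tauto⟩
    have hP0 : P.coeff 0 = (-c) ^ e := by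
      rw [hP, coeff_zero_eq_eval_zero]
      simp [zero_pow hp0.ne']
    have A5 := restr s1 hM (h σ k Λ (C C₀ * C (P.coeff 0)) M hh D)
      (fun K _ _ b u a => T K b u (-(algebraMap k K c * a))) fun K _ _ x => by
        rw [← C_mul, wp_C]
        refine and_congr_right fun hx => ?_
        rw [hD, zero_add, mul_comm p e, mul_smul,
          show x (some (M + e • p • hh)) = _ from ch_add hx hMΛ hp _, hP0]
        have : algebraMap k K (C₀ * (-c) ^ e) * (x (some M) * x (some (p • hh)) ^ e) =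
            algebraMap k K C₀ * x (some M) * x none ^ 0 *
              (-(algebraMap k K c * x (some (p • hh)))) ^ e := by
          rw [map_mul, map_pow, map_neg, ← neg_mul, mul_pow]; ring
        simp only [T, this]
    have B5 := chg A5 T (MvPolynomial.X (some none)) (-(MvPolynomial.C c * MvPolynomial.X none))
      (fun K _ _ u _ => u) (fun K _ _ _ a => -(algebraMap k K c * a))
      (fun K _ _ y => by simp) fun K _ _ b => by
        have cK := inj K c hc
        refine ⟨fun u a ht => ht.2, fun u a u' a' _ _ e1 e2 =>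
          ⟨e1, mul_left_cancel₀ cK (neg_injective e2)⟩, fun u v ht => ?_⟩
        have e2 : -(algebraMap k K c * (-v / algebraMap k K c)) = v := by field_simp
        exact ⟨u, _, ⟨div_ne_zero (neg_ne_zero.2 (Tv K b u v ht)) cK, e2.symm ▸ ht⟩, rfl, e2⟩
    have sc' := (hS σ k Λ' M 0 e).2 C₀ hC he
    have q1 := congrArg (algebraMap (K0 k) (Mot k)) (BT.unique E1)
    have q2 := congrArg (algebraMap (K0 k) (Mot k)) (B5.unique E1)
    have q3 := congrArg (algebraMap (K0 k) (Mot k)) (E3.unique E1)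
    rw [map_mul] at q1 q2 q3
    rw [map_add] at q1 q3
    refine ⟨wc Λ' (X ^ e : k[X]) M 0 e, fun h0 => absurd h0 (lt_irrefl 0), fun _ => ?_⟩
    rw [← sc, ← sc']
    unfold wc LL
    exact ⟨by linear_combination q1, by linear_combination q2, by linear_combination q3⟩
  · have A2 := restr s1 hM (h σ k Λ (X ^ m₀ : k[X]) (M + (p * e) • hh) 0 m₀)
      (fun K _ _ b u a => b * a ^ e * u ^ m₀ = 1) fun K _ _ x => by
        rw [wp_X]
        refine and_congr_right fun hx => ?_
        rw [mul_comm p e, mul_smul, show x (some (M + e • p • hh)) = _ from ch_add hx hMΛ hp _]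
    have B2 := chg A2 T (MvPolynomial.X (some none)) (MvPolynomial.C d * MvPolynomial.X none)
      (fun K _ _ u _ => u) (fun K _ _ _ a => algebraMap k K d * a)
      (fun K _ _ y => by simp) fun K _ _ b => by
        have dK := inj K d hd0
        have key : ∀ u a : K, T K b u (algebraMap k K d * a) ↔ b * a ^ e * u ^ m₀ = 1 :=
          fun u a => by
            have : algebraMap k K C₀ * b * u ^ m₀ * (algebraMap k K d * a) ^ e =
                (algebraMap k K C₀ * algebraMap k K d ^ e) * (b * a ^ e * u ^ m₀) := by ring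
            simp only [T, this, hdK K, one_mul]
        refine ⟨fun u a ht => (key u a).2 ht.2, fun u a u' a' _ _ e1 e2 =>
          ⟨e1, mul_left_cancel₀ dK e2⟩, fun u v ht => ?_⟩
        have e2 : algebraMap k K d * (v / algebraMap k K d) = v := by field_simp
        exact ⟨u, _, ⟨div_ne_zero (Tv K b u v ht) dK, (key u _).1 (e2.symm ▸ ht)⟩, rfl, e2⟩
    have B3' : HasClass (WBadP.TP Λ' M T) _ := B3.congr fun K _ _ y => by
      refine and_congr_right fun _ => ⟨fun a => a.2, fun ht => ⟨fun hu => ?_, ht⟩⟩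
      simp only [T, hu, zero_pow h0.ne', mul_zero, zero_mul] at ht
      exact zero_ne_one ht
    refine ⟨algebraMap (K0 k) (Mot k) (wcl Λ (C C₀ * P) M hh D + wcl Λ' (C C₀ * X ^ D) M 0 D),
      fun _ => ⟨?_, congrArg (algebraMap (K0 k) (Mot k)) (B2.unique BT),
      congrArg (algebraMap (K0 k) (Mot k)) (B3'.unique BT), fun hp2 => ?_⟩,
      fun h00 => absurd h00 h0.ne'⟩
    · rw [← sc, map_add]
      unfold wc
      ring
    · have hP0 : P.coeff 0 = 0 := by
        rw [hP, h2 hp2, coeff_zero_eq_eval_zero]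
        simp [zero_pow h0.ne']
      rw [hP0, C_0, mul_zero]
      exact (hS σ k Λ M hh D).1

end

end Pool.Agent.P.MP_b91a16_ag.Qo
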