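import Pool.Agent.P.MP_b91a16_ag.Qo.Spec

/-! Classes of hypersurfaces in tori exist, and characters lift to the full torus. -/

set_option linter.unusedSectionVars false

open Polynomial

namespace Pool.Agent.P.MP_b91a16_ag.Qo

noncomputable section

namespace WcP

variable {σ k : Type} [Fintype σ] [DecidableEq σ] [Field k]

theorem fg (Λ : AddSubgroup (σ → ℤ)) : AddMonoid.FG Λ := by
  have h : Λ.FG := by
    have := (Submodule.fg_iff_addSubgroup_fg (AddSubgroup.toIntSubmodule Λ)).1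
      (IsNoetherian.noetherian _)
    simpa using this
  exact AddGroup.fg_iff_addMonoid_fg.1 ((AddGroup.fg_iff_addSubgroup_fg Λ).2 h)

open Classical in
def gen (k : Type) [Field k] (Λ : AddSubgroup (σ → ℤ)) (μ : σ → ℤ) : AddMonoidAlgebra k Λ :=
  if h : μ ∈ Λ then AddMonoidAlgebra.single ⟨μ, h⟩ 1 else 0

theorem gen_mem {Λ : AddSubgroup (σ → ℤ)} {μ : σ → ℤ} (h : μ ∈ Λ) :
    gen k Λ μ = AddMonoidAlgebra.single ⟨μ, h⟩ 1 := dif_pos h

theorem gen_not {Λ : AddSubgroup (σ → ℤ)} {μ : σ → ℤ} (h : μ ∉ Λ) : gen k Λ μ = 0 := dif_neg h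

theorem isCh_gen (Λ : AddSubgroup (σ → ℤ)) {K : Type} [Field K] [Algebra k K]
    (ψ : AddMonoidAlgebra k Λ →ₐ[k] K) : IsCh Λ fun μ => ψ (gen k Λ μ) := by
  refine ⟨?_, fun μ hμ ν hν => ?_, fun μ hμ => ?_⟩
  · change ψ (gen k Λ 0) = 1
    rw [gen_mem Λ.zero_mem, ← map_one ψ]
    rfl
  · change ψ (gen k Λ (μ + ν)) = ψ (gen k Λ μ) * ψ (gen k Λ ν)
    rw [← map_mul, gen_mem hμ, gen_mem hν, gen_mem (Λ.add_mem hμ hν),
      AddMonoidAlgebra.single_mul_single, one_mul]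
    rfl
  · change ψ (gen k Λ μ) = 0
    rw [gen_not hμ, map_zero]

theorem exists_hom (Λ : AddSubgroup (σ → ℤ)) {K : Type} [Field K] [Algebra k K]
    {β : (σ → ℤ) → K} (h : IsCh Λ β) :
    ∃ ψ : AddMonoidAlgebra k Λ →ₐ[k] K, ∀ μ, ψ (gen k Λ μ) = β μ := by
  let φ : Multiplicative Λ →* K :=
    { toFun := fun μ => β (Multiplicative.toAdd μ : Λ)
      map_one' := h.1
      map_mul' := fun μ ν => h.2.1 _ (Multiplicative.toAdd μ).2 _ (Multiplicative.toAdd ν).2 }
  refine ⟨AddMonoidAlgebra.lift k K Λ φ, fun μ => ?_⟩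
  by_cases hμ : μ ∈ Λ
  · rw [gen_mem hμ, AddMonoidAlgebra.lift_single, one_smul]
    rfl
  · rw [gen_not hμ, map_zero, h.2.2 μ hμ]

theorem hom_ext (Λ : AddSubgroup (σ → ℤ)) {K : Type} [Field K] [Algebra k K]
    (ψ ψ' : AddMonoidAlgebra k Λ →ₐ[k] K) (h : ∀ μ, ψ (gen k Λ μ) = ψ' (gen k Λ μ)) : ψ = ψ' := by
  refine AddMonoidAlgebra.algHom_ext (fun μ => ?_) (Subsingleton.elim _ _)
  have := h μ
  rwa [gen_mem μ.2] at this

theorem exists_class (Λ : AddSubgroup (σ → ℤ)) : ∃ c : K0 k,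
    HasClass (k := k) (fun _ _ _ (x : Option (σ → ℤ) → _) => IsCh Λ fun μ => x (some μ)) c := by
  have := fg Λ
  refine ⟨_, (AddMonoidAlgebra k Λ)[X], _, _, inferInstance,
    fun o => o.elim X fun μ => C (gen k Λ μ), fun K _ _ => ⟨?_, ?_⟩, rfl⟩
  · intro ψ ψ' e
    apply Polynomial.algHom_ext'
    · exact hom_ext Λ _ _ fun μ => e (some μ)
    · exact e none
  · intro x
    constructor
    · intro hx
      obtain ⟨ψ, hψ⟩ := exists_hom (k := k) Λ hx
      refine ⟨Polynomial.eval₂AlgHom ψ (x none) fun _ => Commute.all _ _, fun o => ?_⟩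
      cases o with
      | none => simp
      | some μ => simp [hψ]
    · rintro ⟨ψ, hψ⟩
      have h1 := isCh_gen Λ (ψ.comp Polynomial.CAlgHom)
      have : (fun μ => x (some μ)) = fun μ => (ψ.comp Polynomial.CAlgHom) (gen k Λ μ) :=
        funext fun μ => (hψ (some μ)).symm
      rw [this]
      exact h1

theorem baer (K : Type) [Field K] [IsAlgClosed K] : Module.Baer ℤ (Additive Kˣ) := by
  let _ : DivisibleBy (Additive Kˣ) ℕ := divisibleByOfSMulRightSurj _ _ fun {n} hn a => by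
    obtain ⟨z, hz⟩ := IsAlgClosed.exists_pow_nat_eq ((Additive.toMul a : Kˣ) : K)
      (Nat.pos_of_ne_zero hn)
    have hz0 : z ≠ 0 := by
      rintro rfl
      rw [zero_pow hn] at hz
      exact (Additive.toMul a).ne_zero hz.symm
    refine ⟨Additive.ofMul (Units.mk0 z hz0), ?_⟩
    change Additive.ofMul (Units.mk0 z hz0 ^ n) = a
    rw [show Units.mk0 z hz0 ^ n = Additive.toMul a from Units.ext (by simpa using hz)]
    rfl
  let _ : DivisibleBy (Additive Kˣ) ℤ := AddGroup.divisibleByIntOfDivisibleByNat _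
  exact Module.Baer.of_divisible _

end WcP

theorem p_Wc : S_Wc := by
  intro σ k _ _ _ Λ P M h D
  apply Classical.epsilon_spec (p := HasClass (WP Λ P M h D))
  obtain ⟨c, hc⟩ := WcP.exists_class (k := k) Λ
  obtain ⟨c₁, c₂, h₁, -, -⟩ := hc.split ((∑ l ∈ Finset.range (D + 1),
    MvPolynomial.C (P.coeff l) * MvPolynomial.X (some (M + (D - l) • h)) *
      MvPolynomial.X none ^ l) - 1)
  refine ⟨c₁, h₁.congr fun K _ _ x => ?_⟩
  simp only [WP, map_sub, map_sum, map_mul, map_pow, map_one, MvPolynomial.aeval_C,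
    MvPolynomial.aeval_X, sub_eq_zero]

theorem p_ChLift : S_ChLift := by
  intro σ K _ _ _ _ Λ β hβ
  have hne : ∀ μ ∈ Λ, β μ ≠ 0 := fun μ hμ h0 => by
    have := hβ.2.1 μ hμ (-μ) (Λ.neg_mem hμ)
    rw [add_neg_cancel, hβ.1, h0, zero_mul] at this
    exact one_ne_zero this
  let g : Λ →+ Additive Kˣ :=
    { toFun := fun μ => Additive.ofMul (Units.mk0 (β μ) (hne μ μ.2))
      map_zero' := congrArg Additive.ofMul (Units.ext hβ.1)
      map_add' := fun μ ν => congrArg Additive.ofMul (Units.ext (hβ.2.1 μ μ.2 ν ν.2)) }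
  obtain ⟨G, hG⟩ := (WcP.baer K).extension_property_addMonoidHom Λ.subtype
    Subtype.val_injective g
  refine ⟨fun j => (Additive.toMul (G (Pi.single j 1)) : Kˣ), fun j => Units.ne_zero _,
    fun μ hμ => ?_⟩
  have h1 : β μ = (Additive.toMul (G μ) : Kˣ) := by
    have := DFunLike.congr_fun hG ⟨μ, hμ⟩
    change G μ = _ at this
    rw [this]
    rfl
  have h2 : μ = ∑ j, μ j • (Pi.single j 1 : σ → ℤ) := by
    funext i
    simp [Finset.sum_apply, Pi.single_apply]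
  rw [h1]
  conv_lhs => rw [h2]
  rw [map_sum, toMul_sum, Units.coe_prod]
  refine Finset.prod_congr rfl fun j _ => ?_
  rw [map_zsmul, toMul_zsmul, Units.val_zpow_eq_zpow_val]

end

end Pool.Agent.P.MP_b91a16_ag.Qo
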