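import Pool.Agent.P.MP_b91a16_ag.Qo.AsmC
import Pool.Agent.P.MP_b91a16_ag.Qo.Clsd
import Pool.Agent.P.MP_b91a16_ag.Qo.Wc
import Pool.Agent.P.MP_b91a16_ag.Qo.Prod
import Pool.Agent.P.MP_b91a16_ag.Qo.WBad
import Pool.Agent.P.MP_b91a16_ag.Qo.GFs
import Pool.Agent.P.MP_b91a16_ag.Qo.Tr
import Pool.Agent.P.MP_b91a16_ag.Qo.RegA
import Pool.Agent.P.MP_b91a16_ag.Qo.RegB
import Pool.Agent.P.MP_b91a16_ag.Qo.RegC
import Pool.Agent.P.MP_b91a16_ag.Qo.CA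
import Pool.Agent.P.MP_b91a16_ag.Qo.CB
import Pool.Agent.P.MP_b91a16_ag.Qo.CI
import Pool.Agent.P.MP_b91a16_ag.Qo.CC
import Pool.Agent.P.MP_b91a16_ag.Qo.Half
import Pool.Agent.P.MP_b91a16_ag.Qo.BadZ
import Pool.Agent.P.MP_b91a16_ag.Qo.EV
import Pool.Agent.P.MP_b91a16_ag.Qo.Arg
import Pool.Agent.P.MP_b91a16_ag.Qo.Uniq
import Pool.Agent.P.MP_b91a16_ag.Qo.Cover
import Pool.Agent.P.MP_b91a16_ag.Qo.PcVol
import Pool.Agent.P.MP_b91a16_ag.Qo.Vol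
import Pool.Agent.P.MP_b91a16_ag.Qo.Clo
import Pool.Agent.P.MP_b91a16_ag.Qo.Psi
import Pool.Agent.P.MP_b91a16_ag.Qo.Chart
import Pool.Agent.P.MP_b91a16_ag.Qo.Sl1
import Pool.Agent.P.MP_b91a16_ag.Qo.Sl2
import Pool.Agent.P.MP_b91a16_ag.Qo.Init
import Pool.Agent.P.MP_b91a16_ag.Qo.RootB
import Pool.Agent.P.MP_b91a16_ag.Qo.RootC

/-! Quasi-ordinary polynomials: all statements put together. -/

namespace Pool.Agent.P.MP_b91a16_ag.Qo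

theorem main {k : Type} [Field k] [CharZero k] [IsAlgClosed k] {d : ℕ}
    {f : MvPolynomial (Fin (d + 1)) k} (h : QuasiOrd f) :
    ∃ S : Finset (ℕ × ℕ), zeta f ∈ poleRing k S ∧ ∀ p ∈ S, 0 < p.1 ∧ 0 < p.2 ∧
      ∀ b, LocalBernsteinEq f b → b.eval (-(p.1 : k) / p.2) = 0 :=
  have hB := p_CB p_CA
  have hI := p_CI p_CA hB
  have hC := p_CC p_CA hB hI
  have hA := p_Arg p_CA hB p_EV
  have hU := p_Uniq p_CA hB p_EV hA p_Nth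
  have hO := p_Cone p_GF
  have hP := p_Prod p_Wc p_Free
  have hS := p_Scale p_Wc
  have hN := p_Init p_CA hB
  have hH := p_Chart p_Clo p_Der p_Nth
  main_of
    ⟨hP, p_WBad p_Wc p_Free hS, p_Tr, p_Trunc p_GF, p_RegE hO, p_RegV hO, p_Hat p_GF, p_Dead p_GF,
      p_TrOk, p_Mrg p_GF, p_RegC hO⟩
    hB hI hC (p_BadZ p_CA hB hI hC) (p_RootA p_CA p_Clo)
    (p_RootB p_CA hB hI hC (p_Half p_CA hB hI) p_Psi hN hH p_Sl1 p_Ex1)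
    (p_RootC p_CA hB hI hC p_Psi hN hH p_Sl2)
    (p_Vol hB hC hI (p_Cover p_CA hB hI p_EV hA p_Nth) hU
      (p_PcVol hB hC p_EV hU p_Clsd p_Free p_Wc p_ChLift) hP hS) h

end Pool.Agent.P.MP_b91a16_ag.Qo
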