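import Pool.Agent.P.MP_b91a16_ag.Qo.Base

/-! Quasi-ordinary polynomials: the steps of the proof. -/

set_option linter.unusedSectionVars false

open Polynomial

namespace Pool.Agent.P.MP_b91a16_ag.Qo

noncomputable section

/-! ### Classes -/

def S_Clsd : Prop := ∀ (k : Type) [Field k] [CharZero k] (ι ι' : Type) (P : Pred k ι)
  (Q : Pred k ι') (c : K0 k) (g : ι' → MvPolynomial ι k), HasClass P c →
  (∀ (K : Type) [Field K] [Algebra k K] [IsAlgClosed K], Set.BijOn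
    (fun (x : ι → K) (j : ι') => MvPolynomial.aeval x (g j)) {x | P K x} {y | Q K y}) →
  HasClass (k := k) (fun K _ _ y => Q (AlgebraicClosure K) fun j => algebraMap K _ (y j)) c

def S_Free : Prop := ∀ (k : Type) [Field k] (ι ι' : Type) (P : Pred k ι) (c : K0 k)
  (F : Finset ι'), HasClass P c →
  HasClass (k := k) (fun K _ _ (x : ι ⊕ ι' → K) => P K (fun i => x (.inl i)) ∧
    ∀ q, q ∉ F → x (.inr q) = 0) (c * cls k k[X] ^ F.card)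

def S_Wc : Prop := ∀ (σ k : Type) [Fintype σ] [DecidableEq σ] [Field k]
  (Λ : AddSubgroup (σ → ℤ)) (P : k[X]) (M h : σ → ℤ) (D : ℕ),
  HasClass (WP Λ P M h D) (wcl Λ P M h D)

def S_ChLift : Prop := ∀ (σ K : Type) [Fintype σ] [DecidableEq σ] [Field K] [IsAlgClosed K]
  (Λ : AddSubgroup (σ → ℤ)) (β : (σ → ℤ) → K), IsCh Λ β →
  ∃ b : σ → K, (∀ j, b j ≠ 0) ∧ ∀ μ ∈ Λ, β μ = ∏ j, b j ^ μ j

def S_Prod : Prop := ∀ (σ k : Type) [Fintype σ] [DecidableEq σ] [Field k]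
  (Λ : AddSubgroup (σ → ℤ)) (P : k[X]) (M h : σ → ℤ) (D n : ℕ) (J₀ J : Finset σ), n ≠ 0 → J₀ ⊆ J →
  (∀ j ∈ J, j ∉ J₀ → Pi.single j (n : ℤ) ∈ Λ ∧ ∀ μ ∈ Λ, (n : ℤ) ∣ μ j) →
  (∀ j, j ∉ J₀ → M j = 0 ∧ h j = 0) →
  wc (res Λ J) P M h D = (LL k - 1) ^ (J \ J₀).card * wc (res Λ J₀) P M h D

def S_Scale : Prop := ∀ (σ k : Type) [Fintype σ] [DecidableEq σ] [Field k] [IsAlgClosed k]
  (Λ : AddSubgroup (σ → ℤ)) (M h : σ → ℤ) (D : ℕ), wc Λ (0 : k[X]) M h D = 0 ∧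
  ∀ c : k, c ≠ 0 → 0 < D → wc Λ (C c * X ^ D) M h D = wc Λ (X ^ D : k[X]) M 0 D

def S_WBad : Prop := ∀ (σ k : Type) [Fintype σ] [DecidableEq σ] [Field k] [IsAlgClosed k]
  (Λ Λ' Λ₂ : AddSubgroup (σ → ℤ)) (M h : σ → ℤ) (i : σ) (n p m₀ e D : ℕ) (C₀ c₁ c : k) (P : k[X]),
  n ≠ 0 → (∀ μ ∈ Λ, (n : ℤ) ∣ μ i) → (∀ μ, μ ∈ Λ' ↔ μ ∈ Λ ∧ μ i = 0) →
  (∀ μ, μ ∈ Λ₂ ↔ ∃ l : ℤ, μ - l • h ∈ Λ) → M ∈ Λ' → p • h ∈ Λ → p * h i = n → C₀ ≠ 0 → c ≠ 0 →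
  0 < e → (p = 1 → 0 < m₀) → (2 ≤ p → c₁ = 0) → D = m₀ + p * e →
  P = (X - C c₁) ^ m₀ * ((X - C c₁) ^ p - C c) ^ e → ∃ W : Mot k,
    (0 < m₀ → wc Λ (C C₀ * P) M h D = W - wc Λ' (X ^ D : k[X]) M 0 D ∧
      wc Λ (X ^ m₀ : k[X]) (M + (p * e) • h) 0 m₀ = W ∧
      wc Λ₂ (X ^ e : k[X]) (M + (D - e) • h) 0 e = W ∧
      (2 ≤ p → wc Λ (C C₀ * C (P.coeff 0)) M h D = 0)) ∧
    (m₀ = 0 → wc Λ (C C₀ * P) M h D = LL k * W - wc Λ' (X ^ D : k[X]) M 0 D ∧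
      wc Λ (C C₀ * C (P.coeff 0)) M h D = LL k * W ∧
      wc Λ₂ (X ^ e : k[X]) (M + (D - e) • h) 0 e = (LL k - 1) * W)

/-! ### Generating series -/

def S_GF : Prop := ∀ (σ : Type) [Fintype σ] [DecidableEq σ] (S S' : Set (Pt σ)),
  (Disjoint S S' → GF (S ∪ S') = GF S + GF S') ∧
  (∀ φ : Pt σ → Pt σ, Set.BijOn φ S S' → (∀ p ∈ S, wt (φ p) = wt p ∧ (φ p).2.2 = p.2.2) →
    GF S = GF S') ∧
  ∀ v : Pt σ, GF ((· + v) '' S) =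
    PowerSeries.C (PowerSeries.X ^ wt v) * PowerSeries.X ^ v.2.2 * GF S

def S_Cone : Prop := ∀ (σ : Type) [Fintype σ] [DecidableEq σ] (S : Set (Pt σ)) (V : Finset (Pt σ))
  (Al : ℕ → ℕ → Prop) (B C : ℕ), (∀ v ∈ V, 0 < wt v ∧ Ok Al (wt v) v.2.2) →
  (∀ p ∈ S, ∀ v ∈ V, p + v ∈ S) → (∀ p ∈ S, B < wt p → ∃ v ∈ V, ∃ q ∈ S, p = q + v) →
  (∀ p ∈ S, p.2.2 ≤ C * wt p) → GF S ∈ hat Al

def S_Tr : Prop := ∀ (k : Type) [Field k] (Al : ℕ → ℕ → Prop) (F : PowerSeries (Mot k))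
  (Φ : PowerSeries (PowerSeries ℤ)), (∀ a b, Al a b → 0 < b) → Lift F Φ → Φ ∈ hat Al →
  F ∈ good k Al

def S_Trunc : Prop := ∀ (σ k : Type) [Fintype σ] [DecidableEq σ] [Field k] (n : ℕ)
  (S : Set (Pt σ)) (I : Finset σ), TrOk n S I →
  Lift (Linv k ^ I.card • FF k n S I) (PowerSeries.C ((1 - PowerSeries.X) ^ I.card) * GF S)

def S_RegE : Prop := ∀ (σ : Type) [Fintype σ] [DecidableEq σ] (Al : ℕ → ℕ → Prop) (n : ℕ)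
  (A : (σ → ℕ) → Prop) (lo : σ → ℕ) (c : Prop) (hi : σ → ℕ) (st : Prop) (M : σ → ℕ) (D : ℕ),
  n ≠ 0 → Per n A → (c → lo ≤ hi) → (∀ j, Ok Al (n + lo j) (M j + D * lo j)) →
  (c → ∀ j, Ok Al (n + hi j) (M j + D * hi j)) → (¬c → Ok Al 1 D) →
  GF (regE n A lo c hi st M D) ∈ hat Al

def S_RegV : Prop := ∀ (σ : Type) [Fintype σ] [DecidableEq σ] (Al : ℕ → ℕ → Prop) (n : ℕ)
  (A : (σ → ℕ) → Prop) (hi M : σ → ℕ) (D : ℕ), n ≠ 0 → Per n A →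
  (∀ j, Ok Al (n + hi j) (M j + D * hi j)) →
  GF (regV n A hi M D) ∈ hat Al ∧ GF (regW n A hi M D) ∈ hat Al

def S_Hat : Prop := ∀ (σ : Type) [Fintype σ] [DecidableEq σ] (n : ℕ) (A : (σ → ℕ) → Prop)
  (lo : σ → ℕ) (c : Prop) (hi M : σ → ℕ) (D p : ℕ) (i : σ), n ≠ 0 → c → p * hi i = n → lo ≤ hi →
  lo i = 0 → M i = 0 → Indep A {i} → (∀ κ, A κ → n ∣ p * dot κ (Function.update hi i 0)) →
  PowerSeries.C (1 - PowerSeries.X) * GF (regE n A lo c hi False M D) -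
      PowerSeries.C PowerSeries.X * GF (regV n A hi M D) =
    PowerSeries.C (1 - PowerSeries.X) * GF (regE n A lo c (Function.update hi i 0) True M D)

def S_Dead : Prop := ∀ (σ : Type) [Fintype σ] [DecidableEq σ] (n : ℕ) (A : (σ → ℕ) → Prop)
  (hi M : σ → ℕ) (D : ℕ), n ≠ 0 → GF (regV n A hi M D) + GF (regW n A hi M D) =
    PowerSeries.C (1 - PowerSeries.X) *
      (GF (regV n A hi M D) + GF (regE n A hi False 0 False (M + D • hi) 0))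

def S_TrOk : Prop := ∀ (σ : Type) [Fintype σ] [DecidableEq σ] (n : ℕ) (A : (σ → ℕ) → Prop)
  (lo : σ → ℕ) (c : Prop) (hi M : σ → ℕ) (D : ℕ) (I : Finset σ), n ≠ 0 → 0 < D → Indep A I →
  ((∀ j, j ∈ I ↔ M j = 0) → (∀ j, M j = 0 → lo j = 0) →
    TrOk n (regE n A lo c hi False M D) I) ∧
  ((∀ j, j ∈ I ↔ M j = 0 ∧ hi j = 0) →
    TrOk n (regV n A hi M D) I ∧ TrOk n (regW n A hi M D) I)

def S_Mrg : Prop := ∀ (σ : Type) [Fintype σ] [DecidableEq σ] (n : ℕ) (A A₁ : (σ → ℕ) → Prop)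
  (i : σ) (p : ℕ) (hi : σ → ℕ) (c₀ : Prop) (h₀ : σ → ℕ) (s₀ c₁ : Prop) (h₁ : σ → ℕ) (s₁ : Prop)
  (M : σ → ℕ) (m₀ e : ℕ), n ≠ 0 → p * hi i = n → M i = 0 → Indep A {i} →
  (∀ κ, A κ → n ∣ p * dot κ (Function.update hi i 0)) → (∀ κ, A₁ κ ↔ A κ ∧ n ∣ dot κ hi) →
  (c₀ → hi ≤ h₀ ∧ hi i < h₀ i) → (c₁ → hi ≤ h₁ ∧ hi i < h₁ i) →
  GF (regV n A hi M (m₀ + p * e)) + GF (regE n A hi c₀ h₀ s₀ (M + (p * e) • hi) m₀) +
      GF (regE n A₁ hi c₁ h₁ s₁ (M + (m₀ + p * e - e) • hi) e) =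
    GF (regC n A i p hi c₀ h₀ s₀ c₁ h₁ s₁ M m₀ e)

def S_RegC : Prop := ∀ (σ : Type) [Fintype σ] [DecidableEq σ] (Al : ℕ → ℕ → Prop) (n : ℕ)
  (A : (σ → ℕ) → Prop) (i : σ) (p : ℕ) (hi : σ → ℕ) (c₀ : Prop) (h₀ : σ → ℕ) (s₀ c₁ : Prop)
  (h₁ : σ → ℕ) (s₁ : Prop) (M : σ → ℕ) (m₀ e : ℕ), n ≠ 0 → p * hi i = n → M i = 0 → Per n A →
  Indep A {i} → (c₀ → hi ≤ h₀ ∧ hi i < h₀ i) → (c₁ → hi ≤ h₁ ∧ hi i < h₁ i) →
  (∀ j, j ≠ i → Ok Al (n + hi j) (M j + (m₀ + p * e) * hi j)) →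
  (c₀ → ∀ j, Ok Al (n + h₀ j) (M j + p * e * hi j + m₀ * h₀ j)) → (¬c₀ → Ok Al 1 m₀) →
  (c₁ → ∀ j, Ok Al (n + h₁ j) (M j + (m₀ + p * e - e) * hi j + e * h₁ j)) → (¬c₁ → Ok Al 1 e) →
  GF (regC n A i p hi c₀ h₀ s₀ c₁ h₁ s₁ M m₀ e) ∈ hat Al

/-! ### Clusters -/

section

variable {σ k : Type} [Fintype σ] [DecidableEq σ] [Field k] (D : Dat σ k)

structure CA : Prop where
  spec : ∀ a ∈ D.Z, ∀ b ∈ D.Z, a ≠ b → ∃ u, IsUnit u ∧ a - b = mono (lam a b) * u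
  uniq : ∀ (a b u : R0 σ k) μ, IsUnit u → a - b = mono μ * u → lam a b = μ
  symm : ∀ a b : R0 σ k, lam a b = lam b a
  ne : ∀ a ∈ D.Z, ∀ b ∈ D.Z, a ≠ b → lam a b ≠ 0
  total : ∀ a ∈ D.Z, ∀ b ∈ D.Z, ∀ c ∈ D.Z, a ≠ b → a ≠ c → lam a b ≤ lam a c ∨ lam a c ≤ lam a b
  ultra : ∀ a ∈ D.Z, ∀ b ∈ D.Z, ∀ c ∈ D.Z, a ≠ b → a ≠ c → lam a b < lam a c → lam b c = lam a b
  ultra' : ∀ a ∈ D.Z, ∀ b ∈ D.Z, ∀ c ∈ D.Z, a ≠ b → a ≠ c → b ≠ c → lam a b ≤ lam a c →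
    lam a b ≤ lam b c
  act_add : ∀ g g' a, D.act (g + g') a = D.act g (D.act g' a)
  act_zero : ∀ a, D.act 0 a = a
  act_n : ∀ g a, D.act (D.n • g) a = a
  act_inj : ∀ g, Function.Injective (D.act g)
  coeff_act : ∀ g a (μ : σ →₀ ℕ),
    MvPowerSeries.coeff μ (D.act g a) = D.ε ^ dot g μ * MvPowerSeries.coeff μ a
  lam_act : ∀ g a b, lam (D.act g a) (D.act g b) = lam a b
  act_mem : ∀ g, ∀ a ∈ D.Z, D.act g a ∈ D.Z ∧ D.m (D.act g a) = D.m a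
  act_io : ∀ g, (io D.n 0 D.f).map (D.act g) = io D.n 0 D.f

structure CB : Prop where
  pick_mem : ∀ s, D.IsCl s → pick s ∈ s
  out : ∀ s, D.IsCl s → ∀ a ∈ s, ∀ c ∈ D.Z, c ∉ s → lam a c = lam (pick s) c
  le_lo : ∀ s, ∀ c ∈ D.Z, c ∉ s → lam (pick s) c ≤ D.lo s
  lo_att : ∀ s, D.IsCl s → s ≠ D.Z → ∃ c ∈ D.Z, c ∉ s ∧ lam (pick s) c = D.lo s
  lo_lt : ∀ s, D.IsCl s → 2 ≤ s.card → D.lo s < hi s
  hi_le : ∀ s, D.IsCl s → ∀ a ∈ s, ∀ b ∈ s, a ≠ b → hi s ≤ lam a b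
  hi_att : ∀ s, D.IsCl s → 2 ≤ s.card → ∀ a ∈ s, ∃ b ∈ s, a ≠ b ∧ lam a b = hi s
  dvd_ctr : ∀ s, D.IsCl s → ∀ a ∈ s, mono (hi s) ∣ a - ctr s
  ctr_one : ∀ a : R0 σ k, ctr {a} = a
  ctr_out : ∀ s, D.IsCl s → ∀ c ∈ D.Z, c ∉ s → ∃ u, ctr s - c = mono (lam (pick s) c) * u ∧
    MvPowerSeries.constantCoeff u = MvPowerSeries.coeff (lam (pick s) c) (pick s - c) ∧ IsUnit u
  dir_eq : ∀ s, D.IsCl s → ∀ a ∈ s, ∀ b ∈ s, dir s a = dir s b ↔ a = b ∨ hi s < lam a b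
  cc_ne : ∀ s, D.IsCl s → D.cc s ≠ 0
  deg_pos : ∀ s, D.IsCl s → 0 < D.deg s
  ctr_zero : ∀ s, D.IsCl s → MvPowerSeries.constantCoeff (ctr s) = 0
  lo_supp : ∀ s, D.IsCl s → ∀ j, D.MM s j = 0 → D.lo s j = 0
  top : D.IsCl D.Z ∧ D.lo D.Z = 0 ∧ D.MM D.Z = D.N
  ball : ∀ a ∈ D.Z, ∀ (U : Set (σ →₀ ℕ)) (s : Finset (R0 σ k)), IsUpperSet U →
    (∀ b, b ∈ s ↔ b ∈ D.Z ∧ (b = a ∨ lam a b ∈ U)) → D.IsCl s

structure CI : Prop where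
  cl : ∀ g s, D.IsCl s → D.IsCl (D.acts g s)
  card : ∀ g s, (D.acts g s).card = s.card
  deg : ∀ g s, D.IsCl s → D.deg (D.acts g s) = D.deg s
  lo : ∀ g s, D.IsCl s → D.lo (D.acts g s) = D.lo s
  hi : ∀ g s, D.IsCl s → hi (D.acts g s) = hi s
  MM : ∀ g s, D.IsCl s → D.MM (D.acts g s) = D.MM s
  Lam : ∀ g s, D.Lam (D.acts g s) = D.Lam s
  ctr : ∀ g s, ctr (D.acts g s) = D.act g (ctr s)
  dir : ∀ g s a, D.IsCl s → dir (D.acts g s) (D.act g a) = D.ε ^ dot g (Qo.hi s) * dir s a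
  bad : ∀ g s i, D.IsCl s → D.Bad s i → D.Bad (D.acts g s) i
  par : ∀ g s, D.IsCl s → D.par (D.acts g s) = D.acts g (D.par s)
  child : ∀ g s a, D.IsCl s → child (D.acts g s) (D.act g a) = D.acts g (child s a)
  acts_add : ∀ g g' s, D.acts (g + g') s = D.acts g (D.acts g' s)
  acts_inv : ∀ g, ∃ g', ∀ s, D.acts g' (D.acts g s) = s
  top : ∀ g, D.acts g D.Z = D.Z
  rep_eq : ∀ s, ∃ g, D.rep s = D.acts g s
  rep_act : ∀ g s, D.rep (D.acts g s) = D.rep s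

structure CC : Prop where
  stab : ∀ s, D.IsCl s → ∀ j, D.MM s j = 0 → D.Stab s (Pi.single j 1)
  MM_mem : ∀ s, D.IsCl s → zc (D.MM s) ∈ D.Lam s
  ctr_mem : ∀ s, ∀ μ : σ →₀ ℕ, MvPowerSeries.coeff μ (ctr s) ≠ 0 → zc μ ∈ D.Lam s
  PP_mem : ∀ s, D.IsCl s → ∀ l, (D.PP s).coeff l ≠ 0 → (D.deg s - l) • zc (hi s) ∈ D.Lam s
  ch_cl : ∀ s, D.IsCl s → 2 ≤ s.card → ∀ a ∈ s, D.IsCl (child s a) ∧ child s a ≠ D.Z ∧
    D.par (child s a) = s ∧ D.lo (child s a) = hi s ∧ D.deg (child s a) ≤ D.deg s ∧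
    D.MM (child s a) = D.MM s + (D.deg s - D.deg (child s a)) • hi s ∧
    D.deg (child s a) = (D.PP s).rootMultiplicity (dir s a)
  par_cl : ∀ s, D.IsCl s → s ≠ D.Z → D.IsCl (D.par s) ∧ 2 ≤ (D.par s).card ∧ s ⊂ D.par s ∧
    ∀ a ∈ s, child (D.par s) a = s
  stab_ch : ∀ s, D.IsCl s → 2 ≤ s.card → ∀ a ∈ s, ∀ g, D.Stab (child s a) g ↔
    D.Stab s g ∧ D.ε ^ dot g (hi s) * dir s a = dir s a

def Half : Prop := ∀ s j, D.IsCl s → 2 ≤ s.card → D.lo s j < hi s j →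
  ¬D.Stab s (Pi.single j 1) → D.n * D.deg s ≤ 2 * D.MM s j

def BadZ : Prop := ∀ s i p m₀ e c₁ c, D.IsCl s → 2 ≤ s.card → D.BadD s i p m₀ e c₁ c →
  D.deg s = m₀ + p * e ∧ (∀ a ∈ s, 2 ≤ (child s a).card → hi s i < hi (child s a) i) ∧
  ∃ a₁ ∈ s, D.deg (child s a₁) = e ∧
    (∀ μ, μ ∈ D.Lam (child s a₁) ↔ ∃ l : ℤ, μ - l • zc (hi s) ∈ D.Lam s) ∧
    (m₀ = 0 → ∀ a ∈ s, D.rep (child s a) = D.rep (child s a₁)) ∧
    (0 < m₀ → ∃ a₀ ∈ s, D.deg (child s a₀) = m₀ ∧ D.Lam (child s a₀) = D.Lam s ∧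
      D.rep (child s a₀) ≠ D.rep (child s a₁) ∧ ∀ a ∈ s,
        D.rep (child s a) = D.rep (child s a₀) ∨ D.rep (child s a) = D.rep (child s a₁))

/-! ### Arcs -/

structure EV (K : Type) [Field K] [Algebra k K] : Prop where
  hom : ∀ y : σ → PowerSeries K, St.Cen y →
    ∃ φ : R0 σ k →ₐ[k] PowerSeries K, (∀ a, φ a = Dat.ev y a) ∧ ∀ j, φ (MvPowerSeries.X j) = y j
  const : ∀ y : σ → PowerSeries K, St.Cen y → ∀ a : R0 σ k,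
    PowerSeries.constantCoeff (Dat.ev y a) = algebraMap k K (MvPowerSeries.constantCoeff a)
  trunc : ∀ y : σ → PowerSeries K, St.Cen y → ∀ (a : R0 σ k) (M : ℕ),
    PowerSeries.X ^ M ∣ Dat.ev y a - MvPolynomial.aeval y (a.truncTotal M)
  congr : ∀ y y' : σ → PowerSeries K, St.Cen y → St.Cen y' → ∀ (a : R0 σ k) (M : ℕ),
    (∀ j, PowerSeries.X ^ M ∣ y' j - y j) → PowerSeries.X ^ M ∣ Dat.ev y' a - Dat.ev y a
  act : ∀ y : σ → PowerSeries K, St.Cen y → ∀ (a : R0 σ k) g, Dat.ev y (D.act g a) =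
    Dat.ev (fun j => PowerSeries.C (algebraMap k K D.ε ^ g j) * y j) a
  resc : ∀ y : σ → PowerSeries K, St.Cen y → ∀ (a : R0 σ k) (c : K),
    PowerSeries.rescale c (Dat.ev y a) = Dat.ev (fun j => PowerSeries.rescale c (y j)) a

def Arg : Prop := ∀ (K : Type) [Field K] [Algebra k K] (M : ℕ) s κ r (b : σ → K)
  (θ : σ → PowerSeries K) (w : PowerSeries K) (u : K), D.IsCl s → D.Pos M s κ r → (∀ j, b j ≠ 0) →
  (∀ j, PowerSeries.constantCoeff (θ j) = 1) → PowerSeries.X ^ (r + 1) ∣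
    w - Dat.ev (D.yy M κ b θ) (ctr s) - PowerSeries.C u * PowerSeries.X ^ r → D.psi s κ r b u ≠ 0 →
  (∀ a ∈ s, PowerSeries.X ^ r ∣ w - Dat.ev (D.yy M κ b θ) a ∧
    ¬PowerSeries.X ^ (r + 1) ∣ w - Dat.ev (D.yy M κ b θ) a) ∧
  (∀ c ∈ D.Z, c ∉ s → ¬PowerSeries.X ^ r ∣ w - Dat.ev (D.yy M κ b θ) c) ∧
  PowerSeries.X ^ (dot κ (D.MM s) + D.deg s * r + 1) ∣
    MvPolynomial.aeval (fun o : Option σ => o.elim w fun j => D.yy M κ b θ j ^ D.n) D.f -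
      PowerSeries.C (algebraMap k K (D.cc s) * Dat.bp b (D.MM s) * D.psi s κ r b u) *
        PowerSeries.X ^ (dot κ (D.MM s) + D.deg s * r)

/-- The pieces cover the contact locus. -/
def Cover : Prop := ∀ (K : Type) [Field K] [Algebra k K] [IsAlgClosed K] (m : ℕ)
  (γ : Option σ → PowerSeries K), 0 < m → St.Cen γ →
  (PowerSeries.X ^ (m + 1) ∣ MvPolynomial.aeval γ D.f - PowerSeries.X ^ m ↔
    ∃ s ∈ D.Reps, ∃ κ r, D.Idx m s κ r ∧ D.Pc m s κ r γ)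

/-- Two presentations of the same arc differ by the group action. -/
def Uniq : Prop := ∀ (K : Type) [Field K] [Algebra k K] (M : ℕ) s s' κ κ' r r' (b b' : σ → K)
  (θ θ' : σ → PowerSeries K) (w : PowerSeries K) (u u' : K), D.IsCl s → D.IsCl s' →
  D.Pos M s κ r → D.Pos M s' κ' r' → (∀ j, b j ≠ 0) → (∀ j, b' j ≠ 0) →
  (∀ j, PowerSeries.constantCoeff (θ j) = 1) → (∀ j, PowerSeries.constantCoeff (θ' j) = 1) →
  (∀ j, PowerSeries.X ^ (M + 1) ∣ D.xx M κ b θ j - D.xx M κ' b' θ' j) →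
  PowerSeries.X ^ (r + 1) ∣
    w - Dat.ev (D.yy M κ b θ) (ctr s) - PowerSeries.C u * PowerSeries.X ^ r →
  PowerSeries.X ^ (r' + 1) ∣
    w - Dat.ev (D.yy M κ' b' θ') (ctr s') - PowerSeries.C u' * PowerSeries.X ^ r' →
  D.psi s κ r b u ≠ 0 → D.psi s' κ' r' b' u' ≠ 0 →
  κ = κ' ∧ r = r' ∧ (∀ j, κ j ≤ M → PowerSeries.X ^ (M + 1 - κ j) ∣ θ j - θ' j) ∧
    ∃ g, s = D.acts g s' ∧ ∀ j, κ j ≤ M → b' j = algebraMap k K D.ε ^ g j * b j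

def PcVol : Prop := ∀ m s κ r, D.IsCl s → D.Idx m s κ r →
  HasVol (k := k) (fun K _ _ (x : Option σ × ℕ → K) => D.Pc m s κ r
      (St.arc fun q => algebraMap K (AlgebraicClosure K) (x q)))
    (wc (res (D.Lam s) (Finset.univ.filter fun j => κ j ≤ D.n * m)) (D.Pol s κ r) (zc (D.MM s))
        (zc (hi s)) (D.deg s) *
      Linv k ^ (∑ j, min (κ j) (D.n * m) + (r + D.n - 1) / D.n))

def Vol : Prop := zser D.f = ∑ s ∈ D.Reps, (D.wE s • FF k D.n (D.RE s) (D.IE s) +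
  if 2 ≤ s.card then
    D.wV s • FF k D.n (D.RV s) (D.IV s) + D.wW s • FF k D.n (D.RW s) (D.IV s) else 0)

/-! ### Roots -/

def RootA : Prop := (∀ a ∈ D.Z, D.Rt (1 / D.m a)) ∧ ∀ j, D.N j ≠ 0 → D.Rt (D.n / D.N j)

/-- The initial form of `f` along the stratum `V` at the cluster `s`. -/
def Init : Prop := ∀ (V : Finset σ) (Ψ : R0 σ k →ₐ[k] PowerSeries (P0 σ k)) s (c : R0 σ k)
  (Q : R0 σ k → R0 σ k), IsPsi V Ψ → D.IsCl s → mono (hi s) ∣ c - ctr s → D.lo s < hi s →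
  ∑ v ∈ V, D.lo s v < ∑ v ∈ V, hi s v → (∀ a ∈ s, a - c = mono (hi s) * Q a) →
  ∃ (F : PowerSeries (P0 σ k)) (c₁ : R0 σ k), c₁ ≠ 0 ∧
    psiX Ψ (∑ v ∈ V, hi s v) (io D.n c D.f) =
      PowerSeries.X ^ (∑ v ∈ V, D.MM s v + D.deg s * ∑ v ∈ V, hi s v) * F ∧
    PowerSeries.constantCoeff F = MvPolynomial.C c₁ * (∏ v ∈ V, MvPolynomial.X (some v) ^ D.MM s v) *
      ∏ a ∈ s, (MvPolynomial.X none -
        MvPolynomial.C (mono ((hi s).filter (· ∉ V)) * kill V (Q a)) *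
          ∏ v ∈ V, MvPolynomial.X (some v) ^ hi s v) ^ D.m a

def RootB : Prop := ∀ s j, D.IsCl s → 2 ≤ s.card → D.lo s j < hi s j → ¬D.Bad s j →
  D.Rt (((D.n + hi s j : ℕ) : k) / (D.MM s j + D.deg s * hi s j : ℕ))

def RootC : Prop := ∀ s i i', D.IsCl s → 2 ≤ s.card → i ≠ i' → D.Bad s i → D.Bad s i' →
  D.Rt (((D.n + hi s i : ℕ) : k) / (D.MM s i + D.deg s * hi s i : ℕ))

end

/-- A statement about all data. -/
def All (P : ∀ (σ k : Type) [Fintype σ] [DecidableEq σ] [Field k], Dat σ k → Prop) : Prop :=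
  ∀ (σ k : Type) [Fintype σ] [DecidableEq σ] [Field k] [CharZero k] [IsAlgClosed k] (D : Dat σ k),
    P σ k D

def S_CA : Prop := All fun _ _ _ _ _ D => CA D
def S_CB : Prop := All fun _ _ _ _ _ D => CB D
def S_CI : Prop := All fun _ _ _ _ _ D => CI D
def S_CC : Prop := All fun _ _ _ _ _ D => CC D
def S_Half : Prop := All fun _ _ _ _ _ D => Half D
def S_BadZ : Prop := All fun _ _ _ _ _ D => BadZ D
def S_EV : Prop := All fun _ k _ _ _ D => ∀ (K : Type) [Field K] [Algebra k K], EV D K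
def S_Arg : Prop := All fun _ _ _ _ _ D => Arg D
def S_Cover : Prop := All fun _ _ _ _ _ D => Cover D
def S_Uniq : Prop := All fun _ _ _ _ _ D => Uniq D
def S_PcVol : Prop := All fun _ _ _ _ _ D => PcVol D
def S_Vol : Prop := All fun _ _ _ _ _ D => Vol D
def S_RootA : Prop := All fun _ _ _ _ _ D => RootA D
def S_Init : Prop := All fun _ _ _ _ _ D => Init D
def S_RootB : Prop := All fun _ _ _ _ _ D => RootB D
def S_RootC : Prop := All fun _ _ _ _ _ D => RootC D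

def S_Nth : Prop := ∀ (A : Type) [CommRing A] [Algebra ℚ A] (n : ℕ), n ≠ 0 →
  (∀ v : PowerSeries A, PowerSeries.constantCoeff v = 1 →
    ∃ θ : PowerSeries A, PowerSeries.constantCoeff θ = 1 ∧ θ ^ n = v) ∧
  ∀ (θ θ' : PowerSeries A) (M : ℕ), PowerSeries.constantCoeff θ = 1 →
    PowerSeries.constantCoeff θ' = 1 → PowerSeries.X ^ M ∣ θ ^ n - θ' ^ n →
      PowerSeries.X ^ M ∣ θ - θ'

def S_Clo : Prop := ∀ (τ k : Type) [Fintype τ] [DecidableEq τ] [Field k] [CharZero k]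
  (f : MvPolynomial τ k) (b : k[X]) (c : k) (Q : ℕ → MvPolynomial τ k → Prop), f ≠ 0 → St.LB f b →
  Q 0 f → (∀ K g g', Q K g → Q K g' → Q K (g + g')) → (∀ K (a : k) g, Q K g → Q K (a • g)) →
  (∀ K j g, Q K g → Q K (MvPolynomial.X j * g)) → (∀ K g, Q K g → Q (K + 1) (f * g)) →
  (∀ K j g, Q K g → Q (K + 1)
    (f * MvPolynomial.pderiv j g + (c - K) • (g * MvPolynomial.pderiv j f))) →
  ∃ K h, MvPolynomial.constantCoeff h ≠ 0 ∧ Q K (b.eval c • (h * f ^ K))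

def S_Psi : Prop := ∀ (σ k : Type) [Fintype σ] [DecidableEq σ] [Field k] (V : Finset σ),
  ∃ Ψ : R0 σ k →ₐ[k] PowerSeries (P0 σ k), IsPsi V Ψ

def S_Der : Prop := ∀ (k B : Type) [Field k] [CommRing B] [Algebra k B] (x : B)
  (d : Derivation k B B), ∃ d' : Derivation k (Localization.Away x) (Localization.Away x),
    ∀ a, d' (algebraMap B _ a) = algebraMap B _ (d a)

def S_Chart : Prop := ∀ (σ k : Type) [Fintype σ] [DecidableEq σ] [Field k] [CharZero k]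
  (f : MvPolynomial (Option σ) k) (n w N a b : ℕ) (V : Finset σ)
  (Ψ : R0 σ k →ₐ[k] PowerSeries (P0 σ k)) (c : R0 σ k) (F : PowerSeries (P0 σ k)) (B : k[X]),
  n ≠ 0 → 0 < w → 0 < N → b ≠ 0 → IsPsi V Ψ → MvPowerSeries.constantCoeff c = 0 →
  psiX Ψ w (io n c f) = PowerSeries.X ^ N * F → PowerSeries.constantCoeff F ≠ 0 → St.LB f B →
  B.eval (-((a : k) / b)) ≠ 0 →
  Exact V (∏ v ∈ V, MvPolynomial.X (some v) ^ (n - 1)) (PowerSeries.constantCoeff F)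
    (algebraMap k (R0 σ k) ((a : k) / b))

def S_Sl1 : Prop := ∀ (σ ι L : Type) [Fintype σ] [DecidableEq σ] [Field L] [CharZero L] (j : σ)
  (n l A : ℕ) (s : Finset ι) (q : ι → L) (m : ι → ℕ) (c α : L), n ≠ 0 → c ≠ 0 →
  α * (A + (∑ a ∈ s, m a) * l : ℕ) = (n + l : ℕ) →
  Exact {j} (MvPolynomial.X (some j) ^ (n - 1)) (MvPolynomial.C c * MvPolynomial.X (some j) ^ A *
    ∏ a ∈ s, (MvPolynomial.X none - MvPolynomial.C (q a) * MvPolynomial.X (some j) ^ l) ^ m a) α →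
  ∃ (K : ℕ) (h : L[X]), (∏ a ∈ s, (X - C (q a)) ^ m a) ^ (K + 1) =
    (∏ a ∈ s, (X - C (q a)) ^ m a) * derivative h -
      C (α + K) * h * derivative (∏ a ∈ s, (X - C (q a)) ^ m a)

def S_Ex1 : Prop := ∀ (L : Type) [Field L] [DecidableEq L] [CharZero L] (φ h : L[X]) (α : L) (K N ν : ℕ),
  φ.Monic → φ.roots.card = φ.natDegree → 2 ≤ φ.roots.toFinset.card → 0 < ν → α * N = ν →
  φ ^ (K + 1) = φ * derivative h - C (α + K) * h * derivative φ →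
  ∃ δ : ℕ, (δ : L) = α * φ.natDegree ∧ φ.roots.toFinset.card ≤ δ ∧
    (∀ t, φ.IsRoot t → α * φ.rootMultiplicity t ≠ 1) ∧
    ∀ ξ : L, ξ ≠ 0 → φ.comp (C ξ * X) = C (ξ ^ φ.natDegree) * φ → ξ ^ δ = ξ

def S_Sl2 : Prop := ∀ (σ L : Type) [Fintype σ] [DecidableEq σ] [Field L] [CharZero L] (i i' : σ)
  (n p m₀ e : ℕ) (c q α : L), i ≠ i' → n ≠ 0 → p ≠ 0 → e ≠ 0 → (p = 1 → 0 < m₀) → c ≠ 0 → q ≠ 0 →
  α * (m₀ + p * e : ℕ) = (p + 1 : ℕ) →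
  ¬Exact {i, i'} ((MvPolynomial.X (some i) * MvPolynomial.X (some i')) ^ (n - 1))
    (MvPolynomial.C c * MvPolynomial.X none ^ m₀ * (MvPolynomial.X none ^ p -
      MvPolynomial.C q * (MvPolynomial.X (some i) * MvPolynomial.X (some i')) ^ n) ^ e) α

end

end Pool.Agent.P.MP_b91a16_ag.Qo
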