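import Pool.Agent.P.MP_b91a16_ag.Qo.Spec

/-! Quasi-ordinary polynomials: the zeta function as a sum over the clusters. -/

set_option linter.unusedSectionVars false

open Polynomial

namespace Pool.Agent.P.MP_b91a16_ag.Qo

noncomputable section

namespace VolP

variable {σ k : Type} [Fintype σ] [DecidableEq σ] [Field k]

def ce (n r : ℕ) : ℕ := (r + n - 1) / n

theorem ce_spec {n : ℕ} (hn : n ≠ 0) (r : ℕ) : r ≤ n * ce n r ∧ n * ce n r < r + n := by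
  have h1 := Nat.div_add_mod (r + n - 1) n
  have h2 := Nat.mod_lt (r + n - 1) (Nat.pos_of_ne_zero hn)
  unfold ce
  omega

theorem ce_eq {n r ρ : ℕ} (hn : n ≠ 0) (h1 : r ≤ n * ρ) (h2 : n * ρ < r + n) : ce n r = ρ := by
  obtain ⟨h3, h4⟩ := ce_spec hn r
  have h5 : n * ce n r < n * (ρ + 1) := by rw [Nat.mul_succ]; omega
  have h6 : n * ρ < n * (ce n r + 1) := by rw [Nat.mul_succ]; omega
  have := Nat.lt_of_mul_lt_mul_left h5
  have := Nat.lt_of_mul_lt_mul_left h6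
  omega

theorem ce_le {n r m : ℕ} (hn : n ≠ 0) (h : r ≤ n * m) : ce n r ≤ m := by
  have h5 : n * ce n r < n * (m + 1) := by
    have := (ce_spec hn r).2
    rw [Nat.mul_succ]
    omega
  have := Nat.lt_of_mul_lt_mul_left h5
  omega

theorem le_dot (κ μ : σ → ℕ) {j : σ} (h : μ j ≠ 0) : κ j ≤ dot κ μ :=
  (Nat.le_mul_of_pos_right _ (Nat.pos_of_ne_zero h)).trans
    (Finset.single_le_sum (f := fun j => κ j * μ j) (fun _ _ => Nat.zero_le _) (Finset.mem_univ j))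

theorem dot_lt {κ : σ → ℕ} (hκ : ∀ j, 1 ≤ κ j) {a b : σ →₀ ℕ} (h : a < b) : dot κ a < dot κ b := by
  obtain ⟨h1, j, hj⟩ := Finsupp.lt_def.1 h
  exact Finset.sum_lt_sum (fun i _ => Nat.mul_le_mul_left _ (h1 i))
    ⟨j, Finset.mem_univ _, Nat.mul_lt_mul_of_pos_left hj (hκ j)⟩

/-- The monomial attached to a lattice point. -/
def mon (M : ℕ) (I : Finset σ) (κ : σ → ℕ) (ρ : ℕ) : ℤ[X] :=
  X ^ (∑ j ∈ Iᶜ, κ j + ρ) * ∏ i ∈ I, wx M (κ i)

theorem weight {M : ℕ} {I : Finset σ} {κ : σ → ℕ} (hκ : ∀ j, 1 ≤ κ j) (hI : ∀ j, j ∉ I → κ j ≤ M)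
    (ρ : ℕ) : (LL k - 1) ^ ((Finset.univ.filter fun j => κ j ≤ M) \ Iᶜ).card *
      Linv k ^ (∑ j, min (κ j) M + ρ) = aeval (Linv k) (mon M I κ ρ) := by
  have e1 : (Finset.univ.filter fun j => κ j ≤ M) \ Iᶜ = I.filter fun j => κ j ≤ M := by
    ext j
    simp [and_comm]
  have e2 : ∑ j, min (κ j) M = ∑ j ∈ I, min (κ j) M + ∑ j ∈ Iᶜ, κ j := by
    rw [← Finset.sum_add_sum_compl I]
    congr 1
    exact Finset.sum_congr rfl fun j hj => min_eq_left (hI j (Finset.mem_compl.1 hj))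
  have e3 : ∀ i ∈ I, aeval (Linv k) (wx M (κ i)) =
      (if κ i ≤ M then LL k - 1 else 1) * Linv k ^ min (κ i) M := by
    intro i _
    unfold wx
    split_ifs with h
    · obtain ⟨a, ha⟩ : ∃ a, κ i = a + 1 := ⟨κ i - 1, by have := hκ i; omega⟩
      rw [min_eq_left h, ha, Nat.add_sub_cancel, map_mul, map_sub, map_one, map_pow, aeval_X,
        pow_succ]
      have := L_mul_Linv (k := k)
      unfold LL
      linear_combination (-(Linv k ^ a)) * this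
    · rw [min_eq_right (by omega), map_pow, aeval_X, one_mul]
  rw [mon, map_mul, map_prod, Finset.prod_congr rfl e3, Finset.prod_mul_distrib, map_pow, aeval_X,
    Finset.prod_pow_eq_pow_sum, Finset.prod_ite, Finset.prod_const, Finset.prod_const_one, e1, e2,
    add_assoc, pow_add]
  ring

open Classical in
theorem sum_type {n m : ℕ} (T : Finset ((σ → ℕ) × ℕ)) (S : Set (Pt σ)) (I : Finset σ) (w : Mot k)
    (f : (σ → ℕ) × ℕ → Mot k) (iv : (σ → ℕ) → ℕ → ℕ)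
    (h1 : ∀ p ∈ T, (∀ j, 1 ≤ p.1 j ∧ p.1 j ≤ n * m + 1) ∧ ce n p.2 ≤ m ∧ (p.1, ce n p.2, m) ∈ S ∧
      iv p.1 (ce n p.2) = p.2 ∧ f p = w * aeval (Linv k) (mon (n * m) I p.1 (ce n p.2)))
    (h2 : ∀ κ ρ, (∀ j, 1 ≤ κ j ∧ κ j ≤ n * m + 1) → (κ, ρ, m) ∈ S →
      (κ, iv κ ρ) ∈ T ∧ ce n (iv κ ρ) = ρ) :
    ∑ p ∈ T, f p = w * aeval (Linv k) (trP n S I m) := by
  rw [trP, map_sum, Finset.mul_sum]
  refine Finset.sum_nbij' (fun p => (p.1, ce n p.2)) (fun p => (p.1, iv p.1 p.2)) ?_ ?_ ?_ ?_ ?_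
  · intro p hp
    obtain ⟨a, b, c, -, -⟩ := h1 p hp
    refine Finset.mem_filter.2 ⟨Finset.mem_product.2 ⟨Fintype.mem_piFinset.2 fun j =>
      Finset.mem_Icc.2 (a j), Finset.mem_range.2 (Nat.lt_succ_of_le b)⟩, c⟩
  · intro p hp
    obtain ⟨a, b⟩ := Finset.mem_filter.1 hp
    exact (h2 p.1 p.2 (fun j => Finset.mem_Icc.1
      (Fintype.mem_piFinset.1 (Finset.mem_product.1 a).1 j)) b).1
  · intro p hp
    exact Prod.ext rfl (h1 p hp).2.2.2.1
  · intro p hp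
    obtain ⟨a, b⟩ := Finset.mem_filter.1 hp
    exact Prod.ext rfl (h2 p.1 p.2 (fun j => Finset.mem_Icc.1
      (Fintype.mem_piFinset.1 (Finset.mem_product.1 a).1 j)) b).2
  · intro p hp
    exact (h1 p hp).2.2.2.2

variable (D : Dat σ k)

/-- Volume of a piece. -/
def pv (m : ℕ) (s : Finset (R0 σ k)) (p : (σ → ℕ) × ℕ) : Mot k :=
  wc (res (D.Lam s) (Finset.univ.filter fun j => p.1 j ≤ D.n * m)) (D.Pol s p.1 p.2) (zc (D.MM s))
      (zc (hi s)) (D.deg s) * Linv k ^ (∑ j, min (p.1 j) (D.n * m) + ce D.n p.2)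

open Classical in
def ix (m : ℕ) (s : Finset (R0 σ k)) : Finset ((σ → ℕ) × ℕ) :=
  ((Fintype.piFinset fun _ : σ => Finset.Icc 1 (D.n * m + 1)) ×ˢ
    Finset.range (D.n * m + 1)).filter fun p => D.Idx m s p.1 p.2

variable {D}

theorem r_le {m : ℕ} {s : Finset (R0 σ k)} (hd : 0 < D.deg s) {κ : σ → ℕ} {r : ℕ}
    (h : D.Idx m s κ r) : r ≤ D.n * m :=
  (Nat.le_mul_of_pos_left r hd).trans ((Nat.le_add_left _ _).trans h.2.2.ge)

open Classical in
theorem mem_ix {m : ℕ} {s : Finset (R0 σ k)} (hd : 0 < D.deg s) {p : (σ → ℕ) × ℕ} :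
    p ∈ ix D m s ↔ D.Idx m s p.1 p.2 :=
  ⟨fun h => (Finset.mem_filter.1 h).2, fun h => Finset.mem_filter.2 ⟨Finset.mem_product.2
    ⟨Fintype.mem_piFinset.2 fun j => Finset.mem_Icc.2 (h.1.1 j),
      Finset.mem_range.2 (Nat.lt_succ_of_le (r_le hd h))⟩, h⟩⟩

theorem prod_wt (hC : CC D) (h4 : S_Prod) {s : Finset (R0 σ k)} (hs : D.IsCl s) (P : k[X])
    (h : σ → ℤ) {M : ℕ} {I : Finset σ} {κ : σ → ℕ} (hκ : ∀ j, 1 ≤ κ j)
    (hI : ∀ j, j ∉ I → κ j ≤ M) (hI' : ∀ j ∈ I, D.MM s j = 0 ∧ h j = 0) (ρ : ℕ) :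
    wc (res (D.Lam s) (Finset.univ.filter fun j => κ j ≤ M)) P (zc (D.MM s)) h (D.deg s) *
        Linv k ^ (∑ j, min (κ j) M + ρ) =
      wc (res (D.Lam s) Iᶜ) P (zc (D.MM s)) h (D.deg s) * aeval (Linv k) (mon M I κ ρ) := by
  rw [h4 σ k (D.Lam s) P (zc (D.MM s)) h (D.deg s) D.n Iᶜ (Finset.univ.filter fun j => κ j ≤ M)
    D.hn (fun j hj => Finset.mem_filter.2 ⟨Finset.mem_univ _, hI j (Finset.mem_compl.1 hj)⟩),
    ← weight hκ hI ρ]
  · ring
  · intro j _ hj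
    have hj' : j ∈ I := by simpa using hj
    refine ⟨fun g _ => ?_, fun μ hμ => ?_⟩
    · rw [Finset.sum_eq_single j (fun i _ hi => by simp [Pi.single_eq_of_ne hi]) (by simp)]
      simp
    · have := hμ _ (hC.stab s hs j (hI' j hj').1)
      rwa [Finset.sum_eq_single j (fun i _ hi => by simp [Pi.single_eq_of_ne hi]) (by simp),
        Pi.single_eq_same, Nat.cast_one, one_mul] at this
  · intro j hj
    have hj' : j ∈ I := by simpa using hj
    exact ⟨by simp [zc, (hI' j hj').1], (hI' j hj').2⟩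

theorem stepB [IsAlgClosed k] (hB : CB D) (hC : CC D) (h4 : S_Prod) (h5 : S_Scale)
    {s : Finset (R0 σ k)} (hs : D.IsCl s) (m : ℕ) :
    ∑ p ∈ ix D m s, pv D m s p = D.wE s * aeval (Linv k) (trP D.n (D.RE s) (D.IE s) m) +
      if 2 ≤ s.card then D.wV s * aeval (Linv k) (trP D.n (D.RV s) (D.IV s) m) +
        D.wW s * aeval (Linv k) (trP D.n (D.RW s) (D.IV s) m) else 0 := by
  classical
  have hd := hB.deg_pos s hs
  have hn := D.hn
  let V : (σ → ℕ) × ℕ → Prop := fun p => 2 ≤ s.card ∧ p.2 = dot p.1 (hi s)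
  have hM : ∀ p : (σ → ℕ) × ℕ, D.Idx m s p.1 p.2 → ∀ j, D.MM s j ≠ 0 → p.1 j ≤ D.n * m :=
    fun p hp j hj => (le_dot p.1 (D.MM s) hj).trans ((Nat.le_add_right _ _).trans hp.2.2.ge)
  have hIV : ∀ p : (σ → ℕ) × ℕ, D.Idx m s p.1 p.2 → V p → ∀ j, j ∉ D.IV s → p.1 j ≤ D.n * m := by
    intro p hp hv j hj
    by_cases h : D.MM s j = 0
    · have h' : hi s j ≠ 0 := fun h' => hj (Finset.mem_filter.2 ⟨Finset.mem_univ _, h, h'⟩)
      exact (le_dot p.1 (hi s) h').trans (hv.2.ge.trans (r_le hd hp))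
    · exact hM p hp j h
  have hIV' : ∀ j ∈ D.IV s, D.MM s j = 0 ∧ zc (hi s) j = 0 := fun j hj =>
    ⟨(Finset.mem_filter.1 hj).2.1, by simp [zc, (Finset.mem_filter.1 hj).2.2]⟩
  have eE : ∑ p ∈ ((ix D m s).filter fun p => ¬V p).filter (fun p => D.n ∣ p.2), pv D m s p =
      D.wE s * aeval (Linv k) (trP D.n (D.RE s) (D.IE s) m) := by
    refine sum_type _ _ _ _ _ (fun _ ρ => D.n * ρ) (fun p hp => ?_) (fun κ ρ hκ hS => ?_)
    · obtain ⟨hp, ρ, hρ⟩ := Finset.mem_filter.1 hp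
      obtain ⟨hp, hv⟩ := Finset.mem_filter.1 hp
      replace hp := (mem_ix hd).1 hp
      have e : D.n * ce D.n p.2 = p.2 := by
        rw [ce_eq (ρ := ρ) hn hρ.le (by omega), hρ]
      refine ⟨hp.1.1, ce_le hn (r_le hd hp), ⟨fun j => (hp.1.1 j).1, hp.2.1, ?_, fun h => Or.inl ?_,
        ?_⟩, e, ?_⟩
      · exact e.symm ▸ hp.1.2.1
      · exact e.symm ▸ lt_of_le_of_ne (hp.1.2.2.1 h) fun h' => hv ⟨h, h'⟩
      · exact e.symm ▸ hp.2.2
      · rw [pv, Dat.Pol, if_neg hv, if_pos ⟨ρ, hρ⟩, (h5 σ k _ _ _ _).2 _ (hB.cc_ne s hs) hd]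
        refine prod_wt hC h4 hs _ _ (fun j => (hp.1.1 j).1) (fun j hj => hM p hp j fun h => hj ?_)
          (fun j hj => ⟨(Finset.mem_filter.1 hj).2, rfl⟩) _
        exact Finset.mem_filter.2 ⟨Finset.mem_univ _, h⟩
    · obtain ⟨-, a, b, c, d⟩ := hS
      have c' : 2 ≤ s.card → D.n * ρ < dot κ (hi s) := fun h => (c h).elim id fun h => h.1.elim
      refine ⟨Finset.mem_filter.2 ⟨Finset.mem_filter.2 ⟨(mem_ix hd).2
        ⟨⟨hκ, b, fun h => (c' h).le, d.ge⟩, a, d⟩, fun h => (c' h.1).ne h.2⟩, Dvd.intro _ rfl⟩,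
        ce_eq hn le_rfl (by omega)⟩
  have eZ : ∑ p ∈ ((ix D m s).filter fun p => ¬V p).filter (fun p => ¬D.n ∣ p.2), pv D m s p =
      0 := by
    refine Finset.sum_eq_zero fun p hp => ?_
    obtain ⟨hp, hρ⟩ := Finset.mem_filter.1 hp
    rw [pv, Dat.Pol, if_neg (Finset.mem_filter.1 hp).2, if_neg hρ, mul_zero, (h5 σ k _ _ _ _).1,
      zero_mul]
  rw [← Finset.sum_filter_add_sum_filter_not (ix D m s) V, add_comm,
    ← Finset.sum_filter_add_sum_filter_not ((ix D m s).filter fun p => ¬V p) fun p => D.n ∣ p.2,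
    eE, eZ, add_zero]
  congr 1
  split_ifs with h2
  · have hlt := hB.lo_lt s hs h2
    rw [← Finset.sum_filter_add_sum_filter_not ((ix D m s).filter V) fun p => D.n ∣ p.2]
    congr 1
    · refine sum_type _ _ _ _ _ (fun _ ρ => D.n * ρ) (fun p hp => ?_) (fun κ ρ hκ hS => ?_)
      · obtain ⟨hp, ρ, hρ⟩ := Finset.mem_filter.1 hp
        obtain ⟨hp, hv⟩ := Finset.mem_filter.1 hp
        replace hp := (mem_ix hd).1 hp
        have e : D.n * ce D.n p.2 = p.2 := by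
          rw [ce_eq (ρ := ρ) hn hρ.le (by omega), hρ]
        refine ⟨hp.1.1, ce_le hn (r_le hd hp), ⟨fun j => (hp.1.1 j).1, hp.2.1, e.trans hv.2, ?_⟩,
          e, ?_⟩
        · exact e.symm ▸ hp.2.2
        · rw [pv, Dat.Pol, if_pos hv, if_pos ⟨ρ, hρ⟩]
          exact prod_wt hC h4 hs _ _ (fun j => (hp.1.1 j).1) (hIV p hp hv) hIV' _
      · obtain ⟨a', a, b, d⟩ := hS
        refine ⟨Finset.mem_filter.2 ⟨Finset.mem_filter.2 ⟨(mem_ix hd).2
          ⟨⟨hκ, (dot_lt a' hlt).trans_eq b.symm, fun _ => b.le, d.ge⟩, a, d⟩, h2, b⟩,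
          Dvd.intro _ rfl⟩, ce_eq hn le_rfl (by omega)⟩
    · refine sum_type _ _ _ _ _ (fun κ _ => dot κ (hi s)) (fun p hp => ?_) (fun κ ρ hκ hS => ?_)
      · obtain ⟨hp, hρ⟩ := Finset.mem_filter.1 hp
        obtain ⟨hp, hv⟩ := Finset.mem_filter.1 hp
        replace hp := (mem_ix hd).1 hp
        obtain ⟨c1, c2⟩ := ce_spec hn p.2
        refine ⟨hp.1.1, ce_le hn (r_le hd hp), ⟨fun j => (hp.1.1 j).1, hp.2.1, ?_, ?_, ?_⟩,
          hv.2.symm, ?_⟩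
        · exact hv.2 ▸ lt_of_le_of_ne c1 fun h => hρ ⟨_, h⟩
        · exact hv.2 ▸ c2
        · exact hv.2 ▸ hp.2.2
        · rw [pv, Dat.Pol, if_pos hv, if_neg hρ]
          exact prod_wt hC h4 hs _ _ (fun j => (hp.1.1 j).1) (hIV p hp hv) hIV' _
      · obtain ⟨a', a, b, c, d⟩ := hS
        refine ⟨Finset.mem_filter.2 ⟨Finset.mem_filter.2 ⟨(mem_ix hd).2
          ⟨⟨hκ, dot_lt a' hlt, fun _ => le_rfl, d.ge⟩, a, d⟩, h2, rfl⟩, ?_⟩, ce_eq hn b.le c⟩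
        rintro ⟨q, hq⟩
        have b' : D.n * q < D.n * ρ := hq ▸ b
        have c' : D.n * ρ < D.n * (q + 1) := by rw [Nat.mul_succ]; exact hq ▸ c
        have := Nat.lt_of_mul_lt_mul_left b'
        have := Nat.lt_of_mul_lt_mul_left c'
        omega
  · exact Finset.sum_eq_zero fun p hp => absurd (Finset.mem_filter.1 hp).2.1 h2

theorem cp_bar (f : MvPolynomial (Option σ) k) (m : ℕ) (K : Type) [Field K] [Algebra k K]
    (x : Option σ × ℕ → K) : St.CP f m 1 K x ↔ PowerSeries.X ^ (m + 1) ∣ MvPolynomial.aeval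
      (St.arc fun q => algebraMap K (AlgebraicClosure K) (x q)) f - PowerSeries.X ^ m := by
  have e : St.CP f m 1 K x ↔
      St.CP f m 1 (AlgebraicClosure K) fun q => algebraMap K (AlgebraicClosure K) (x q) := by
    rw [St.CP_iff', St.CP_iff']
    refine forall₂_congr fun p _ => ?_
    rw [← St.aeval_cf, ← St.aeval_cf, IsScalarTower.algebraMap_apply k K (AlgebraicClosure K),
      ← (algebraMap K (AlgebraicClosure K)).injective.eq_iff,
      ← MvPolynomial.aeval_algebraMap_apply (AlgebraicClosure K)]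
    rfl
  rw [e, St.CP, map_one, map_one, one_mul]

open Classical in
theorem isCl_of_mem {s : Finset (R0 σ k)} (h : s ∈ D.Reps) : D.IsCl s ∧ D.rep s = s :=
  (Finset.mem_filter.1 h).2

theorem stepA (hB : CB D) (hI : CI D) (h1 : Cover D) (h2 : Uniq D) (h3 : PcVol D) (m : ℕ) :
    PowerSeries.coeff m (zser D.f) = ∑ s ∈ D.Reps, ∑ p ∈ ix D m s, pv D m s p := by
  classical
  rw [zser, PowerSeries.coeff_mk]
  split_ifs with hm
  · subst hm
    refine (Finset.sum_eq_zero fun s hs => Finset.sum_eq_zero fun p hp => ?_).symm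
    have hd := hB.deg_pos s (isCl_of_mem hs).1
    have hp' := (mem_ix hd).1 hp
    have := r_le hd hp'
    have := hp'.1.2.1
    omega
  rw [Finset.sum_sigma']
  refine (St.hasVol_vol D.f m 1).unique ?_
  have key := hasVol_sum (D.Reps.sigma fun s => ix D m s)
    (fun a K _ _ (x : Option σ × ℕ → K) => D.Pc m a.1 a.2.1 a.2.2
      (St.arc fun q => algebraMap K (AlgebraicClosure K) (x q))) (fun a => pv D m a.1 a.2)
    (fun a ha => ?_) (fun K _ _ x a ha a' ha' hp hp' => ?_)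
  · refine key.congr fun K _ _ x => ?_
    rw [cp_bar, h1 (AlgebraicClosure K) m _ (Nat.pos_of_ne_zero hm) (St.cen_arc _)]
    constructor
    · rintro ⟨a, ha, hp⟩
      obtain ⟨h, h'⟩ := Finset.mem_sigma.1 ha
      exact ⟨a.1, h, a.2.1, a.2.2, (mem_ix (hB.deg_pos _ (isCl_of_mem h).1)).1 h', hp⟩
    · rintro ⟨s, h, κ, r, h', hp⟩
      exact ⟨⟨s, κ, r⟩, Finset.mem_sigma.2 ⟨h, (mem_ix (hB.deg_pos _ (isCl_of_mem h).1)).2 h'⟩, hp⟩
  · obtain ⟨h, h'⟩ := Finset.mem_sigma.1 ha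
    exact h3 m a.1 a.2.1 a.2.2 (isCl_of_mem h).1 ((mem_ix (hB.deg_pos _ (isCl_of_mem h).1)).1 h')
  · obtain ⟨s, κ, r⟩ := a
    obtain ⟨s', κ', r'⟩ := a'
    obtain ⟨h, i⟩ := Finset.mem_sigma.1 ha
    obtain ⟨h', i'⟩ := Finset.mem_sigma.1 ha'
    obtain ⟨c, e⟩ := isCl_of_mem h
    obtain ⟨c', e'⟩ := isCl_of_mem h'
    replace i := (mem_ix (hB.deg_pos _ c)).1 i
    replace i' := (mem_ix (hB.deg_pos _ c')).1 i'
    obtain ⟨b, θ, u, p1, p2, p3, p4, p5⟩ := hp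
    obtain ⟨b', θ', u', q1, q2, q3, q4, q5⟩ := hp'
    obtain ⟨k1, k2, -, g, k3, -⟩ := h2 (AlgebraicClosure K) (D.n * m) s s' κ κ' r r' b b' θ θ' _ u u'
      c c' i.1 i'.1 p1 q1 p2 q2
      (fun j => by simpa using dvd_sub (q3 j) (p3 j)) p4 q4
      (right_ne_zero_of_mul_eq_one p5) (right_ne_zero_of_mul_eq_one q5)
    have k4 : s = s' := by
      dsimp only at e e'
      rw [← e, k3, hI.rep_act, e']
    subst k1 k2 k4
    rfl

end VolP

theorem p_Vol (hB : S_CB) (hC : S_CC) (hI : S_CI) (h1 : S_Cover) (h2 : S_Uniq) (h3 : S_PcVol)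
    (h4 : S_Prod) (h5 : S_Scale) : S_Vol := by
  intro σ k _ _ _ _ _ D
  ext m
  rw [VolP.stepA (hB _ _ D) (hI _ _ D) (h1 _ _ D) (h2 _ _ D) (h3 _ _ D), map_sum]
  refine Finset.sum_congr rfl fun s hs => ?_
  rw [VolP.stepB (hB _ _ D) (hC _ _ D) h4 h5 (VolP.isCl_of_mem hs).1]
  split_ifs <;> simp [FF]

end

end Pool.Agent.P.MP_b91a16_ag.Qo
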